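import Pool.Agent.Trp.Defs

/-!
# Counts of patterns
-/

set_option autoImplicit false

namespace Pool.Agent.Trp

open Finset Filter Topology Pool.Agent.Bub4 Pool.Agent.SawM2 Pool.Agent.SawDiff Pool.Agent.Taw
open Pool.Agent.SawNice (pa fu)

variable {S V : Type} [Fintype S] [AddCommGroup V] {Λ K : ℝ} {ρ : List S → ℝ}

private theorem Cnt_bar_bar (Y : Sys S V) (w : List S) : bar Y (bar Y w) = w := by
  unfold bar
  rw [List.map_reverse, List.reverse_reverse, List.map_map]
  conv_rhs => rw [← List.map_id w]
  exact List.map_congr_left fun s _ => Y.neg_neg s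

private theorem Cnt_bar_len (Y : Sys S V) (w : List S) : (bar Y w).length = w.length := by
  simp [bar]

private theorem Cnt_bar_app (Y : Sys S V) (u w : List S) :
    bar Y (u ++ w) = bar Y w ++ bar Y u := by
  simp [bar]

private theorem Cnt_bar_aux (Y : Sys S V) {γ w : List S} {i : ℕ} (hi : i ≤ w.length)
    (h : γ <+: w.drop i) : i + γ.length ≤ w.length ∧
      bar Y γ <+: (bar Y w).drop (w.length - i - γ.length) := by
  obtain ⟨t, ht⟩ := h
  have h1 : w = w.take i ++ (γ ++ t) := by rw [ht, List.take_append_drop]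
  have h2 : (w.take i).length = i := by rw [List.length_take]; omega
  have h3 : w.length = i + (γ.length + t.length) := by
    have h4 := congrArg List.length h1
    rw [List.length_append, List.length_append, h2] at h4
    exact h4
  refine ⟨by omega, ?_⟩
  have h5 : bar Y w = bar Y t ++ (bar Y γ ++ bar Y (w.take i)) := by
    conv_lhs => rw [h1]
    rw [Cnt_bar_app, Cnt_bar_app, List.append_assoc]
  have h6 : w.length - i - γ.length = (bar Y t).length := by
    rw [Cnt_bar_len]; omega
  rw [h5, h6, List.drop_left]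
  exact List.prefix_append _ _

private theorem Cnt_bar (Y : Sys S V) (γ w : List S) : cnt (bar Y γ) w = cnt γ (bar Y w) := by
  classical
  unfold cnt
  refine Finset.card_nbij' (fun i => w.length - i - γ.length) (fun i => w.length - i - γ.length)
    ?_ ?_ ?_ ?_
  · intro i hi
    rw [Finset.mem_coe, Finset.mem_filter, Finset.mem_range] at hi
    have h1 := Cnt_bar_aux Y (by omega) hi.2
    rw [Cnt_bar_bar, Cnt_bar_len] at h1
    refine Finset.mem_coe.2 (Finset.mem_filter.2 ⟨Finset.mem_range.2 ?_, h1.2⟩)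
    rw [Cnt_bar_len]
    show w.length - i - γ.length < w.length + 1
    omega
  · intro i hi
    rw [Finset.mem_coe, Finset.mem_filter, Finset.mem_range, Cnt_bar_len] at hi
    have h1 := Cnt_bar_aux Y (w := bar Y w) (by rw [Cnt_bar_len]; omega) hi.2
    rw [Cnt_bar_bar, Cnt_bar_len] at h1
    refine Finset.mem_coe.2 (Finset.mem_filter.2 ⟨Finset.mem_range.2 ?_, h1.2⟩)
    show w.length - i - γ.length < w.length + 1
    omega
  · intro i hi
    rw [Finset.mem_coe, Finset.mem_filter, Finset.mem_range] at hi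
    have h1 := (Cnt_bar_aux Y (by omega) hi.2).1
    rw [Cnt_bar_len] at h1
    show w.length - (w.length - i - γ.length) - γ.length = i
    omega
  · intro i hi
    rw [Finset.mem_coe, Finset.mem_filter, Finset.mem_range, Cnt_bar_len] at hi
    have h1 := (Cnt_bar_aux Y (w := bar Y w) (by rw [Cnt_bar_len]; omega) hi.2).1
    rw [Cnt_bar_len] at h1
    show w.length - (w.length - i - γ.length) - γ.length = i
    omega

omit [Fintype S] in
private theorem Cnt_up (γ u v : List S) : cnt γ (u ++ v) ≤ cnt γ u + cnt γ v + γ.length := by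
  classical
  unfold cnt
  obtain ⟨A, hA⟩ : ∃ A : Finset ℕ, A = (range (u.length + 1)).filter fun i => γ <+: u.drop i := ⟨_, rfl⟩
  obtain ⟨B, hB⟩ : ∃ B : Finset ℕ, B = (range (v.length + 1)).filter fun i => γ <+: v.drop i := ⟨_, rfl⟩
  have h1 : ((range ((u ++ v).length + 1)).filter fun i => γ <+: (u ++ v).drop i) ⊆
      (A ∪ B.image fun i => u.length + i) ∪ Finset.Ico (u.length + 1 - γ.length) (u.length + 1) := by
    intro i hi
    rw [Finset.mem_filter, Finset.mem_range, List.length_append] at hi
    rw [Finset.mem_union, Finset.mem_union, Finset.mem_image, Finset.mem_Ico]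
    by_cases h2 : i + γ.length ≤ u.length
    · refine Or.inl (Or.inl ?_)
      rw [hA, Finset.mem_filter, Finset.mem_range]
      refine ⟨by omega, ?_⟩
      have h3 : (u ++ v).drop i = u.drop i ++ v := List.drop_append_of_le_length (by omega)
      have h4 := hi.2
      rw [h3] at h4
      exact List.prefix_of_prefix_length_le h4 (List.prefix_append _ _) (by rw [List.length_drop]; omega)
    · by_cases h3 : u.length ≤ i
      · refine Or.inl (Or.inr ⟨i - u.length, ?_, by omega⟩)
        rw [hB, Finset.mem_filter, Finset.mem_range]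
        refine ⟨by omega, ?_⟩
        have h4 : (u ++ v).drop i = v.drop (i - u.length) := by
          conv_lhs => rw [show i = u.length + (i - u.length) by omega]
          rw [List.drop_length_add_append]
        rw [← h4]
        exact hi.2
      · exact Or.inr ⟨by omega, by omega⟩
  refine (Finset.card_le_card h1).trans ?_
  refine (Finset.card_union_le _ _).trans ?_
  have h2 := Finset.card_union_le A (B.image fun i => u.length + i)
  have h3 := Finset.card_image_le (s := B) (f := fun i => u.length + i)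
  rw [Nat.card_Ico, ← hA, ← hB]
  omega

omit [Fintype S] in
private theorem Cnt_low {γ : List S} (hγ : γ ≠ []) (u v : List S) : cnt γ u + cnt γ v ≤ cnt γ (u ++ v) := by
  classical
  unfold cnt
  have hl : 0 < γ.length := List.length_pos_iff.2 hγ
  obtain ⟨A, hA⟩ : ∃ A : Finset ℕ, A = (range (u.length + 1)).filter fun i => γ <+: u.drop i := ⟨_, rfl⟩
  obtain ⟨B, hB⟩ : ∃ B : Finset ℕ, B = (range (v.length + 1)).filter fun i => γ <+: v.drop i := ⟨_, rfl⟩
  rw [← hA, ← hB]
  have hAl : ∀ i ∈ A, i < u.length := by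
    intro i hi
    rw [hA, Finset.mem_filter, Finset.mem_range] at hi
    have h1 := hi.2.length_le
    rw [List.length_drop] at h1
    omega
  have hinj : (B.image fun i => u.length + i).card = B.card :=
    Finset.card_image_of_injective _ fun a b h => Nat.add_left_cancel h
  rw [← hinj, ← Finset.card_union_of_disjoint]
  · refine Finset.card_le_card ?_
    intro i hi
    rw [Finset.mem_filter, Finset.mem_range, List.length_append]
    rw [Finset.mem_union, Finset.mem_image] at hi
    rcases hi with hi | ⟨j, hj, rfl⟩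
    · have h1 := hAl i hi
      rw [hA, Finset.mem_filter] at hi
      refine ⟨by omega, ?_⟩
      rw [List.drop_append_of_le_length (by omega)]
      exact hi.2.trans (List.prefix_append _ _)
    · rw [hB, Finset.mem_filter, Finset.mem_range] at hj
      refine ⟨by omega, ?_⟩
      rw [List.drop_length_add_append]
      exact hj.2
  · rw [Finset.disjoint_left]
    intro i hi hi'
    have h1 := hAl i hi
    rw [Finset.mem_image] at hi'
    obtain ⟨j, -, rfl⟩ := hi'
    omega

omit [Fintype S] in
private theorem Cnt_le {γ : List S} (hγ : γ ≠ []) (w : List S) : cnt γ w ≤ w.length := by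
  classical
  unfold cnt
  have hl : 0 < γ.length := List.length_pos_iff.2 hγ
  have h1 : ((range (w.length + 1)).filter fun i => γ <+: w.drop i) ⊆ range w.length := by
    intro i hi
    rw [Finset.mem_filter, Finset.mem_range] at hi
    rw [Finset.mem_range]
    have h1 := hi.2.length_le
    rw [List.length_drop] at h1
    omega
  exact (Finset.card_le_card h1).trans (by rw [Finset.card_range])

private theorem Cnt_nil (Y : Sys S V) (w : List S) : Xg Y [] w = 0 := by
  unfold Xg
  have h : bar Y ([] : List S) = [] := rfl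
  rw [h, sub_self]

private theorem Cnt_bar_ne (Y : Sys S V) {γ : List S} (h : γ ≠ []) : bar Y γ ≠ [] := by
  intro h1
  apply h
  rw [← Cnt_bar_bar Y γ, h1]
  rfl

theorem Xg_bar (Y : Sys S V) (γ w : List S) : Xg Y γ (bar Y w) = - Xg Y γ w := by
  unfold Xg
  rw [Cnt_bar, Cnt_bar_bar, ← Cnt_bar]
  ring

theorem Xg_append (Y : Sys S V) (γ u v : List S) :
    |Xg Y γ (u ++ v) - Xg Y γ u - Xg Y γ v| ≤ γ.length := by
  by_cases hγ : γ = []
  · subst hγ
    rw [Cnt_nil, Cnt_nil, Cnt_nil]
    simp
  · have h1 : ((cnt γ (u ++ v) : ℕ) : ℝ) ≤ ((cnt γ u + cnt γ v + γ.length : ℕ) : ℝ) := by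
      exact_mod_cast Cnt_up γ u v
    have h2 : ((cnt γ u + cnt γ v : ℕ) : ℝ) ≤ ((cnt γ (u ++ v) : ℕ) : ℝ) := by
      exact_mod_cast Cnt_low hγ u v
    have h3 : ((cnt (bar Y γ) (u ++ v) : ℕ) : ℝ) ≤
        ((cnt (bar Y γ) u + cnt (bar Y γ) v + (bar Y γ).length : ℕ) : ℝ) := by
      exact_mod_cast Cnt_up (bar Y γ) u v
    have h4 : ((cnt (bar Y γ) u + cnt (bar Y γ) v : ℕ) : ℝ) ≤ ((cnt (bar Y γ) (u ++ v) : ℕ) : ℝ) := by
      exact_mod_cast Cnt_low (Cnt_bar_ne Y hγ) u v
    rw [Cnt_bar_len] at h3
    push_cast at h1 h2 h3 h4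
    unfold Xg
    rw [abs_le]
    constructor <;> linarith

theorem Xg_le (Y : Sys S V) (γ w : List S) : |Xg Y γ w| ≤ w.length := by
  by_cases hγ : γ = []
  · subst hγ
    rw [Cnt_nil, abs_zero]
    exact Nat.cast_nonneg _
  · have h1 : ((cnt γ w : ℕ) : ℝ) ≤ (w.length : ℝ) := by exact_mod_cast Cnt_le hγ w
    have h2 : ((cnt (bar Y γ) w : ℕ) : ℝ) ≤ (w.length : ℝ) := by exact_mod_cast Cnt_le (Cnt_bar_ne Y hγ) w
    have h3 : (0 : ℝ) ≤ (cnt γ w : ℝ) := Nat.cast_nonneg _
    have h4 : (0 : ℝ) ≤ (cnt (bar Y γ) w : ℝ) := Nat.cast_nonneg _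
    unfold Xg
    rw [abs_le]
    constructor <;> linarith

end Pool.Agent.Trp
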