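import Pool.Agent.Trp.Defs

/-!
# The local lemma: two disjoint paths in contact admit a flip
-/

set_option autoImplicit false

namespace Pool.Agent.Trp

open Finset Filter Topology Pool.Agent.Bub4 Pool.Agent.SawM2 Pool.Agent.SawDiff Pool.Agent.Taw
open Pool.Agent.SawNice (pa fu)

/-- lattice points in a frame -/
private abbrev LocP := ℤ × ℤ × ℤ

/-- the points with coordinates in `{-1, 0, 1}` -/
private def Loc_bx (x : LocP) : Bool :=
  decide (-1 ≤ x.1 ∧ x.1 ≤ 1 ∧ -1 ≤ x.2.1 ∧ x.2.1 ≤ 1 ∧ -1 ≤ x.2.2 ∧ x.2.2 ≤ 1)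

/-- neighbours -/
private def Loc_nb (x y : LocP) : Bool :=
  decide ((x.1 - y.1).natAbs + (x.2.1 - y.2.1).natAbs + (x.2.2 - y.2.2).natAbs = 1)

private def Loc_ok (a b a2 b2 : LocP) : Bool :=
  Loc_bx a && Loc_nb a b && Loc_nb a a2 && decide (b2 = b + (a2 - a)) &&
    decide ((b.1 - a.1) * (a2.1 - a.1) + (b.2.1 - a.2.1) * (a2.2.1 - a.2.1) +
      (b.2.2 - a.2.2) * (a2.2.2 - a.2.2) = 0)

private def Loc_five (x y1 y2 y3 y4 y5 : LocP) : Bool :=
  Loc_bx x && Loc_nb x y1 && Loc_nb x y2 && Loc_nb x y3 && Loc_nb x y4 && Loc_nb x y5 &&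
    decide (List.Nodup [y1, y2, y3, y4, y5])

/-- two sets of sites with edges, all flips near the origin being blocked -/
private structure LocC (u w : LocP → Prop) (e h : LocP → LocP → Prop) : Prop where
  dis : ∀ x, u x → w x → False
  symE : ∀ x y, e x y → e y x
  symH : ∀ x y, h x y → h y x
  endE : ∀ x y, e x y → u x
  endH : ∀ x y, h x y → w x
  twoE : ∀ x y1 y2 y3 y4 y5, Loc_five x y1 y2 y3 y4 y5 = true → u x →
    e x y1 ∨ e x y2 ∨ e x y3 ∨ e x y4 ∨ e x y5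
  twoH : ∀ x y1 y2 y3 y4 y5, Loc_five x y1 y2 y3 y4 y5 = true → w x →
    h x y1 ∨ h x y2 ∨ h x y3 ∨ h x y4 ∨ h x y5
  bE1 : ∀ a b a2 b2, Loc_ok a b a2 b2 = true → u a → w b → e a a2 → u b2
  bE2 : ∀ a b a2 b2, Loc_ok a b a2 b2 = true → u a → w b → e a a2 → e a2 b2 → False
  bH1 : ∀ a b a2 b2, Loc_ok a b a2 b2 = true → u a → w b → h b b2 → w a2
  bH2 : ∀ a b a2 b2, Loc_ok a b a2 b2 = true → u a → w b → h b b2 → h b2 a2 → False

private theorem or5 {a b c d e p : Prop} (h : a ∨ b ∨ c ∨ d ∨ e) (h1 : a → p) (h2 : b → p)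
    (h3 : c → p) (h4 : d → p) (h5 : e → p) : p := by
  rcases h with h | h | h | h | h
  exacts [h1 h, h2 h, h3 h, h4 h, h5 h]

set_option maxRecDepth 4000 in
private theorem Loc_core {u w : LocP → Prop} {e h : LocP → LocP → Prop} (C : LocC u w e h)
    (p125 : u (0, 0, 0)) (p176 : w (1, 0, 0)) : False := by
  have n126 : ¬ w (0, 0, 0) := fun hh => C.dis _ p125 hh
  have n175 : ¬ u (1, 0, 0) := fun hh => C.dis _ hh p176
  have n580 : ¬ h (0, 0, 0) (1, 0, 0) := fun hh => n126 (C.endH _ _ hh)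
  have n450 : ¬ h (-1, 0, 0) (0, 0, 0) := fun hh => n126 (C.endH _ _ (C.symH _ _ hh))
  have n582 : ¬ h (0, 0, 0) (0, 1, 0) := fun hh => n126 (C.endH _ _ hh)
  have n554 : ¬ h (0, -1, 0) (0, 0, 0) := fun hh => n126 (C.endH _ _ (C.symH _ _ hh))
  have n584 : ¬ h (0, 0, 0) (0, 0, 1) := fun hh => n126 (C.endH _ _ hh)
  have n578 : ¬ h (0, 0, -1) (0, 0, 0) := fun hh => n126 (C.endH _ _ (C.symH _ _ hh))
  have n579 : ¬ e (0, 0, 0) (1, 0, 0) := fun hh => n175 (C.endE _ _ (C.symE _ _ hh))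
  have n711 : ¬ e (1, 0, 0) (1, 1, 0) := fun hh => n175 (C.endE _ _ hh)
  have n683 : ¬ e (1, -1, 0) (1, 0, 0) := fun hh => n175 (C.endE _ _ (C.symE _ _ hh))
  have n713 : ¬ e (1, 0, 0) (1, 0, 1) := fun hh => n175 (C.endE _ _ hh)
  have n707 : ¬ e (1, 0, -1) (1, 0, 0) := fun hh => n175 (C.endE _ _ (C.symE _ _ hh))
  rcases Classical.em (w (0, -1, 0)) with p116 | n116
  · have n115 : ¬ u (0, -1, 0) := fun hh => C.dis _ hh p116
    have n551 : ¬ e (0, -1, 0) (1, -1, 0) := fun hh => n115 (C.endE _ _ hh)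
    have n421 : ¬ e (-1, -1, 0) (0, -1, 0) := fun hh => n115 (C.endE _ _ (C.symE _ _ hh))
    have n553 : ¬ e (0, -1, 0) (0, 0, 0) := fun hh => n115 (C.endE _ _ hh)
    have n555 : ¬ e (0, -1, 0) (0, -1, 1) := fun hh => n115 (C.endE _ _ hh)
    have n549 : ¬ e (0, -1, -1) (0, -1, 0) := fun hh => n115 (C.endE _ _ (C.symE _ _ hh))
    rcases Classical.em (w (0, 0, -1)) with p124 | n124
    · have n123 : ¬ u (0, 0, -1) := fun hh => C.dis _ hh p124
      have n443 : ¬ e (-1, 0, -1) (0, 0, -1) := fun hh => n123 (C.endE _ _ (C.symE _ _ hh))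
      have n575 : ¬ e (0, 0, -1) (0, 1, -1) := fun hh => n123 (C.endE _ _ hh)
      have n577 : ¬ e (0, 0, -1) (0, 0, 0) := fun hh => n123 (C.endE _ _ hh)
      rcases Classical.em (e (-1, 0, 0) (0, 0, 0)) with p449 | n449
      · have p75 : u (-1, 0, 0) := C.endE _ _ p449
        have n66 : ¬ w (-1, -1, 0) := fun hh => n115 (C.bE1 (-1, 0, 0) (-1, -1, 0) (0, 0, 0) (0, -1, 0) rfl p75 hh p449)
        have n74 : ¬ w (-1, 0, -1) := fun hh => n123 (C.bE1 (-1, 0, 0) (-1, 0, -1) (0, 0, 0) (0, 0, -1) rfl p75 hh p449)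
        have p65 : u (-1, -1, 0) := C.bE1 (0, 0, 0) (0, -1, 0) (-1, 0, 0) (-1, -1, 0) rfl p125 p116 (C.symE _ _ p449)
        have n423 : ¬ e (-1, -1, 0) (-1, 0, 0) := fun hh => C.bE2 (0, 0, 0) (0, -1, 0) (-1, 0, 0) (-1, -1, 0) rfl p125 p116 (C.symE _ _ p449) (C.symE _ _ hh)
        have p73 : u (-1, 0, -1) := C.bE1 (0, 0, 0) (0, 0, -1) (-1, 0, 0) (-1, 0, -1) rfl p125 p124 (C.symE _ _ p449)
        have n447 : ¬ e (-1, 0, -1) (-1, 0, 0) := fun hh => C.bE2 (0, 0, 0) (0, 0, -1) (-1, 0, 0) (-1, 0, -1) rfl p125 p124 (C.symE _ _ p449) (C.symE _ _ hh)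
        have n76 : ¬ w (-1, 0, 0) := fun hh => C.dis _ p75 hh
        have n422 : ¬ h (-1, -1, 0) (0, -1, 0) := fun hh => n66 (C.endH _ _ hh)
        have n420 : ¬ h (-1, -1, -1) (-1, -1, 0) := fun hh => n66 (C.endH _ _ (C.symH _ _ hh))
        have n444 : ¬ h (-1, 0, -1) (0, 0, -1) := fun hh => n74 (C.endH _ _ hh)
        have n418 : ¬ h (-1, -1, -1) (-1, 0, -1) := fun hh => n74 (C.endH _ _ (C.symH _ _ hh))
        have n454 : ¬ h (-1, 0, 0) (-1, 0, 1) := fun hh => n76 (C.endH _ _ hh)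
        rcases Classical.em (w (-1, 0, 1)) with p78 | n78
        · have n77 : ¬ u (-1, 0, 1) := fun hh => C.dis _ hh p78
          have p127 : u (0, 0, 1) := C.bE1 (-1, 0, 0) (-1, 0, 1) (0, 0, 0) (0, 0, 1) rfl p75 p78 p449
          have n583 : ¬ e (0, 0, 0) (0, 0, 1) := fun hh => C.bE2 (-1, 0, 0) (-1, 0, 1) (0, 0, 0) (0, 0, 1) rfl p75 p78 p449 hh
          have n456 : ¬ h (-1, 0, 1) (0, 0, 1) := fun hh => n126 (C.bH1 (-1, 0, 0) (-1, 0, 1) (0, 0, 0) (0, 0, 1) rfl p75 p78 hh)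
          have n430 : ¬ h (-1, -1, 1) (-1, 0, 1) := fun hh => n66 (C.bH1 (-1, 0, 0) (-1, 0, 1) (-1, -1, 0) (-1, -1, 1) rfl p75 p78 (C.symH _ _ hh))
          have n455 : ¬ e (-1, 0, 1) (0, 0, 1) := fun hh => n77 (C.endE _ _ hh)
          have n457 : ¬ e (-1, 0, 1) (-1, 1, 1) := fun hh => n77 (C.endE _ _ hh)
          have n453 : ¬ e (-1, 0, 0) (-1, 0, 1) := fun hh => n77 (C.endE _ _ (C.symE _ _ hh))
          have n128 : ¬ w (0, 0, 1) := fun hh => n77 (C.bE1 (0, 0, 0) (0, 0, 1) (-1, 0, 0) (-1, 0, 1) rfl p125 hh (C.symE _ _ p449))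
          have p581 : e (0, 0, 0) (0, 1, 0) := or5 (C.twoE (0, 0, 0) (1, 0, 0) (0, 1, 0) (0, -1, 0) (0, 0, 1) (0, 0, -1) rfl p125) (fun q => absurd q n579) (fun q => q) (fun q => absurd (C.symE _ _ q) n553) (fun q => absurd q n583) (fun q => absurd (C.symE _ _ q) n577)
          have n714 : ¬ h (1, 0, 0) (1, 0, 1) := fun hh => n128 (C.bH1 (0, 0, 0) (1, 0, 0) (0, 0, 1) (1, 0, 1) rfl p125 p176 hh)
          have n556 : ¬ h (0, -1, 0) (0, -1, 1) := fun hh => n128 (C.bH1 (0, 0, 0) (0, -1, 0) (0, 0, 1) (0, -1, 1) rfl p125 p116 hh)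
          have p135 : u (0, 1, 0) := C.endE _ _ (C.symE _ _ p581)
          have n86 : ¬ w (-1, 1, 0) := fun hh => C.bE2 (-1, 0, 0) (-1, 1, 0) (0, 0, 0) (0, 1, 0) rfl p75 hh p449 p581
          have n186 : ¬ w (1, 1, 0) := fun hh => n175 (C.bE1 (0, 1, 0) (1, 1, 0) (0, 0, 0) (1, 0, 0) rfl p135 hh (C.symE _ _ p581))
          have n134 : ¬ w (0, 1, -1) := fun hh => n123 (C.bE1 (0, 1, 0) (0, 1, -1) (0, 0, 0) (0, 0, -1) rfl p135 hh (C.symE _ _ p581))
          have n458 : ¬ h (-1, 0, 1) (-1, 1, 1) := fun hh => n86 (C.bH1 (-1, 0, 0) (-1, 0, 1) (-1, 1, 0) (-1, 1, 1) rfl p75 p78 hh)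
          have n712 : ¬ h (1, 0, 0) (1, 1, 0) := fun hh => n186 (C.endH _ _ (C.symH _ _ hh))
          have n576 : ¬ h (0, 0, -1) (0, 1, -1) := fun hh => n134 (C.endH _ _ (C.symH _ _ hh))
          have p460 : h (-1, 0, 1) (-1, 0, 2) := or5 (C.twoH (-1, 0, 1) (0, 0, 1) (-1, 1, 1) (-1, -1, 1) (-1, 0, 2) (-1, 0, 0) rfl p78) (fun q => absurd q n456) (fun q => absurd q n458) (fun q => absurd (C.symH _ _ q) n430) (fun q => q) (fun q => absurd (C.symH _ _ q) n454)
          have p326 : h (-2, 0, 1) (-1, 0, 1) := or5 (C.twoH (-1, 0, 1) (0, 0, 1) (-2, 0, 1) (-1, 1, 1) (-1, -1, 1) (-1, 0, 0) rfl p78) (fun q => absurd q n456) (fun q => (C.symH _ _ q)) (fun q => absurd q n458) (fun q => absurd (C.symH _ _ q) n430) (fun q => absurd (C.symH _ _ q) n454)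
          have p80 : w (-1, 0, 2) := C.endH _ _ (C.symH _ _ p460)
          have p28 : w (-2, 0, 1) := C.endH _ _ p326
          have n79 : ¬ u (-1, 0, 2) := fun hh => C.dis _ hh p80
          have n27 : ¬ u (-2, 0, 1) := fun hh => C.dis _ hh p28
          have n589 : ¬ e (0, 0, 1) (0, 0, 2) := fun hh => n79 (C.bE1 (0, 0, 1) (-1, 0, 1) (0, 0, 2) (-1, 0, 2) rfl p127 p78 hh)
          have n319 : ¬ e (-2, 0, 0) (-1, 0, 0) := fun hh => n27 (C.bE1 (-1, 0, 0) (-1, 0, 1) (-2, 0, 0) (-2, 0, 1) rfl p75 p78 (C.symE _ _ hh))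
          have p451 : e (-1, 0, 0) (-1, 1, 0) := or5 (C.twoE (-1, 0, 0) (-2, 0, 0) (-1, 1, 0) (-1, -1, 0) (-1, 0, 1) (-1, 0, -1) rfl p75) (fun q => absurd (C.symE _ _ q) n319) (fun q => q) (fun q => absurd (C.symE _ _ q) n423) (fun q => absurd q n453) (fun q => absurd (C.symE _ _ q) n447)
          have p87 : u (-1, 1, 1) := C.bE1 (-1, 0, 0) (-1, 0, 1) (-1, 1, 0) (-1, 1, 1) rfl p75 p78 p451
          have n481 : ¬ e (-1, 1, 0) (-1, 1, 1) := fun hh => C.bE2 (-1, 0, 0) (-1, 0, 1) (-1, 1, 0) (-1, 1, 1) rfl p75 p78 p451 hh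
          have n353 : ¬ e (-2, 1, 1) (-1, 1, 1) := fun hh => n27 (C.bE1 (-1, 1, 1) (-1, 0, 1) (-2, 1, 1) (-2, 0, 1) rfl p87 p78 (C.symE _ _ hh))
          have n487 : ¬ e (-1, 1, 1) (-1, 1, 2) := fun hh => n79 (C.bE1 (-1, 1, 1) (-1, 0, 1) (-1, 1, 2) (-1, 0, 2) rfl p87 p78 hh)
          have p483 : e (-1, 1, 1) (0, 1, 1) := or5 (C.twoE (-1, 1, 1) (0, 1, 1) (-2, 1, 1) (-1, 0, 1) (-1, 1, 2) (-1, 1, 0) rfl p87) (fun q => q) (fun q => absurd (C.symE _ _ q) n353) (fun q => absurd (C.symE _ _ q) n457) (fun q => absurd q n487) (fun q => absurd (C.symE _ _ q) n481)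
          have n587 : ¬ e (0, 0, 1) (0, 1, 1) := fun hh => C.bE2 (-1, 1, 1) (-1, 0, 1) (0, 1, 1) (0, 0, 1) rfl p87 p78 p483 (C.symE _ _ hh)
          have p559 : e (0, -1, 1) (0, 0, 1) := or5 (C.twoE (0, 0, 1) (-1, 0, 1) (0, 1, 1) (0, -1, 1) (0, 0, 2) (0, 0, 0) rfl p127) (fun q => absurd (C.symE _ _ q) n455) (fun q => absurd q n587) (fun q => (C.symE _ _ q)) (fun q => absurd q n589) (fun q => absurd (C.symE _ _ q) n583)
          have p585 : e (0, 0, 1) (1, 0, 1) := or5 (C.twoE (0, 0, 1) (1, 0, 1) (-1, 0, 1) (0, 1, 1) (0, 0, 2) (0, 0, 0) rfl p127) (fun q => q) (fun q => absurd (C.symE _ _ q) n455) (fun q => absurd q n587) (fun q => absurd q n589) (fun q => absurd (C.symE _ _ q) n583)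
          have p117 : u (0, -1, 1) := C.endE _ _ p559
          have n168 : ¬ w (1, -1, 1) := fun hh => C.bE2 (0, -1, 1) (1, -1, 1) (0, 0, 1) (1, 0, 1) rfl p117 hh p559 p585
          have p177 : u (1, 0, 1) := C.endE _ _ (C.symE _ _ p585)
          have n552 : ¬ h (0, -1, 0) (1, -1, 0) := fun hh => n168 (C.bH1 (0, -1, 1) (0, -1, 0) (1, -1, 1) (1, -1, 0) rfl p117 p116 hh)
          have n684 : ¬ h (1, -1, 0) (1, 0, 0) := fun hh => n168 (C.bH1 (1, 0, 1) (1, 0, 0) (1, -1, 1) (1, -1, 0) rfl p177 p176 (C.symH _ _ hh))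
          have p550 : h (0, -1, -1) (0, -1, 0) := or5 (C.twoH (0, -1, 0) (1, -1, 0) (-1, -1, 0) (0, 0, 0) (0, -1, 1) (0, -1, -1) rfl p116) (fun q => absurd q n552) (fun q => absurd (C.symH _ _ q) n422) (fun q => absurd q n554) (fun q => absurd q n556) (fun q => (C.symH _ _ q))
          have p708 : h (1, 0, -1) (1, 0, 0) := or5 (C.twoH (1, 0, 0) (0, 0, 0) (1, 1, 0) (1, -1, 0) (1, 0, 1) (1, 0, -1) rfl p176) (fun q => absurd (C.symH _ _ q) n580) (fun q => absurd q n712) (fun q => absurd (C.symH _ _ q) n684) (fun q => absurd q n714) (fun q => (C.symH _ _ q))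
          have n548 : ¬ h (0, -1, -1) (0, 0, -1) := fun hh => C.bH2 (0, 0, 0) (0, -1, 0) (0, 0, -1) (0, -1, -1) rfl p125 p116 (C.symH _ _ p550) hh
          have n574 : ¬ h (0, 0, -1) (1, 0, -1) := fun hh => C.bH2 (0, 0, 0) (1, 0, 0) (0, 0, -1) (1, 0, -1) rfl p125 p176 (C.symH _ _ p708) (C.symH _ _ hh)
          exact or5 (C.twoH (0, 0, -1) (1, 0, -1) (-1, 0, -1) (0, 1, -1) (0, -1, -1) (0, 0, 0) rfl p124) (fun q => n574 q) (fun q => n444 (C.symH _ _ q)) (fun q => n576 q) (fun q => n548 (C.symH _ _ q)) (fun q => n578 q)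
        · have n456 : ¬ h (-1, 0, 1) (0, 0, 1) := fun hh => n78 (C.endH _ _ hh)
          rcases Classical.em (h (0, -1, 0) (0, -1, 1)) with p556 | n556
          · have p118 : w (0, -1, 1) := C.endH _ _ (C.symH _ _ p556)
            have n67 : ¬ u (-1, -1, 1) := fun hh => n66 (C.bH1 (-1, -1, 1) (0, -1, 1) (-1, -1, 0) (0, -1, 0) rfl hh p118 (C.symH _ _ p556))
            have p128 : w (0, 0, 1) := C.bH1 (0, 0, 0) (0, -1, 0) (0, 0, 1) (0, -1, 1) rfl p125 p116 p556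
            have n560 : ¬ h (0, -1, 1) (0, 0, 1) := fun hh => C.bH2 (0, 0, 0) (0, -1, 0) (0, 0, 1) (0, -1, 1) rfl p125 p116 p556 hh
            have n127 : ¬ u (0, 0, 1) := fun hh => n126 (C.bH1 (0, 0, 1) (0, -1, 1) (0, 0, 0) (0, -1, 0) rfl hh p118 (C.symH _ _ p556))
            have n429 : ¬ e (-1, -1, 1) (-1, 0, 1) := fun hh => n67 (C.endE _ _ hh)
            have p77 : u (-1, 0, 1) := C.bE1 (0, 0, 0) (0, 0, 1) (-1, 0, 0) (-1, 0, 1) rfl p125 p128 (C.symE _ _ p449)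
            have n453 : ¬ e (-1, 0, 0) (-1, 0, 1) := fun hh => C.bE2 (0, 0, 0) (0, 0, 1) (-1, 0, 0) (-1, 0, 1) rfl p125 p128 (C.symE _ _ p449) hh
            have n455 : ¬ e (-1, 0, 1) (0, 0, 1) := fun hh => n127 (C.endE _ _ (C.symE _ _ hh))
            have n587 : ¬ e (0, 0, 1) (0, 1, 1) := fun hh => n127 (C.endE _ _ hh)
            have n583 : ¬ e (0, 0, 0) (0, 0, 1) := fun hh => n127 (C.endE _ _ (C.symE _ _ hh))
            have p581 : e (0, 0, 0) (0, 1, 0) := or5 (C.twoE (0, 0, 0) (1, 0, 0) (0, 1, 0) (0, -1, 0) (0, 0, 1) (0, 0, -1) rfl p125) (fun q => absurd q n579) (fun q => q) (fun q => absurd (C.symE _ _ q) n553) (fun q => absurd q n583) (fun q => absurd (C.symE _ _ q) n577)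
            have p135 : u (0, 1, 0) := C.endE _ _ (C.symE _ _ p581)
            have p137 : u (0, 1, 1) := C.bE1 (0, 0, 0) (0, 0, 1) (0, 1, 0) (0, 1, 1) rfl p125 p128 p581
            have n611 : ¬ e (0, 1, 0) (0, 1, 1) := fun hh => C.bE2 (0, 0, 0) (0, 0, 1) (0, 1, 0) (0, 1, 1) rfl p125 p128 p581 hh
            have n138 : ¬ w (0, 1, 1) := fun hh => n127 (C.bE1 (0, 1, 0) (0, 1, 1) (0, 0, 0) (0, 0, 1) rfl p135 hh (C.symE _ _ p581))
            have n588 : ¬ h (0, 0, 1) (0, 1, 1) := fun hh => n138 (C.endH _ _ (C.symH _ _ hh))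
            have p590 : h (0, 0, 1) (0, 0, 2) := or5 (C.twoH (0, 0, 1) (-1, 0, 1) (0, 1, 1) (0, -1, 1) (0, 0, 2) (0, 0, 0) rfl p128) (fun q => absurd (C.symH _ _ q) n456) (fun q => absurd q n588) (fun q => absurd (C.symH _ _ q) n560) (fun q => q) (fun q => absurd (C.symH _ _ q) n584)
            have p586 : h (0, 0, 1) (1, 0, 1) := or5 (C.twoH (0, 0, 1) (1, 0, 1) (-1, 0, 1) (0, 1, 1) (0, -1, 1) (0, 0, 0) rfl p128) (fun q => q) (fun q => absurd (C.symH _ _ q) n456) (fun q => absurd q n588) (fun q => absurd (C.symH _ _ q) n560) (fun q => absurd (C.symH _ _ q) n584)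
            have p130 : w (0, 0, 2) := C.endH _ _ (C.symH _ _ p590)
            have p178 : w (1, 0, 1) := C.endH _ _ (C.symH _ _ p586)
            have n187 : ¬ u (1, 1, 1) := fun hh => n138 (C.bH1 (1, 1, 1) (1, 0, 1) (0, 1, 1) (0, 0, 1) rfl hh p178 (C.symH _ _ p586))
            have n129 : ¬ u (0, 0, 2) := fun hh => C.dis _ hh p130
            have n613 : ¬ e (0, 1, 1) (1, 1, 1) := fun hh => n187 (C.endE _ _ (C.symE _ _ hh))
            have n459 : ¬ e (-1, 0, 1) (-1, 0, 2) := fun hh => n129 (C.bE1 (-1, 0, 1) (0, 0, 1) (-1, 0, 2) (0, 0, 2) rfl p77 p128 hh)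
            have n617 : ¬ e (0, 1, 1) (0, 1, 2) := fun hh => n129 (C.bE1 (0, 1, 1) (0, 0, 1) (0, 1, 2) (0, 0, 2) rfl p137 p128 hh)
            have p483 : e (-1, 1, 1) (0, 1, 1) := or5 (C.twoE (0, 1, 1) (1, 1, 1) (-1, 1, 1) (0, 0, 1) (0, 1, 2) (0, 1, 0) rfl p137) (fun q => absurd q n613) (fun q => (C.symE _ _ q)) (fun q => absurd (C.symE _ _ q) n587) (fun q => absurd q n617) (fun q => absurd (C.symE _ _ q) n611)
            have p457 : e (-1, 0, 1) (-1, 1, 1) := or5 (C.twoE (-1, 0, 1) (0, 0, 1) (-1, 1, 1) (-1, -1, 1) (-1, 0, 2) (-1, 0, 0) rfl p77) (fun q => absurd q n455) (fun q => q) (fun q => absurd (C.symE _ _ q) n429) (fun q => absurd q n459) (fun q => absurd (C.symE _ _ q) n453)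
            exact C.bE2 (-1, 0, 1) (0, 0, 1) (-1, 1, 1) (0, 1, 1) rfl p77 p128 p457 p483
          · rcases Classical.em (h (0, -1, 0) (1, -1, 0)) with p552 | n552
            · have p166 : w (1, -1, 0) := C.endH _ _ (C.symH _ _ p552)
              have n684 : ¬ h (1, -1, 0) (1, 0, 0) := fun hh => C.bH2 (0, 0, 0) (1, 0, 0) (0, -1, 0) (1, -1, 0) rfl p125 p176 (C.symH _ _ hh) (C.symH _ _ p552)
              have n165 : ¬ u (1, -1, 0) := fun hh => C.dis _ hh p166
              rcases Classical.em (u (1, 1, 0)) with p185 | n185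
              · have n186 : ¬ w (1, 1, 0) := fun hh => C.dis _ p185 hh
                have n712 : ¬ h (1, 0, 0) (1, 1, 0) := fun hh => n186 (C.endH _ _ (C.symH _ _ hh))
                rcases Classical.em (h (1, 0, 0) (1, 0, 1)) with p714 | n714
                · have p178 : w (1, 0, 1) := C.endH _ _ (C.symH _ _ p714)
                  have p128 : w (0, 0, 1) := C.bH1 (0, 0, 0) (1, 0, 0) (0, 0, 1) (1, 0, 1) rfl p125 p176 p714
                  have n586 : ¬ h (0, 0, 1) (1, 0, 1) := fun hh => C.bH2 (0, 0, 0) (1, 0, 0) (0, 0, 1) (1, 0, 1) rfl p125 p176 p714 (C.symH _ _ hh)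
                  have n127 : ¬ u (0, 0, 1) := fun hh => n126 (C.bH1 (0, 0, 1) (1, 0, 1) (0, 0, 0) (1, 0, 0) rfl hh p178 (C.symH _ _ p714))
                  have n187 : ¬ u (1, 1, 1) := fun hh => n186 (C.bH1 (1, 1, 1) (1, 0, 1) (1, 1, 0) (1, 0, 0) rfl hh p178 (C.symH _ _ p714))
                  have p77 : u (-1, 0, 1) := C.bE1 (0, 0, 0) (0, 0, 1) (-1, 0, 0) (-1, 0, 1) rfl p125 p128 (C.symE _ _ p449)
                  have n453 : ¬ e (-1, 0, 0) (-1, 0, 1) := fun hh => C.bE2 (0, 0, 0) (0, 0, 1) (-1, 0, 0) (-1, 0, 1) rfl p125 p128 (C.symE _ _ p449) hh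
                  have n455 : ¬ e (-1, 0, 1) (0, 0, 1) := fun hh => n127 (C.endE _ _ (C.symE _ _ hh))
                  have n587 : ¬ e (0, 0, 1) (0, 1, 1) := fun hh => n127 (C.endE _ _ hh)
                  have n583 : ¬ e (0, 0, 0) (0, 0, 1) := fun hh => n127 (C.endE _ _ (C.symE _ _ hh))
                  have n613 : ¬ e (0, 1, 1) (1, 1, 1) := fun hh => n187 (C.endE _ _ (C.symE _ _ hh))
                  have p581 : e (0, 0, 0) (0, 1, 0) := or5 (C.twoE (0, 0, 0) (1, 0, 0) (0, 1, 0) (0, -1, 0) (0, 0, 1) (0, 0, -1) rfl p125) (fun q => absurd q n579) (fun q => q) (fun q => absurd (C.symE _ _ q) n553) (fun q => absurd q n583) (fun q => absurd (C.symE _ _ q) n577)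
                  have p135 : u (0, 1, 0) := C.endE _ _ (C.symE _ _ p581)
                  have p137 : u (0, 1, 1) := C.bE1 (0, 0, 0) (0, 0, 1) (0, 1, 0) (0, 1, 1) rfl p125 p128 p581
                  have n611 : ¬ e (0, 1, 0) (0, 1, 1) := fun hh => C.bE2 (0, 0, 0) (0, 0, 1) (0, 1, 0) (0, 1, 1) rfl p125 p128 p581 hh
                  have n138 : ¬ w (0, 1, 1) := fun hh => n127 (C.bE1 (0, 1, 0) (0, 1, 1) (0, 0, 0) (0, 0, 1) rfl p135 hh (C.symE _ _ p581))
                  have n588 : ¬ h (0, 0, 1) (0, 1, 1) := fun hh => n138 (C.endH _ _ (C.symH _ _ hh))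
                  have p590 : h (0, 0, 1) (0, 0, 2) := or5 (C.twoH (0, 0, 1) (1, 0, 1) (-1, 0, 1) (0, 1, 1) (0, 0, 2) (0, 0, 0) rfl p128) (fun q => absurd q n586) (fun q => absurd (C.symH _ _ q) n456) (fun q => absurd q n588) (fun q => q) (fun q => absurd (C.symH _ _ q) n584)
                  have p560 : h (0, -1, 1) (0, 0, 1) := or5 (C.twoH (0, 0, 1) (1, 0, 1) (-1, 0, 1) (0, 1, 1) (0, -1, 1) (0, 0, 0) rfl p128) (fun q => absurd q n586) (fun q => absurd (C.symH _ _ q) n456) (fun q => absurd q n588) (fun q => (C.symH _ _ q)) (fun q => absurd (C.symH _ _ q) n584)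
                  have p130 : w (0, 0, 2) := C.endH _ _ (C.symH _ _ p590)
                  have p118 : w (0, -1, 1) := C.endH _ _ p560
                  have n67 : ¬ u (-1, -1, 1) := fun hh => n78 (C.bH1 (-1, -1, 1) (0, -1, 1) (-1, 0, 1) (0, 0, 1) rfl hh p118 p560)
                  have n129 : ¬ u (0, 0, 2) := fun hh => C.dis _ hh p130
                  have n429 : ¬ e (-1, -1, 1) (-1, 0, 1) := fun hh => n67 (C.endE _ _ hh)
                  have n459 : ¬ e (-1, 0, 1) (-1, 0, 2) := fun hh => n129 (C.bE1 (-1, 0, 1) (0, 0, 1) (-1, 0, 2) (0, 0, 2) rfl p77 p128 hh)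
                  have n617 : ¬ e (0, 1, 1) (0, 1, 2) := fun hh => n129 (C.bE1 (0, 1, 1) (0, 0, 1) (0, 1, 2) (0, 0, 2) rfl p137 p128 hh)
                  have p457 : e (-1, 0, 1) (-1, 1, 1) := or5 (C.twoE (-1, 0, 1) (0, 0, 1) (-1, 1, 1) (-1, -1, 1) (-1, 0, 2) (-1, 0, 0) rfl p77) (fun q => absurd q n455) (fun q => q) (fun q => absurd (C.symE _ _ q) n429) (fun q => absurd q n459) (fun q => absurd (C.symE _ _ q) n453)
                  have p483 : e (-1, 1, 1) (0, 1, 1) := or5 (C.twoE (0, 1, 1) (1, 1, 1) (-1, 1, 1) (0, 0, 1) (0, 1, 2) (0, 1, 0) rfl p137) (fun q => absurd q n613) (fun q => (C.symE _ _ q)) (fun q => absurd (C.symE _ _ q) n587) (fun q => absurd q n617) (fun q => absurd (C.symE _ _ q) n611)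
                  exact C.bE2 (-1, 0, 1) (0, 0, 1) (-1, 1, 1) (0, 1, 1) rfl p77 p128 p457 p483
                · have p708 : h (1, 0, -1) (1, 0, 0) := or5 (C.twoH (1, 0, 0) (0, 0, 0) (1, 1, 0) (1, -1, 0) (1, 0, 1) (1, 0, -1) rfl p176) (fun q => absurd (C.symH _ _ q) n580) (fun q => absurd q n712) (fun q => absurd (C.symH _ _ q) n684) (fun q => absurd q n714) (fun q => (C.symH _ _ q))
                  have p710 : h (1, 0, 0) (2, 0, 0) := or5 (C.twoH (1, 0, 0) (2, 0, 0) (0, 0, 0) (1, 1, 0) (1, -1, 0) (1, 0, 1) rfl p176) (fun q => q) (fun q => absurd (C.symH _ _ q) n580) (fun q => absurd q n712) (fun q => absurd (C.symH _ _ q) n684) (fun q => absurd q n714)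
                  have p174 : w (1, 0, -1) := C.endH _ _ p708
                  have n574 : ¬ h (0, 0, -1) (1, 0, -1) := fun hh => C.bH2 (0, 0, 0) (1, 0, 0) (0, 0, -1) (1, 0, -1) rfl p125 p176 (C.symH _ _ p708) (C.symH _ _ hh)
                  have n183 : ¬ u (1, 1, -1) := fun hh => n186 (C.bH1 (1, 1, -1) (1, 0, -1) (1, 1, 0) (1, 0, 0) rfl hh p174 p708)
                  have p226 : w (2, 0, 0) := C.endH _ _ (C.symH _ _ p710)
                  have n601 : ¬ e (0, 1, -1) (1, 1, -1) := fun hh => n183 (C.endE _ _ (C.symE _ _ hh))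
                  have n735 : ¬ e (1, 1, -1) (1, 1, 0) := fun hh => n183 (C.endE _ _ hh)
                  have n225 : ¬ u (2, 0, 0) := fun hh => C.dis _ hh p226
                  have n737 : ¬ e (1, 1, 0) (2, 1, 0) := fun hh => n225 (C.bE1 (1, 1, 0) (1, 0, 0) (2, 1, 0) (2, 0, 0) rfl p185 p176 hh)
                  rcases Classical.em (w (0, 1, 0)) with p136 | n136
                  · have n135 : ¬ u (0, 1, 0) := fun hh => C.dis _ hh p136
                    have n607 : ¬ e (0, 1, 0) (1, 1, 0) := fun hh => n135 (C.endE _ _ hh)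
                    have n581 : ¬ e (0, 0, 0) (0, 1, 0) := fun hh => n135 (C.endE _ _ (C.symE _ _ hh))
                    have p741 : e (1, 1, 0) (1, 1, 1) := or5 (C.twoE (1, 1, 0) (2, 1, 0) (0, 1, 0) (1, 0, 0) (1, 1, 1) (1, 1, -1) rfl p185) (fun q => absurd q n737) (fun q => absurd (C.symE _ _ q) n607) (fun q => absurd (C.symE _ _ q) n711) (fun q => q) (fun q => absurd (C.symE _ _ q) n735)
                    have p583 : e (0, 0, 0) (0, 0, 1) := or5 (C.twoE (0, 0, 0) (1, 0, 0) (0, 1, 0) (0, -1, 0) (0, 0, 1) (0, 0, -1) rfl p125) (fun q => absurd q n579) (fun q => absurd q n581) (fun q => absurd (C.symE _ _ q) n553) (fun q => q) (fun q => absurd (C.symE _ _ q) n577)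
                    have p177 : u (1, 0, 1) := C.bE1 (1, 1, 0) (1, 0, 0) (1, 1, 1) (1, 0, 1) rfl p185 p176 p741
                    have n717 : ¬ e (1, 0, 1) (1, 1, 1) := fun hh => C.bE2 (1, 1, 0) (1, 0, 0) (1, 1, 1) (1, 0, 1) rfl p185 p176 p741 (C.symE _ _ hh)
                    have n585 : ¬ e (0, 0, 1) (1, 0, 1) := fun hh => C.bE2 (0, 0, 0) (1, 0, 0) (0, 0, 1) (1, 0, 1) rfl p125 p176 p583 hh
                    have n715 : ¬ e (1, 0, 1) (2, 0, 1) := fun hh => n225 (C.bE1 (1, 0, 1) (1, 0, 0) (2, 0, 1) (2, 0, 0) rfl p177 p176 hh)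
                    have n689 : ¬ e (1, -1, 1) (1, 0, 1) := fun hh => n165 (C.bE1 (1, 0, 1) (1, 0, 0) (1, -1, 1) (1, -1, 0) rfl p177 p176 (C.symE _ _ hh))
                    exact or5 (C.twoE (1, 0, 1) (2, 0, 1) (0, 0, 1) (1, 1, 1) (1, -1, 1) (1, 0, 0) rfl p177) (fun q => n715 q) (fun q => n585 (C.symE _ _ q)) (fun q => n717 q) (fun q => n689 (C.symE _ _ q)) (fun q => n713 (C.symE _ _ q))
                  · have n576 : ¬ h (0, 0, -1) (0, 1, -1) := fun hh => n136 (C.bH1 (0, 0, 0) (0, 0, -1) (0, 1, 0) (0, 1, -1) rfl p125 p124 hh)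
                    have p572 : h (0, 0, -2) (0, 0, -1) := or5 (C.twoH (0, 0, -1) (1, 0, -1) (-1, 0, -1) (0, 1, -1) (0, 0, 0) (0, 0, -2) rfl p124) (fun q => absurd q n574) (fun q => absurd (C.symH _ _ q) n444) (fun q => absurd q n576) (fun q => absurd q n578) (fun q => (C.symH _ _ q))
                    have p548 : h (0, -1, -1) (0, 0, -1) := or5 (C.twoH (0, 0, -1) (1, 0, -1) (-1, 0, -1) (0, 1, -1) (0, -1, -1) (0, 0, 0) rfl p124) (fun q => absurd q n574) (fun q => absurd (C.symH _ _ q) n444) (fun q => absurd q n576) (fun q => (C.symH _ _ q)) (fun q => absurd q n578)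
                    have p122 : w (0, 0, -2) := C.endH _ _ p572
                    have p114 : w (0, -1, -1) := C.endH _ _ p548
                    have n63 : ¬ u (-1, -1, -1) := fun hh => n74 (C.bH1 (-1, -1, -1) (0, -1, -1) (-1, 0, -1) (0, 0, -1) rfl hh p114 p548)
                    have n550 : ¬ h (0, -1, -1) (0, -1, 0) := fun hh => C.bH2 (0, 0, 0) (0, -1, 0) (0, 0, -1) (0, -1, -1) rfl p125 p116 (C.symH _ _ hh) p548
                    have n121 : ¬ u (0, 0, -2) := fun hh => C.dis _ hh p122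
                    have n417 : ¬ e (-1, -1, -1) (-1, 0, -1) := fun hh => n63 (C.endE _ _ hh)
                    have n419 : ¬ e (-1, -1, -1) (-1, -1, 0) := fun hh => n63 (C.endE _ _ hh)
                    have p526 : h (0, -2, 0) (0, -1, 0) := or5 (C.twoH (0, -1, 0) (-1, -1, 0) (0, 0, 0) (0, -2, 0) (0, -1, 1) (0, -1, -1) rfl p116) (fun q => absurd (C.symH _ _ q) n422) (fun q => absurd q n554) (fun q => (C.symH _ _ q)) (fun q => absurd q n556) (fun q => absurd (C.symH _ _ q) n550)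
                    have n441 : ¬ e (-1, 0, -2) (-1, 0, -1) := fun hh => n121 (C.bE1 (-1, 0, -1) (0, 0, -1) (-1, 0, -2) (0, 0, -2) rfl p73 p124 (C.symE _ _ hh))
                    have p445 : e (-1, 0, -1) (-1, 1, -1) := or5 (C.twoE (-1, 0, -1) (0, 0, -1) (-1, 1, -1) (-1, -1, -1) (-1, 0, 0) (-1, 0, -2) rfl p73) (fun q => absurd q n443) (fun q => q) (fun q => absurd (C.symE _ _ q) n417) (fun q => absurd q n447) (fun q => absurd (C.symE _ _ q) n441)
                    have p106 : w (0, -2, 0) := C.endH _ _ p526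
                    have p133 : u (0, 1, -1) := C.bE1 (-1, 0, -1) (0, 0, -1) (-1, 1, -1) (0, 1, -1) rfl p73 p124 p445
                    have n471 : ¬ e (-1, 1, -1) (0, 1, -1) := fun hh => C.bE2 (-1, 0, -1) (0, 0, -1) (-1, 1, -1) (0, 1, -1) rfl p73 p124 p445 hh
                    have n105 : ¬ u (0, -2, 0) := fun hh => C.dis _ hh p106
                    have n599 : ¬ e (0, 1, -2) (0, 1, -1) := fun hh => n121 (C.bE1 (0, 1, -1) (0, 0, -1) (0, 1, -2) (0, 0, -2) rfl p133 p124 (C.symE _ _ hh))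
                    have p605 : e (0, 1, -1) (0, 1, 0) := or5 (C.twoE (0, 1, -1) (1, 1, -1) (-1, 1, -1) (0, 0, -1) (0, 1, 0) (0, 1, -2) rfl p133) (fun q => absurd q n601) (fun q => absurd (C.symE _ _ q) n471) (fun q => absurd (C.symE _ _ q) n575) (fun q => q) (fun q => absurd (C.symE _ _ q) n599)
                    have n395 : ¬ e (-1, -2, 0) (-1, -1, 0) := fun hh => n105 (C.bE1 (-1, -1, 0) (0, -1, 0) (-1, -2, 0) (0, -2, 0) rfl p65 p116 (C.symE _ _ hh))
                    have n581 : ¬ e (0, 0, 0) (0, 1, 0) := fun hh => C.bE2 (0, 0, 0) (0, 0, -1) (0, 1, 0) (0, 1, -1) rfl p125 p124 hh (C.symE _ _ p605)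
                    have p425 : e (-1, -1, 0) (-1, -1, 1) := or5 (C.twoE (-1, -1, 0) (0, -1, 0) (-1, 0, 0) (-1, -2, 0) (-1, -1, 1) (-1, -1, -1) rfl p65) (fun q => absurd q n421) (fun q => absurd q n423) (fun q => absurd (C.symE _ _ q) n395) (fun q => q) (fun q => absurd (C.symE _ _ q) n419)
                    have p583 : e (0, 0, 0) (0, 0, 1) := or5 (C.twoE (0, 0, 0) (1, 0, 0) (0, 1, 0) (0, -1, 0) (0, 0, 1) (0, 0, -1) rfl p125) (fun q => absurd q n579) (fun q => absurd q n581) (fun q => absurd (C.symE _ _ q) n553) (fun q => q) (fun q => absurd (C.symE _ _ q) n577)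
                    have p117 : u (0, -1, 1) := C.bE1 (-1, -1, 0) (0, -1, 0) (-1, -1, 1) (0, -1, 1) rfl p65 p116 p425
                    have n427 : ¬ e (-1, -1, 1) (0, -1, 1) := fun hh => C.bE2 (-1, -1, 0) (0, -1, 0) (-1, -1, 1) (0, -1, 1) rfl p65 p116 p425 hh
                    have n559 : ¬ e (0, -1, 1) (0, 0, 1) := fun hh => C.bE2 (0, -1, 1) (0, -1, 0) (0, 0, 1) (0, 0, 0) rfl p117 p116 hh (C.symE _ _ p583)
                    have n557 : ¬ e (0, -1, 1) (1, -1, 1) := fun hh => n165 (C.bE1 (0, -1, 1) (0, -1, 0) (1, -1, 1) (1, -1, 0) rfl p117 p116 hh)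
                    have n531 : ¬ e (0, -2, 1) (0, -1, 1) := fun hh => n105 (C.bE1 (0, -1, 1) (0, -1, 0) (0, -2, 1) (0, -2, 0) rfl p117 p116 (C.symE _ _ hh))
                    exact or5 (C.twoE (0, -1, 1) (1, -1, 1) (-1, -1, 1) (0, 0, 1) (0, -2, 1) (0, -1, 0) rfl p117) (fun q => n557 q) (fun q => n427 (C.symE _ _ q)) (fun q => n559 q) (fun q => n531 (C.symE _ _ q)) (fun q => n555 (C.symE _ _ q))
              · have n581 : ¬ e (0, 0, 0) (0, 1, 0) := fun hh => n185 (C.bE1 (0, 0, 0) (1, 0, 0) (0, 1, 0) (1, 1, 0) rfl p125 p176 hh)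
                have p583 : e (0, 0, 0) (0, 0, 1) := or5 (C.twoE (0, 0, 0) (1, 0, 0) (0, 1, 0) (0, -1, 0) (0, 0, 1) (0, 0, -1) rfl p125) (fun q => absurd q n579) (fun q => absurd q n581) (fun q => absurd (C.symE _ _ q) n553) (fun q => q) (fun q => absurd (C.symE _ _ q) n577)
                have p127 : u (0, 0, 1) := C.endE _ _ (C.symE _ _ p583)
                have p177 : u (1, 0, 1) := C.bE1 (0, 0, 0) (1, 0, 0) (0, 0, 1) (1, 0, 1) rfl p125 p176 p583
                have n585 : ¬ e (0, 0, 1) (1, 0, 1) := fun hh => C.bE2 (0, 0, 0) (1, 0, 0) (0, 0, 1) (1, 0, 1) rfl p125 p176 p583 hh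
                have p117 : u (0, -1, 1) := C.bE1 (0, 0, 0) (0, -1, 0) (0, 0, 1) (0, -1, 1) rfl p125 p116 p583
                have n178 : ¬ w (1, 0, 1) := fun hh => n175 (C.bE1 (0, 0, 1) (1, 0, 1) (0, 0, 0) (1, 0, 0) rfl p127 hh (C.symE _ _ p583))
                have n118 : ¬ w (0, -1, 1) := fun hh => n115 (C.bE1 (0, 0, 1) (0, -1, 1) (0, 0, 0) (0, -1, 0) rfl p127 hh (C.symE _ _ p583))
                have n717 : ¬ e (1, 0, 1) (1, 1, 1) := fun hh => n185 (C.bE1 (1, 0, 1) (1, 0, 0) (1, 1, 1) (1, 1, 0) rfl p177 p176 hh)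
                have n689 : ¬ e (1, -1, 1) (1, 0, 1) := fun hh => n165 (C.bE1 (1, 0, 1) (1, 0, 0) (1, -1, 1) (1, -1, 0) rfl p177 p176 (C.symE _ _ hh))
                have p719 : e (1, 0, 1) (1, 0, 2) := or5 (C.twoE (1, 0, 1) (0, 0, 1) (1, 1, 1) (1, -1, 1) (1, 0, 2) (1, 0, 0) rfl p177) (fun q => absurd (C.symE _ _ q) n585) (fun q => absurd q n717) (fun q => absurd (C.symE _ _ q) n689) (fun q => q) (fun q => absurd (C.symE _ _ q) n713)
                have p715 : e (1, 0, 1) (2, 0, 1) := or5 (C.twoE (1, 0, 1) (2, 0, 1) (0, 0, 1) (1, 1, 1) (1, -1, 1) (1, 0, 0) rfl p177) (fun q => q) (fun q => absurd (C.symE _ _ q) n585) (fun q => absurd q n717) (fun q => absurd (C.symE _ _ q) n689) (fun q => absurd (C.symE _ _ q) n713)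
                have p168 : w (1, -1, 1) := C.bH1 (0, -1, 1) (0, -1, 0) (1, -1, 1) (1, -1, 0) rfl p117 p116 p552
                have n686 : ¬ h (1, -1, 0) (1, -1, 1) := fun hh => C.bH2 (0, -1, 1) (0, -1, 0) (1, -1, 1) (1, -1, 0) rfl p117 p116 p552 hh
                have n690 : ¬ h (1, -1, 1) (1, 0, 1) := fun hh => n178 (C.endH _ _ (C.symH _ _ hh))
                have n558 : ¬ h (0, -1, 1) (1, -1, 1) := fun hh => n118 (C.endH _ _ hh)
                have p179 : u (1, 0, 2) := C.endE _ _ (C.symE _ _ p719)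
                have p227 : u (2, 0, 1) := C.endE _ _ (C.symE _ _ p715)
                have n180 : ¬ w (1, 0, 2) := fun hh => C.dis _ p179 hh
                have n228 : ¬ w (2, 0, 1) := fun hh => C.dis _ p227 hh
                have n692 : ¬ h (1, -1, 1) (1, -1, 2) := fun hh => n180 (C.bH1 (1, 0, 1) (1, -1, 1) (1, 0, 2) (1, -1, 2) rfl p177 p168 hh)
                have n688 : ¬ h (1, -1, 1) (2, -1, 1) := fun hh => n228 (C.bH1 (1, 0, 1) (1, -1, 1) (2, 0, 1) (2, -1, 1) rfl p177 p168 hh)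
                exact or5 (C.twoH (1, -1, 1) (2, -1, 1) (0, -1, 1) (1, 0, 1) (1, -1, 2) (1, -1, 0) rfl p168) (fun q => n688 q) (fun q => n558 (C.symH _ _ q)) (fun q => n690 q) (fun q => n692 q) (fun q => n686 (C.symH _ _ q))
            · have p550 : h (0, -1, -1) (0, -1, 0) := or5 (C.twoH (0, -1, 0) (1, -1, 0) (-1, -1, 0) (0, 0, 0) (0, -1, 1) (0, -1, -1) rfl p116) (fun q => absurd q n552) (fun q => absurd (C.symH _ _ q) n422) (fun q => absurd q n554) (fun q => absurd q n556) (fun q => (C.symH _ _ q))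
              have p526 : h (0, -2, 0) (0, -1, 0) := or5 (C.twoH (0, -1, 0) (1, -1, 0) (-1, -1, 0) (0, 0, 0) (0, -2, 0) (0, -1, 1) rfl p116) (fun q => absurd q n552) (fun q => absurd (C.symH _ _ q) n422) (fun q => absurd q n554) (fun q => (C.symH _ _ q)) (fun q => absurd q n556)
              have p114 : w (0, -1, -1) := C.endH _ _ p550
              have n63 : ¬ u (-1, -1, -1) := fun hh => n66 (C.bH1 (-1, -1, -1) (0, -1, -1) (-1, -1, 0) (0, -1, 0) rfl hh p114 p550)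
              have p64 : w (-1, -1, -1) := C.bH1 (-1, -1, 0) (0, -1, 0) (-1, -1, -1) (0, -1, -1) rfl p65 p116 (C.symH _ _ p550)
              have n416 : ¬ h (-1, -1, -1) (0, -1, -1) := fun hh => C.bH2 (-1, -1, 0) (0, -1, 0) (-1, -1, -1) (0, -1, -1) rfl p65 p116 (C.symH _ _ p550) (C.symH _ _ hh)
              have n548 : ¬ h (0, -1, -1) (0, 0, -1) := fun hh => C.bH2 (0, 0, 0) (0, -1, 0) (0, 0, -1) (0, -1, -1) rfl p125 p116 (C.symH _ _ p550) hh
              have p106 : w (0, -2, 0) := C.endH _ _ p526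
              have n113 : ¬ u (0, -1, -1) := fun hh => C.dis _ hh p114
              have n417 : ¬ e (-1, -1, -1) (-1, 0, -1) := fun hh => n63 (C.endE _ _ hh)
              have n419 : ¬ e (-1, -1, -1) (-1, -1, 0) := fun hh => n63 (C.endE _ _ hh)
              have n105 : ¬ u (0, -2, 0) := fun hh => C.dis _ hh p106
              have n395 : ¬ e (-1, -2, 0) (-1, -1, 0) := fun hh => n105 (C.bE1 (-1, -1, 0) (0, -1, 0) (-1, -2, 0) (0, -2, 0) rfl p65 p116 (C.symE _ _ hh))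
              have p425 : e (-1, -1, 0) (-1, -1, 1) := or5 (C.twoE (-1, -1, 0) (0, -1, 0) (-1, 0, 0) (-1, -2, 0) (-1, -1, 1) (-1, -1, -1) rfl p65) (fun q => absurd q n421) (fun q => absurd q n423) (fun q => absurd (C.symE _ _ q) n395) (fun q => q) (fun q => absurd (C.symE _ _ q) n419)
              have p291 : e (-2, -1, 0) (-1, -1, 0) := or5 (C.twoE (-1, -1, 0) (0, -1, 0) (-2, -1, 0) (-1, 0, 0) (-1, -2, 0) (-1, -1, -1) rfl p65) (fun q => absurd q n421) (fun q => (C.symE _ _ q)) (fun q => absurd q n423) (fun q => absurd (C.symE _ _ q) n395) (fun q => absurd (C.symE _ _ q) n419)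
              have p117 : u (0, -1, 1) := C.bE1 (-1, -1, 0) (0, -1, 0) (-1, -1, 1) (0, -1, 1) rfl p65 p116 p425
              have n427 : ¬ e (-1, -1, 1) (0, -1, 1) := fun hh => C.bE2 (-1, -1, 0) (0, -1, 0) (-1, -1, 1) (0, -1, 1) rfl p65 p116 p425 hh
              have p15 : u (-2, -1, 0) := C.endE _ _ p291
              have n531 : ¬ e (0, -2, 1) (0, -1, 1) := fun hh => n105 (C.bE1 (0, -1, 1) (0, -1, 0) (0, -2, 1) (0, -2, 0) rfl p117 p116 (C.symE _ _ hh))
              have n16 : ¬ w (-2, -1, 0) := fun hh => C.dis _ p15 hh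
              have n286 : ¬ h (-2, -1, -1) (-1, -1, -1) := fun hh => n16 (C.bH1 (-1, -1, 0) (-1, -1, -1) (-2, -1, 0) (-2, -1, -1) rfl p65 p64 (C.symH _ _ hh))
              have p414 : h (-1, -1, -2) (-1, -1, -1) := or5 (C.twoH (-1, -1, -1) (0, -1, -1) (-2, -1, -1) (-1, 0, -1) (-1, -1, 0) (-1, -1, -2) rfl p64) (fun q => absurd q n416) (fun q => absurd (C.symH _ _ q) n286) (fun q => absurd q n418) (fun q => absurd q n420) (fun q => (C.symH _ _ q))
              have p62 : w (-1, -1, -2) := C.endH _ _ p414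
              have n61 : ¬ u (-1, -1, -2) := fun hh => C.dis _ hh p62
              have n441 : ¬ e (-1, 0, -2) (-1, 0, -1) := fun hh => n61 (C.bE1 (-1, 0, -1) (-1, -1, -1) (-1, 0, -2) (-1, -1, -2) rfl p73 p64 (C.symE _ _ hh))
              have p445 : e (-1, 0, -1) (-1, 1, -1) := or5 (C.twoE (-1, 0, -1) (0, 0, -1) (-1, 1, -1) (-1, -1, -1) (-1, 0, 0) (-1, 0, -2) rfl p73) (fun q => absurd q n443) (fun q => q) (fun q => absurd (C.symE _ _ q) n417) (fun q => absurd q n447) (fun q => absurd (C.symE _ _ q) n441)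
              have p83 : u (-1, 1, -1) := C.endE _ _ (C.symE _ _ p445)
              have p133 : u (0, 1, -1) := C.bE1 (-1, 0, -1) (0, 0, -1) (-1, 1, -1) (0, 1, -1) rfl p73 p124 p445
              have n471 : ¬ e (-1, 1, -1) (0, 1, -1) := fun hh => C.bE2 (-1, 0, -1) (0, 0, -1) (-1, 1, -1) (0, 1, -1) rfl p73 p124 p445 hh
              have n134 : ¬ w (0, 1, -1) := fun hh => n123 (C.bE1 (-1, 1, -1) (0, 1, -1) (-1, 0, -1) (0, 0, -1) rfl p83 hh (C.symE _ _ p445))
              have n576 : ¬ h (0, 0, -1) (0, 1, -1) := fun hh => n134 (C.endH _ _ (C.symH _ _ hh))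
              have p572 : h (0, 0, -2) (0, 0, -1) := or5 (C.twoH (0, 0, -1) (-1, 0, -1) (0, 1, -1) (0, -1, -1) (0, 0, 0) (0, 0, -2) rfl p124) (fun q => absurd (C.symH _ _ q) n444) (fun q => absurd q n576) (fun q => absurd (C.symH _ _ q) n548) (fun q => absurd q n578) (fun q => (C.symH _ _ q))
              have p574 : h (0, 0, -1) (1, 0, -1) := or5 (C.twoH (0, 0, -1) (1, 0, -1) (-1, 0, -1) (0, 1, -1) (0, -1, -1) (0, 0, 0) rfl p124) (fun q => q) (fun q => absurd (C.symH _ _ q) n444) (fun q => absurd q n576) (fun q => absurd (C.symH _ _ q) n548) (fun q => absurd q n578)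
              have p122 : w (0, 0, -2) := C.endH _ _ p572
              have p174 : w (1, 0, -1) := C.endH _ _ (C.symH _ _ p574)
              have n183 : ¬ u (1, 1, -1) := fun hh => n134 (C.bH1 (1, 1, -1) (1, 0, -1) (0, 1, -1) (0, 0, -1) rfl hh p174 (C.symH _ _ p574))
              have n121 : ¬ u (0, 0, -2) := fun hh => C.dis _ hh p122
              have n601 : ¬ e (0, 1, -1) (1, 1, -1) := fun hh => n183 (C.endE _ _ (C.symE _ _ hh))
              have n599 : ¬ e (0, 1, -2) (0, 1, -1) := fun hh => n121 (C.bE1 (0, 1, -1) (0, 0, -1) (0, 1, -2) (0, 0, -2) rfl p133 p124 (C.symE _ _ hh))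
              have p605 : e (0, 1, -1) (0, 1, 0) := or5 (C.twoE (0, 1, -1) (1, 1, -1) (-1, 1, -1) (0, 0, -1) (0, 1, 0) (0, 1, -2) rfl p133) (fun q => absurd q n601) (fun q => absurd (C.symE _ _ q) n471) (fun q => absurd (C.symE _ _ q) n575) (fun q => q) (fun q => absurd (C.symE _ _ q) n599)
              have n581 : ¬ e (0, 0, 0) (0, 1, 0) := fun hh => C.bE2 (0, 0, 0) (0, 0, -1) (0, 1, 0) (0, 1, -1) rfl p125 p124 hh (C.symE _ _ p605)
              have p583 : e (0, 0, 0) (0, 0, 1) := or5 (C.twoE (0, 0, 0) (1, 0, 0) (0, 1, 0) (0, -1, 0) (0, 0, 1) (0, 0, -1) rfl p125) (fun q => absurd q n579) (fun q => absurd q n581) (fun q => absurd (C.symE _ _ q) n553) (fun q => q) (fun q => absurd (C.symE _ _ q) n577)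
              have n559 : ¬ e (0, -1, 1) (0, 0, 1) := fun hh => C.bE2 (0, -1, 1) (0, -1, 0) (0, 0, 1) (0, 0, 0) rfl p117 p116 hh (C.symE _ _ p583)
              have p557 : e (0, -1, 1) (1, -1, 1) := or5 (C.twoE (0, -1, 1) (1, -1, 1) (-1, -1, 1) (0, 0, 1) (0, -2, 1) (0, -1, 0) rfl p117) (fun q => q) (fun q => absurd (C.symE _ _ q) n427) (fun q => absurd q n559) (fun q => absurd (C.symE _ _ q) n531) (fun q => absurd (C.symE _ _ q) n555)
              have p165 : u (1, -1, 0) := C.bE1 (0, -1, 1) (0, -1, 0) (1, -1, 1) (1, -1, 0) rfl p117 p116 p557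
              have n685 : ¬ e (1, -1, 0) (1, -1, 1) := fun hh => C.bE2 (0, -1, 1) (0, -1, 0) (1, -1, 1) (1, -1, 0) rfl p117 p116 p557 (C.symE _ _ hh)
              have n655 : ¬ e (1, -2, 0) (1, -1, 0) := fun hh => n105 (C.bE1 (1, -1, 0) (0, -1, 0) (1, -2, 0) (0, -2, 0) rfl p165 p116 (C.symE _ _ hh))
              have n679 : ¬ e (1, -1, -1) (1, -1, 0) := fun hh => n113 (C.bE1 (1, -1, 0) (0, -1, 0) (1, -1, -1) (0, -1, -1) rfl p165 p116 (C.symE _ _ hh))
              exact or5 (C.twoE (1, -1, 0) (0, -1, 0) (1, 0, 0) (1, -2, 0) (1, -1, 1) (1, -1, -1) rfl p165) (fun q => n551 (C.symE _ _ q)) (fun q => n683 q) (fun q => n655 (C.symE _ _ q)) (fun q => n685 q) (fun q => n679 (C.symE _ _ q))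
      · have p583 : e (0, 0, 0) (0, 0, 1) := or5 (C.twoE (0, 0, 0) (1, 0, 0) (-1, 0, 0) (0, -1, 0) (0, 0, 1) (0, 0, -1) rfl p125) (fun q => absurd q n579) (fun q => absurd (C.symE _ _ q) n449) (fun q => absurd (C.symE _ _ q) n553) (fun q => q) (fun q => absurd (C.symE _ _ q) n577)
        have p581 : e (0, 0, 0) (0, 1, 0) := or5 (C.twoE (0, 0, 0) (1, 0, 0) (-1, 0, 0) (0, 1, 0) (0, -1, 0) (0, 0, -1) rfl p125) (fun q => absurd q n579) (fun q => absurd (C.symE _ _ q) n449) (fun q => q) (fun q => absurd (C.symE _ _ q) n553) (fun q => absurd (C.symE _ _ q) n577)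
        have p127 : u (0, 0, 1) := C.endE _ _ (C.symE _ _ p583)
        have p177 : u (1, 0, 1) := C.bE1 (0, 0, 0) (1, 0, 0) (0, 0, 1) (1, 0, 1) rfl p125 p176 p583
        have n585 : ¬ e (0, 0, 1) (1, 0, 1) := fun hh => C.bE2 (0, 0, 0) (1, 0, 0) (0, 0, 1) (1, 0, 1) rfl p125 p176 p583 hh
        have p117 : u (0, -1, 1) := C.bE1 (0, 0, 0) (0, -1, 0) (0, 0, 1) (0, -1, 1) rfl p125 p116 p583
        have n559 : ¬ e (0, -1, 1) (0, 0, 1) := fun hh => C.bE2 (0, 0, 0) (0, -1, 0) (0, 0, 1) (0, -1, 1) rfl p125 p116 p583 (C.symE _ _ hh)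
        have n178 : ¬ w (1, 0, 1) := fun hh => n175 (C.bE1 (0, 0, 1) (1, 0, 1) (0, 0, 0) (1, 0, 0) rfl p127 hh (C.symE _ _ p583))
        have n118 : ¬ w (0, -1, 1) := fun hh => n115 (C.bE1 (0, 0, 1) (0, -1, 1) (0, 0, 0) (0, -1, 0) rfl p127 hh (C.symE _ _ p583))
        have p135 : u (0, 1, 0) := C.endE _ _ (C.symE _ _ p581)
        have p185 : u (1, 1, 0) := C.bE1 (0, 0, 0) (1, 0, 0) (0, 1, 0) (1, 1, 0) rfl p125 p176 p581
        have n607 : ¬ e (0, 1, 0) (1, 1, 0) := fun hh => C.bE2 (0, 0, 0) (1, 0, 0) (0, 1, 0) (1, 1, 0) rfl p125 p176 p581 hh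
        have p133 : u (0, 1, -1) := C.bE1 (0, 0, 0) (0, 0, -1) (0, 1, 0) (0, 1, -1) rfl p125 p124 p581
        have n605 : ¬ e (0, 1, -1) (0, 1, 0) := fun hh => C.bE2 (0, 0, 0) (0, 0, -1) (0, 1, 0) (0, 1, -1) rfl p125 p124 p581 (C.symE _ _ hh)
        have n186 : ¬ w (1, 1, 0) := fun hh => n175 (C.bE1 (0, 1, 0) (1, 1, 0) (0, 0, 0) (1, 0, 0) rfl p135 hh (C.symE _ _ p581))
        have n134 : ¬ w (0, 1, -1) := fun hh => n123 (C.bE1 (0, 1, 0) (0, 1, -1) (0, 0, 0) (0, 0, -1) rfl p135 hh (C.symE _ _ p581))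
        have n690 : ¬ h (1, -1, 1) (1, 0, 1) := fun hh => n178 (C.endH _ _ (C.symH _ _ hh))
        have n714 : ¬ h (1, 0, 0) (1, 0, 1) := fun hh => n178 (C.endH _ _ (C.symH _ _ hh))
        have n558 : ¬ h (0, -1, 1) (1, -1, 1) := fun hh => n118 (C.endH _ _ hh)
        have n556 : ¬ h (0, -1, 0) (0, -1, 1) := fun hh => n118 (C.endH _ _ (C.symH _ _ hh))
        have n712 : ¬ h (1, 0, 0) (1, 1, 0) := fun hh => n186 (C.endH _ _ (C.symH _ _ hh))
        have n576 : ¬ h (0, 0, -1) (0, 1, -1) := fun hh => n134 (C.endH _ _ (C.symH _ _ hh))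
        rcases Classical.em (h (1, -1, 0) (1, 0, 0)) with p684 | n684
        · have p166 : w (1, -1, 0) := C.endH _ _ p684
          have n552 : ¬ h (0, -1, 0) (1, -1, 0) := fun hh => C.bH2 (0, 0, 0) (1, 0, 0) (0, -1, 0) (1, -1, 0) rfl p125 p176 (C.symH _ _ p684) (C.symH _ _ hh)
          have n167 : ¬ u (1, -1, 1) := fun hh => n178 (C.bH1 (1, -1, 1) (1, -1, 0) (1, 0, 1) (1, 0, 0) rfl hh p166 p684)
          have p168 : w (1, -1, 1) := C.bH1 (1, 0, 1) (1, 0, 0) (1, -1, 1) (1, -1, 0) rfl p177 p176 (C.symH _ _ p684)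
          have n686 : ¬ h (1, -1, 0) (1, -1, 1) := fun hh => C.bH2 (1, 0, 1) (1, 0, 0) (1, -1, 1) (1, -1, 0) rfl p177 p176 (C.symH _ _ p684) hh
          have n557 : ¬ e (0, -1, 1) (1, -1, 1) := fun hh => n167 (C.endE _ _ (C.symE _ _ hh))
          rcases Classical.em (w (-1, -1, 1)) with p68 | n68
          · have n67 : ¬ u (-1, -1, 1) := fun hh => C.dis _ hh p68
            have n427 : ¬ e (-1, -1, 1) (0, -1, 1) := fun hh => n67 (C.endE _ _ hh)
            have p561 : e (0, -1, 1) (0, -1, 2) := or5 (C.twoE (0, -1, 1) (1, -1, 1) (-1, -1, 1) (0, 0, 1) (0, -1, 2) (0, -1, 0) rfl p117) (fun q => absurd q n557) (fun q => absurd (C.symE _ _ q) n427) (fun q => absurd q n559) (fun q => q) (fun q => absurd (C.symE _ _ q) n555)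
            have p531 : e (0, -2, 1) (0, -1, 1) := or5 (C.twoE (0, -1, 1) (1, -1, 1) (-1, -1, 1) (0, 0, 1) (0, -2, 1) (0, -1, 0) rfl p117) (fun q => absurd q n557) (fun q => absurd (C.symE _ _ q) n427) (fun q => absurd q n559) (fun q => (C.symE _ _ q)) (fun q => absurd (C.symE _ _ q) n555)
            have p119 : u (0, -1, 2) := C.endE _ _ (C.symE _ _ p561)
            have p107 : u (0, -2, 1) := C.endE _ _ p531
            have n120 : ¬ w (0, -1, 2) := fun hh => C.dis _ p119 hh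
            have n108 : ¬ w (0, -2, 1) := fun hh => C.dis _ p107 hh
            have n692 : ¬ h (1, -1, 1) (1, -1, 2) := fun hh => n120 (C.bH1 (0, -1, 1) (1, -1, 1) (0, -1, 2) (1, -1, 2) rfl p117 p168 hh)
            have n662 : ¬ h (1, -2, 1) (1, -1, 1) := fun hh => n108 (C.bH1 (0, -1, 1) (1, -1, 1) (0, -2, 1) (1, -2, 1) rfl p117 p168 (C.symH _ _ hh))
            exact or5 (C.twoH (1, -1, 1) (0, -1, 1) (1, 0, 1) (1, -2, 1) (1, -1, 2) (1, -1, 0) rfl p168) (fun q => n558 (C.symH _ _ q)) (fun q => n690 q) (fun q => n662 (C.symH _ _ q)) (fun q => n692 q) (fun q => n686 (C.symH _ _ q))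
          · have n422 : ¬ h (-1, -1, 0) (0, -1, 0) := fun hh => n68 (C.bH1 (0, -1, 1) (0, -1, 0) (-1, -1, 1) (-1, -1, 0) rfl p117 p116 (C.symH _ _ hh))
            have p550 : h (0, -1, -1) (0, -1, 0) := or5 (C.twoH (0, -1, 0) (1, -1, 0) (-1, -1, 0) (0, 0, 0) (0, -1, 1) (0, -1, -1) rfl p116) (fun q => absurd q n552) (fun q => absurd (C.symH _ _ q) n422) (fun q => absurd q n554) (fun q => absurd q n556) (fun q => (C.symH _ _ q))
            have p526 : h (0, -2, 0) (0, -1, 0) := or5 (C.twoH (0, -1, 0) (1, -1, 0) (-1, -1, 0) (0, 0, 0) (0, -2, 0) (0, -1, 1) rfl p116) (fun q => absurd q n552) (fun q => absurd (C.symH _ _ q) n422) (fun q => absurd q n554) (fun q => (C.symH _ _ q)) (fun q => absurd q n556)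
            have p114 : w (0, -1, -1) := C.endH _ _ p550
            have n548 : ¬ h (0, -1, -1) (0, 0, -1) := fun hh => C.bH2 (0, 0, 0) (0, -1, 0) (0, 0, -1) (0, -1, -1) rfl p125 p116 (C.symH _ _ p550) hh
            have p106 : w (0, -2, 0) := C.endH _ _ p526
            have n113 : ¬ u (0, -1, -1) := fun hh => C.dis _ hh p114
            have n105 : ¬ u (0, -2, 0) := fun hh => C.dis _ hh p106
            have n531 : ¬ e (0, -2, 1) (0, -1, 1) := fun hh => n105 (C.bE1 (0, -1, 1) (0, -1, 0) (0, -2, 1) (0, -2, 0) rfl p117 p116 (C.symE _ _ hh))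
            have p427 : e (-1, -1, 1) (0, -1, 1) := or5 (C.twoE (0, -1, 1) (1, -1, 1) (-1, -1, 1) (0, 0, 1) (0, -2, 1) (0, -1, 0) rfl p117) (fun q => absurd q n557) (fun q => (C.symE _ _ q)) (fun q => absurd q n559) (fun q => absurd (C.symE _ _ q) n531) (fun q => absurd (C.symE _ _ q) n555)
            have p67 : u (-1, -1, 1) := C.endE _ _ p427
            have n66 : ¬ w (-1, -1, 0) := fun hh => n115 (C.bE1 (-1, -1, 1) (-1, -1, 0) (0, -1, 1) (0, -1, 0) rfl p67 hh p427)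
            have p65 : u (-1, -1, 0) := C.bE1 (0, -1, 1) (0, -1, 0) (-1, -1, 1) (-1, -1, 0) rfl p117 p116 (C.symE _ _ p427)
            have n425 : ¬ e (-1, -1, 0) (-1, -1, 1) := fun hh => C.bE2 (0, -1, 1) (0, -1, 0) (-1, -1, 1) (-1, -1, 0) rfl p117 p116 (C.symE _ _ p427) (C.symE _ _ hh)
            have n63 : ¬ u (-1, -1, -1) := fun hh => n66 (C.bH1 (-1, -1, -1) (0, -1, -1) (-1, -1, 0) (0, -1, 0) rfl hh p114 p550)
            have n395 : ¬ e (-1, -2, 0) (-1, -1, 0) := fun hh => n105 (C.bE1 (-1, -1, 0) (0, -1, 0) (-1, -2, 0) (0, -2, 0) rfl p65 p116 (C.symE _ _ hh))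
            have n419 : ¬ e (-1, -1, -1) (-1, -1, 0) := fun hh => n113 (C.bE1 (-1, -1, 0) (0, -1, 0) (-1, -1, -1) (0, -1, -1) rfl p65 p116 (C.symE _ _ hh))
            have p64 : w (-1, -1, -1) := C.bH1 (-1, -1, 0) (0, -1, 0) (-1, -1, -1) (0, -1, -1) rfl p65 p116 (C.symH _ _ p550)
            have p423 : e (-1, -1, 0) (-1, 0, 0) := or5 (C.twoE (-1, -1, 0) (0, -1, 0) (-1, 0, 0) (-1, -2, 0) (-1, -1, 1) (-1, -1, -1) rfl p65) (fun q => absurd q n421) (fun q => q) (fun q => absurd (C.symE _ _ q) n395) (fun q => absurd q n425) (fun q => absurd (C.symE _ _ q) n419)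
            have n417 : ¬ e (-1, -1, -1) (-1, 0, -1) := fun hh => n63 (C.endE _ _ hh)
            have p73 : u (-1, 0, -1) := C.bE1 (-1, -1, 0) (-1, -1, -1) (-1, 0, 0) (-1, 0, -1) rfl p65 p64 p423
            have n447 : ¬ e (-1, 0, -1) (-1, 0, 0) := fun hh => C.bE2 (-1, -1, 0) (-1, -1, -1) (-1, 0, 0) (-1, 0, -1) rfl p65 p64 p423 (C.symE _ _ hh)
            have p75 : u (-1, 0, 0) := C.endE _ _ (C.symE _ _ p423)
            have n74 : ¬ w (-1, 0, -1) := fun hh => n63 (C.bE1 (-1, 0, 0) (-1, 0, -1) (-1, -1, 0) (-1, -1, -1) rfl p75 hh (C.symE _ _ p423))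
            have n444 : ¬ h (-1, 0, -1) (0, 0, -1) := fun hh => n74 (C.endH _ _ hh)
            have p572 : h (0, 0, -2) (0, 0, -1) := or5 (C.twoH (0, 0, -1) (-1, 0, -1) (0, 1, -1) (0, -1, -1) (0, 0, 0) (0, 0, -2) rfl p124) (fun q => absurd (C.symH _ _ q) n444) (fun q => absurd q n576) (fun q => absurd (C.symH _ _ q) n548) (fun q => absurd q n578) (fun q => (C.symH _ _ q))
            have p574 : h (0, 0, -1) (1, 0, -1) := or5 (C.twoH (0, 0, -1) (1, 0, -1) (-1, 0, -1) (0, 1, -1) (0, -1, -1) (0, 0, 0) rfl p124) (fun q => q) (fun q => absurd (C.symH _ _ q) n444) (fun q => absurd q n576) (fun q => absurd (C.symH _ _ q) n548) (fun q => absurd q n578)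
            have p122 : w (0, 0, -2) := C.endH _ _ p572
            have p174 : w (1, 0, -1) := C.endH _ _ (C.symH _ _ p574)
            have n183 : ¬ u (1, 1, -1) := fun hh => n134 (C.bH1 (1, 1, -1) (1, 0, -1) (0, 1, -1) (0, 0, -1) rfl hh p174 (C.symH _ _ p574))
            have n121 : ¬ u (0, 0, -2) := fun hh => C.dis _ hh p122
            have n601 : ¬ e (0, 1, -1) (1, 1, -1) := fun hh => n183 (C.endE _ _ (C.symE _ _ hh))
            have n441 : ¬ e (-1, 0, -2) (-1, 0, -1) := fun hh => n121 (C.bE1 (-1, 0, -1) (0, 0, -1) (-1, 0, -2) (0, 0, -2) rfl p73 p124 (C.symE _ _ hh))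
            have n599 : ¬ e (0, 1, -2) (0, 1, -1) := fun hh => n121 (C.bE1 (0, 1, -1) (0, 0, -1) (0, 1, -2) (0, 0, -2) rfl p133 p124 (C.symE _ _ hh))
            have p471 : e (-1, 1, -1) (0, 1, -1) := or5 (C.twoE (0, 1, -1) (1, 1, -1) (-1, 1, -1) (0, 0, -1) (0, 1, 0) (0, 1, -2) rfl p133) (fun q => absurd q n601) (fun q => (C.symE _ _ q)) (fun q => absurd (C.symE _ _ q) n575) (fun q => absurd q n605) (fun q => absurd (C.symE _ _ q) n599)
            have p445 : e (-1, 0, -1) (-1, 1, -1) := or5 (C.twoE (-1, 0, -1) (0, 0, -1) (-1, 1, -1) (-1, -1, -1) (-1, 0, 0) (-1, 0, -2) rfl p73) (fun q => absurd q n443) (fun q => q) (fun q => absurd (C.symE _ _ q) n417) (fun q => absurd q n447) (fun q => absurd (C.symE _ _ q) n441)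
            exact C.bE2 (-1, 0, -1) (0, 0, -1) (-1, 1, -1) (0, 1, -1) rfl p73 p124 p445 p471
        · have p708 : h (1, 0, -1) (1, 0, 0) := or5 (C.twoH (1, 0, 0) (0, 0, 0) (1, 1, 0) (1, -1, 0) (1, 0, 1) (1, 0, -1) rfl p176) (fun q => absurd (C.symH _ _ q) n580) (fun q => absurd q n712) (fun q => absurd (C.symH _ _ q) n684) (fun q => absurd q n714) (fun q => (C.symH _ _ q))
          have p710 : h (1, 0, 0) (2, 0, 0) := or5 (C.twoH (1, 0, 0) (2, 0, 0) (0, 0, 0) (1, 1, 0) (1, -1, 0) (1, 0, 1) rfl p176) (fun q => q) (fun q => absurd (C.symH _ _ q) n580) (fun q => absurd q n712) (fun q => absurd (C.symH _ _ q) n684) (fun q => absurd q n714)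
          have p174 : w (1, 0, -1) := C.endH _ _ p708
          have n183 : ¬ u (1, 1, -1) := fun hh => n186 (C.bH1 (1, 1, -1) (1, 0, -1) (1, 1, 0) (1, 0, 0) rfl hh p174 p708)
          have p226 : w (2, 0, 0) := C.endH _ _ (C.symH _ _ p710)
          have n173 : ¬ u (1, 0, -1) := fun hh => C.dis _ hh p174
          have n735 : ¬ e (1, 1, -1) (1, 1, 0) := fun hh => n183 (C.endE _ _ hh)
          have n225 : ¬ u (2, 0, 0) := fun hh => C.dis _ hh p226
          have n715 : ¬ e (1, 0, 1) (2, 0, 1) := fun hh => n225 (C.bE1 (1, 0, 1) (1, 0, 0) (2, 0, 1) (2, 0, 0) rfl p177 p176 hh)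
          have n737 : ¬ e (1, 1, 0) (2, 1, 0) := fun hh => n225 (C.bE1 (1, 1, 0) (1, 0, 0) (2, 1, 0) (2, 0, 0) rfl p185 p176 hh)
          have p741 : e (1, 1, 0) (1, 1, 1) := or5 (C.twoE (1, 1, 0) (2, 1, 0) (0, 1, 0) (1, 0, 0) (1, 1, 1) (1, 1, -1) rfl p185) (fun q => absurd q n737) (fun q => absurd (C.symE _ _ q) n607) (fun q => absurd (C.symE _ _ q) n711) (fun q => q) (fun q => absurd (C.symE _ _ q) n735)
          have n717 : ¬ e (1, 0, 1) (1, 1, 1) := fun hh => C.bE2 (1, 0, 1) (1, 0, 0) (1, 1, 1) (1, 1, 0) rfl p177 p176 hh (C.symE _ _ p741)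
          have p689 : e (1, -1, 1) (1, 0, 1) := or5 (C.twoE (1, 0, 1) (2, 0, 1) (0, 0, 1) (1, 1, 1) (1, -1, 1) (1, 0, 0) rfl p177) (fun q => absurd q n715) (fun q => absurd (C.symE _ _ q) n585) (fun q => absurd q n717) (fun q => (C.symE _ _ q)) (fun q => absurd (C.symE _ _ q) n713)
          have p165 : u (1, -1, 0) := C.bE1 (1, 0, 1) (1, 0, 0) (1, -1, 1) (1, -1, 0) rfl p177 p176 (C.symE _ _ p689)
          have n685 : ¬ e (1, -1, 0) (1, -1, 1) := fun hh => C.bE2 (1, 0, 1) (1, 0, 0) (1, -1, 1) (1, -1, 0) rfl p177 p176 (C.symE _ _ p689) (C.symE _ _ hh)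
          have n681 : ¬ e (1, -1, 0) (2, -1, 0) := fun hh => n225 (C.bE1 (1, -1, 0) (1, 0, 0) (2, -1, 0) (2, 0, 0) rfl p165 p176 hh)
          have n679 : ¬ e (1, -1, -1) (1, -1, 0) := fun hh => n173 (C.bE1 (1, -1, 0) (1, 0, 0) (1, -1, -1) (1, 0, -1) rfl p165 p176 (C.symE _ _ hh))
          exact or5 (C.twoE (1, -1, 0) (2, -1, 0) (0, -1, 0) (1, 0, 0) (1, -1, 1) (1, -1, -1) rfl p165) (fun q => n681 q) (fun q => n551 (C.symE _ _ q)) (fun q => n683 q) (fun q => n685 q) (fun q => n679 (C.symE _ _ q))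
    · have n708 : ¬ h (1, 0, -1) (1, 0, 0) := fun hh => n124 (C.bH1 (0, 0, 0) (1, 0, 0) (0, 0, -1) (1, 0, -1) rfl p125 p176 (C.symH _ _ hh))
      have n550 : ¬ h (0, -1, -1) (0, -1, 0) := fun hh => n124 (C.bH1 (0, 0, 0) (0, -1, 0) (0, 0, -1) (0, -1, -1) rfl p125 p116 (C.symH _ _ hh))
      rcases Classical.em (w (0, 0, 1)) with p128 | n128
      · have n127 : ¬ u (0, 0, 1) := fun hh => C.dis _ hh p128
        have n455 : ¬ e (-1, 0, 1) (0, 0, 1) := fun hh => n127 (C.endE _ _ (C.symE _ _ hh))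
        have n587 : ¬ e (0, 0, 1) (0, 1, 1) := fun hh => n127 (C.endE _ _ hh)
        have n583 : ¬ e (0, 0, 0) (0, 0, 1) := fun hh => n127 (C.endE _ _ (C.symE _ _ hh))
        rcases Classical.em (e (-1, 0, 0) (0, 0, 0)) with p449 | n449
        · have p75 : u (-1, 0, 0) := C.endE _ _ p449
          have n66 : ¬ w (-1, -1, 0) := fun hh => n115 (C.bE1 (-1, 0, 0) (-1, -1, 0) (0, 0, 0) (0, -1, 0) rfl p75 hh p449)
          have n78 : ¬ w (-1, 0, 1) := fun hh => n127 (C.bE1 (-1, 0, 0) (-1, 0, 1) (0, 0, 0) (0, 0, 1) rfl p75 hh p449)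
          have p65 : u (-1, -1, 0) := C.bE1 (0, 0, 0) (0, -1, 0) (-1, 0, 0) (-1, -1, 0) rfl p125 p116 (C.symE _ _ p449)
          have n423 : ¬ e (-1, -1, 0) (-1, 0, 0) := fun hh => C.bE2 (0, 0, 0) (0, -1, 0) (-1, 0, 0) (-1, -1, 0) rfl p125 p116 (C.symE _ _ p449) (C.symE _ _ hh)
          have p77 : u (-1, 0, 1) := C.bE1 (0, 0, 0) (0, 0, 1) (-1, 0, 0) (-1, 0, 1) rfl p125 p128 (C.symE _ _ p449)
          have n453 : ¬ e (-1, 0, 0) (-1, 0, 1) := fun hh => C.bE2 (0, 0, 0) (0, 0, 1) (-1, 0, 0) (-1, 0, 1) rfl p125 p128 (C.symE _ _ p449) hh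
          have n76 : ¬ w (-1, 0, 0) := fun hh => C.dis _ p75 hh
          have n422 : ¬ h (-1, -1, 0) (0, -1, 0) := fun hh => n66 (C.endH _ _ hh)
          have n426 : ¬ h (-1, -1, 0) (-1, -1, 1) := fun hh => n66 (C.endH _ _ hh)
          have n456 : ¬ h (-1, 0, 1) (0, 0, 1) := fun hh => n78 (C.endH _ _ hh)
          have n430 : ¬ h (-1, -1, 1) (-1, 0, 1) := fun hh => n78 (C.endH _ _ (C.symH _ _ hh))
          rcases Classical.em (h (0, -1, 0) (1, -1, 0)) with p552 | n552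
          · have p166 : w (1, -1, 0) := C.endH _ _ (C.symH _ _ p552)
            have n684 : ¬ h (1, -1, 0) (1, 0, 0) := fun hh => C.bH2 (0, 0, 0) (1, 0, 0) (0, -1, 0) (1, -1, 0) rfl p125 p176 (C.symH _ _ hh) (C.symH _ _ p552)
            have n165 : ¬ u (1, -1, 0) := fun hh => C.dis _ hh p166
            rcases Classical.em (w (0, 1, 0)) with p136 | n136
            · have n135 : ¬ u (0, 1, 0) := fun hh => C.dis _ hh p136
              have n478 : ¬ h (-1, 1, 0) (0, 1, 0) := fun hh => n76 (C.bH1 (0, 0, 0) (0, 1, 0) (-1, 0, 0) (-1, 1, 0) rfl p125 p136 (C.symH _ _ hh))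
              have n606 : ¬ h (0, 1, -1) (0, 1, 0) := fun hh => n124 (C.bH1 (0, 0, 0) (0, 1, 0) (0, 0, -1) (0, 1, -1) rfl p125 p136 (C.symH _ _ hh))
              have n607 : ¬ e (0, 1, 0) (1, 1, 0) := fun hh => n135 (C.endE _ _ hh)
              have n581 : ¬ e (0, 0, 0) (0, 1, 0) := fun hh => n135 (C.endE _ _ (C.symE _ _ hh))
              have p577 : e (0, 0, -1) (0, 0, 0) := or5 (C.twoE (0, 0, 0) (1, 0, 0) (0, 1, 0) (0, -1, 0) (0, 0, 1) (0, 0, -1) rfl p125) (fun q => absurd q n579) (fun q => absurd q n581) (fun q => absurd (C.symE _ _ q) n553) (fun q => absurd q n583) (fun q => (C.symE _ _ q))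
              have p123 : u (0, 0, -1) := C.endE _ _ p577
              have n174 : ¬ w (1, 0, -1) := fun hh => n175 (C.bE1 (0, 0, -1) (1, 0, -1) (0, 0, 0) (1, 0, 0) rfl p123 hh p577)
              have n114 : ¬ w (0, -1, -1) := fun hh => n115 (C.bE1 (0, 0, -1) (0, -1, -1) (0, 0, 0) (0, -1, 0) rfl p123 hh p577)
              have p173 : u (1, 0, -1) := C.bE1 (0, 0, 0) (1, 0, 0) (0, 0, -1) (1, 0, -1) rfl p125 p176 (C.symE _ _ p577)
              have n573 : ¬ e (0, 0, -1) (1, 0, -1) := fun hh => C.bE2 (0, 0, 0) (1, 0, 0) (0, 0, -1) (1, 0, -1) rfl p125 p176 (C.symE _ _ p577) hh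
              have p113 : u (0, -1, -1) := C.bE1 (0, 0, 0) (0, -1, 0) (0, 0, -1) (0, -1, -1) rfl p125 p116 (C.symE _ _ p577)
              have n678 : ¬ h (1, -1, -1) (1, 0, -1) := fun hh => n174 (C.endH _ _ (C.symH _ _ hh))
              have n546 : ¬ h (0, -1, -1) (1, -1, -1) := fun hh => n114 (C.endH _ _ hh)
              have n677 : ¬ e (1, -1, -1) (1, 0, -1) := fun hh => n165 (C.bE1 (1, 0, -1) (1, 0, 0) (1, -1, -1) (1, -1, 0) rfl p173 p176 (C.symE _ _ hh))
              have p164 : w (1, -1, -1) := C.bH1 (0, -1, -1) (0, -1, 0) (1, -1, -1) (1, -1, 0) rfl p113 p116 p552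
              have n680 : ¬ h (1, -1, -1) (1, -1, 0) := fun hh => C.bH2 (0, -1, -1) (0, -1, 0) (1, -1, -1) (1, -1, 0) rfl p113 p116 p552 (C.symH _ _ hh)
              rcases Classical.em (u (1, 1, 0)) with p185 | n185
              · have n186 : ¬ w (1, 1, 0) := fun hh => C.dis _ p185 hh
                have n608 : ¬ h (0, 1, 0) (1, 1, 0) := fun hh => n186 (C.endH _ _ (C.symH _ _ hh))
                have n712 : ¬ h (1, 0, 0) (1, 1, 0) := fun hh => n186 (C.endH _ _ (C.symH _ _ hh))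
                have p612 : h (0, 1, 0) (0, 1, 1) := or5 (C.twoH (0, 1, 0) (1, 1, 0) (-1, 1, 0) (0, 0, 0) (0, 1, 1) (0, 1, -1) rfl p136) (fun q => absurd q n608) (fun q => absurd (C.symH _ _ q) n478) (fun q => absurd (C.symH _ _ q) n582) (fun q => q) (fun q => absurd (C.symH _ _ q) n606)
                have p610 : h (0, 1, 0) (0, 2, 0) := or5 (C.twoH (0, 1, 0) (1, 1, 0) (-1, 1, 0) (0, 2, 0) (0, 0, 0) (0, 1, -1) rfl p136) (fun q => absurd q n608) (fun q => absurd (C.symH _ _ q) n478) (fun q => q) (fun q => absurd (C.symH _ _ q) n582) (fun q => absurd (C.symH _ _ q) n606)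
                have p710 : h (1, 0, 0) (2, 0, 0) := or5 (C.twoH (1, 0, 0) (2, 0, 0) (0, 0, 0) (1, 1, 0) (1, -1, 0) (1, 0, -1) rfl p176) (fun q => q) (fun q => absurd (C.symH _ _ q) n580) (fun q => absurd q n712) (fun q => absurd (C.symH _ _ q) n684) (fun q => absurd (C.symH _ _ q) n708)
                have p138 : w (0, 1, 1) := C.endH _ _ (C.symH _ _ p612)
                have n187 : ¬ u (1, 1, 1) := fun hh => n186 (C.bH1 (1, 1, 1) (0, 1, 1) (1, 1, 0) (0, 1, 0) rfl hh p138 (C.symH _ _ p612))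
                have p146 : w (0, 2, 0) := C.endH _ _ (C.symH _ _ p610)
                have p226 : w (2, 0, 0) := C.endH _ _ (C.symH _ _ p710)
                have n741 : ¬ e (1, 1, 0) (1, 1, 1) := fun hh => n187 (C.endE _ _ (C.symE _ _ hh))
                have n145 : ¬ u (0, 2, 0) := fun hh => C.dis _ hh p146
                have n225 : ¬ u (2, 0, 0) := fun hh => C.dis _ hh p226
                have n739 : ¬ e (1, 1, 0) (1, 2, 0) := fun hh => n145 (C.bE1 (1, 1, 0) (0, 1, 0) (1, 2, 0) (0, 2, 0) rfl p185 p136 hh)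
                have n737 : ¬ e (1, 1, 0) (2, 1, 0) := fun hh => n225 (C.bE1 (1, 1, 0) (1, 0, 0) (2, 1, 0) (2, 0, 0) rfl p185 p176 hh)
                exact or5 (C.twoE (1, 1, 0) (2, 1, 0) (0, 1, 0) (1, 2, 0) (1, 0, 0) (1, 1, 1) rfl p185) (fun q => n737 q) (fun q => n607 (C.symE _ _ q)) (fun q => n739 q) (fun q => n711 (C.symE _ _ q)) (fun q => n741 q)
              · have n705 : ¬ e (1, 0, -1) (1, 1, -1) := fun hh => n185 (C.bE1 (1, 0, -1) (1, 0, 0) (1, 1, -1) (1, 1, 0) rfl p173 p176 hh)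
                have p701 : e (1, 0, -2) (1, 0, -1) := or5 (C.twoE (1, 0, -1) (0, 0, -1) (1, 1, -1) (1, -1, -1) (1, 0, 0) (1, 0, -2) rfl p173) (fun q => absurd (C.symE _ _ q) n573) (fun q => absurd q n705) (fun q => absurd (C.symE _ _ q) n677) (fun q => absurd q n707) (fun q => (C.symE _ _ q))
                have p703 : e (1, 0, -1) (2, 0, -1) := or5 (C.twoE (1, 0, -1) (2, 0, -1) (0, 0, -1) (1, 1, -1) (1, -1, -1) (1, 0, 0) rfl p173) (fun q => q) (fun q => absurd (C.symE _ _ q) n573) (fun q => absurd q n705) (fun q => absurd (C.symE _ _ q) n677) (fun q => absurd q n707)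
                have p171 : u (1, 0, -2) := C.endE _ _ p701
                have p223 : u (2, 0, -1) := C.endE _ _ (C.symE _ _ p703)
                have n172 : ¬ w (1, 0, -2) := fun hh => C.dis _ p171 hh
                have n224 : ¬ w (2, 0, -1) := fun hh => C.dis _ p223 hh
                have n674 : ¬ h (1, -1, -2) (1, -1, -1) := fun hh => n172 (C.bH1 (1, 0, -1) (1, -1, -1) (1, 0, -2) (1, -1, -2) rfl p173 p164 (C.symH _ _ hh))
                have n676 : ¬ h (1, -1, -1) (2, -1, -1) := fun hh => n224 (C.bH1 (1, 0, -1) (1, -1, -1) (2, 0, -1) (2, -1, -1) rfl p173 p164 hh)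
                exact or5 (C.twoH (1, -1, -1) (2, -1, -1) (0, -1, -1) (1, 0, -1) (1, -1, 0) (1, -1, -2) rfl p164) (fun q => n676 q) (fun q => n546 (C.symH _ _ q)) (fun q => n678 q) (fun q => n680 q) (fun q => n674 (C.symH _ _ q))
            · have n712 : ¬ h (1, 0, 0) (1, 1, 0) := fun hh => n136 (C.bH1 (0, 0, 0) (1, 0, 0) (0, 1, 0) (1, 1, 0) rfl p125 p176 hh)
              have n588 : ¬ h (0, 0, 1) (0, 1, 1) := fun hh => n136 (C.bH1 (0, 0, 0) (0, 0, 1) (0, 1, 0) (0, 1, 1) rfl p125 p128 hh)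
              have p714 : h (1, 0, 0) (1, 0, 1) := or5 (C.twoH (1, 0, 0) (0, 0, 0) (1, 1, 0) (1, -1, 0) (1, 0, 1) (1, 0, -1) rfl p176) (fun q => absurd (C.symH _ _ q) n580) (fun q => absurd q n712) (fun q => absurd (C.symH _ _ q) n684) (fun q => q) (fun q => absurd (C.symH _ _ q) n708)
              have p178 : w (1, 0, 1) := C.endH _ _ (C.symH _ _ p714)
              have n586 : ¬ h (0, 0, 1) (1, 0, 1) := fun hh => C.bH2 (0, 0, 0) (1, 0, 0) (0, 0, 1) (1, 0, 1) rfl p125 p176 p714 (C.symH _ _ hh)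
              have n177 : ¬ u (1, 0, 1) := fun hh => C.dis _ hh p178
              have p590 : h (0, 0, 1) (0, 0, 2) := or5 (C.twoH (0, 0, 1) (1, 0, 1) (-1, 0, 1) (0, 1, 1) (0, 0, 2) (0, 0, 0) rfl p128) (fun q => absurd q n586) (fun q => absurd (C.symH _ _ q) n456) (fun q => absurd q n588) (fun q => q) (fun q => absurd (C.symH _ _ q) n584)
              have p560 : h (0, -1, 1) (0, 0, 1) := or5 (C.twoH (0, 0, 1) (1, 0, 1) (-1, 0, 1) (0, 1, 1) (0, -1, 1) (0, 0, 0) rfl p128) (fun q => absurd q n586) (fun q => absurd (C.symH _ _ q) n456) (fun q => absurd q n588) (fun q => (C.symH _ _ q)) (fun q => absurd (C.symH _ _ q) n584)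
              have p130 : w (0, 0, 2) := C.endH _ _ (C.symH _ _ p590)
              have p118 : w (0, -1, 1) := C.endH _ _ p560
              have n67 : ¬ u (-1, -1, 1) := fun hh => n78 (C.bH1 (-1, -1, 1) (0, -1, 1) (-1, 0, 1) (0, 0, 1) rfl hh p118 p560)
              have n556 : ¬ h (0, -1, 0) (0, -1, 1) := fun hh => C.bH2 (0, 0, 0) (0, -1, 0) (0, 0, 1) (0, -1, 1) rfl p125 p116 hh p560
              have n129 : ¬ u (0, 0, 2) := fun hh => C.dis _ hh p130
              have n429 : ¬ e (-1, -1, 1) (-1, 0, 1) := fun hh => n67 (C.endE _ _ hh)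
              have n425 : ¬ e (-1, -1, 0) (-1, -1, 1) := fun hh => n67 (C.endE _ _ (C.symE _ _ hh))
              have p526 : h (0, -2, 0) (0, -1, 0) := or5 (C.twoH (0, -1, 0) (-1, -1, 0) (0, 0, 0) (0, -2, 0) (0, -1, 1) (0, -1, -1) rfl p116) (fun q => absurd (C.symH _ _ q) n422) (fun q => absurd q n554) (fun q => (C.symH _ _ q)) (fun q => absurd q n556) (fun q => absurd (C.symH _ _ q) n550)
              have n459 : ¬ e (-1, 0, 1) (-1, 0, 2) := fun hh => n129 (C.bE1 (-1, 0, 1) (0, 0, 1) (-1, 0, 2) (0, 0, 2) rfl p77 p128 hh)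
              have p457 : e (-1, 0, 1) (-1, 1, 1) := or5 (C.twoE (-1, 0, 1) (0, 0, 1) (-1, 1, 1) (-1, -1, 1) (-1, 0, 2) (-1, 0, 0) rfl p77) (fun q => absurd q n455) (fun q => q) (fun q => absurd (C.symE _ _ q) n429) (fun q => absurd q n459) (fun q => absurd (C.symE _ _ q) n453)
              have p106 : w (0, -2, 0) := C.endH _ _ p526
              have p137 : u (0, 1, 1) := C.bE1 (-1, 0, 1) (0, 0, 1) (-1, 1, 1) (0, 1, 1) rfl p77 p128 p457
              have n483 : ¬ e (-1, 1, 1) (0, 1, 1) := fun hh => C.bE2 (-1, 0, 1) (0, 0, 1) (-1, 1, 1) (0, 1, 1) rfl p77 p128 p457 hh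
              have n105 : ¬ u (0, -2, 0) := fun hh => C.dis _ hh p106
              have n613 : ¬ e (0, 1, 1) (1, 1, 1) := fun hh => n177 (C.bE1 (0, 1, 1) (0, 0, 1) (1, 1, 1) (1, 0, 1) rfl p137 p128 hh)
              have n617 : ¬ e (0, 1, 1) (0, 1, 2) := fun hh => n129 (C.bE1 (0, 1, 1) (0, 0, 1) (0, 1, 2) (0, 0, 2) rfl p137 p128 hh)
              have p611 : e (0, 1, 0) (0, 1, 1) := or5 (C.twoE (0, 1, 1) (1, 1, 1) (-1, 1, 1) (0, 0, 1) (0, 1, 2) (0, 1, 0) rfl p137) (fun q => absurd q n613) (fun q => absurd (C.symE _ _ q) n483) (fun q => absurd (C.symE _ _ q) n587) (fun q => absurd q n617) (fun q => (C.symE _ _ q))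
              have n395 : ¬ e (-1, -2, 0) (-1, -1, 0) := fun hh => n105 (C.bE1 (-1, -1, 0) (0, -1, 0) (-1, -2, 0) (0, -2, 0) rfl p65 p116 (C.symE _ _ hh))
              have n581 : ¬ e (0, 0, 0) (0, 1, 0) := fun hh => C.bE2 (0, 0, 0) (0, 0, 1) (0, 1, 0) (0, 1, 1) rfl p125 p128 hh p611
              have p419 : e (-1, -1, -1) (-1, -1, 0) := or5 (C.twoE (-1, -1, 0) (0, -1, 0) (-1, 0, 0) (-1, -2, 0) (-1, -1, 1) (-1, -1, -1) rfl p65) (fun q => absurd q n421) (fun q => absurd q n423) (fun q => absurd (C.symE _ _ q) n395) (fun q => absurd q n425) (fun q => (C.symE _ _ q))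
              have p577 : e (0, 0, -1) (0, 0, 0) := or5 (C.twoE (0, 0, 0) (1, 0, 0) (0, 1, 0) (0, -1, 0) (0, 0, 1) (0, 0, -1) rfl p125) (fun q => absurd q n579) (fun q => absurd q n581) (fun q => absurd (C.symE _ _ q) n553) (fun q => absurd q n583) (fun q => (C.symE _ _ q))
              have p113 : u (0, -1, -1) := C.bE1 (-1, -1, 0) (0, -1, 0) (-1, -1, -1) (0, -1, -1) rfl p65 p116 (C.symE _ _ p419)
              have n415 : ¬ e (-1, -1, -1) (0, -1, -1) := fun hh => C.bE2 (-1, -1, 0) (0, -1, 0) (-1, -1, -1) (0, -1, -1) rfl p65 p116 (C.symE _ _ p419) hh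
              have n547 : ¬ e (0, -1, -1) (0, 0, -1) := fun hh => C.bE2 (0, -1, -1) (0, -1, 0) (0, 0, -1) (0, 0, 0) rfl p113 p116 hh p577
              have n545 : ¬ e (0, -1, -1) (1, -1, -1) := fun hh => n165 (C.bE1 (0, -1, -1) (0, -1, 0) (1, -1, -1) (1, -1, 0) rfl p113 p116 hh)
              have n519 : ¬ e (0, -2, -1) (0, -1, -1) := fun hh => n105 (C.bE1 (0, -1, -1) (0, -1, 0) (0, -2, -1) (0, -2, 0) rfl p113 p116 (C.symE _ _ hh))
              exact or5 (C.twoE (0, -1, -1) (1, -1, -1) (-1, -1, -1) (0, 0, -1) (0, -2, -1) (0, -1, 0) rfl p113) (fun q => n545 q) (fun q => n415 (C.symE _ _ q)) (fun q => n547 q) (fun q => n519 (C.symE _ _ q)) (fun q => n549 q)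
          · have p556 : h (0, -1, 0) (0, -1, 1) := or5 (C.twoH (0, -1, 0) (1, -1, 0) (-1, -1, 0) (0, 0, 0) (0, -1, 1) (0, -1, -1) rfl p116) (fun q => absurd q n552) (fun q => absurd (C.symH _ _ q) n422) (fun q => absurd q n554) (fun q => q) (fun q => absurd (C.symH _ _ q) n550)
            have p526 : h (0, -2, 0) (0, -1, 0) := or5 (C.twoH (0, -1, 0) (1, -1, 0) (-1, -1, 0) (0, 0, 0) (0, -2, 0) (0, -1, -1) rfl p116) (fun q => absurd q n552) (fun q => absurd (C.symH _ _ q) n422) (fun q => absurd q n554) (fun q => (C.symH _ _ q)) (fun q => absurd (C.symH _ _ q) n550)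
            have p118 : w (0, -1, 1) := C.endH _ _ (C.symH _ _ p556)
            have p68 : w (-1, -1, 1) := C.bH1 (-1, -1, 0) (0, -1, 0) (-1, -1, 1) (0, -1, 1) rfl p65 p116 p556
            have n428 : ¬ h (-1, -1, 1) (0, -1, 1) := fun hh => C.bH2 (-1, -1, 0) (0, -1, 0) (-1, -1, 1) (0, -1, 1) rfl p65 p116 p556 (C.symH _ _ hh)
            have n67 : ¬ u (-1, -1, 1) := fun hh => n66 (C.bH1 (-1, -1, 1) (0, -1, 1) (-1, -1, 0) (0, -1, 0) rfl hh p118 (C.symH _ _ p556))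
            have n560 : ¬ h (0, -1, 1) (0, 0, 1) := fun hh => C.bH2 (0, 0, 0) (0, -1, 0) (0, 0, 1) (0, -1, 1) rfl p125 p116 p556 hh
            have p106 : w (0, -2, 0) := C.endH _ _ p526
            have n429 : ¬ e (-1, -1, 1) (-1, 0, 1) := fun hh => n67 (C.endE _ _ hh)
            have n425 : ¬ e (-1, -1, 0) (-1, -1, 1) := fun hh => n67 (C.endE _ _ (C.symE _ _ hh))
            have n105 : ¬ u (0, -2, 0) := fun hh => C.dis _ hh p106
            have n395 : ¬ e (-1, -2, 0) (-1, -1, 0) := fun hh => n105 (C.bE1 (-1, -1, 0) (0, -1, 0) (-1, -2, 0) (0, -2, 0) rfl p65 p116 (C.symE _ _ hh))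
            have p419 : e (-1, -1, -1) (-1, -1, 0) := or5 (C.twoE (-1, -1, 0) (0, -1, 0) (-1, 0, 0) (-1, -2, 0) (-1, -1, 1) (-1, -1, -1) rfl p65) (fun q => absurd q n421) (fun q => absurd q n423) (fun q => absurd (C.symE _ _ q) n395) (fun q => absurd q n425) (fun q => (C.symE _ _ q))
            have p291 : e (-2, -1, 0) (-1, -1, 0) := or5 (C.twoE (-1, -1, 0) (0, -1, 0) (-2, -1, 0) (-1, 0, 0) (-1, -2, 0) (-1, -1, 1) rfl p65) (fun q => absurd q n421) (fun q => (C.symE _ _ q)) (fun q => absurd q n423) (fun q => absurd (C.symE _ _ q) n395) (fun q => absurd q n425)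
            have p113 : u (0, -1, -1) := C.bE1 (-1, -1, 0) (0, -1, 0) (-1, -1, -1) (0, -1, -1) rfl p65 p116 (C.symE _ _ p419)
            have n415 : ¬ e (-1, -1, -1) (0, -1, -1) := fun hh => C.bE2 (-1, -1, 0) (0, -1, 0) (-1, -1, -1) (0, -1, -1) rfl p65 p116 (C.symE _ _ p419) hh
            have p15 : u (-2, -1, 0) := C.endE _ _ p291
            have n519 : ¬ e (0, -2, -1) (0, -1, -1) := fun hh => n105 (C.bE1 (0, -1, -1) (0, -1, 0) (0, -2, -1) (0, -2, 0) rfl p113 p116 (C.symE _ _ hh))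
            have n16 : ¬ w (-2, -1, 0) := fun hh => C.dis _ p15 hh
            have n298 : ¬ h (-2, -1, 1) (-1, -1, 1) := fun hh => n16 (C.bH1 (-1, -1, 0) (-1, -1, 1) (-2, -1, 0) (-2, -1, 1) rfl p65 p68 (C.symH _ _ hh))
            have p432 : h (-1, -1, 1) (-1, -1, 2) := or5 (C.twoH (-1, -1, 1) (0, -1, 1) (-2, -1, 1) (-1, 0, 1) (-1, -1, 2) (-1, -1, 0) rfl p68) (fun q => absurd q n428) (fun q => absurd (C.symH _ _ q) n298) (fun q => absurd q n430) (fun q => q) (fun q => absurd (C.symH _ _ q) n426)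
            have p70 : w (-1, -1, 2) := C.endH _ _ (C.symH _ _ p432)
            have n69 : ¬ u (-1, -1, 2) := fun hh => C.dis _ hh p70
            have n459 : ¬ e (-1, 0, 1) (-1, 0, 2) := fun hh => n69 (C.bE1 (-1, 0, 1) (-1, -1, 1) (-1, 0, 2) (-1, -1, 2) rfl p77 p68 hh)
            have p457 : e (-1, 0, 1) (-1, 1, 1) := or5 (C.twoE (-1, 0, 1) (0, 0, 1) (-1, 1, 1) (-1, -1, 1) (-1, 0, 2) (-1, 0, 0) rfl p77) (fun q => absurd q n455) (fun q => q) (fun q => absurd (C.symE _ _ q) n429) (fun q => absurd q n459) (fun q => absurd (C.symE _ _ q) n453)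
            have p87 : u (-1, 1, 1) := C.endE _ _ (C.symE _ _ p457)
            have p137 : u (0, 1, 1) := C.bE1 (-1, 0, 1) (0, 0, 1) (-1, 1, 1) (0, 1, 1) rfl p77 p128 p457
            have n483 : ¬ e (-1, 1, 1) (0, 1, 1) := fun hh => C.bE2 (-1, 0, 1) (0, 0, 1) (-1, 1, 1) (0, 1, 1) rfl p77 p128 p457 hh
            have n138 : ¬ w (0, 1, 1) := fun hh => n127 (C.bE1 (-1, 1, 1) (0, 1, 1) (-1, 0, 1) (0, 0, 1) rfl p87 hh (C.symE _ _ p457))
            have n588 : ¬ h (0, 0, 1) (0, 1, 1) := fun hh => n138 (C.endH _ _ (C.symH _ _ hh))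
            have p590 : h (0, 0, 1) (0, 0, 2) := or5 (C.twoH (0, 0, 1) (-1, 0, 1) (0, 1, 1) (0, -1, 1) (0, 0, 2) (0, 0, 0) rfl p128) (fun q => absurd (C.symH _ _ q) n456) (fun q => absurd q n588) (fun q => absurd (C.symH _ _ q) n560) (fun q => q) (fun q => absurd (C.symH _ _ q) n584)
            have p586 : h (0, 0, 1) (1, 0, 1) := or5 (C.twoH (0, 0, 1) (1, 0, 1) (-1, 0, 1) (0, 1, 1) (0, -1, 1) (0, 0, 0) rfl p128) (fun q => q) (fun q => absurd (C.symH _ _ q) n456) (fun q => absurd q n588) (fun q => absurd (C.symH _ _ q) n560) (fun q => absurd (C.symH _ _ q) n584)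
            have p130 : w (0, 0, 2) := C.endH _ _ (C.symH _ _ p590)
            have p178 : w (1, 0, 1) := C.endH _ _ (C.symH _ _ p586)
            have n714 : ¬ h (1, 0, 0) (1, 0, 1) := fun hh => C.bH2 (0, 0, 0) (1, 0, 0) (0, 0, 1) (1, 0, 1) rfl p125 p176 hh (C.symH _ _ p586)
            have n187 : ¬ u (1, 1, 1) := fun hh => n138 (C.bH1 (1, 1, 1) (1, 0, 1) (0, 1, 1) (0, 0, 1) rfl hh p178 (C.symH _ _ p586))
            have n129 : ¬ u (0, 0, 2) := fun hh => C.dis _ hh p130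
            have n613 : ¬ e (0, 1, 1) (1, 1, 1) := fun hh => n187 (C.endE _ _ (C.symE _ _ hh))
            have n617 : ¬ e (0, 1, 1) (0, 1, 2) := fun hh => n129 (C.bE1 (0, 1, 1) (0, 0, 1) (0, 1, 2) (0, 0, 2) rfl p137 p128 hh)
            have p611 : e (0, 1, 0) (0, 1, 1) := or5 (C.twoE (0, 1, 1) (1, 1, 1) (-1, 1, 1) (0, 0, 1) (0, 1, 2) (0, 1, 0) rfl p137) (fun q => absurd q n613) (fun q => absurd (C.symE _ _ q) n483) (fun q => absurd (C.symE _ _ q) n587) (fun q => absurd q n617) (fun q => (C.symE _ _ q))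
            have p135 : u (0, 1, 0) := C.endE _ _ p611
            have n581 : ¬ e (0, 0, 0) (0, 1, 0) := fun hh => C.bE2 (0, 0, 0) (0, 0, 1) (0, 1, 0) (0, 1, 1) rfl p125 p128 hh p611
            have n186 : ¬ w (1, 1, 0) := fun hh => n187 (C.bE1 (0, 1, 0) (1, 1, 0) (0, 1, 1) (1, 1, 1) rfl p135 hh p611)
            have p577 : e (0, 0, -1) (0, 0, 0) := or5 (C.twoE (0, 0, 0) (1, 0, 0) (0, 1, 0) (0, -1, 0) (0, 0, 1) (0, 0, -1) rfl p125) (fun q => absurd q n579) (fun q => absurd q n581) (fun q => absurd (C.symE _ _ q) n553) (fun q => absurd q n583) (fun q => (C.symE _ _ q))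
            have n712 : ¬ h (1, 0, 0) (1, 1, 0) := fun hh => n186 (C.endH _ _ (C.symH _ _ hh))
            have p123 : u (0, 0, -1) := C.endE _ _ p577
            have n547 : ¬ e (0, -1, -1) (0, 0, -1) := fun hh => C.bE2 (0, -1, -1) (0, -1, 0) (0, 0, -1) (0, 0, 0) rfl p113 p116 hh p577
            have n174 : ¬ w (1, 0, -1) := fun hh => n175 (C.bE1 (0, 0, -1) (1, 0, -1) (0, 0, 0) (1, 0, 0) rfl p123 hh p577)
            have p684 : h (1, -1, 0) (1, 0, 0) := or5 (C.twoH (1, 0, 0) (0, 0, 0) (1, 1, 0) (1, -1, 0) (1, 0, 1) (1, 0, -1) rfl p176) (fun q => absurd (C.symH _ _ q) n580) (fun q => absurd q n712) (fun q => (C.symH _ _ q)) (fun q => absurd q n714) (fun q => absurd (C.symH _ _ q) n708)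
            have p545 : e (0, -1, -1) (1, -1, -1) := or5 (C.twoE (0, -1, -1) (1, -1, -1) (-1, -1, -1) (0, 0, -1) (0, -2, -1) (0, -1, 0) rfl p113) (fun q => q) (fun q => absurd (C.symE _ _ q) n415) (fun q => absurd q n547) (fun q => absurd (C.symE _ _ q) n519) (fun q => absurd q n549)
            have p166 : w (1, -1, 0) := C.endH _ _ p684
            have n163 : ¬ u (1, -1, -1) := fun hh => n174 (C.bH1 (1, -1, -1) (1, -1, 0) (1, 0, -1) (1, 0, 0) rfl hh p166 p684)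
            exact n163 (C.endE _ _ (C.symE _ _ p545))
        · have p577 : e (0, 0, -1) (0, 0, 0) := or5 (C.twoE (0, 0, 0) (1, 0, 0) (-1, 0, 0) (0, -1, 0) (0, 0, 1) (0, 0, -1) rfl p125) (fun q => absurd q n579) (fun q => absurd (C.symE _ _ q) n449) (fun q => absurd (C.symE _ _ q) n553) (fun q => absurd q n583) (fun q => (C.symE _ _ q))
          have p581 : e (0, 0, 0) (0, 1, 0) := or5 (C.twoE (0, 0, 0) (1, 0, 0) (-1, 0, 0) (0, 1, 0) (0, -1, 0) (0, 0, 1) rfl p125) (fun q => absurd q n579) (fun q => absurd (C.symE _ _ q) n449) (fun q => q) (fun q => absurd (C.symE _ _ q) n553) (fun q => absurd q n583)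
          have p123 : u (0, 0, -1) := C.endE _ _ p577
          have n174 : ¬ w (1, 0, -1) := fun hh => n175 (C.bE1 (0, 0, -1) (1, 0, -1) (0, 0, 0) (1, 0, 0) rfl p123 hh p577)
          have n114 : ¬ w (0, -1, -1) := fun hh => n115 (C.bE1 (0, 0, -1) (0, -1, -1) (0, 0, 0) (0, -1, 0) rfl p123 hh p577)
          have p173 : u (1, 0, -1) := C.bE1 (0, 0, 0) (1, 0, 0) (0, 0, -1) (1, 0, -1) rfl p125 p176 (C.symE _ _ p577)
          have n573 : ¬ e (0, 0, -1) (1, 0, -1) := fun hh => C.bE2 (0, 0, 0) (1, 0, 0) (0, 0, -1) (1, 0, -1) rfl p125 p176 (C.symE _ _ p577) hh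
          have p113 : u (0, -1, -1) := C.bE1 (0, 0, 0) (0, -1, 0) (0, 0, -1) (0, -1, -1) rfl p125 p116 (C.symE _ _ p577)
          have n547 : ¬ e (0, -1, -1) (0, 0, -1) := fun hh => C.bE2 (0, 0, 0) (0, -1, 0) (0, 0, -1) (0, -1, -1) rfl p125 p116 (C.symE _ _ p577) (C.symE _ _ hh)
          have p135 : u (0, 1, 0) := C.endE _ _ (C.symE _ _ p581)
          have p185 : u (1, 1, 0) := C.bE1 (0, 0, 0) (1, 0, 0) (0, 1, 0) (1, 1, 0) rfl p125 p176 p581
          have n607 : ¬ e (0, 1, 0) (1, 1, 0) := fun hh => C.bE2 (0, 0, 0) (1, 0, 0) (0, 1, 0) (1, 1, 0) rfl p125 p176 p581 hh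
          have p137 : u (0, 1, 1) := C.bE1 (0, 0, 0) (0, 0, 1) (0, 1, 0) (0, 1, 1) rfl p125 p128 p581
          have n611 : ¬ e (0, 1, 0) (0, 1, 1) := fun hh => C.bE2 (0, 0, 0) (0, 0, 1) (0, 1, 0) (0, 1, 1) rfl p125 p128 p581 hh
          have n186 : ¬ w (1, 1, 0) := fun hh => n175 (C.bE1 (0, 1, 0) (1, 1, 0) (0, 0, 0) (1, 0, 0) rfl p135 hh (C.symE _ _ p581))
          have n138 : ¬ w (0, 1, 1) := fun hh => n127 (C.bE1 (0, 1, 0) (0, 1, 1) (0, 0, 0) (0, 0, 1) rfl p135 hh (C.symE _ _ p581))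
          have n678 : ¬ h (1, -1, -1) (1, 0, -1) := fun hh => n174 (C.endH _ _ (C.symH _ _ hh))
          have n546 : ¬ h (0, -1, -1) (1, -1, -1) := fun hh => n114 (C.endH _ _ hh)
          have n712 : ¬ h (1, 0, 0) (1, 1, 0) := fun hh => n186 (C.endH _ _ (C.symH _ _ hh))
          have n588 : ¬ h (0, 0, 1) (0, 1, 1) := fun hh => n138 (C.endH _ _ (C.symH _ _ hh))
          rcases Classical.em (h (1, -1, 0) (1, 0, 0)) with p684 | n684
          · have p166 : w (1, -1, 0) := C.endH _ _ p684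
            have n552 : ¬ h (0, -1, 0) (1, -1, 0) := fun hh => C.bH2 (0, 0, 0) (1, 0, 0) (0, -1, 0) (1, -1, 0) rfl p125 p176 (C.symH _ _ p684) (C.symH _ _ hh)
            have n163 : ¬ u (1, -1, -1) := fun hh => n174 (C.bH1 (1, -1, -1) (1, -1, 0) (1, 0, -1) (1, 0, 0) rfl hh p166 p684)
            have p164 : w (1, -1, -1) := C.bH1 (1, 0, -1) (1, 0, 0) (1, -1, -1) (1, -1, 0) rfl p173 p176 (C.symH _ _ p684)
            have n680 : ¬ h (1, -1, -1) (1, -1, 0) := fun hh => C.bH2 (1, 0, -1) (1, 0, 0) (1, -1, -1) (1, -1, 0) rfl p173 p176 (C.symH _ _ p684) (C.symH _ _ hh)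
            have n545 : ¬ e (0, -1, -1) (1, -1, -1) := fun hh => n163 (C.endE _ _ (C.symE _ _ hh))
            rcases Classical.em (w (-1, -1, -1)) with p64 | n64
            · have n63 : ¬ u (-1, -1, -1) := fun hh => C.dis _ hh p64
              have n415 : ¬ e (-1, -1, -1) (0, -1, -1) := fun hh => n63 (C.endE _ _ hh)
              have p543 : e (0, -1, -2) (0, -1, -1) := or5 (C.twoE (0, -1, -1) (1, -1, -1) (-1, -1, -1) (0, 0, -1) (0, -1, 0) (0, -1, -2) rfl p113) (fun q => absurd q n545) (fun q => absurd (C.symE _ _ q) n415) (fun q => absurd q n547) (fun q => absurd q n549) (fun q => (C.symE _ _ q))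
              have p519 : e (0, -2, -1) (0, -1, -1) := or5 (C.twoE (0, -1, -1) (1, -1, -1) (-1, -1, -1) (0, 0, -1) (0, -2, -1) (0, -1, 0) rfl p113) (fun q => absurd q n545) (fun q => absurd (C.symE _ _ q) n415) (fun q => absurd q n547) (fun q => (C.symE _ _ q)) (fun q => absurd q n549)
              have p111 : u (0, -1, -2) := C.endE _ _ p543
              have p103 : u (0, -2, -1) := C.endE _ _ p519
              have n112 : ¬ w (0, -1, -2) := fun hh => C.dis _ p111 hh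
              have n104 : ¬ w (0, -2, -1) := fun hh => C.dis _ p103 hh
              have n674 : ¬ h (1, -1, -2) (1, -1, -1) := fun hh => n112 (C.bH1 (0, -1, -1) (1, -1, -1) (0, -1, -2) (1, -1, -2) rfl p113 p164 (C.symH _ _ hh))
              have n650 : ¬ h (1, -2, -1) (1, -1, -1) := fun hh => n104 (C.bH1 (0, -1, -1) (1, -1, -1) (0, -2, -1) (1, -2, -1) rfl p113 p164 (C.symH _ _ hh))
              exact or5 (C.twoH (1, -1, -1) (0, -1, -1) (1, 0, -1) (1, -2, -1) (1, -1, 0) (1, -1, -2) rfl p164) (fun q => n546 (C.symH _ _ q)) (fun q => n678 q) (fun q => n650 (C.symH _ _ q)) (fun q => n680 q) (fun q => n674 (C.symH _ _ q))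
            · have n422 : ¬ h (-1, -1, 0) (0, -1, 0) := fun hh => n64 (C.bH1 (0, -1, -1) (0, -1, 0) (-1, -1, -1) (-1, -1, 0) rfl p113 p116 (C.symH _ _ hh))
              have p556 : h (0, -1, 0) (0, -1, 1) := or5 (C.twoH (0, -1, 0) (1, -1, 0) (-1, -1, 0) (0, 0, 0) (0, -1, 1) (0, -1, -1) rfl p116) (fun q => absurd q n552) (fun q => absurd (C.symH _ _ q) n422) (fun q => absurd q n554) (fun q => q) (fun q => absurd (C.symH _ _ q) n550)
              have p526 : h (0, -2, 0) (0, -1, 0) := or5 (C.twoH (0, -1, 0) (1, -1, 0) (-1, -1, 0) (0, 0, 0) (0, -2, 0) (0, -1, -1) rfl p116) (fun q => absurd q n552) (fun q => absurd (C.symH _ _ q) n422) (fun q => absurd q n554) (fun q => (C.symH _ _ q)) (fun q => absurd (C.symH _ _ q) n550)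
              have p118 : w (0, -1, 1) := C.endH _ _ (C.symH _ _ p556)
              have n560 : ¬ h (0, -1, 1) (0, 0, 1) := fun hh => C.bH2 (0, 0, 0) (0, -1, 0) (0, 0, 1) (0, -1, 1) rfl p125 p116 p556 hh
              have p106 : w (0, -2, 0) := C.endH _ _ p526
              have n117 : ¬ u (0, -1, 1) := fun hh => C.dis _ hh p118
              have n105 : ¬ u (0, -2, 0) := fun hh => C.dis _ hh p106
              have n519 : ¬ e (0, -2, -1) (0, -1, -1) := fun hh => n105 (C.bE1 (0, -1, -1) (0, -1, 0) (0, -2, -1) (0, -2, 0) rfl p113 p116 (C.symE _ _ hh))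
              have p415 : e (-1, -1, -1) (0, -1, -1) := or5 (C.twoE (0, -1, -1) (1, -1, -1) (-1, -1, -1) (0, 0, -1) (0, -2, -1) (0, -1, 0) rfl p113) (fun q => absurd q n545) (fun q => (C.symE _ _ q)) (fun q => absurd q n547) (fun q => absurd (C.symE _ _ q) n519) (fun q => absurd q n549)
              have p63 : u (-1, -1, -1) := C.endE _ _ p415
              have n66 : ¬ w (-1, -1, 0) := fun hh => n115 (C.bE1 (-1, -1, -1) (-1, -1, 0) (0, -1, -1) (0, -1, 0) rfl p63 hh p415)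
              have p65 : u (-1, -1, 0) := C.bE1 (0, -1, -1) (0, -1, 0) (-1, -1, -1) (-1, -1, 0) rfl p113 p116 (C.symE _ _ p415)
              have n419 : ¬ e (-1, -1, -1) (-1, -1, 0) := fun hh => C.bE2 (0, -1, -1) (0, -1, 0) (-1, -1, -1) (-1, -1, 0) rfl p113 p116 (C.symE _ _ p415) hh
              have n67 : ¬ u (-1, -1, 1) := fun hh => n66 (C.bH1 (-1, -1, 1) (0, -1, 1) (-1, -1, 0) (0, -1, 0) rfl hh p118 (C.symH _ _ p556))
              have n395 : ¬ e (-1, -2, 0) (-1, -1, 0) := fun hh => n105 (C.bE1 (-1, -1, 0) (0, -1, 0) (-1, -2, 0) (0, -2, 0) rfl p65 p116 (C.symE _ _ hh))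
              have n425 : ¬ e (-1, -1, 0) (-1, -1, 1) := fun hh => n117 (C.bE1 (-1, -1, 0) (0, -1, 0) (-1, -1, 1) (0, -1, 1) rfl p65 p116 hh)
              have p68 : w (-1, -1, 1) := C.bH1 (-1, -1, 0) (0, -1, 0) (-1, -1, 1) (0, -1, 1) rfl p65 p116 p556
              have p423 : e (-1, -1, 0) (-1, 0, 0) := or5 (C.twoE (-1, -1, 0) (0, -1, 0) (-1, 0, 0) (-1, -2, 0) (-1, -1, 1) (-1, -1, -1) rfl p65) (fun q => absurd q n421) (fun q => q) (fun q => absurd (C.symE _ _ q) n395) (fun q => absurd q n425) (fun q => absurd (C.symE _ _ q) n419)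
              have n429 : ¬ e (-1, -1, 1) (-1, 0, 1) := fun hh => n67 (C.endE _ _ hh)
              have p77 : u (-1, 0, 1) := C.bE1 (-1, -1, 0) (-1, -1, 1) (-1, 0, 0) (-1, 0, 1) rfl p65 p68 p423
              have n453 : ¬ e (-1, 0, 0) (-1, 0, 1) := fun hh => C.bE2 (-1, -1, 0) (-1, -1, 1) (-1, 0, 0) (-1, 0, 1) rfl p65 p68 p423 hh
              have p75 : u (-1, 0, 0) := C.endE _ _ (C.symE _ _ p423)
              have n78 : ¬ w (-1, 0, 1) := fun hh => n67 (C.bE1 (-1, 0, 0) (-1, 0, 1) (-1, -1, 0) (-1, -1, 1) rfl p75 hh (C.symE _ _ p423))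
              have n456 : ¬ h (-1, 0, 1) (0, 0, 1) := fun hh => n78 (C.endH _ _ hh)
              have p590 : h (0, 0, 1) (0, 0, 2) := or5 (C.twoH (0, 0, 1) (-1, 0, 1) (0, 1, 1) (0, -1, 1) (0, 0, 2) (0, 0, 0) rfl p128) (fun q => absurd (C.symH _ _ q) n456) (fun q => absurd q n588) (fun q => absurd (C.symH _ _ q) n560) (fun q => q) (fun q => absurd (C.symH _ _ q) n584)
              have p586 : h (0, 0, 1) (1, 0, 1) := or5 (C.twoH (0, 0, 1) (1, 0, 1) (-1, 0, 1) (0, 1, 1) (0, -1, 1) (0, 0, 0) rfl p128) (fun q => q) (fun q => absurd (C.symH _ _ q) n456) (fun q => absurd q n588) (fun q => absurd (C.symH _ _ q) n560) (fun q => absurd (C.symH _ _ q) n584)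
              have p130 : w (0, 0, 2) := C.endH _ _ (C.symH _ _ p590)
              have p178 : w (1, 0, 1) := C.endH _ _ (C.symH _ _ p586)
              have n187 : ¬ u (1, 1, 1) := fun hh => n138 (C.bH1 (1, 1, 1) (1, 0, 1) (0, 1, 1) (0, 0, 1) rfl hh p178 (C.symH _ _ p586))
              have n129 : ¬ u (0, 0, 2) := fun hh => C.dis _ hh p130
              have n613 : ¬ e (0, 1, 1) (1, 1, 1) := fun hh => n187 (C.endE _ _ (C.symE _ _ hh))
              have n459 : ¬ e (-1, 0, 1) (-1, 0, 2) := fun hh => n129 (C.bE1 (-1, 0, 1) (0, 0, 1) (-1, 0, 2) (0, 0, 2) rfl p77 p128 hh)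
              have n617 : ¬ e (0, 1, 1) (0, 1, 2) := fun hh => n129 (C.bE1 (0, 1, 1) (0, 0, 1) (0, 1, 2) (0, 0, 2) rfl p137 p128 hh)
              have p483 : e (-1, 1, 1) (0, 1, 1) := or5 (C.twoE (0, 1, 1) (1, 1, 1) (-1, 1, 1) (0, 0, 1) (0, 1, 2) (0, 1, 0) rfl p137) (fun q => absurd q n613) (fun q => (C.symE _ _ q)) (fun q => absurd (C.symE _ _ q) n587) (fun q => absurd q n617) (fun q => absurd (C.symE _ _ q) n611)
              have p457 : e (-1, 0, 1) (-1, 1, 1) := or5 (C.twoE (-1, 0, 1) (0, 0, 1) (-1, 1, 1) (-1, -1, 1) (-1, 0, 2) (-1, 0, 0) rfl p77) (fun q => absurd q n455) (fun q => q) (fun q => absurd (C.symE _ _ q) n429) (fun q => absurd q n459) (fun q => absurd (C.symE _ _ q) n453)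
              exact C.bE2 (-1, 0, 1) (0, 0, 1) (-1, 1, 1) (0, 1, 1) rfl p77 p128 p457 p483
          · have p714 : h (1, 0, 0) (1, 0, 1) := or5 (C.twoH (1, 0, 0) (0, 0, 0) (1, 1, 0) (1, -1, 0) (1, 0, 1) (1, 0, -1) rfl p176) (fun q => absurd (C.symH _ _ q) n580) (fun q => absurd q n712) (fun q => absurd (C.symH _ _ q) n684) (fun q => q) (fun q => absurd (C.symH _ _ q) n708)
            have p710 : h (1, 0, 0) (2, 0, 0) := or5 (C.twoH (1, 0, 0) (2, 0, 0) (0, 0, 0) (1, 1, 0) (1, -1, 0) (1, 0, -1) rfl p176) (fun q => q) (fun q => absurd (C.symH _ _ q) n580) (fun q => absurd q n712) (fun q => absurd (C.symH _ _ q) n684) (fun q => absurd (C.symH _ _ q) n708)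
            have p178 : w (1, 0, 1) := C.endH _ _ (C.symH _ _ p714)
            have n187 : ¬ u (1, 1, 1) := fun hh => n186 (C.bH1 (1, 1, 1) (1, 0, 1) (1, 1, 0) (1, 0, 0) rfl hh p178 (C.symH _ _ p714))
            have p226 : w (2, 0, 0) := C.endH _ _ (C.symH _ _ p710)
            have n177 : ¬ u (1, 0, 1) := fun hh => C.dis _ hh p178
            have n741 : ¬ e (1, 1, 0) (1, 1, 1) := fun hh => n187 (C.endE _ _ (C.symE _ _ hh))
            have n225 : ¬ u (2, 0, 0) := fun hh => C.dis _ hh p226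
            have n703 : ¬ e (1, 0, -1) (2, 0, -1) := fun hh => n225 (C.bE1 (1, 0, -1) (1, 0, 0) (2, 0, -1) (2, 0, 0) rfl p173 p176 hh)
            have n737 : ¬ e (1, 1, 0) (2, 1, 0) := fun hh => n225 (C.bE1 (1, 1, 0) (1, 0, 0) (2, 1, 0) (2, 0, 0) rfl p185 p176 hh)
            have p735 : e (1, 1, -1) (1, 1, 0) := or5 (C.twoE (1, 1, 0) (2, 1, 0) (0, 1, 0) (1, 0, 0) (1, 1, 1) (1, 1, -1) rfl p185) (fun q => absurd q n737) (fun q => absurd (C.symE _ _ q) n607) (fun q => absurd (C.symE _ _ q) n711) (fun q => absurd q n741) (fun q => (C.symE _ _ q))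
            have n705 : ¬ e (1, 0, -1) (1, 1, -1) := fun hh => C.bE2 (1, 0, -1) (1, 0, 0) (1, 1, -1) (1, 1, 0) rfl p173 p176 hh p735
            have p677 : e (1, -1, -1) (1, 0, -1) := or5 (C.twoE (1, 0, -1) (2, 0, -1) (0, 0, -1) (1, 1, -1) (1, -1, -1) (1, 0, 0) rfl p173) (fun q => absurd q n703) (fun q => absurd (C.symE _ _ q) n573) (fun q => absurd q n705) (fun q => (C.symE _ _ q)) (fun q => absurd q n707)
            have p165 : u (1, -1, 0) := C.bE1 (1, 0, -1) (1, 0, 0) (1, -1, -1) (1, -1, 0) rfl p173 p176 (C.symE _ _ p677)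
            have n679 : ¬ e (1, -1, -1) (1, -1, 0) := fun hh => C.bE2 (1, 0, -1) (1, 0, 0) (1, -1, -1) (1, -1, 0) rfl p173 p176 (C.symE _ _ p677) hh
            have n681 : ¬ e (1, -1, 0) (2, -1, 0) := fun hh => n225 (C.bE1 (1, -1, 0) (1, 0, 0) (2, -1, 0) (2, 0, 0) rfl p165 p176 hh)
            have n685 : ¬ e (1, -1, 0) (1, -1, 1) := fun hh => n177 (C.bE1 (1, -1, 0) (1, 0, 0) (1, -1, 1) (1, 0, 1) rfl p165 p176 hh)
            exact or5 (C.twoE (1, -1, 0) (2, -1, 0) (0, -1, 0) (1, 0, 0) (1, -1, 1) (1, -1, -1) rfl p165) (fun q => n681 q) (fun q => n551 (C.symE _ _ q)) (fun q => n683 q) (fun q => n685 q) (fun q => n679 (C.symE _ _ q))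
      · have n714 : ¬ h (1, 0, 0) (1, 0, 1) := fun hh => n128 (C.bH1 (0, 0, 0) (1, 0, 0) (0, 0, 1) (1, 0, 1) rfl p125 p176 hh)
        have n556 : ¬ h (0, -1, 0) (0, -1, 1) := fun hh => n128 (C.bH1 (0, 0, 0) (0, -1, 0) (0, 0, 1) (0, -1, 1) rfl p125 p116 hh)
        rcases Classical.em (h (-1, -1, 0) (0, -1, 0)) with p422 | n422
        · have p66 : w (-1, -1, 0) := C.endH _ _ p422
          have n75 : ¬ u (-1, 0, 0) := fun hh => n126 (C.bH1 (-1, 0, 0) (-1, -1, 0) (0, 0, 0) (0, -1, 0) rfl hh p66 p422)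
          have p76 : w (-1, 0, 0) := C.bH1 (0, 0, 0) (0, -1, 0) (-1, 0, 0) (-1, -1, 0) rfl p125 p116 (C.symH _ _ p422)
          have n424 : ¬ h (-1, -1, 0) (-1, 0, 0) := fun hh => C.bH2 (0, 0, 0) (0, -1, 0) (-1, 0, 0) (-1, -1, 0) rfl p125 p116 (C.symH _ _ p422) hh
          have n65 : ¬ u (-1, -1, 0) := fun hh => C.dis _ hh p66
          have n449 : ¬ e (-1, 0, 0) (0, 0, 0) := fun hh => n75 (C.endE _ _ hh)
          have n447 : ¬ e (-1, 0, -1) (-1, 0, 0) := fun hh => n75 (C.endE _ _ (C.symE _ _ hh))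
          have n454 : ¬ h (-1, 0, 0) (-1, 0, 1) := fun hh => n128 (C.bH1 (0, 0, 0) (-1, 0, 0) (0, 0, 1) (-1, 0, 1) rfl p125 p76 hh)
          have n448 : ¬ h (-1, 0, -1) (-1, 0, 0) := fun hh => n124 (C.bH1 (0, 0, 0) (-1, 0, 0) (0, 0, -1) (-1, 0, -1) rfl p125 p76 (C.symH _ _ hh))
          have p452 : h (-1, 0, 0) (-1, 1, 0) := or5 (C.twoH (-1, 0, 0) (0, 0, 0) (-1, 1, 0) (-1, -1, 0) (-1, 0, 1) (-1, 0, -1) rfl p76) (fun q => absurd q n450) (fun q => q) (fun q => absurd (C.symH _ _ q) n424) (fun q => absurd q n454) (fun q => absurd (C.symH _ _ q) n448)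
          have p320 : h (-2, 0, 0) (-1, 0, 0) := or5 (C.twoH (-1, 0, 0) (0, 0, 0) (-2, 0, 0) (-1, -1, 0) (-1, 0, 1) (-1, 0, -1) rfl p76) (fun q => absurd q n450) (fun q => (C.symH _ _ q)) (fun q => absurd (C.symH _ _ q) n424) (fun q => absurd q n454) (fun q => absurd (C.symH _ _ q) n448)
          have p86 : w (-1, 1, 0) := C.endH _ _ (C.symH _ _ p452)
          have n135 : ¬ u (0, 1, 0) := fun hh => n126 (C.bH1 (0, 1, 0) (-1, 1, 0) (0, 0, 0) (-1, 0, 0) rfl hh p86 (C.symH _ _ p452))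
          have p26 : w (-2, 0, 0) := C.endH _ _ p320
          have n85 : ¬ u (-1, 1, 0) := fun hh => C.dis _ hh p86
          have n581 : ¬ e (0, 0, 0) (0, 1, 0) := fun hh => n135 (C.endE _ _ (C.symE _ _ hh))
          have n25 : ¬ u (-2, 0, 0) := fun hh => C.dis _ hh p26
          have p577 : e (0, 0, -1) (0, 0, 0) := or5 (C.twoE (0, 0, 0) (1, 0, 0) (-1, 0, 0) (0, 1, 0) (0, -1, 0) (0, 0, -1) rfl p125) (fun q => absurd q n579) (fun q => absurd (C.symE _ _ q) n449) (fun q => absurd q n581) (fun q => absurd (C.symE _ _ q) n553) (fun q => (C.symE _ _ q))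
          have p73 : u (-1, 0, -1) := C.bE1 (0, 0, 0) (-1, 0, 0) (0, 0, -1) (-1, 0, -1) rfl p125 p76 (C.symE _ _ p577)
          have n443 : ¬ e (-1, 0, -1) (0, 0, -1) := fun hh => C.bE2 (0, 0, 0) (-1, 0, 0) (0, 0, -1) (-1, 0, -1) rfl p125 p76 (C.symE _ _ p577) (C.symE _ _ hh)
          have n313 : ¬ e (-2, 0, -1) (-1, 0, -1) := fun hh => n25 (C.bE1 (-1, 0, -1) (-1, 0, 0) (-2, 0, -1) (-2, 0, 0) rfl p73 p76 (C.symE _ _ hh))
          have n445 : ¬ e (-1, 0, -1) (-1, 1, -1) := fun hh => n85 (C.bE1 (-1, 0, -1) (-1, 0, 0) (-1, 1, -1) (-1, 1, 0) rfl p73 p76 hh)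
          have n417 : ¬ e (-1, -1, -1) (-1, 0, -1) := fun hh => n65 (C.bE1 (-1, 0, -1) (-1, 0, 0) (-1, -1, -1) (-1, -1, 0) rfl p73 p76 (C.symE _ _ hh))
          exact or5 (C.twoE (-1, 0, -1) (0, 0, -1) (-2, 0, -1) (-1, 1, -1) (-1, -1, -1) (-1, 0, 0) rfl p73) (fun q => n443 q) (fun q => n313 (C.symE _ _ q)) (fun q => n445 q) (fun q => n417 (C.symE _ _ q)) (fun q => n447 q)
        · have p552 : h (0, -1, 0) (1, -1, 0) := or5 (C.twoH (0, -1, 0) (1, -1, 0) (-1, -1, 0) (0, 0, 0) (0, -1, 1) (0, -1, -1) rfl p116) (fun q => q) (fun q => absurd (C.symH _ _ q) n422) (fun q => absurd q n554) (fun q => absurd q n556) (fun q => absurd (C.symH _ _ q) n550)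
          have p166 : w (1, -1, 0) := C.endH _ _ (C.symH _ _ p552)
          have n684 : ¬ h (1, -1, 0) (1, 0, 0) := fun hh => C.bH2 (0, 0, 0) (1, 0, 0) (0, -1, 0) (1, -1, 0) rfl p125 p176 (C.symH _ _ hh) (C.symH _ _ p552)
          have n165 : ¬ u (1, -1, 0) := fun hh => C.dis _ hh p166
          have p712 : h (1, 0, 0) (1, 1, 0) := or5 (C.twoH (1, 0, 0) (0, 0, 0) (1, 1, 0) (1, -1, 0) (1, 0, 1) (1, 0, -1) rfl p176) (fun q => absurd (C.symH _ _ q) n580) (fun q => q) (fun q => absurd (C.symH _ _ q) n684) (fun q => absurd q n714) (fun q => absurd (C.symH _ _ q) n708)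
          have p710 : h (1, 0, 0) (2, 0, 0) := or5 (C.twoH (1, 0, 0) (2, 0, 0) (0, 0, 0) (1, -1, 0) (1, 0, 1) (1, 0, -1) rfl p176) (fun q => q) (fun q => absurd (C.symH _ _ q) n580) (fun q => absurd (C.symH _ _ q) n684) (fun q => absurd q n714) (fun q => absurd (C.symH _ _ q) n708)
          have p186 : w (1, 1, 0) := C.endH _ _ (C.symH _ _ p712)
          have p136 : w (0, 1, 0) := C.bH1 (0, 0, 0) (1, 0, 0) (0, 1, 0) (1, 1, 0) rfl p125 p176 p712
          have n608 : ¬ h (0, 1, 0) (1, 1, 0) := fun hh => C.bH2 (0, 0, 0) (1, 0, 0) (0, 1, 0) (1, 1, 0) rfl p125 p176 p712 (C.symH _ _ hh)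
          have n135 : ¬ u (0, 1, 0) := fun hh => n126 (C.bH1 (0, 1, 0) (1, 1, 0) (0, 0, 0) (1, 0, 0) rfl hh p186 (C.symH _ _ p712))
          have p226 : w (2, 0, 0) := C.endH _ _ (C.symH _ _ p710)
          have n185 : ¬ u (1, 1, 0) := fun hh => C.dis _ hh p186
          have n612 : ¬ h (0, 1, 0) (0, 1, 1) := fun hh => n128 (C.bH1 (0, 0, 0) (0, 1, 0) (0, 0, 1) (0, 1, 1) rfl p125 p136 hh)
          have n606 : ¬ h (0, 1, -1) (0, 1, 0) := fun hh => n124 (C.bH1 (0, 0, 0) (0, 1, 0) (0, 0, -1) (0, 1, -1) rfl p125 p136 (C.symH _ _ hh))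
          have p478 : h (-1, 1, 0) (0, 1, 0) := or5 (C.twoH (0, 1, 0) (1, 1, 0) (-1, 1, 0) (0, 0, 0) (0, 1, 1) (0, 1, -1) rfl p136) (fun q => absurd q n608) (fun q => (C.symH _ _ q)) (fun q => absurd (C.symH _ _ q) n582) (fun q => absurd q n612) (fun q => absurd (C.symH _ _ q) n606)
          have n581 : ¬ e (0, 0, 0) (0, 1, 0) := fun hh => n135 (C.endE _ _ (C.symE _ _ hh))
          have n225 : ¬ u (2, 0, 0) := fun hh => C.dis _ hh p226
          have p86 : w (-1, 1, 0) := C.endH _ _ p478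
          have n75 : ¬ u (-1, 0, 0) := fun hh => n126 (C.bH1 (-1, 0, 0) (-1, 1, 0) (0, 0, 0) (0, 1, 0) rfl hh p86 p478)
          have n449 : ¬ e (-1, 0, 0) (0, 0, 0) := fun hh => n75 (C.endE _ _ hh)
          have p577 : e (0, 0, -1) (0, 0, 0) := or5 (C.twoE (0, 0, 0) (1, 0, 0) (-1, 0, 0) (0, 1, 0) (0, -1, 0) (0, 0, -1) rfl p125) (fun q => absurd q n579) (fun q => absurd (C.symE _ _ q) n449) (fun q => absurd q n581) (fun q => absurd (C.symE _ _ q) n553) (fun q => (C.symE _ _ q))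
          have p173 : u (1, 0, -1) := C.bE1 (0, 0, 0) (1, 0, 0) (0, 0, -1) (1, 0, -1) rfl p125 p176 (C.symE _ _ p577)
          have n573 : ¬ e (0, 0, -1) (1, 0, -1) := fun hh => C.bE2 (0, 0, 0) (1, 0, 0) (0, 0, -1) (1, 0, -1) rfl p125 p176 (C.symE _ _ p577) hh
          have n703 : ¬ e (1, 0, -1) (2, 0, -1) := fun hh => n225 (C.bE1 (1, 0, -1) (1, 0, 0) (2, 0, -1) (2, 0, 0) rfl p173 p176 hh)
          have n705 : ¬ e (1, 0, -1) (1, 1, -1) := fun hh => n185 (C.bE1 (1, 0, -1) (1, 0, 0) (1, 1, -1) (1, 1, 0) rfl p173 p176 hh)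
          have n677 : ¬ e (1, -1, -1) (1, 0, -1) := fun hh => n165 (C.bE1 (1, 0, -1) (1, 0, 0) (1, -1, -1) (1, -1, 0) rfl p173 p176 (C.symE _ _ hh))
          exact or5 (C.twoE (1, 0, -1) (2, 0, -1) (0, 0, -1) (1, 1, -1) (1, -1, -1) (1, 0, 0) rfl p173) (fun q => n703 q) (fun q => n573 (C.symE _ _ q)) (fun q => n705 q) (fun q => n677 (C.symE _ _ q)) (fun q => n707 q)
  · have n684 : ¬ h (1, -1, 0) (1, 0, 0) := fun hh => n116 (C.bH1 (0, 0, 0) (1, 0, 0) (0, -1, 0) (1, -1, 0) rfl p125 p176 (C.symH _ _ hh))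
    rcases Classical.em (w (0, 0, -1)) with p124 | n124
    · have n123 : ¬ u (0, 0, -1) := fun hh => C.dis _ hh p124
      have n548 : ¬ h (0, -1, -1) (0, 0, -1) := fun hh => n116 (C.bH1 (0, 0, 0) (0, 0, -1) (0, -1, 0) (0, -1, -1) rfl p125 p124 (C.symH _ _ hh))
      have n573 : ¬ e (0, 0, -1) (1, 0, -1) := fun hh => n123 (C.endE _ _ hh)
      have n443 : ¬ e (-1, 0, -1) (0, 0, -1) := fun hh => n123 (C.endE _ _ (C.symE _ _ hh))
      have n547 : ¬ e (0, -1, -1) (0, 0, -1) := fun hh => n123 (C.endE _ _ (C.symE _ _ hh))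
      have n577 : ¬ e (0, 0, -1) (0, 0, 0) := fun hh => n123 (C.endE _ _ hh)
      rcases Classical.em (w (0, 1, 0)) with p136 | n136
      · have n135 : ¬ u (0, 1, 0) := fun hh => C.dis _ hh p136
        have n477 : ¬ e (-1, 1, 0) (0, 1, 0) := fun hh => n135 (C.endE _ _ (C.symE _ _ hh))
        have n581 : ¬ e (0, 0, 0) (0, 1, 0) := fun hh => n135 (C.endE _ _ (C.symE _ _ hh))
        have n611 : ¬ e (0, 1, 0) (0, 1, 1) := fun hh => n135 (C.endE _ _ hh)
        rcases Classical.em (e (-1, 0, 0) (0, 0, 0)) with p449 | n449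
        · have p75 : u (-1, 0, 0) := C.endE _ _ p449
          have n86 : ¬ w (-1, 1, 0) := fun hh => n135 (C.bE1 (-1, 0, 0) (-1, 1, 0) (0, 0, 0) (0, 1, 0) rfl p75 hh p449)
          have n74 : ¬ w (-1, 0, -1) := fun hh => n123 (C.bE1 (-1, 0, 0) (-1, 0, -1) (0, 0, 0) (0, 0, -1) rfl p75 hh p449)
          have p85 : u (-1, 1, 0) := C.bE1 (0, 0, 0) (0, 1, 0) (-1, 0, 0) (-1, 1, 0) rfl p125 p136 (C.symE _ _ p449)
          have n451 : ¬ e (-1, 0, 0) (-1, 1, 0) := fun hh => C.bE2 (0, 0, 0) (0, 1, 0) (-1, 0, 0) (-1, 1, 0) rfl p125 p136 (C.symE _ _ p449) hh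
          have p73 : u (-1, 0, -1) := C.bE1 (0, 0, 0) (0, 0, -1) (-1, 0, 0) (-1, 0, -1) rfl p125 p124 (C.symE _ _ p449)
          have n447 : ¬ e (-1, 0, -1) (-1, 0, 0) := fun hh => C.bE2 (0, 0, 0) (0, 0, -1) (-1, 0, 0) (-1, 0, -1) rfl p125 p124 (C.symE _ _ p449) (C.symE _ _ hh)
          have n76 : ¬ w (-1, 0, 0) := fun hh => C.dis _ p75 hh
          have n478 : ¬ h (-1, 1, 0) (0, 1, 0) := fun hh => n86 (C.endH _ _ hh)
          have n476 : ¬ h (-1, 1, -1) (-1, 1, 0) := fun hh => n86 (C.endH _ _ (C.symH _ _ hh))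
          have n444 : ¬ h (-1, 0, -1) (0, 0, -1) := fun hh => n74 (C.endH _ _ hh)
          have n446 : ¬ h (-1, 0, -1) (-1, 1, -1) := fun hh => n74 (C.endH _ _ hh)
          rcases Classical.em (h (0, 0, -1) (1, 0, -1)) with p574 | n574
          · have p174 : w (1, 0, -1) := C.endH _ _ (C.symH _ _ p574)
            have n708 : ¬ h (1, 0, -1) (1, 0, 0) := fun hh => C.bH2 (0, 0, 0) (1, 0, 0) (0, 0, -1) (1, 0, -1) rfl p125 p176 (C.symH _ _ hh) (C.symH _ _ p574)
            have n173 : ¬ u (1, 0, -1) := fun hh => C.dis _ hh p174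
            rcases Classical.em (w (0, 0, 1)) with p128 | n128
            · have n127 : ¬ u (0, 0, 1) := fun hh => C.dis _ hh p128
              have n456 : ¬ h (-1, 0, 1) (0, 0, 1) := fun hh => n76 (C.bH1 (0, 0, 0) (0, 0, 1) (-1, 0, 0) (-1, 0, 1) rfl p125 p128 (C.symH _ _ hh))
              have n560 : ¬ h (0, -1, 1) (0, 0, 1) := fun hh => n116 (C.bH1 (0, 0, 0) (0, 0, 1) (0, -1, 0) (0, -1, 1) rfl p125 p128 (C.symH _ _ hh))
              have n585 : ¬ e (0, 0, 1) (1, 0, 1) := fun hh => n127 (C.endE _ _ hh)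
              have n583 : ¬ e (0, 0, 0) (0, 0, 1) := fun hh => n127 (C.endE _ _ (C.symE _ _ hh))
              have p553 : e (0, -1, 0) (0, 0, 0) := or5 (C.twoE (0, 0, 0) (1, 0, 0) (0, 1, 0) (0, -1, 0) (0, 0, 1) (0, 0, -1) rfl p125) (fun q => absurd q n579) (fun q => absurd q n581) (fun q => (C.symE _ _ q)) (fun q => absurd q n583) (fun q => absurd (C.symE _ _ q) n577)
              have p115 : u (0, -1, 0) := C.endE _ _ p553
              have n166 : ¬ w (1, -1, 0) := fun hh => n175 (C.bE1 (0, -1, 0) (1, -1, 0) (0, 0, 0) (1, 0, 0) rfl p115 hh p553)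
              have n114 : ¬ w (0, -1, -1) := fun hh => n123 (C.bE1 (0, -1, 0) (0, -1, -1) (0, 0, 0) (0, 0, -1) rfl p115 hh p553)
              have p165 : u (1, -1, 0) := C.bE1 (0, 0, 0) (1, 0, 0) (0, -1, 0) (1, -1, 0) rfl p125 p176 (C.symE _ _ p553)
              have n551 : ¬ e (0, -1, 0) (1, -1, 0) := fun hh => C.bE2 (0, 0, 0) (1, 0, 0) (0, -1, 0) (1, -1, 0) rfl p125 p176 (C.symE _ _ p553) hh
              have p113 : u (0, -1, -1) := C.bE1 (0, 0, 0) (0, 0, -1) (0, -1, 0) (0, -1, -1) rfl p125 p124 (C.symE _ _ p553)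
              have n680 : ¬ h (1, -1, -1) (1, -1, 0) := fun hh => n166 (C.endH _ _ (C.symH _ _ hh))
              have n546 : ¬ h (0, -1, -1) (1, -1, -1) := fun hh => n114 (C.endH _ _ hh)
              have n679 : ¬ e (1, -1, -1) (1, -1, 0) := fun hh => n173 (C.bE1 (1, -1, 0) (1, 0, 0) (1, -1, -1) (1, 0, -1) rfl p165 p176 (C.symE _ _ hh))
              have p164 : w (1, -1, -1) := C.bH1 (0, -1, -1) (0, 0, -1) (1, -1, -1) (1, 0, -1) rfl p113 p124 p574
              have n678 : ¬ h (1, -1, -1) (1, 0, -1) := fun hh => C.bH2 (0, -1, -1) (0, 0, -1) (1, -1, -1) (1, 0, -1) rfl p113 p124 p574 (C.symH _ _ hh)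
              rcases Classical.em (u (1, 0, 1)) with p177 | n177
              · have n178 : ¬ w (1, 0, 1) := fun hh => C.dis _ p177 hh
                have n586 : ¬ h (0, 0, 1) (1, 0, 1) := fun hh => n178 (C.endH _ _ (C.symH _ _ hh))
                have n714 : ¬ h (1, 0, 0) (1, 0, 1) := fun hh => n178 (C.endH _ _ (C.symH _ _ hh))
                have p590 : h (0, 0, 1) (0, 0, 2) := or5 (C.twoH (0, 0, 1) (1, 0, 1) (-1, 0, 1) (0, -1, 1) (0, 0, 2) (0, 0, 0) rfl p128) (fun q => absurd q n586) (fun q => absurd (C.symH _ _ q) n456) (fun q => absurd (C.symH _ _ q) n560) (fun q => q) (fun q => absurd (C.symH _ _ q) n584)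
                have p588 : h (0, 0, 1) (0, 1, 1) := or5 (C.twoH (0, 0, 1) (1, 0, 1) (-1, 0, 1) (0, 1, 1) (0, -1, 1) (0, 0, 0) rfl p128) (fun q => absurd q n586) (fun q => absurd (C.symH _ _ q) n456) (fun q => q) (fun q => absurd (C.symH _ _ q) n560) (fun q => absurd (C.symH _ _ q) n584)
                have p710 : h (1, 0, 0) (2, 0, 0) := or5 (C.twoH (1, 0, 0) (2, 0, 0) (0, 0, 0) (1, -1, 0) (1, 0, 1) (1, 0, -1) rfl p176) (fun q => q) (fun q => absurd (C.symH _ _ q) n580) (fun q => absurd (C.symH _ _ q) n684) (fun q => absurd q n714) (fun q => absurd (C.symH _ _ q) n708)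
                have p130 : w (0, 0, 2) := C.endH _ _ (C.symH _ _ p590)
                have p138 : w (0, 1, 1) := C.endH _ _ (C.symH _ _ p588)
                have n187 : ¬ u (1, 1, 1) := fun hh => n178 (C.bH1 (1, 1, 1) (0, 1, 1) (1, 0, 1) (0, 0, 1) rfl hh p138 (C.symH _ _ p588))
                have p226 : w (2, 0, 0) := C.endH _ _ (C.symH _ _ p710)
                have n129 : ¬ u (0, 0, 2) := fun hh => C.dis _ hh p130
                have n717 : ¬ e (1, 0, 1) (1, 1, 1) := fun hh => n187 (C.endE _ _ (C.symE _ _ hh))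
                have n225 : ¬ u (2, 0, 0) := fun hh => C.dis _ hh p226
                have n719 : ¬ e (1, 0, 1) (1, 0, 2) := fun hh => n129 (C.bE1 (1, 0, 1) (0, 0, 1) (1, 0, 2) (0, 0, 2) rfl p177 p128 hh)
                have p715 : e (1, 0, 1) (2, 0, 1) := or5 (C.twoE (1, 0, 1) (2, 0, 1) (0, 0, 1) (1, 1, 1) (1, 0, 2) (1, 0, 0) rfl p177) (fun q => q) (fun q => absurd (C.symE _ _ q) n585) (fun q => absurd q n717) (fun q => absurd q n719) (fun q => absurd (C.symE _ _ q) n713)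
                exact n225 (C.bE1 (1, 0, 1) (1, 0, 0) (2, 0, 1) (2, 0, 0) rfl p177 p176 p715)
              · have n685 : ¬ e (1, -1, 0) (1, -1, 1) := fun hh => n177 (C.bE1 (1, -1, 0) (1, 0, 0) (1, -1, 1) (1, 0, 1) rfl p165 p176 hh)
                have p655 : e (1, -2, 0) (1, -1, 0) := or5 (C.twoE (1, -1, 0) (0, -1, 0) (1, 0, 0) (1, -2, 0) (1, -1, 1) (1, -1, -1) rfl p165) (fun q => absurd (C.symE _ _ q) n551) (fun q => absurd q n683) (fun q => (C.symE _ _ q)) (fun q => absurd q n685) (fun q => absurd (C.symE _ _ q) n679)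
                have p681 : e (1, -1, 0) (2, -1, 0) := or5 (C.twoE (1, -1, 0) (2, -1, 0) (0, -1, 0) (1, 0, 0) (1, -1, 1) (1, -1, -1) rfl p165) (fun q => q) (fun q => absurd (C.symE _ _ q) n551) (fun q => absurd q n683) (fun q => absurd q n685) (fun q => absurd (C.symE _ _ q) n679)
                have p155 : u (1, -2, 0) := C.endE _ _ p655
                have p215 : u (2, -1, 0) := C.endE _ _ (C.symE _ _ p681)
                have n156 : ¬ w (1, -2, 0) := fun hh => C.dis _ p155 hh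
                have n216 : ¬ w (2, -1, 0) := fun hh => C.dis _ p215 hh
                have n650 : ¬ h (1, -2, -1) (1, -1, -1) := fun hh => n156 (C.bH1 (1, -1, 0) (1, -1, -1) (1, -2, 0) (1, -2, -1) rfl p165 p164 (C.symH _ _ hh))
                have n676 : ¬ h (1, -1, -1) (2, -1, -1) := fun hh => n216 (C.bH1 (1, -1, 0) (1, -1, -1) (2, -1, 0) (2, -1, -1) rfl p165 p164 hh)
                exact or5 (C.twoH (1, -1, -1) (2, -1, -1) (0, -1, -1) (1, 0, -1) (1, -2, -1) (1, -1, 0) rfl p164) (fun q => n676 q) (fun q => n546 (C.symH _ _ q)) (fun q => n678 q) (fun q => n650 (C.symH _ _ q)) (fun q => n680 q)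
            · have n714 : ¬ h (1, 0, 0) (1, 0, 1) := fun hh => n128 (C.bH1 (0, 0, 0) (1, 0, 0) (0, 0, 1) (1, 0, 1) rfl p125 p176 hh)
              have n612 : ¬ h (0, 1, 0) (0, 1, 1) := fun hh => n128 (C.bH1 (0, 0, 0) (0, 1, 0) (0, 0, 1) (0, 1, 1) rfl p125 p136 hh)
              have p712 : h (1, 0, 0) (1, 1, 0) := or5 (C.twoH (1, 0, 0) (0, 0, 0) (1, 1, 0) (1, -1, 0) (1, 0, 1) (1, 0, -1) rfl p176) (fun q => absurd (C.symH _ _ q) n580) (fun q => q) (fun q => absurd (C.symH _ _ q) n684) (fun q => absurd q n714) (fun q => absurd (C.symH _ _ q) n708)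
              have p186 : w (1, 1, 0) := C.endH _ _ (C.symH _ _ p712)
              have n608 : ¬ h (0, 1, 0) (1, 1, 0) := fun hh => C.bH2 (0, 0, 0) (1, 0, 0) (0, 1, 0) (1, 1, 0) rfl p125 p176 p712 (C.symH _ _ hh)
              have n185 : ¬ u (1, 1, 0) := fun hh => C.dis _ hh p186
              have p606 : h (0, 1, -1) (0, 1, 0) := or5 (C.twoH (0, 1, 0) (1, 1, 0) (-1, 1, 0) (0, 0, 0) (0, 1, 1) (0, 1, -1) rfl p136) (fun q => absurd q n608) (fun q => absurd (C.symH _ _ q) n478) (fun q => absurd (C.symH _ _ q) n582) (fun q => absurd q n612) (fun q => (C.symH _ _ q))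
              have p610 : h (0, 1, 0) (0, 2, 0) := or5 (C.twoH (0, 1, 0) (1, 1, 0) (-1, 1, 0) (0, 2, 0) (0, 0, 0) (0, 1, 1) rfl p136) (fun q => absurd q n608) (fun q => absurd (C.symH _ _ q) n478) (fun q => q) (fun q => absurd (C.symH _ _ q) n582) (fun q => absurd q n612)
              have p134 : w (0, 1, -1) := C.endH _ _ p606
              have n83 : ¬ u (-1, 1, -1) := fun hh => n86 (C.bH1 (-1, 1, -1) (0, 1, -1) (-1, 1, 0) (0, 1, 0) rfl hh p134 p606)
              have n576 : ¬ h (0, 0, -1) (0, 1, -1) := fun hh => C.bH2 (0, 0, 0) (0, 1, 0) (0, 0, -1) (0, 1, -1) rfl p125 p136 (C.symH _ _ p606) (C.symH _ _ hh)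
              have p146 : w (0, 2, 0) := C.endH _ _ (C.symH _ _ p610)
              have n445 : ¬ e (-1, 0, -1) (-1, 1, -1) := fun hh => n83 (C.endE _ _ (C.symE _ _ hh))
              have n475 : ¬ e (-1, 1, -1) (-1, 1, 0) := fun hh => n83 (C.endE _ _ hh)
              have p572 : h (0, 0, -2) (0, 0, -1) := or5 (C.twoH (0, 0, -1) (-1, 0, -1) (0, 1, -1) (0, -1, -1) (0, 0, 0) (0, 0, -2) rfl p124) (fun q => absurd (C.symH _ _ q) n444) (fun q => absurd q n576) (fun q => absurd (C.symH _ _ q) n548) (fun q => absurd q n578) (fun q => (C.symH _ _ q))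
              have n145 : ¬ u (0, 2, 0) := fun hh => C.dis _ hh p146
              have p122 : w (0, 0, -2) := C.endH _ _ p572
              have n479 : ¬ e (-1, 1, 0) (-1, 2, 0) := fun hh => n145 (C.bE1 (-1, 1, 0) (0, 1, 0) (-1, 2, 0) (0, 2, 0) rfl p85 p136 hh)
              have n121 : ¬ u (0, 0, -2) := fun hh => C.dis _ hh p122
              have p481 : e (-1, 1, 0) (-1, 1, 1) := or5 (C.twoE (-1, 1, 0) (0, 1, 0) (-1, 2, 0) (-1, 0, 0) (-1, 1, 1) (-1, 1, -1) rfl p85) (fun q => absurd q n477) (fun q => absurd q n479) (fun q => absurd (C.symE _ _ q) n451) (fun q => q) (fun q => absurd (C.symE _ _ q) n475)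
              have n441 : ¬ e (-1, 0, -2) (-1, 0, -1) := fun hh => n121 (C.bE1 (-1, 0, -1) (0, 0, -1) (-1, 0, -2) (0, 0, -2) rfl p73 p124 (C.symE _ _ hh))
              have p137 : u (0, 1, 1) := C.bE1 (-1, 1, 0) (0, 1, 0) (-1, 1, 1) (0, 1, 1) rfl p85 p136 p481
              have n483 : ¬ e (-1, 1, 1) (0, 1, 1) := fun hh => C.bE2 (-1, 1, 0) (0, 1, 0) (-1, 1, 1) (0, 1, 1) rfl p85 p136 p481 hh
              have p417 : e (-1, -1, -1) (-1, 0, -1) := or5 (C.twoE (-1, 0, -1) (0, 0, -1) (-1, 1, -1) (-1, -1, -1) (-1, 0, 0) (-1, 0, -2) rfl p73) (fun q => absurd q n443) (fun q => absurd q n445) (fun q => (C.symE _ _ q)) (fun q => absurd q n447) (fun q => absurd (C.symE _ _ q) n441)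
              have n613 : ¬ e (0, 1, 1) (1, 1, 1) := fun hh => n185 (C.bE1 (0, 1, 1) (0, 1, 0) (1, 1, 1) (1, 1, 0) rfl p137 p136 hh)
              have n615 : ¬ e (0, 1, 1) (0, 2, 1) := fun hh => n145 (C.bE1 (0, 1, 1) (0, 1, 0) (0, 2, 1) (0, 2, 0) rfl p137 p136 hh)
              have p587 : e (0, 0, 1) (0, 1, 1) := or5 (C.twoE (0, 1, 1) (1, 1, 1) (-1, 1, 1) (0, 2, 1) (0, 0, 1) (0, 1, 0) rfl p137) (fun q => absurd q n613) (fun q => absurd (C.symE _ _ q) n483) (fun q => absurd q n615) (fun q => (C.symE _ _ q)) (fun q => absurd (C.symE _ _ q) n611)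
              have p113 : u (0, -1, -1) := C.bE1 (-1, 0, -1) (0, 0, -1) (-1, -1, -1) (0, -1, -1) rfl p73 p124 (C.symE _ _ p417)
              have n415 : ¬ e (-1, -1, -1) (0, -1, -1) := fun hh => C.bE2 (-1, 0, -1) (0, 0, -1) (-1, -1, -1) (0, -1, -1) rfl p73 p124 (C.symE _ _ p417) hh
              have n583 : ¬ e (0, 0, 0) (0, 0, 1) := fun hh => C.bE2 (0, 0, 0) (0, 1, 0) (0, 0, 1) (0, 1, 1) rfl p125 p136 hh p587
              have n545 : ¬ e (0, -1, -1) (1, -1, -1) := fun hh => n173 (C.bE1 (0, -1, -1) (0, 0, -1) (1, -1, -1) (1, 0, -1) rfl p113 p124 hh)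
              have n543 : ¬ e (0, -1, -2) (0, -1, -1) := fun hh => n121 (C.bE1 (0, -1, -1) (0, 0, -1) (0, -1, -2) (0, 0, -2) rfl p113 p124 (C.symE _ _ hh))
              have p549 : e (0, -1, -1) (0, -1, 0) := or5 (C.twoE (0, -1, -1) (1, -1, -1) (-1, -1, -1) (0, 0, -1) (0, -1, 0) (0, -1, -2) rfl p113) (fun q => absurd q n545) (fun q => absurd (C.symE _ _ q) n415) (fun q => absurd q n547) (fun q => q) (fun q => absurd (C.symE _ _ q) n543)
              have p553 : e (0, -1, 0) (0, 0, 0) := or5 (C.twoE (0, 0, 0) (1, 0, 0) (0, 1, 0) (0, -1, 0) (0, 0, 1) (0, 0, -1) rfl p125) (fun q => absurd q n579) (fun q => absurd q n581) (fun q => (C.symE _ _ q)) (fun q => absurd q n583) (fun q => absurd (C.symE _ _ q) n577)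
              exact C.bE2 (0, -1, -1) (0, 0, -1) (0, -1, 0) (0, 0, 0) rfl p113 p124 p549 p553
          · have p572 : h (0, 0, -2) (0, 0, -1) := or5 (C.twoH (0, 0, -1) (1, 0, -1) (-1, 0, -1) (0, -1, -1) (0, 0, 0) (0, 0, -2) rfl p124) (fun q => absurd q n574) (fun q => absurd (C.symH _ _ q) n444) (fun q => absurd (C.symH _ _ q) n548) (fun q => absurd q n578) (fun q => (C.symH _ _ q))
            have p576 : h (0, 0, -1) (0, 1, -1) := or5 (C.twoH (0, 0, -1) (1, 0, -1) (-1, 0, -1) (0, 1, -1) (0, -1, -1) (0, 0, 0) rfl p124) (fun q => absurd q n574) (fun q => absurd (C.symH _ _ q) n444) (fun q => q) (fun q => absurd (C.symH _ _ q) n548) (fun q => absurd q n578)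
            have p122 : w (0, 0, -2) := C.endH _ _ p572
            have p134 : w (0, 1, -1) := C.endH _ _ (C.symH _ _ p576)
            have p84 : w (-1, 1, -1) := C.bH1 (-1, 0, -1) (0, 0, -1) (-1, 1, -1) (0, 1, -1) rfl p73 p124 p576
            have n472 : ¬ h (-1, 1, -1) (0, 1, -1) := fun hh => C.bH2 (-1, 0, -1) (0, 0, -1) (-1, 1, -1) (0, 1, -1) rfl p73 p124 p576 (C.symH _ _ hh)
            have n83 : ¬ u (-1, 1, -1) := fun hh => n74 (C.bH1 (-1, 1, -1) (0, 1, -1) (-1, 0, -1) (0, 0, -1) rfl hh p134 (C.symH _ _ p576))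
            have n606 : ¬ h (0, 1, -1) (0, 1, 0) := fun hh => C.bH2 (0, 0, 0) (0, 1, 0) (0, 0, -1) (0, 1, -1) rfl p125 p136 (C.symH _ _ hh) (C.symH _ _ p576)
            have n121 : ¬ u (0, 0, -2) := fun hh => C.dis _ hh p122
            have n445 : ¬ e (-1, 0, -1) (-1, 1, -1) := fun hh => n83 (C.endE _ _ (C.symE _ _ hh))
            have n475 : ¬ e (-1, 1, -1) (-1, 1, 0) := fun hh => n83 (C.endE _ _ hh)
            have n441 : ¬ e (-1, 0, -2) (-1, 0, -1) := fun hh => n121 (C.bE1 (-1, 0, -1) (0, 0, -1) (-1, 0, -2) (0, 0, -2) rfl p73 p124 (C.symE _ _ hh))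
            have p417 : e (-1, -1, -1) (-1, 0, -1) := or5 (C.twoE (-1, 0, -1) (0, 0, -1) (-1, 1, -1) (-1, -1, -1) (-1, 0, 0) (-1, 0, -2) rfl p73) (fun q => absurd q n443) (fun q => absurd q n445) (fun q => (C.symE _ _ q)) (fun q => absurd q n447) (fun q => absurd (C.symE _ _ q) n441)
            have p313 : e (-2, 0, -1) (-1, 0, -1) := or5 (C.twoE (-1, 0, -1) (0, 0, -1) (-2, 0, -1) (-1, 1, -1) (-1, 0, 0) (-1, 0, -2) rfl p73) (fun q => absurd q n443) (fun q => (C.symE _ _ q)) (fun q => absurd q n445) (fun q => absurd q n447) (fun q => absurd (C.symE _ _ q) n441)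
            have p113 : u (0, -1, -1) := C.bE1 (-1, 0, -1) (0, 0, -1) (-1, -1, -1) (0, -1, -1) rfl p73 p124 (C.symE _ _ p417)
            have n415 : ¬ e (-1, -1, -1) (0, -1, -1) := fun hh => C.bE2 (-1, 0, -1) (0, 0, -1) (-1, -1, -1) (0, -1, -1) rfl p73 p124 (C.symE _ _ p417) hh
            have p23 : u (-2, 0, -1) := C.endE _ _ p313
            have n543 : ¬ e (0, -1, -2) (0, -1, -1) := fun hh => n121 (C.bE1 (0, -1, -1) (0, 0, -1) (0, -1, -2) (0, 0, -2) rfl p113 p124 (C.symE _ _ hh))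
            have n24 : ¬ w (-2, 0, -1) := fun hh => C.dis _ p23 hh
            have n342 : ¬ h (-2, 1, -1) (-1, 1, -1) := fun hh => n24 (C.bH1 (-1, 0, -1) (-1, 1, -1) (-2, 0, -1) (-2, 1, -1) rfl p73 p84 (C.symH _ _ hh))
            have p474 : h (-1, 1, -1) (-1, 2, -1) := or5 (C.twoH (-1, 1, -1) (0, 1, -1) (-2, 1, -1) (-1, 2, -1) (-1, 0, -1) (-1, 1, 0) rfl p84) (fun q => absurd q n472) (fun q => absurd (C.symH _ _ q) n342) (fun q => q) (fun q => absurd (C.symH _ _ q) n446) (fun q => absurd q n476)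
            have p94 : w (-1, 2, -1) := C.endH _ _ (C.symH _ _ p474)
            have n93 : ¬ u (-1, 2, -1) := fun hh => C.dis _ hh p94
            have n479 : ¬ e (-1, 1, 0) (-1, 2, 0) := fun hh => n93 (C.bE1 (-1, 1, 0) (-1, 1, -1) (-1, 2, 0) (-1, 2, -1) rfl p85 p84 hh)
            have p481 : e (-1, 1, 0) (-1, 1, 1) := or5 (C.twoE (-1, 1, 0) (0, 1, 0) (-1, 2, 0) (-1, 0, 0) (-1, 1, 1) (-1, 1, -1) rfl p85) (fun q => absurd q n477) (fun q => absurd q n479) (fun q => absurd (C.symE _ _ q) n451) (fun q => q) (fun q => absurd (C.symE _ _ q) n475)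
            have p87 : u (-1, 1, 1) := C.endE _ _ (C.symE _ _ p481)
            have p137 : u (0, 1, 1) := C.bE1 (-1, 1, 0) (0, 1, 0) (-1, 1, 1) (0, 1, 1) rfl p85 p136 p481
            have n483 : ¬ e (-1, 1, 1) (0, 1, 1) := fun hh => C.bE2 (-1, 1, 0) (0, 1, 0) (-1, 1, 1) (0, 1, 1) rfl p85 p136 p481 hh
            have n138 : ¬ w (0, 1, 1) := fun hh => n135 (C.bE1 (-1, 1, 1) (0, 1, 1) (-1, 1, 0) (0, 1, 0) rfl p87 hh (C.symE _ _ p481))
            have n612 : ¬ h (0, 1, 0) (0, 1, 1) := fun hh => n138 (C.endH _ _ (C.symH _ _ hh))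
            have p610 : h (0, 1, 0) (0, 2, 0) := or5 (C.twoH (0, 1, 0) (-1, 1, 0) (0, 2, 0) (0, 0, 0) (0, 1, 1) (0, 1, -1) rfl p136) (fun q => absurd (C.symH _ _ q) n478) (fun q => q) (fun q => absurd (C.symH _ _ q) n582) (fun q => absurd q n612) (fun q => absurd (C.symH _ _ q) n606)
            have p608 : h (0, 1, 0) (1, 1, 0) := or5 (C.twoH (0, 1, 0) (1, 1, 0) (-1, 1, 0) (0, 0, 0) (0, 1, 1) (0, 1, -1) rfl p136) (fun q => q) (fun q => absurd (C.symH _ _ q) n478) (fun q => absurd (C.symH _ _ q) n582) (fun q => absurd q n612) (fun q => absurd (C.symH _ _ q) n606)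
            have p146 : w (0, 2, 0) := C.endH _ _ (C.symH _ _ p610)
            have p186 : w (1, 1, 0) := C.endH _ _ (C.symH _ _ p608)
            have n712 : ¬ h (1, 0, 0) (1, 1, 0) := fun hh => C.bH2 (0, 0, 0) (1, 0, 0) (0, 1, 0) (1, 1, 0) rfl p125 p176 hh (C.symH _ _ p608)
            have n187 : ¬ u (1, 1, 1) := fun hh => n138 (C.bH1 (1, 1, 1) (1, 1, 0) (0, 1, 1) (0, 1, 0) rfl hh p186 (C.symH _ _ p608))
            have n145 : ¬ u (0, 2, 0) := fun hh => C.dis _ hh p146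
            have n613 : ¬ e (0, 1, 1) (1, 1, 1) := fun hh => n187 (C.endE _ _ (C.symE _ _ hh))
            have n615 : ¬ e (0, 1, 1) (0, 2, 1) := fun hh => n145 (C.bE1 (0, 1, 1) (0, 1, 0) (0, 2, 1) (0, 2, 0) rfl p137 p136 hh)
            have p587 : e (0, 0, 1) (0, 1, 1) := or5 (C.twoE (0, 1, 1) (1, 1, 1) (-1, 1, 1) (0, 2, 1) (0, 0, 1) (0, 1, 0) rfl p137) (fun q => absurd q n613) (fun q => absurd (C.symE _ _ q) n483) (fun q => absurd q n615) (fun q => (C.symE _ _ q)) (fun q => absurd (C.symE _ _ q) n611)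
            have p127 : u (0, 0, 1) := C.endE _ _ p587
            have n583 : ¬ e (0, 0, 0) (0, 0, 1) := fun hh => C.bE2 (0, 0, 0) (0, 1, 0) (0, 0, 1) (0, 1, 1) rfl p125 p136 hh p587
            have n178 : ¬ w (1, 0, 1) := fun hh => n187 (C.bE1 (0, 0, 1) (1, 0, 1) (0, 1, 1) (1, 1, 1) rfl p127 hh p587)
            have p553 : e (0, -1, 0) (0, 0, 0) := or5 (C.twoE (0, 0, 0) (1, 0, 0) (0, 1, 0) (0, -1, 0) (0, 0, 1) (0, 0, -1) rfl p125) (fun q => absurd q n579) (fun q => absurd q n581) (fun q => (C.symE _ _ q)) (fun q => absurd q n583) (fun q => absurd (C.symE _ _ q) n577)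
            have n714 : ¬ h (1, 0, 0) (1, 0, 1) := fun hh => n178 (C.endH _ _ (C.symH _ _ hh))
            have p115 : u (0, -1, 0) := C.endE _ _ p553
            have n549 : ¬ e (0, -1, -1) (0, -1, 0) := fun hh => C.bE2 (0, -1, -1) (0, 0, -1) (0, -1, 0) (0, 0, 0) rfl p113 p124 hh p553
            have n166 : ¬ w (1, -1, 0) := fun hh => n175 (C.bE1 (0, -1, 0) (1, -1, 0) (0, 0, 0) (1, 0, 0) rfl p115 hh p553)
            have p708 : h (1, 0, -1) (1, 0, 0) := or5 (C.twoH (1, 0, 0) (0, 0, 0) (1, 1, 0) (1, -1, 0) (1, 0, 1) (1, 0, -1) rfl p176) (fun q => absurd (C.symH _ _ q) n580) (fun q => absurd q n712) (fun q => absurd (C.symH _ _ q) n684) (fun q => absurd q n714) (fun q => (C.symH _ _ q))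
            have p545 : e (0, -1, -1) (1, -1, -1) := or5 (C.twoE (0, -1, -1) (1, -1, -1) (-1, -1, -1) (0, 0, -1) (0, -1, 0) (0, -1, -2) rfl p113) (fun q => q) (fun q => absurd (C.symE _ _ q) n415) (fun q => absurd q n547) (fun q => absurd q n549) (fun q => absurd (C.symE _ _ q) n543)
            have p174 : w (1, 0, -1) := C.endH _ _ p708
            have n163 : ¬ u (1, -1, -1) := fun hh => n166 (C.bH1 (1, -1, -1) (1, 0, -1) (1, -1, 0) (1, 0, 0) rfl hh p174 p708)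
            exact n163 (C.endE _ _ (C.symE _ _ p545))
        · have p583 : e (0, 0, 0) (0, 0, 1) := or5 (C.twoE (0, 0, 0) (1, 0, 0) (-1, 0, 0) (0, 1, 0) (0, 0, 1) (0, 0, -1) rfl p125) (fun q => absurd q n579) (fun q => absurd (C.symE _ _ q) n449) (fun q => absurd q n581) (fun q => q) (fun q => absurd (C.symE _ _ q) n577)
          have p553 : e (0, -1, 0) (0, 0, 0) := or5 (C.twoE (0, 0, 0) (1, 0, 0) (-1, 0, 0) (0, 1, 0) (0, -1, 0) (0, 0, -1) rfl p125) (fun q => absurd q n579) (fun q => absurd (C.symE _ _ q) n449) (fun q => absurd q n581) (fun q => (C.symE _ _ q)) (fun q => absurd (C.symE _ _ q) n577)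
          have p127 : u (0, 0, 1) := C.endE _ _ (C.symE _ _ p583)
          have p177 : u (1, 0, 1) := C.bE1 (0, 0, 0) (1, 0, 0) (0, 0, 1) (1, 0, 1) rfl p125 p176 p583
          have n585 : ¬ e (0, 0, 1) (1, 0, 1) := fun hh => C.bE2 (0, 0, 0) (1, 0, 0) (0, 0, 1) (1, 0, 1) rfl p125 p176 p583 hh
          have p137 : u (0, 1, 1) := C.bE1 (0, 0, 0) (0, 1, 0) (0, 0, 1) (0, 1, 1) rfl p125 p136 p583
          have n587 : ¬ e (0, 0, 1) (0, 1, 1) := fun hh => C.bE2 (0, 0, 0) (0, 1, 0) (0, 0, 1) (0, 1, 1) rfl p125 p136 p583 hh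
          have n178 : ¬ w (1, 0, 1) := fun hh => n175 (C.bE1 (0, 0, 1) (1, 0, 1) (0, 0, 0) (1, 0, 0) rfl p127 hh (C.symE _ _ p583))
          have n138 : ¬ w (0, 1, 1) := fun hh => n135 (C.bE1 (0, 0, 1) (0, 1, 1) (0, 0, 0) (0, 1, 0) rfl p127 hh (C.symE _ _ p583))
          have p115 : u (0, -1, 0) := C.endE _ _ p553
          have n166 : ¬ w (1, -1, 0) := fun hh => n175 (C.bE1 (0, -1, 0) (1, -1, 0) (0, 0, 0) (1, 0, 0) rfl p115 hh p553)
          have n114 : ¬ w (0, -1, -1) := fun hh => n123 (C.bE1 (0, -1, 0) (0, -1, -1) (0, 0, 0) (0, 0, -1) rfl p115 hh p553)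
          have p165 : u (1, -1, 0) := C.bE1 (0, 0, 0) (1, 0, 0) (0, -1, 0) (1, -1, 0) rfl p125 p176 (C.symE _ _ p553)
          have n551 : ¬ e (0, -1, 0) (1, -1, 0) := fun hh => C.bE2 (0, 0, 0) (1, 0, 0) (0, -1, 0) (1, -1, 0) rfl p125 p176 (C.symE _ _ p553) hh
          have p113 : u (0, -1, -1) := C.bE1 (0, 0, 0) (0, 0, -1) (0, -1, 0) (0, -1, -1) rfl p125 p124 (C.symE _ _ p553)
          have n549 : ¬ e (0, -1, -1) (0, -1, 0) := fun hh => C.bE2 (0, 0, 0) (0, 0, -1) (0, -1, 0) (0, -1, -1) rfl p125 p124 (C.symE _ _ p553) (C.symE _ _ hh)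
          have n714 : ¬ h (1, 0, 0) (1, 0, 1) := fun hh => n178 (C.endH _ _ (C.symH _ _ hh))
          have n612 : ¬ h (0, 1, 0) (0, 1, 1) := fun hh => n138 (C.endH _ _ (C.symH _ _ hh))
          have n680 : ¬ h (1, -1, -1) (1, -1, 0) := fun hh => n166 (C.endH _ _ (C.symH _ _ hh))
          have n546 : ¬ h (0, -1, -1) (1, -1, -1) := fun hh => n114 (C.endH _ _ hh)
          rcases Classical.em (h (1, 0, -1) (1, 0, 0)) with p708 | n708
          · have p174 : w (1, 0, -1) := C.endH _ _ p708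
            have n574 : ¬ h (0, 0, -1) (1, 0, -1) := fun hh => C.bH2 (0, 0, 0) (1, 0, 0) (0, 0, -1) (1, 0, -1) rfl p125 p176 (C.symH _ _ p708) (C.symH _ _ hh)
            have n163 : ¬ u (1, -1, -1) := fun hh => n166 (C.bH1 (1, -1, -1) (1, 0, -1) (1, -1, 0) (1, 0, 0) rfl hh p174 p708)
            have p164 : w (1, -1, -1) := C.bH1 (1, -1, 0) (1, 0, 0) (1, -1, -1) (1, 0, -1) rfl p165 p176 (C.symH _ _ p708)
            have n678 : ¬ h (1, -1, -1) (1, 0, -1) := fun hh => C.bH2 (1, -1, 0) (1, 0, 0) (1, -1, -1) (1, 0, -1) rfl p165 p176 (C.symH _ _ p708) (C.symH _ _ hh)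
            have n545 : ¬ e (0, -1, -1) (1, -1, -1) := fun hh => n163 (C.endE _ _ (C.symE _ _ hh))
            rcases Classical.em (w (-1, -1, -1)) with p64 | n64
            · have n63 : ¬ u (-1, -1, -1) := fun hh => C.dis _ hh p64
              have n415 : ¬ e (-1, -1, -1) (0, -1, -1) := fun hh => n63 (C.endE _ _ hh)
              have p543 : e (0, -1, -2) (0, -1, -1) := or5 (C.twoE (0, -1, -1) (1, -1, -1) (-1, -1, -1) (0, 0, -1) (0, -1, 0) (0, -1, -2) rfl p113) (fun q => absurd q n545) (fun q => absurd (C.symE _ _ q) n415) (fun q => absurd q n547) (fun q => absurd q n549) (fun q => (C.symE _ _ q))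
              have p519 : e (0, -2, -1) (0, -1, -1) := or5 (C.twoE (0, -1, -1) (1, -1, -1) (-1, -1, -1) (0, 0, -1) (0, -2, -1) (0, -1, 0) rfl p113) (fun q => absurd q n545) (fun q => absurd (C.symE _ _ q) n415) (fun q => absurd q n547) (fun q => (C.symE _ _ q)) (fun q => absurd q n549)
              have p111 : u (0, -1, -2) := C.endE _ _ p543
              have p103 : u (0, -2, -1) := C.endE _ _ p519
              have n112 : ¬ w (0, -1, -2) := fun hh => C.dis _ p111 hh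
              have n104 : ¬ w (0, -2, -1) := fun hh => C.dis _ p103 hh
              have n674 : ¬ h (1, -1, -2) (1, -1, -1) := fun hh => n112 (C.bH1 (0, -1, -1) (1, -1, -1) (0, -1, -2) (1, -1, -2) rfl p113 p164 (C.symH _ _ hh))
              have n650 : ¬ h (1, -2, -1) (1, -1, -1) := fun hh => n104 (C.bH1 (0, -1, -1) (1, -1, -1) (0, -2, -1) (1, -2, -1) rfl p113 p164 (C.symH _ _ hh))
              exact or5 (C.twoH (1, -1, -1) (0, -1, -1) (1, 0, -1) (1, -2, -1) (1, -1, 0) (1, -1, -2) rfl p164) (fun q => n546 (C.symH _ _ q)) (fun q => n678 q) (fun q => n650 (C.symH _ _ q)) (fun q => n680 q) (fun q => n674 (C.symH _ _ q))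
            · have n444 : ¬ h (-1, 0, -1) (0, 0, -1) := fun hh => n64 (C.bH1 (0, -1, -1) (0, 0, -1) (-1, -1, -1) (-1, 0, -1) rfl p113 p124 (C.symH _ _ hh))
              have p572 : h (0, 0, -2) (0, 0, -1) := or5 (C.twoH (0, 0, -1) (1, 0, -1) (-1, 0, -1) (0, -1, -1) (0, 0, 0) (0, 0, -2) rfl p124) (fun q => absurd q n574) (fun q => absurd (C.symH _ _ q) n444) (fun q => absurd (C.symH _ _ q) n548) (fun q => absurd q n578) (fun q => (C.symH _ _ q))
              have p576 : h (0, 0, -1) (0, 1, -1) := or5 (C.twoH (0, 0, -1) (1, 0, -1) (-1, 0, -1) (0, 1, -1) (0, -1, -1) (0, 0, 0) rfl p124) (fun q => absurd q n574) (fun q => absurd (C.symH _ _ q) n444) (fun q => q) (fun q => absurd (C.symH _ _ q) n548) (fun q => absurd q n578)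
              have p122 : w (0, 0, -2) := C.endH _ _ p572
              have p134 : w (0, 1, -1) := C.endH _ _ (C.symH _ _ p576)
              have n606 : ¬ h (0, 1, -1) (0, 1, 0) := fun hh => C.bH2 (0, 0, 0) (0, 1, 0) (0, 0, -1) (0, 1, -1) rfl p125 p136 (C.symH _ _ hh) (C.symH _ _ p576)
              have n121 : ¬ u (0, 0, -2) := fun hh => C.dis _ hh p122
              have n133 : ¬ u (0, 1, -1) := fun hh => C.dis _ hh p134
              have n543 : ¬ e (0, -1, -2) (0, -1, -1) := fun hh => n121 (C.bE1 (0, -1, -1) (0, 0, -1) (0, -1, -2) (0, 0, -2) rfl p113 p124 (C.symE _ _ hh))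
              have p415 : e (-1, -1, -1) (0, -1, -1) := or5 (C.twoE (0, -1, -1) (1, -1, -1) (-1, -1, -1) (0, 0, -1) (0, -1, 0) (0, -1, -2) rfl p113) (fun q => absurd q n545) (fun q => (C.symE _ _ q)) (fun q => absurd q n547) (fun q => absurd q n549) (fun q => absurd (C.symE _ _ q) n543)
              have p63 : u (-1, -1, -1) := C.endE _ _ p415
              have n74 : ¬ w (-1, 0, -1) := fun hh => n123 (C.bE1 (-1, -1, -1) (-1, 0, -1) (0, -1, -1) (0, 0, -1) rfl p63 hh p415)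
              have p73 : u (-1, 0, -1) := C.bE1 (0, -1, -1) (0, 0, -1) (-1, -1, -1) (-1, 0, -1) rfl p113 p124 (C.symE _ _ p415)
              have n417 : ¬ e (-1, -1, -1) (-1, 0, -1) := fun hh => C.bE2 (0, -1, -1) (0, 0, -1) (-1, -1, -1) (-1, 0, -1) rfl p113 p124 (C.symE _ _ p415) hh
              have n83 : ¬ u (-1, 1, -1) := fun hh => n74 (C.bH1 (-1, 1, -1) (0, 1, -1) (-1, 0, -1) (0, 0, -1) rfl hh p134 (C.symH _ _ p576))
              have n445 : ¬ e (-1, 0, -1) (-1, 1, -1) := fun hh => n133 (C.bE1 (-1, 0, -1) (0, 0, -1) (-1, 1, -1) (0, 1, -1) rfl p73 p124 hh)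
              have p84 : w (-1, 1, -1) := C.bH1 (-1, 0, -1) (0, 0, -1) (-1, 1, -1) (0, 1, -1) rfl p73 p124 p576
              have n441 : ¬ e (-1, 0, -2) (-1, 0, -1) := fun hh => n121 (C.bE1 (-1, 0, -1) (0, 0, -1) (-1, 0, -2) (0, 0, -2) rfl p73 p124 (C.symE _ _ hh))
              have p447 : e (-1, 0, -1) (-1, 0, 0) := or5 (C.twoE (-1, 0, -1) (0, 0, -1) (-1, 1, -1) (-1, -1, -1) (-1, 0, 0) (-1, 0, -2) rfl p73) (fun q => absurd q n443) (fun q => absurd q n445) (fun q => absurd (C.symE _ _ q) n417) (fun q => q) (fun q => absurd (C.symE _ _ q) n441)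
              have n475 : ¬ e (-1, 1, -1) (-1, 1, 0) := fun hh => n83 (C.endE _ _ hh)
              have p85 : u (-1, 1, 0) := C.bE1 (-1, 0, -1) (-1, 1, -1) (-1, 0, 0) (-1, 1, 0) rfl p73 p84 p447
              have n451 : ¬ e (-1, 0, 0) (-1, 1, 0) := fun hh => C.bE2 (-1, 0, -1) (-1, 1, -1) (-1, 0, 0) (-1, 1, 0) rfl p73 p84 p447 hh
              have p75 : u (-1, 0, 0) := C.endE _ _ (C.symE _ _ p447)
              have n86 : ¬ w (-1, 1, 0) := fun hh => n83 (C.bE1 (-1, 0, 0) (-1, 1, 0) (-1, 0, -1) (-1, 1, -1) rfl p75 hh (C.symE _ _ p447))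
              have n478 : ¬ h (-1, 1, 0) (0, 1, 0) := fun hh => n86 (C.endH _ _ hh)
              have p610 : h (0, 1, 0) (0, 2, 0) := or5 (C.twoH (0, 1, 0) (-1, 1, 0) (0, 2, 0) (0, 0, 0) (0, 1, 1) (0, 1, -1) rfl p136) (fun q => absurd (C.symH _ _ q) n478) (fun q => q) (fun q => absurd (C.symH _ _ q) n582) (fun q => absurd q n612) (fun q => absurd (C.symH _ _ q) n606)
              have p608 : h (0, 1, 0) (1, 1, 0) := or5 (C.twoH (0, 1, 0) (1, 1, 0) (-1, 1, 0) (0, 0, 0) (0, 1, 1) (0, 1, -1) rfl p136) (fun q => q) (fun q => absurd (C.symH _ _ q) n478) (fun q => absurd (C.symH _ _ q) n582) (fun q => absurd q n612) (fun q => absurd (C.symH _ _ q) n606)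
              have p146 : w (0, 2, 0) := C.endH _ _ (C.symH _ _ p610)
              have p186 : w (1, 1, 0) := C.endH _ _ (C.symH _ _ p608)
              have n187 : ¬ u (1, 1, 1) := fun hh => n138 (C.bH1 (1, 1, 1) (1, 1, 0) (0, 1, 1) (0, 1, 0) rfl hh p186 (C.symH _ _ p608))
              have n145 : ¬ u (0, 2, 0) := fun hh => C.dis _ hh p146
              have n613 : ¬ e (0, 1, 1) (1, 1, 1) := fun hh => n187 (C.endE _ _ (C.symE _ _ hh))
              have n479 : ¬ e (-1, 1, 0) (-1, 2, 0) := fun hh => n145 (C.bE1 (-1, 1, 0) (0, 1, 0) (-1, 2, 0) (0, 2, 0) rfl p85 p136 hh)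
              have n615 : ¬ e (0, 1, 1) (0, 2, 1) := fun hh => n145 (C.bE1 (0, 1, 1) (0, 1, 0) (0, 2, 1) (0, 2, 0) rfl p137 p136 hh)
              have p483 : e (-1, 1, 1) (0, 1, 1) := or5 (C.twoE (0, 1, 1) (1, 1, 1) (-1, 1, 1) (0, 2, 1) (0, 0, 1) (0, 1, 0) rfl p137) (fun q => absurd q n613) (fun q => (C.symE _ _ q)) (fun q => absurd q n615) (fun q => absurd (C.symE _ _ q) n587) (fun q => absurd (C.symE _ _ q) n611)
              have p481 : e (-1, 1, 0) (-1, 1, 1) := or5 (C.twoE (-1, 1, 0) (0, 1, 0) (-1, 2, 0) (-1, 0, 0) (-1, 1, 1) (-1, 1, -1) rfl p85) (fun q => absurd q n477) (fun q => absurd q n479) (fun q => absurd (C.symE _ _ q) n451) (fun q => q) (fun q => absurd (C.symE _ _ q) n475)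
              exact C.bE2 (-1, 1, 0) (0, 1, 0) (-1, 1, 1) (0, 1, 1) rfl p85 p136 p481 p483
          · have p712 : h (1, 0, 0) (1, 1, 0) := or5 (C.twoH (1, 0, 0) (0, 0, 0) (1, 1, 0) (1, -1, 0) (1, 0, 1) (1, 0, -1) rfl p176) (fun q => absurd (C.symH _ _ q) n580) (fun q => q) (fun q => absurd (C.symH _ _ q) n684) (fun q => absurd q n714) (fun q => absurd (C.symH _ _ q) n708)
            have p710 : h (1, 0, 0) (2, 0, 0) := or5 (C.twoH (1, 0, 0) (2, 0, 0) (0, 0, 0) (1, -1, 0) (1, 0, 1) (1, 0, -1) rfl p176) (fun q => q) (fun q => absurd (C.symH _ _ q) n580) (fun q => absurd (C.symH _ _ q) n684) (fun q => absurd q n714) (fun q => absurd (C.symH _ _ q) n708)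
            have p186 : w (1, 1, 0) := C.endH _ _ (C.symH _ _ p712)
            have n187 : ¬ u (1, 1, 1) := fun hh => n178 (C.bH1 (1, 1, 1) (1, 1, 0) (1, 0, 1) (1, 0, 0) rfl hh p186 (C.symH _ _ p712))
            have p226 : w (2, 0, 0) := C.endH _ _ (C.symH _ _ p710)
            have n185 : ¬ u (1, 1, 0) := fun hh => C.dis _ hh p186
            have n717 : ¬ e (1, 0, 1) (1, 1, 1) := fun hh => n187 (C.endE _ _ (C.symE _ _ hh))
            have n225 : ¬ u (2, 0, 0) := fun hh => C.dis _ hh p226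
            have n681 : ¬ e (1, -1, 0) (2, -1, 0) := fun hh => n225 (C.bE1 (1, -1, 0) (1, 0, 0) (2, -1, 0) (2, 0, 0) rfl p165 p176 hh)
            have n715 : ¬ e (1, 0, 1) (2, 0, 1) := fun hh => n225 (C.bE1 (1, 0, 1) (1, 0, 0) (2, 0, 1) (2, 0, 0) rfl p177 p176 hh)
            have p689 : e (1, -1, 1) (1, 0, 1) := or5 (C.twoE (1, 0, 1) (2, 0, 1) (0, 0, 1) (1, 1, 1) (1, -1, 1) (1, 0, 0) rfl p177) (fun q => absurd q n715) (fun q => absurd (C.symE _ _ q) n585) (fun q => absurd q n717) (fun q => (C.symE _ _ q)) (fun q => absurd (C.symE _ _ q) n713)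
            have n685 : ¬ e (1, -1, 0) (1, -1, 1) := fun hh => C.bE2 (1, -1, 0) (1, 0, 0) (1, -1, 1) (1, 0, 1) rfl p165 p176 hh p689
            have p679 : e (1, -1, -1) (1, -1, 0) := or5 (C.twoE (1, -1, 0) (2, -1, 0) (0, -1, 0) (1, 0, 0) (1, -1, 1) (1, -1, -1) rfl p165) (fun q => absurd q n681) (fun q => absurd (C.symE _ _ q) n551) (fun q => absurd q n683) (fun q => absurd q n685) (fun q => (C.symE _ _ q))
            have p173 : u (1, 0, -1) := C.bE1 (1, -1, 0) (1, 0, 0) (1, -1, -1) (1, 0, -1) rfl p165 p176 (C.symE _ _ p679)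
            have n677 : ¬ e (1, -1, -1) (1, 0, -1) := fun hh => C.bE2 (1, -1, 0) (1, 0, 0) (1, -1, -1) (1, 0, -1) rfl p165 p176 (C.symE _ _ p679) hh
            have n703 : ¬ e (1, 0, -1) (2, 0, -1) := fun hh => n225 (C.bE1 (1, 0, -1) (1, 0, 0) (2, 0, -1) (2, 0, 0) rfl p173 p176 hh)
            have n705 : ¬ e (1, 0, -1) (1, 1, -1) := fun hh => n185 (C.bE1 (1, 0, -1) (1, 0, 0) (1, 1, -1) (1, 1, 0) rfl p173 p176 hh)
            exact or5 (C.twoE (1, 0, -1) (2, 0, -1) (0, 0, -1) (1, 1, -1) (1, -1, -1) (1, 0, 0) rfl p173) (fun q => n703 q) (fun q => n573 (C.symE _ _ q)) (fun q => n705 q) (fun q => n677 (C.symE _ _ q)) (fun q => n707 q)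
      · have n712 : ¬ h (1, 0, 0) (1, 1, 0) := fun hh => n136 (C.bH1 (0, 0, 0) (1, 0, 0) (0, 1, 0) (1, 1, 0) rfl p125 p176 hh)
        have n576 : ¬ h (0, 0, -1) (0, 1, -1) := fun hh => n136 (C.bH1 (0, 0, 0) (0, 0, -1) (0, 1, 0) (0, 1, -1) rfl p125 p124 hh)
        rcases Classical.em (h (-1, 0, -1) (0, 0, -1)) with p444 | n444
        · have p74 : w (-1, 0, -1) := C.endH _ _ p444
          have n75 : ¬ u (-1, 0, 0) := fun hh => n126 (C.bH1 (-1, 0, 0) (-1, 0, -1) (0, 0, 0) (0, 0, -1) rfl hh p74 p444)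
          have p76 : w (-1, 0, 0) := C.bH1 (0, 0, 0) (0, 0, -1) (-1, 0, 0) (-1, 0, -1) rfl p125 p124 (C.symH _ _ p444)
          have n448 : ¬ h (-1, 0, -1) (-1, 0, 0) := fun hh => C.bH2 (0, 0, 0) (0, 0, -1) (-1, 0, 0) (-1, 0, -1) rfl p125 p124 (C.symH _ _ p444) hh
          have n73 : ¬ u (-1, 0, -1) := fun hh => C.dis _ hh p74
          have n449 : ¬ e (-1, 0, 0) (0, 0, 0) := fun hh => n75 (C.endE _ _ hh)
          have n423 : ¬ e (-1, -1, 0) (-1, 0, 0) := fun hh => n75 (C.endE _ _ (C.symE _ _ hh))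
          have n452 : ¬ h (-1, 0, 0) (-1, 1, 0) := fun hh => n136 (C.bH1 (0, 0, 0) (-1, 0, 0) (0, 1, 0) (-1, 1, 0) rfl p125 p76 hh)
          have n424 : ¬ h (-1, -1, 0) (-1, 0, 0) := fun hh => n116 (C.bH1 (0, 0, 0) (-1, 0, 0) (0, -1, 0) (-1, -1, 0) rfl p125 p76 (C.symH _ _ hh))
          have p454 : h (-1, 0, 0) (-1, 0, 1) := or5 (C.twoH (-1, 0, 0) (0, 0, 0) (-1, 1, 0) (-1, -1, 0) (-1, 0, 1) (-1, 0, -1) rfl p76) (fun q => absurd q n450) (fun q => absurd q n452) (fun q => absurd (C.symH _ _ q) n424) (fun q => q) (fun q => absurd (C.symH _ _ q) n448)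
          have p320 : h (-2, 0, 0) (-1, 0, 0) := or5 (C.twoH (-1, 0, 0) (0, 0, 0) (-2, 0, 0) (-1, 1, 0) (-1, -1, 0) (-1, 0, -1) rfl p76) (fun q => absurd q n450) (fun q => (C.symH _ _ q)) (fun q => absurd q n452) (fun q => absurd (C.symH _ _ q) n424) (fun q => absurd (C.symH _ _ q) n448)
          have p78 : w (-1, 0, 1) := C.endH _ _ (C.symH _ _ p454)
          have n127 : ¬ u (0, 0, 1) := fun hh => n126 (C.bH1 (0, 0, 1) (-1, 0, 1) (0, 0, 0) (-1, 0, 0) rfl hh p78 (C.symH _ _ p454))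
          have p26 : w (-2, 0, 0) := C.endH _ _ p320
          have n77 : ¬ u (-1, 0, 1) := fun hh => C.dis _ hh p78
          have n583 : ¬ e (0, 0, 0) (0, 0, 1) := fun hh => n127 (C.endE _ _ (C.symE _ _ hh))
          have n25 : ¬ u (-2, 0, 0) := fun hh => C.dis _ hh p26
          have p553 : e (0, -1, 0) (0, 0, 0) := or5 (C.twoE (0, 0, 0) (1, 0, 0) (-1, 0, 0) (0, -1, 0) (0, 0, 1) (0, 0, -1) rfl p125) (fun q => absurd q n579) (fun q => absurd (C.symE _ _ q) n449) (fun q => (C.symE _ _ q)) (fun q => absurd q n583) (fun q => absurd (C.symE _ _ q) n577)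
          have p65 : u (-1, -1, 0) := C.bE1 (0, 0, 0) (-1, 0, 0) (0, -1, 0) (-1, -1, 0) rfl p125 p76 (C.symE _ _ p553)
          have n421 : ¬ e (-1, -1, 0) (0, -1, 0) := fun hh => C.bE2 (0, 0, 0) (-1, 0, 0) (0, -1, 0) (-1, -1, 0) rfl p125 p76 (C.symE _ _ p553) (C.symE _ _ hh)
          have n291 : ¬ e (-2, -1, 0) (-1, -1, 0) := fun hh => n25 (C.bE1 (-1, -1, 0) (-1, 0, 0) (-2, -1, 0) (-2, 0, 0) rfl p65 p76 (C.symE _ _ hh))
          have n425 : ¬ e (-1, -1, 0) (-1, -1, 1) := fun hh => n77 (C.bE1 (-1, -1, 0) (-1, 0, 0) (-1, -1, 1) (-1, 0, 1) rfl p65 p76 hh)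
          have n419 : ¬ e (-1, -1, -1) (-1, -1, 0) := fun hh => n73 (C.bE1 (-1, -1, 0) (-1, 0, 0) (-1, -1, -1) (-1, 0, -1) rfl p65 p76 (C.symE _ _ hh))
          exact or5 (C.twoE (-1, -1, 0) (0, -1, 0) (-2, -1, 0) (-1, 0, 0) (-1, -1, 1) (-1, -1, -1) rfl p65) (fun q => n421 q) (fun q => n291 (C.symE _ _ q)) (fun q => n423 q) (fun q => n425 q) (fun q => n419 (C.symE _ _ q))
        · have p574 : h (0, 0, -1) (1, 0, -1) := or5 (C.twoH (0, 0, -1) (1, 0, -1) (-1, 0, -1) (0, 1, -1) (0, -1, -1) (0, 0, 0) rfl p124) (fun q => q) (fun q => absurd (C.symH _ _ q) n444) (fun q => absurd q n576) (fun q => absurd (C.symH _ _ q) n548) (fun q => absurd q n578)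
          have p174 : w (1, 0, -1) := C.endH _ _ (C.symH _ _ p574)
          have n708 : ¬ h (1, 0, -1) (1, 0, 0) := fun hh => C.bH2 (0, 0, 0) (1, 0, 0) (0, 0, -1) (1, 0, -1) rfl p125 p176 (C.symH _ _ hh) (C.symH _ _ p574)
          have n173 : ¬ u (1, 0, -1) := fun hh => C.dis _ hh p174
          have p714 : h (1, 0, 0) (1, 0, 1) := or5 (C.twoH (1, 0, 0) (0, 0, 0) (1, 1, 0) (1, -1, 0) (1, 0, 1) (1, 0, -1) rfl p176) (fun q => absurd (C.symH _ _ q) n580) (fun q => absurd q n712) (fun q => absurd (C.symH _ _ q) n684) (fun q => q) (fun q => absurd (C.symH _ _ q) n708)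
          have p710 : h (1, 0, 0) (2, 0, 0) := or5 (C.twoH (1, 0, 0) (2, 0, 0) (0, 0, 0) (1, 1, 0) (1, -1, 0) (1, 0, -1) rfl p176) (fun q => q) (fun q => absurd (C.symH _ _ q) n580) (fun q => absurd q n712) (fun q => absurd (C.symH _ _ q) n684) (fun q => absurd (C.symH _ _ q) n708)
          have p178 : w (1, 0, 1) := C.endH _ _ (C.symH _ _ p714)
          have p128 : w (0, 0, 1) := C.bH1 (0, 0, 0) (1, 0, 0) (0, 0, 1) (1, 0, 1) rfl p125 p176 p714
          have n586 : ¬ h (0, 0, 1) (1, 0, 1) := fun hh => C.bH2 (0, 0, 0) (1, 0, 0) (0, 0, 1) (1, 0, 1) rfl p125 p176 p714 (C.symH _ _ hh)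
          have n127 : ¬ u (0, 0, 1) := fun hh => n126 (C.bH1 (0, 0, 1) (1, 0, 1) (0, 0, 0) (1, 0, 0) rfl hh p178 (C.symH _ _ p714))
          have p226 : w (2, 0, 0) := C.endH _ _ (C.symH _ _ p710)
          have n177 : ¬ u (1, 0, 1) := fun hh => C.dis _ hh p178
          have n588 : ¬ h (0, 0, 1) (0, 1, 1) := fun hh => n136 (C.bH1 (0, 0, 0) (0, 0, 1) (0, 1, 0) (0, 1, 1) rfl p125 p128 hh)
          have n560 : ¬ h (0, -1, 1) (0, 0, 1) := fun hh => n116 (C.bH1 (0, 0, 0) (0, 0, 1) (0, -1, 0) (0, -1, 1) rfl p125 p128 (C.symH _ _ hh))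
          have p456 : h (-1, 0, 1) (0, 0, 1) := or5 (C.twoH (0, 0, 1) (1, 0, 1) (-1, 0, 1) (0, 1, 1) (0, -1, 1) (0, 0, 0) rfl p128) (fun q => absurd q n586) (fun q => (C.symH _ _ q)) (fun q => absurd q n588) (fun q => absurd (C.symH _ _ q) n560) (fun q => absurd (C.symH _ _ q) n584)
          have n583 : ¬ e (0, 0, 0) (0, 0, 1) := fun hh => n127 (C.endE _ _ (C.symE _ _ hh))
          have n225 : ¬ u (2, 0, 0) := fun hh => C.dis _ hh p226
          have p78 : w (-1, 0, 1) := C.endH _ _ p456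
          have n75 : ¬ u (-1, 0, 0) := fun hh => n126 (C.bH1 (-1, 0, 0) (-1, 0, 1) (0, 0, 0) (0, 0, 1) rfl hh p78 p456)
          have n449 : ¬ e (-1, 0, 0) (0, 0, 0) := fun hh => n75 (C.endE _ _ hh)
          have p553 : e (0, -1, 0) (0, 0, 0) := or5 (C.twoE (0, 0, 0) (1, 0, 0) (-1, 0, 0) (0, -1, 0) (0, 0, 1) (0, 0, -1) rfl p125) (fun q => absurd q n579) (fun q => absurd (C.symE _ _ q) n449) (fun q => (C.symE _ _ q)) (fun q => absurd q n583) (fun q => absurd (C.symE _ _ q) n577)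
          have p165 : u (1, -1, 0) := C.bE1 (0, 0, 0) (1, 0, 0) (0, -1, 0) (1, -1, 0) rfl p125 p176 (C.symE _ _ p553)
          have n551 : ¬ e (0, -1, 0) (1, -1, 0) := fun hh => C.bE2 (0, 0, 0) (1, 0, 0) (0, -1, 0) (1, -1, 0) rfl p125 p176 (C.symE _ _ p553) hh
          have n681 : ¬ e (1, -1, 0) (2, -1, 0) := fun hh => n225 (C.bE1 (1, -1, 0) (1, 0, 0) (2, -1, 0) (2, 0, 0) rfl p165 p176 hh)
          have n685 : ¬ e (1, -1, 0) (1, -1, 1) := fun hh => n177 (C.bE1 (1, -1, 0) (1, 0, 0) (1, -1, 1) (1, 0, 1) rfl p165 p176 hh)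
          have n679 : ¬ e (1, -1, -1) (1, -1, 0) := fun hh => n173 (C.bE1 (1, -1, 0) (1, 0, 0) (1, -1, -1) (1, 0, -1) rfl p165 p176 (C.symE _ _ hh))
          exact or5 (C.twoE (1, -1, 0) (2, -1, 0) (0, -1, 0) (1, 0, 0) (1, -1, 1) (1, -1, -1) rfl p165) (fun q => n681 q) (fun q => n551 (C.symE _ _ q)) (fun q => n683 q) (fun q => n685 q) (fun q => n679 (C.symE _ _ q))
    · have n708 : ¬ h (1, 0, -1) (1, 0, 0) := fun hh => n124 (C.bH1 (0, 0, 0) (1, 0, 0) (0, 0, -1) (1, 0, -1) rfl p125 p176 (C.symH _ _ hh))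
      rcases Classical.em (w (0, 0, 1)) with p128 | n128
      · have n127 : ¬ u (0, 0, 1) := fun hh => C.dis _ hh p128
        have n560 : ¬ h (0, -1, 1) (0, 0, 1) := fun hh => n116 (C.bH1 (0, 0, 0) (0, 0, 1) (0, -1, 0) (0, -1, 1) rfl p125 p128 (C.symH _ _ hh))
        have n585 : ¬ e (0, 0, 1) (1, 0, 1) := fun hh => n127 (C.endE _ _ hh)
        have n455 : ¬ e (-1, 0, 1) (0, 0, 1) := fun hh => n127 (C.endE _ _ (C.symE _ _ hh))
        have n559 : ¬ e (0, -1, 1) (0, 0, 1) := fun hh => n127 (C.endE _ _ (C.symE _ _ hh))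
        have n583 : ¬ e (0, 0, 0) (0, 0, 1) := fun hh => n127 (C.endE _ _ (C.symE _ _ hh))
        rcases Classical.em (w (0, 1, 0)) with p136 | n136
        · have n135 : ¬ u (0, 1, 0) := fun hh => C.dis _ hh p136
          have n606 : ¬ h (0, 1, -1) (0, 1, 0) := fun hh => n124 (C.bH1 (0, 0, 0) (0, 1, 0) (0, 0, -1) (0, 1, -1) rfl p125 p136 (C.symH _ _ hh))
          have n607 : ¬ e (0, 1, 0) (1, 1, 0) := fun hh => n135 (C.endE _ _ hh)
          have n477 : ¬ e (-1, 1, 0) (0, 1, 0) := fun hh => n135 (C.endE _ _ (C.symE _ _ hh))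
          have n581 : ¬ e (0, 0, 0) (0, 1, 0) := fun hh => n135 (C.endE _ _ (C.symE _ _ hh))
          have n605 : ¬ e (0, 1, -1) (0, 1, 0) := fun hh => n135 (C.endE _ _ (C.symE _ _ hh))
          rcases Classical.em (u (1, 0, 1)) with p177 | n177
          · have n178 : ¬ w (1, 0, 1) := fun hh => C.dis _ p177 hh
            have n586 : ¬ h (0, 0, 1) (1, 0, 1) := fun hh => n178 (C.endH _ _ (C.symH _ _ hh))
            have n714 : ¬ h (1, 0, 0) (1, 0, 1) := fun hh => n178 (C.endH _ _ (C.symH _ _ hh))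
            have p712 : h (1, 0, 0) (1, 1, 0) := or5 (C.twoH (1, 0, 0) (0, 0, 0) (1, 1, 0) (1, -1, 0) (1, 0, 1) (1, 0, -1) rfl p176) (fun q => absurd (C.symH _ _ q) n580) (fun q => q) (fun q => absurd (C.symH _ _ q) n684) (fun q => absurd q n714) (fun q => absurd (C.symH _ _ q) n708)
            have p710 : h (1, 0, 0) (2, 0, 0) := or5 (C.twoH (1, 0, 0) (2, 0, 0) (0, 0, 0) (1, -1, 0) (1, 0, 1) (1, 0, -1) rfl p176) (fun q => q) (fun q => absurd (C.symH _ _ q) n580) (fun q => absurd (C.symH _ _ q) n684) (fun q => absurd q n714) (fun q => absurd (C.symH _ _ q) n708)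
            have p186 : w (1, 1, 0) := C.endH _ _ (C.symH _ _ p712)
            have n608 : ¬ h (0, 1, 0) (1, 1, 0) := fun hh => C.bH2 (0, 0, 0) (1, 0, 0) (0, 1, 0) (1, 1, 0) rfl p125 p176 p712 (C.symH _ _ hh)
            have n187 : ¬ u (1, 1, 1) := fun hh => n178 (C.bH1 (1, 1, 1) (1, 1, 0) (1, 0, 1) (1, 0, 0) rfl hh p186 (C.symH _ _ p712))
            have p226 : w (2, 0, 0) := C.endH _ _ (C.symH _ _ p710)
            have n717 : ¬ e (1, 0, 1) (1, 1, 1) := fun hh => n187 (C.endE _ _ (C.symE _ _ hh))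
            have n225 : ¬ u (2, 0, 0) := fun hh => C.dis _ hh p226
            have n715 : ¬ e (1, 0, 1) (2, 0, 1) := fun hh => n225 (C.bE1 (1, 0, 1) (1, 0, 0) (2, 0, 1) (2, 0, 0) rfl p177 p176 hh)
            have p719 : e (1, 0, 1) (1, 0, 2) := or5 (C.twoE (1, 0, 1) (2, 0, 1) (0, 0, 1) (1, 1, 1) (1, 0, 2) (1, 0, 0) rfl p177) (fun q => absurd q n715) (fun q => absurd (C.symE _ _ q) n585) (fun q => absurd q n717) (fun q => q) (fun q => absurd (C.symE _ _ q) n713)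
            have p179 : u (1, 0, 2) := C.endE _ _ (C.symE _ _ p719)
            have n180 : ¬ w (1, 0, 2) := fun hh => C.dis _ p179 hh
            have n590 : ¬ h (0, 0, 1) (0, 0, 2) := fun hh => n180 (C.bH1 (1, 0, 1) (0, 0, 1) (1, 0, 2) (0, 0, 2) rfl p177 p128 hh)
            have p588 : h (0, 0, 1) (0, 1, 1) := or5 (C.twoH (0, 0, 1) (1, 0, 1) (0, 1, 1) (0, -1, 1) (0, 0, 2) (0, 0, 0) rfl p128) (fun q => absurd q n586) (fun q => q) (fun q => absurd (C.symH _ _ q) n560) (fun q => absurd q n590) (fun q => absurd (C.symH _ _ q) n584)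
            have p456 : h (-1, 0, 1) (0, 0, 1) := or5 (C.twoH (0, 0, 1) (1, 0, 1) (-1, 0, 1) (0, -1, 1) (0, 0, 2) (0, 0, 0) rfl p128) (fun q => absurd q n586) (fun q => (C.symH _ _ q)) (fun q => absurd (C.symH _ _ q) n560) (fun q => absurd q n590) (fun q => absurd (C.symH _ _ q) n584)
            have n612 : ¬ h (0, 1, 0) (0, 1, 1) := fun hh => C.bH2 (0, 0, 0) (0, 1, 0) (0, 0, 1) (0, 1, 1) rfl p125 p136 hh (C.symH _ _ p588)
            have p76 : w (-1, 0, 0) := C.bH1 (0, 0, 0) (0, 0, 1) (-1, 0, 0) (-1, 0, 1) rfl p125 p128 (C.symH _ _ p456)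
            have n454 : ¬ h (-1, 0, 0) (-1, 0, 1) := fun hh => C.bH2 (0, 0, 0) (0, 0, 1) (-1, 0, 0) (-1, 0, 1) rfl p125 p128 (C.symH _ _ p456) (C.symH _ _ hh)
            have p478 : h (-1, 1, 0) (0, 1, 0) := or5 (C.twoH (0, 1, 0) (1, 1, 0) (-1, 1, 0) (0, 0, 0) (0, 1, 1) (0, 1, -1) rfl p136) (fun q => absurd q n608) (fun q => (C.symH _ _ q)) (fun q => absurd (C.symH _ _ q) n582) (fun q => absurd q n612) (fun q => absurd (C.symH _ _ q) n606)
            have n452 : ¬ h (-1, 0, 0) (-1, 1, 0) := fun hh => C.bH2 (0, 0, 0) (-1, 0, 0) (0, 1, 0) (-1, 1, 0) rfl p125 p76 hh p478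
            have n424 : ¬ h (-1, -1, 0) (-1, 0, 0) := fun hh => n116 (C.bH1 (0, 0, 0) (-1, 0, 0) (0, -1, 0) (-1, -1, 0) rfl p125 p76 (C.symH _ _ hh))
            have n448 : ¬ h (-1, 0, -1) (-1, 0, 0) := fun hh => n124 (C.bH1 (0, 0, 0) (-1, 0, 0) (0, 0, -1) (-1, 0, -1) rfl p125 p76 (C.symH _ _ hh))
            exact or5 (C.twoH (-1, 0, 0) (0, 0, 0) (-1, 1, 0) (-1, -1, 0) (-1, 0, 1) (-1, 0, -1) rfl p76) (fun q => n450 q) (fun q => n452 q) (fun q => n424 (C.symH _ _ q)) (fun q => n454 q) (fun q => n448 (C.symH _ _ q))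
          · rcases Classical.em (u (1, 0, -1)) with p173 | n173
            · have n174 : ¬ w (1, 0, -1) := fun hh => C.dis _ p173 hh
              have n706 : ¬ h (1, 0, -1) (1, 1, -1) := fun hh => n174 (C.endH _ _ hh)
              rcases Classical.em (u (1, 1, 0)) with p185 | n185
              · have n186 : ¬ w (1, 1, 0) := fun hh => C.dis _ p185 hh
                have n741 : ¬ e (1, 1, 0) (1, 1, 1) := fun hh => n177 (C.bE1 (1, 1, 0) (1, 0, 0) (1, 1, 1) (1, 0, 1) rfl p185 p176 hh)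
                have n608 : ¬ h (0, 1, 0) (1, 1, 0) := fun hh => n186 (C.endH _ _ (C.symH _ _ hh))
                have n712 : ¬ h (1, 0, 0) (1, 1, 0) := fun hh => n186 (C.endH _ _ (C.symH _ _ hh))
                have p714 : h (1, 0, 0) (1, 0, 1) := or5 (C.twoH (1, 0, 0) (0, 0, 0) (1, 1, 0) (1, -1, 0) (1, 0, 1) (1, 0, -1) rfl p176) (fun q => absurd (C.symH _ _ q) n580) (fun q => absurd q n712) (fun q => absurd (C.symH _ _ q) n684) (fun q => q) (fun q => absurd (C.symH _ _ q) n708)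
                have p710 : h (1, 0, 0) (2, 0, 0) := or5 (C.twoH (1, 0, 0) (2, 0, 0) (0, 0, 0) (1, 1, 0) (1, -1, 0) (1, 0, -1) rfl p176) (fun q => q) (fun q => absurd (C.symH _ _ q) n580) (fun q => absurd q n712) (fun q => absurd (C.symH _ _ q) n684) (fun q => absurd (C.symH _ _ q) n708)
                have n586 : ¬ h (0, 0, 1) (1, 0, 1) := fun hh => C.bH2 (0, 0, 0) (1, 0, 0) (0, 0, 1) (1, 0, 1) rfl p125 p176 p714 (C.symH _ _ hh)
                have p226 : w (2, 0, 0) := C.endH _ _ (C.symH _ _ p710)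
                have n225 : ¬ u (2, 0, 0) := fun hh => C.dis _ hh p226
                have n737 : ¬ e (1, 1, 0) (2, 1, 0) := fun hh => n225 (C.bE1 (1, 1, 0) (1, 0, 0) (2, 1, 0) (2, 0, 0) rfl p185 p176 hh)
                have p739 : e (1, 1, 0) (1, 2, 0) := or5 (C.twoE (1, 1, 0) (2, 1, 0) (0, 1, 0) (1, 2, 0) (1, 0, 0) (1, 1, 1) rfl p185) (fun q => absurd q n737) (fun q => absurd (C.symE _ _ q) n607) (fun q => q) (fun q => absurd (C.symE _ _ q) n711) (fun q => absurd q n741)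
                have p195 : u (1, 2, 0) := C.endE _ _ (C.symE _ _ p739)
                have n196 : ¬ w (1, 2, 0) := fun hh => C.dis _ p195 hh
                have n610 : ¬ h (0, 1, 0) (0, 2, 0) := fun hh => n196 (C.bH1 (1, 1, 0) (0, 1, 0) (1, 2, 0) (0, 2, 0) rfl p185 p136 hh)
                have p612 : h (0, 1, 0) (0, 1, 1) := or5 (C.twoH (0, 1, 0) (1, 1, 0) (0, 2, 0) (0, 0, 0) (0, 1, 1) (0, 1, -1) rfl p136) (fun q => absurd q n608) (fun q => absurd q n610) (fun q => absurd (C.symH _ _ q) n582) (fun q => q) (fun q => absurd (C.symH _ _ q) n606)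
                have p478 : h (-1, 1, 0) (0, 1, 0) := or5 (C.twoH (0, 1, 0) (1, 1, 0) (-1, 1, 0) (0, 2, 0) (0, 0, 0) (0, 1, -1) rfl p136) (fun q => absurd q n608) (fun q => (C.symH _ _ q)) (fun q => absurd q n610) (fun q => absurd (C.symH _ _ q) n582) (fun q => absurd (C.symH _ _ q) n606)
                have n588 : ¬ h (0, 0, 1) (0, 1, 1) := fun hh => C.bH2 (0, 0, 0) (0, 1, 0) (0, 0, 1) (0, 1, 1) rfl p125 p136 p612 (C.symH _ _ hh)
                have p76 : w (-1, 0, 0) := C.bH1 (0, 0, 0) (0, 1, 0) (-1, 0, 0) (-1, 1, 0) rfl p125 p136 (C.symH _ _ p478)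
                have n452 : ¬ h (-1, 0, 0) (-1, 1, 0) := fun hh => C.bH2 (0, 0, 0) (0, 1, 0) (-1, 0, 0) (-1, 1, 0) rfl p125 p136 (C.symH _ _ p478) (C.symH _ _ hh)
                have p456 : h (-1, 0, 1) (0, 0, 1) := or5 (C.twoH (0, 0, 1) (1, 0, 1) (-1, 0, 1) (0, 1, 1) (0, -1, 1) (0, 0, 0) rfl p128) (fun q => absurd q n586) (fun q => (C.symH _ _ q)) (fun q => absurd q n588) (fun q => absurd (C.symH _ _ q) n560) (fun q => absurd (C.symH _ _ q) n584)
                have n424 : ¬ h (-1, -1, 0) (-1, 0, 0) := fun hh => n116 (C.bH1 (0, 0, 0) (-1, 0, 0) (0, -1, 0) (-1, -1, 0) rfl p125 p76 (C.symH _ _ hh))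
                have n454 : ¬ h (-1, 0, 0) (-1, 0, 1) := fun hh => C.bH2 (0, 0, 0) (-1, 0, 0) (0, 0, 1) (-1, 0, 1) rfl p125 p76 hh p456
                have n448 : ¬ h (-1, 0, -1) (-1, 0, 0) := fun hh => n124 (C.bH1 (0, 0, 0) (-1, 0, 0) (0, 0, -1) (-1, 0, -1) rfl p125 p76 (C.symH _ _ hh))
                exact or5 (C.twoH (-1, 0, 0) (0, 0, 0) (-1, 1, 0) (-1, -1, 0) (-1, 0, 1) (-1, 0, -1) rfl p76) (fun q => n450 q) (fun q => n452 q) (fun q => n424 (C.symH _ _ q)) (fun q => n454 q) (fun q => n448 (C.symH _ _ q))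
              · have n705 : ¬ e (1, 0, -1) (1, 1, -1) := fun hh => n185 (C.bE1 (1, 0, -1) (1, 0, 0) (1, 1, -1) (1, 1, 0) rfl p173 p176 hh)
                rcases Classical.em (u (1, -1, 0)) with p165 | n165
                · have n166 : ¬ w (1, -1, 0) := fun hh => C.dis _ p165 hh
                  have n685 : ¬ e (1, -1, 0) (1, -1, 1) := fun hh => n177 (C.bE1 (1, -1, 0) (1, 0, 0) (1, -1, 1) (1, 0, 1) rfl p165 p176 hh)
                  have n686 : ¬ h (1, -1, 0) (1, -1, 1) := fun hh => n166 (C.endH _ _ hh)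
                  rcases Classical.em (e (-1, 0, 0) (0, 0, 0)) with p449 | n449
                  · have p75 : u (-1, 0, 0) := C.endE _ _ p449
                    have n86 : ¬ w (-1, 1, 0) := fun hh => n135 (C.bE1 (-1, 0, 0) (-1, 1, 0) (0, 0, 0) (0, 1, 0) rfl p75 hh p449)
                    have n78 : ¬ w (-1, 0, 1) := fun hh => n127 (C.bE1 (-1, 0, 0) (-1, 0, 1) (0, 0, 0) (0, 0, 1) rfl p75 hh p449)
                    have p85 : u (-1, 1, 0) := C.bE1 (0, 0, 0) (0, 1, 0) (-1, 0, 0) (-1, 1, 0) rfl p125 p136 (C.symE _ _ p449)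
                    have n451 : ¬ e (-1, 0, 0) (-1, 1, 0) := fun hh => C.bE2 (0, 0, 0) (0, 1, 0) (-1, 0, 0) (-1, 1, 0) rfl p125 p136 (C.symE _ _ p449) hh
                    have p77 : u (-1, 0, 1) := C.bE1 (0, 0, 0) (0, 0, 1) (-1, 0, 0) (-1, 0, 1) rfl p125 p128 (C.symE _ _ p449)
                    have n453 : ¬ e (-1, 0, 0) (-1, 0, 1) := fun hh => C.bE2 (0, 0, 0) (0, 0, 1) (-1, 0, 0) (-1, 0, 1) rfl p125 p128 (C.symE _ _ p449) hh
                    have n478 : ¬ h (-1, 1, 0) (0, 1, 0) := fun hh => n86 (C.endH _ _ hh)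
                    have n456 : ¬ h (-1, 0, 1) (0, 0, 1) := fun hh => n78 (C.endH _ _ hh)
                    rcases Classical.em (h (0, 0, 1) (0, 1, 1)) with p588 | n588
                    · have p138 : w (0, 1, 1) := C.endH _ _ (C.symH _ _ p588)
                      have n87 : ¬ u (-1, 1, 1) := fun hh => n78 (C.bH1 (-1, 1, 1) (0, 1, 1) (-1, 0, 1) (0, 0, 1) rfl hh p138 (C.symH _ _ p588))
                      have n612 : ¬ h (0, 1, 0) (0, 1, 1) := fun hh => C.bH2 (0, 0, 0) (0, 1, 0) (0, 0, 1) (0, 1, 1) rfl p125 p136 hh (C.symH _ _ p588)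
                      have n481 : ¬ e (-1, 1, 0) (-1, 1, 1) := fun hh => n87 (C.endE _ _ (C.symE _ _ hh))
                      have p610 : h (0, 1, 0) (0, 2, 0) := or5 (C.twoH (0, 1, 0) (-1, 1, 0) (0, 2, 0) (0, 0, 0) (0, 1, 1) (0, 1, -1) rfl p136) (fun q => absurd (C.symH _ _ q) n478) (fun q => q) (fun q => absurd (C.symH _ _ q) n582) (fun q => absurd q n612) (fun q => absurd (C.symH _ _ q) n606)
                      have p608 : h (0, 1, 0) (1, 1, 0) := or5 (C.twoH (0, 1, 0) (1, 1, 0) (-1, 1, 0) (0, 0, 0) (0, 1, 1) (0, 1, -1) rfl p136) (fun q => q) (fun q => absurd (C.symH _ _ q) n478) (fun q => absurd (C.symH _ _ q) n582) (fun q => absurd q n612) (fun q => absurd (C.symH _ _ q) n606)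
                      have p146 : w (0, 2, 0) := C.endH _ _ (C.symH _ _ p610)
                      have n712 : ¬ h (1, 0, 0) (1, 1, 0) := fun hh => C.bH2 (0, 0, 0) (1, 0, 0) (0, 1, 0) (1, 1, 0) rfl p125 p176 hh (C.symH _ _ p608)
                      have n145 : ¬ u (0, 2, 0) := fun hh => C.dis _ hh p146
                      have p710 : h (1, 0, 0) (2, 0, 0) := or5 (C.twoH (1, 0, 0) (2, 0, 0) (0, 0, 0) (1, 1, 0) (1, -1, 0) (1, 0, -1) rfl p176) (fun q => q) (fun q => absurd (C.symH _ _ q) n580) (fun q => absurd q n712) (fun q => absurd (C.symH _ _ q) n684) (fun q => absurd (C.symH _ _ q) n708)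
                      have n479 : ¬ e (-1, 1, 0) (-1, 2, 0) := fun hh => n145 (C.bE1 (-1, 1, 0) (0, 1, 0) (-1, 2, 0) (0, 2, 0) rfl p85 p136 hh)
                      have p226 : w (2, 0, 0) := C.endH _ _ (C.symH _ _ p710)
                      have p475 : e (-1, 1, -1) (-1, 1, 0) := or5 (C.twoE (-1, 1, 0) (0, 1, 0) (-1, 2, 0) (-1, 0, 0) (-1, 1, 1) (-1, 1, -1) rfl p85) (fun q => absurd q n477) (fun q => absurd q n479) (fun q => absurd (C.symE _ _ q) n451) (fun q => absurd q n481) (fun q => (C.symE _ _ q))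
                      have n225 : ¬ u (2, 0, 0) := fun hh => C.dis _ hh p226
                      have p133 : u (0, 1, -1) := C.bE1 (-1, 1, 0) (0, 1, 0) (-1, 1, -1) (0, 1, -1) rfl p85 p136 (C.symE _ _ p475)
                      have n471 : ¬ e (-1, 1, -1) (0, 1, -1) := fun hh => C.bE2 (-1, 1, 0) (0, 1, 0) (-1, 1, -1) (0, 1, -1) rfl p85 p136 (C.symE _ _ p475) hh
                      have n681 : ¬ e (1, -1, 0) (2, -1, 0) := fun hh => n225 (C.bE1 (1, -1, 0) (1, 0, 0) (2, -1, 0) (2, 0, 0) rfl p165 p176 hh)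
                      have n703 : ¬ e (1, 0, -1) (2, 0, -1) := fun hh => n225 (C.bE1 (1, 0, -1) (1, 0, 0) (2, 0, -1) (2, 0, 0) rfl p173 p176 hh)
                      have n601 : ¬ e (0, 1, -1) (1, 1, -1) := fun hh => n185 (C.bE1 (0, 1, -1) (0, 1, 0) (1, 1, -1) (1, 1, 0) rfl p133 p136 hh)
                      have p184 : w (1, 1, -1) := C.bH1 (0, 1, -1) (0, 1, 0) (1, 1, -1) (1, 1, 0) rfl p133 p136 p608
                      have n603 : ¬ e (0, 1, -1) (0, 2, -1) := fun hh => n145 (C.bE1 (0, 1, -1) (0, 1, 0) (0, 2, -1) (0, 2, 0) rfl p133 p136 hh)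
                      have p575 : e (0, 0, -1) (0, 1, -1) := or5 (C.twoE (0, 1, -1) (1, 1, -1) (-1, 1, -1) (0, 2, -1) (0, 0, -1) (0, 1, 0) rfl p133) (fun q => absurd q n601) (fun q => absurd (C.symE _ _ q) n471) (fun q => absurd q n603) (fun q => (C.symE _ _ q)) (fun q => absurd q n605)
                      have n573 : ¬ e (0, 0, -1) (1, 0, -1) := fun hh => C.bE2 (0, 1, -1) (1, 1, -1) (0, 0, -1) (1, 0, -1) rfl p133 p184 (C.symE _ _ p575) hh
                      have n577 : ¬ e (0, 0, -1) (0, 0, 0) := fun hh => C.bE2 (0, 0, 0) (0, 1, 0) (0, 0, -1) (0, 1, -1) rfl p125 p136 (C.symE _ _ hh) p575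
                      have p677 : e (1, -1, -1) (1, 0, -1) := or5 (C.twoE (1, 0, -1) (2, 0, -1) (0, 0, -1) (1, 1, -1) (1, -1, -1) (1, 0, 0) rfl p173) (fun q => absurd q n703) (fun q => absurd (C.symE _ _ q) n573) (fun q => absurd q n705) (fun q => (C.symE _ _ q)) (fun q => absurd q n707)
                      have p553 : e (0, -1, 0) (0, 0, 0) := or5 (C.twoE (0, 0, 0) (1, 0, 0) (0, 1, 0) (0, -1, 0) (0, 0, 1) (0, 0, -1) rfl p125) (fun q => absurd q n579) (fun q => absurd q n581) (fun q => (C.symE _ _ q)) (fun q => absurd q n583) (fun q => absurd (C.symE _ _ q) n577)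
                      have n679 : ¬ e (1, -1, -1) (1, -1, 0) := fun hh => C.bE2 (1, -1, 0) (1, 0, 0) (1, -1, -1) (1, 0, -1) rfl p165 p176 (C.symE _ _ hh) p677
                      have n551 : ¬ e (0, -1, 0) (1, -1, 0) := fun hh => C.bE2 (0, 0, 0) (1, 0, 0) (0, -1, 0) (1, -1, 0) rfl p125 p176 (C.symE _ _ p553) hh
                      exact or5 (C.twoE (1, -1, 0) (2, -1, 0) (0, -1, 0) (1, 0, 0) (1, -1, 1) (1, -1, -1) rfl p165) (fun q => n681 q) (fun q => n551 (C.symE _ _ q)) (fun q => n683 q) (fun q => n685 q) (fun q => n679 (C.symE _ _ q))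
                    · have p590 : h (0, 0, 1) (0, 0, 2) := or5 (C.twoH (0, 0, 1) (-1, 0, 1) (0, 1, 1) (0, -1, 1) (0, 0, 2) (0, 0, 0) rfl p128) (fun q => absurd (C.symH _ _ q) n456) (fun q => absurd q n588) (fun q => absurd (C.symH _ _ q) n560) (fun q => q) (fun q => absurd (C.symH _ _ q) n584)
                      have p586 : h (0, 0, 1) (1, 0, 1) := or5 (C.twoH (0, 0, 1) (1, 0, 1) (-1, 0, 1) (0, 1, 1) (0, -1, 1) (0, 0, 0) rfl p128) (fun q => q) (fun q => absurd (C.symH _ _ q) n456) (fun q => absurd q n588) (fun q => absurd (C.symH _ _ q) n560) (fun q => absurd (C.symH _ _ q) n584)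
                      have p130 : w (0, 0, 2) := C.endH _ _ (C.symH _ _ p590)
                      have n714 : ¬ h (1, 0, 0) (1, 0, 1) := fun hh => C.bH2 (0, 0, 0) (1, 0, 0) (0, 0, 1) (1, 0, 1) rfl p125 p176 hh (C.symH _ _ p586)
                      have n129 : ¬ u (0, 0, 2) := fun hh => C.dis _ hh p130
                      have p712 : h (1, 0, 0) (1, 1, 0) := or5 (C.twoH (1, 0, 0) (0, 0, 0) (1, 1, 0) (1, -1, 0) (1, 0, 1) (1, 0, -1) rfl p176) (fun q => absurd (C.symH _ _ q) n580) (fun q => q) (fun q => absurd (C.symH _ _ q) n684) (fun q => absurd q n714) (fun q => absurd (C.symH _ _ q) n708)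
                      have n459 : ¬ e (-1, 0, 1) (-1, 0, 2) := fun hh => n129 (C.bE1 (-1, 0, 1) (0, 0, 1) (-1, 0, 2) (0, 0, 2) rfl p77 p128 hh)
                      have p186 : w (1, 1, 0) := C.endH _ _ (C.symH _ _ p712)
                      have n608 : ¬ h (0, 1, 0) (1, 1, 0) := fun hh => C.bH2 (0, 0, 0) (1, 0, 0) (0, 1, 0) (1, 1, 0) rfl p125 p176 p712 (C.symH _ _ hh)
                      have n183 : ¬ u (1, 1, -1) := fun hh => n174 (C.bH1 (1, 1, -1) (1, 1, 0) (1, 0, -1) (1, 0, 0) rfl hh p186 (C.symH _ _ p712))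
                      have p612 : h (0, 1, 0) (0, 1, 1) := or5 (C.twoH (0, 1, 0) (1, 1, 0) (-1, 1, 0) (0, 0, 0) (0, 1, 1) (0, 1, -1) rfl p136) (fun q => absurd q n608) (fun q => absurd (C.symH _ _ q) n478) (fun q => absurd (C.symH _ _ q) n582) (fun q => q) (fun q => absurd (C.symH _ _ q) n606)
                      have p610 : h (0, 1, 0) (0, 2, 0) := or5 (C.twoH (0, 1, 0) (1, 1, 0) (-1, 1, 0) (0, 2, 0) (0, 0, 0) (0, 1, -1) rfl p136) (fun q => absurd q n608) (fun q => absurd (C.symH _ _ q) n478) (fun q => q) (fun q => absurd (C.symH _ _ q) n582) (fun q => absurd (C.symH _ _ q) n606)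
                      have n601 : ¬ e (0, 1, -1) (1, 1, -1) := fun hh => n183 (C.endE _ _ (C.symE _ _ hh))
                      have p138 : w (0, 1, 1) := C.endH _ _ (C.symH _ _ p612)
                      have n87 : ¬ u (-1, 1, 1) := fun hh => n86 (C.bH1 (-1, 1, 1) (0, 1, 1) (-1, 1, 0) (0, 1, 0) rfl hh p138 (C.symH _ _ p612))
                      have p146 : w (0, 2, 0) := C.endH _ _ (C.symH _ _ p610)
                      have n457 : ¬ e (-1, 0, 1) (-1, 1, 1) := fun hh => n87 (C.endE _ _ (C.symE _ _ hh))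
                      have n481 : ¬ e (-1, 1, 0) (-1, 1, 1) := fun hh => n87 (C.endE _ _ (C.symE _ _ hh))
                      have n145 : ¬ u (0, 2, 0) := fun hh => C.dis _ hh p146
                      have p429 : e (-1, -1, 1) (-1, 0, 1) := or5 (C.twoE (-1, 0, 1) (0, 0, 1) (-1, 1, 1) (-1, -1, 1) (-1, 0, 2) (-1, 0, 0) rfl p77) (fun q => absurd q n455) (fun q => absurd q n457) (fun q => (C.symE _ _ q)) (fun q => absurd q n459) (fun q => absurd (C.symE _ _ q) n453)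
                      have n479 : ¬ e (-1, 1, 0) (-1, 2, 0) := fun hh => n145 (C.bE1 (-1, 1, 0) (0, 1, 0) (-1, 2, 0) (0, 2, 0) rfl p85 p136 hh)
                      have p117 : u (0, -1, 1) := C.bE1 (-1, 0, 1) (0, 0, 1) (-1, -1, 1) (0, -1, 1) rfl p77 p128 (C.symE _ _ p429)
                      have n427 : ¬ e (-1, -1, 1) (0, -1, 1) := fun hh => C.bE2 (-1, 0, 1) (0, 0, 1) (-1, -1, 1) (0, -1, 1) rfl p77 p128 (C.symE _ _ p429) hh
                      have p475 : e (-1, 1, -1) (-1, 1, 0) := or5 (C.twoE (-1, 1, 0) (0, 1, 0) (-1, 2, 0) (-1, 0, 0) (-1, 1, 1) (-1, 1, -1) rfl p85) (fun q => absurd q n477) (fun q => absurd q n479) (fun q => absurd (C.symE _ _ q) n451) (fun q => absurd q n481) (fun q => (C.symE _ _ q))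
                      have n557 : ¬ e (0, -1, 1) (1, -1, 1) := fun hh => n177 (C.bE1 (0, -1, 1) (0, 0, 1) (1, -1, 1) (1, 0, 1) rfl p117 p128 hh)
                      have n561 : ¬ e (0, -1, 1) (0, -1, 2) := fun hh => n129 (C.bE1 (0, -1, 1) (0, 0, 1) (0, -1, 2) (0, 0, 2) rfl p117 p128 hh)
                      have p555 : e (0, -1, 0) (0, -1, 1) := or5 (C.twoE (0, -1, 1) (1, -1, 1) (-1, -1, 1) (0, 0, 1) (0, -1, 2) (0, -1, 0) rfl p117) (fun q => absurd q n557) (fun q => absurd (C.symE _ _ q) n427) (fun q => absurd q n559) (fun q => absurd q n561) (fun q => (C.symE _ _ q))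
                      have p133 : u (0, 1, -1) := C.bE1 (-1, 1, 0) (0, 1, 0) (-1, 1, -1) (0, 1, -1) rfl p85 p136 (C.symE _ _ p475)
                      have n471 : ¬ e (-1, 1, -1) (0, 1, -1) := fun hh => C.bE2 (-1, 1, 0) (0, 1, 0) (-1, 1, -1) (0, 1, -1) rfl p85 p136 (C.symE _ _ p475) hh
                      have n553 : ¬ e (0, -1, 0) (0, 0, 0) := fun hh => C.bE2 (0, -1, 1) (0, 0, 1) (0, -1, 0) (0, 0, 0) rfl p117 p128 (C.symE _ _ p555) hh
                      have n603 : ¬ e (0, 1, -1) (0, 2, -1) := fun hh => n145 (C.bE1 (0, 1, -1) (0, 1, 0) (0, 2, -1) (0, 2, 0) rfl p133 p136 hh)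
                      have p575 : e (0, 0, -1) (0, 1, -1) := or5 (C.twoE (0, 1, -1) (1, 1, -1) (-1, 1, -1) (0, 2, -1) (0, 0, -1) (0, 1, 0) rfl p133) (fun q => absurd q n601) (fun q => absurd (C.symE _ _ q) n471) (fun q => absurd q n603) (fun q => (C.symE _ _ q)) (fun q => absurd q n605)
                      have p577 : e (0, 0, -1) (0, 0, 0) := or5 (C.twoE (0, 0, 0) (1, 0, 0) (0, 1, 0) (0, -1, 0) (0, 0, 1) (0, 0, -1) rfl p125) (fun q => absurd q n579) (fun q => absurd q n581) (fun q => absurd (C.symE _ _ q) n553) (fun q => absurd q n583) (fun q => (C.symE _ _ q))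
                      exact C.bE2 (0, 0, 0) (0, 1, 0) (0, 0, -1) (0, 1, -1) rfl p125 p136 (C.symE _ _ p577) p575
                  · have p577 : e (0, 0, -1) (0, 0, 0) := or5 (C.twoE (0, 0, 0) (1, 0, 0) (-1, 0, 0) (0, 1, 0) (0, 0, 1) (0, 0, -1) rfl p125) (fun q => absurd q n579) (fun q => absurd (C.symE _ _ q) n449) (fun q => absurd q n581) (fun q => absurd q n583) (fun q => (C.symE _ _ q))
                    have p553 : e (0, -1, 0) (0, 0, 0) := or5 (C.twoE (0, 0, 0) (1, 0, 0) (-1, 0, 0) (0, 1, 0) (0, -1, 0) (0, 0, 1) rfl p125) (fun q => absurd q n579) (fun q => absurd (C.symE _ _ q) n449) (fun q => absurd q n581) (fun q => (C.symE _ _ q)) (fun q => absurd q n583)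
                    have p123 : u (0, 0, -1) := C.endE _ _ p577
                    have n134 : ¬ w (0, 1, -1) := fun hh => n135 (C.bE1 (0, 0, -1) (0, 1, -1) (0, 0, 0) (0, 1, 0) rfl p123 hh p577)
                    have n573 : ¬ e (0, 0, -1) (1, 0, -1) := fun hh => C.bE2 (0, 0, 0) (1, 0, 0) (0, 0, -1) (1, 0, -1) rfl p125 p176 (C.symE _ _ p577) hh
                    have p115 : u (0, -1, 0) := C.endE _ _ p553
                    have n118 : ¬ w (0, -1, 1) := fun hh => n127 (C.bE1 (0, -1, 0) (0, -1, 1) (0, 0, 0) (0, 0, 1) rfl p115 hh p553)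
                    have n551 : ¬ e (0, -1, 0) (1, -1, 0) := fun hh => C.bE2 (0, 0, 0) (1, 0, 0) (0, -1, 0) (1, -1, 0) rfl p125 p176 (C.symE _ _ p553) hh
                    have p117 : u (0, -1, 1) := C.bE1 (0, 0, 0) (0, 0, 1) (0, -1, 0) (0, -1, 1) rfl p125 p128 (C.symE _ _ p553)
                    have n555 : ¬ e (0, -1, 0) (0, -1, 1) := fun hh => C.bE2 (0, 0, 0) (0, 0, 1) (0, -1, 0) (0, -1, 1) rfl p125 p128 (C.symE _ _ p553) hh
                    have n602 : ¬ h (0, 1, -1) (1, 1, -1) := fun hh => n134 (C.endH _ _ hh)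
                    have n558 : ¬ h (0, -1, 1) (1, -1, 1) := fun hh => n118 (C.endH _ _ hh)
                    have n557 : ¬ e (0, -1, 1) (1, -1, 1) := fun hh => n177 (C.bE1 (0, -1, 1) (0, 0, 1) (1, -1, 1) (1, 0, 1) rfl p117 p128 hh)
                    rcases Classical.em (e (1, -1, 0) (2, -1, 0)) with p681 | n681
                    · have p215 : u (2, -1, 0) := C.endE _ _ (C.symE _ _ p681)
                      have n216 : ¬ w (2, -1, 0) := fun hh => C.dis _ p215 hh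
                      have n710 : ¬ h (1, 0, 0) (2, 0, 0) := fun hh => n216 (C.bH1 (1, -1, 0) (1, 0, 0) (2, -1, 0) (2, 0, 0) rfl p165 p176 hh)
                      have p714 : h (1, 0, 0) (1, 0, 1) := or5 (C.twoH (1, 0, 0) (2, 0, 0) (0, 0, 0) (1, -1, 0) (1, 0, 1) (1, 0, -1) rfl p176) (fun q => absurd q n710) (fun q => absurd (C.symH _ _ q) n580) (fun q => absurd (C.symH _ _ q) n684) (fun q => q) (fun q => absurd (C.symH _ _ q) n708)
                      have p168 : w (1, -1, 1) := C.bH1 (1, -1, 0) (1, 0, 0) (1, -1, 1) (1, 0, 1) rfl p165 p176 p714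
                      have n690 : ¬ h (1, -1, 1) (1, 0, 1) := fun hh => C.bH2 (1, -1, 0) (1, 0, 0) (1, -1, 1) (1, 0, 1) rfl p165 p176 p714 (C.symH _ _ hh)
                      have n688 : ¬ h (1, -1, 1) (2, -1, 1) := fun hh => n216 (C.bH1 (1, -1, 0) (1, -1, 1) (2, -1, 0) (2, -1, 1) rfl p165 p168 hh)
                      have p692 : h (1, -1, 1) (1, -1, 2) := or5 (C.twoH (1, -1, 1) (2, -1, 1) (0, -1, 1) (1, 0, 1) (1, -1, 2) (1, -1, 0) rfl p168) (fun q => absurd q n688) (fun q => absurd (C.symH _ _ q) n558) (fun q => absurd q n690) (fun q => q) (fun q => absurd (C.symH _ _ q) n686)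
                      have p662 : h (1, -2, 1) (1, -1, 1) := or5 (C.twoH (1, -1, 1) (2, -1, 1) (0, -1, 1) (1, 0, 1) (1, -2, 1) (1, -1, 0) rfl p168) (fun q => absurd q n688) (fun q => absurd (C.symH _ _ q) n558) (fun q => absurd q n690) (fun q => (C.symH _ _ q)) (fun q => absurd (C.symH _ _ q) n686)
                      have p170 : w (1, -1, 2) := C.endH _ _ (C.symH _ _ p692)
                      have p158 : w (1, -2, 1) := C.endH _ _ p662
                      have n169 : ¬ u (1, -1, 2) := fun hh => C.dis _ hh p170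
                      have n157 : ¬ u (1, -2, 1) := fun hh => C.dis _ hh p158
                      have n561 : ¬ e (0, -1, 1) (0, -1, 2) := fun hh => n169 (C.bE1 (0, -1, 1) (1, -1, 1) (0, -1, 2) (1, -1, 2) rfl p117 p168 hh)
                      have n531 : ¬ e (0, -2, 1) (0, -1, 1) := fun hh => n157 (C.bE1 (0, -1, 1) (1, -1, 1) (0, -2, 1) (1, -2, 1) rfl p117 p168 (C.symE _ _ hh))
                      exact or5 (C.twoE (0, -1, 1) (1, -1, 1) (0, 0, 1) (0, -2, 1) (0, -1, 2) (0, -1, 0) rfl p117) (fun q => n557 q) (fun q => n559 q) (fun q => n531 (C.symE _ _ q)) (fun q => n561 q) (fun q => n555 (C.symE _ _ q))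
                    · have p679 : e (1, -1, -1) (1, -1, 0) := or5 (C.twoE (1, -1, 0) (2, -1, 0) (0, -1, 0) (1, 0, 0) (1, -1, 1) (1, -1, -1) rfl p165) (fun q => absurd q n681) (fun q => absurd (C.symE _ _ q) n551) (fun q => absurd q n683) (fun q => absurd q n685) (fun q => (C.symE _ _ q))
                      have n677 : ¬ e (1, -1, -1) (1, 0, -1) := fun hh => C.bE2 (1, -1, 0) (1, 0, 0) (1, -1, -1) (1, 0, -1) rfl p165 p176 (C.symE _ _ p679) hh
                      have p701 : e (1, 0, -2) (1, 0, -1) := or5 (C.twoE (1, 0, -1) (0, 0, -1) (1, 1, -1) (1, -1, -1) (1, 0, 0) (1, 0, -2) rfl p173) (fun q => absurd (C.symE _ _ q) n573) (fun q => absurd q n705) (fun q => absurd (C.symE _ _ q) n677) (fun q => absurd q n707) (fun q => (C.symE _ _ q))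
                      have p703 : e (1, 0, -1) (2, 0, -1) := or5 (C.twoE (1, 0, -1) (2, 0, -1) (0, 0, -1) (1, 1, -1) (1, -1, -1) (1, 0, 0) rfl p173) (fun q => q) (fun q => absurd (C.symE _ _ q) n573) (fun q => absurd q n705) (fun q => absurd (C.symE _ _ q) n677) (fun q => absurd q n707)
                      have p171 : u (1, 0, -2) := C.endE _ _ p701
                      have p223 : u (2, 0, -1) := C.endE _ _ (C.symE _ _ p703)
                      have n172 : ¬ w (1, 0, -2) := fun hh => C.dis _ p171 hh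
                      have n224 : ¬ w (2, 0, -1) := fun hh => C.dis _ p223 hh
                      have n710 : ¬ h (1, 0, 0) (2, 0, 0) := fun hh => n224 (C.bH1 (1, 0, -1) (1, 0, 0) (2, 0, -1) (2, 0, 0) rfl p173 p176 hh)
                      have p712 : h (1, 0, 0) (1, 1, 0) := or5 (C.twoH (1, 0, 0) (2, 0, 0) (0, 0, 0) (1, 1, 0) (1, -1, 0) (1, 0, -1) rfl p176) (fun q => absurd q n710) (fun q => absurd (C.symH _ _ q) n580) (fun q => q) (fun q => absurd (C.symH _ _ q) n684) (fun q => absurd (C.symH _ _ q) n708)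
                      have p184 : w (1, 1, -1) := C.bH1 (1, 0, -1) (1, 0, 0) (1, 1, -1) (1, 1, 0) rfl p173 p176 p712
                      have n736 : ¬ h (1, 1, -1) (1, 1, 0) := fun hh => C.bH2 (1, 0, -1) (1, 0, 0) (1, 1, -1) (1, 1, 0) rfl p173 p176 p712 (C.symH _ _ hh)
                      have n732 : ¬ h (1, 1, -1) (2, 1, -1) := fun hh => n224 (C.bH1 (1, 0, -1) (1, 1, -1) (2, 0, -1) (2, 1, -1) rfl p173 p184 hh)
                      have n730 : ¬ h (1, 1, -2) (1, 1, -1) := fun hh => n172 (C.bH1 (1, 0, -1) (1, 1, -1) (1, 0, -2) (1, 1, -2) rfl p173 p184 (C.symH _ _ hh))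
                      exact or5 (C.twoH (1, 1, -1) (2, 1, -1) (0, 1, -1) (1, 0, -1) (1, 1, 0) (1, 1, -2) rfl p184) (fun q => n732 q) (fun q => n602 (C.symH _ _ q)) (fun q => n706 (C.symH _ _ q)) (fun q => n736 q) (fun q => n730 (C.symH _ _ q))
                · have n553 : ¬ e (0, -1, 0) (0, 0, 0) := fun hh => n165 (C.bE1 (0, 0, 0) (1, 0, 0) (0, -1, 0) (1, -1, 0) rfl p125 p176 (C.symE _ _ hh))
                  have n677 : ¬ e (1, -1, -1) (1, 0, -1) := fun hh => n165 (C.bE1 (1, 0, -1) (1, 0, 0) (1, -1, -1) (1, -1, 0) rfl p173 p176 (C.symE _ _ hh))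
                  have p577 : e (0, 0, -1) (0, 0, 0) := or5 (C.twoE (0, 0, 0) (1, 0, 0) (0, 1, 0) (0, -1, 0) (0, 0, 1) (0, 0, -1) rfl p125) (fun q => absurd q n579) (fun q => absurd q n581) (fun q => absurd (C.symE _ _ q) n553) (fun q => absurd q n583) (fun q => (C.symE _ _ q))
                  have p123 : u (0, 0, -1) := C.endE _ _ p577
                  have n134 : ¬ w (0, 1, -1) := fun hh => n135 (C.bE1 (0, 0, -1) (0, 1, -1) (0, 0, 0) (0, 1, 0) rfl p123 hh p577)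
                  have n573 : ¬ e (0, 0, -1) (1, 0, -1) := fun hh => C.bE2 (0, 0, 0) (1, 0, 0) (0, 0, -1) (1, 0, -1) rfl p125 p176 (C.symE _ _ p577) hh
                  have n602 : ¬ h (0, 1, -1) (1, 1, -1) := fun hh => n134 (C.endH _ _ hh)
                  have p701 : e (1, 0, -2) (1, 0, -1) := or5 (C.twoE (1, 0, -1) (0, 0, -1) (1, 1, -1) (1, -1, -1) (1, 0, 0) (1, 0, -2) rfl p173) (fun q => absurd (C.symE _ _ q) n573) (fun q => absurd q n705) (fun q => absurd (C.symE _ _ q) n677) (fun q => absurd q n707) (fun q => (C.symE _ _ q))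
                  have p703 : e (1, 0, -1) (2, 0, -1) := or5 (C.twoE (1, 0, -1) (2, 0, -1) (0, 0, -1) (1, 1, -1) (1, -1, -1) (1, 0, 0) rfl p173) (fun q => q) (fun q => absurd (C.symE _ _ q) n573) (fun q => absurd q n705) (fun q => absurd (C.symE _ _ q) n677) (fun q => absurd q n707)
                  have p171 : u (1, 0, -2) := C.endE _ _ p701
                  have p223 : u (2, 0, -1) := C.endE _ _ (C.symE _ _ p703)
                  have n172 : ¬ w (1, 0, -2) := fun hh => C.dis _ p171 hh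
                  have n224 : ¬ w (2, 0, -1) := fun hh => C.dis _ p223 hh
                  have n710 : ¬ h (1, 0, 0) (2, 0, 0) := fun hh => n224 (C.bH1 (1, 0, -1) (1, 0, 0) (2, 0, -1) (2, 0, 0) rfl p173 p176 hh)
                  have p712 : h (1, 0, 0) (1, 1, 0) := or5 (C.twoH (1, 0, 0) (2, 0, 0) (0, 0, 0) (1, 1, 0) (1, -1, 0) (1, 0, -1) rfl p176) (fun q => absurd q n710) (fun q => absurd (C.symH _ _ q) n580) (fun q => q) (fun q => absurd (C.symH _ _ q) n684) (fun q => absurd (C.symH _ _ q) n708)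
                  have p184 : w (1, 1, -1) := C.bH1 (1, 0, -1) (1, 0, 0) (1, 1, -1) (1, 1, 0) rfl p173 p176 p712
                  have n736 : ¬ h (1, 1, -1) (1, 1, 0) := fun hh => C.bH2 (1, 0, -1) (1, 0, 0) (1, 1, -1) (1, 1, 0) rfl p173 p176 p712 (C.symH _ _ hh)
                  have n732 : ¬ h (1, 1, -1) (2, 1, -1) := fun hh => n224 (C.bH1 (1, 0, -1) (1, 1, -1) (2, 0, -1) (2, 1, -1) rfl p173 p184 hh)
                  have n730 : ¬ h (1, 1, -2) (1, 1, -1) := fun hh => n172 (C.bH1 (1, 0, -1) (1, 1, -1) (1, 0, -2) (1, 1, -2) rfl p173 p184 (C.symH _ _ hh))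
                  exact or5 (C.twoH (1, 1, -1) (2, 1, -1) (0, 1, -1) (1, 0, -1) (1, 1, 0) (1, 1, -2) rfl p184) (fun q => n732 q) (fun q => n602 (C.symH _ _ q)) (fun q => n706 (C.symH _ _ q)) (fun q => n736 q) (fun q => n730 (C.symH _ _ q))
            · have n577 : ¬ e (0, 0, -1) (0, 0, 0) := fun hh => n173 (C.bE1 (0, 0, 0) (1, 0, 0) (0, 0, -1) (1, 0, -1) rfl p125 p176 (C.symE _ _ hh))
              have p553 : e (0, -1, 0) (0, 0, 0) := or5 (C.twoE (0, 0, 0) (1, 0, 0) (0, 1, 0) (0, -1, 0) (0, 0, 1) (0, 0, -1) rfl p125) (fun q => absurd q n579) (fun q => absurd q n581) (fun q => (C.symE _ _ q)) (fun q => absurd q n583) (fun q => absurd (C.symE _ _ q) n577)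
              have p115 : u (0, -1, 0) := C.endE _ _ p553
              have n166 : ¬ w (1, -1, 0) := fun hh => n175 (C.bE1 (0, -1, 0) (1, -1, 0) (0, 0, 0) (1, 0, 0) rfl p115 hh p553)
              have n118 : ¬ w (0, -1, 1) := fun hh => n127 (C.bE1 (0, -1, 0) (0, -1, 1) (0, 0, 0) (0, 0, 1) rfl p115 hh p553)
              have p165 : u (1, -1, 0) := C.bE1 (0, 0, 0) (1, 0, 0) (0, -1, 0) (1, -1, 0) rfl p125 p176 (C.symE _ _ p553)
              have n551 : ¬ e (0, -1, 0) (1, -1, 0) := fun hh => C.bE2 (0, 0, 0) (1, 0, 0) (0, -1, 0) (1, -1, 0) rfl p125 p176 (C.symE _ _ p553) hh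
              have n686 : ¬ h (1, -1, 0) (1, -1, 1) := fun hh => n166 (C.endH _ _ hh)
              have n558 : ¬ h (0, -1, 1) (1, -1, 1) := fun hh => n118 (C.endH _ _ hh)
              have n685 : ¬ e (1, -1, 0) (1, -1, 1) := fun hh => n177 (C.bE1 (1, -1, 0) (1, 0, 0) (1, -1, 1) (1, 0, 1) rfl p165 p176 hh)
              have n679 : ¬ e (1, -1, -1) (1, -1, 0) := fun hh => n173 (C.bE1 (1, -1, 0) (1, 0, 0) (1, -1, -1) (1, 0, -1) rfl p165 p176 (C.symE _ _ hh))
              have p655 : e (1, -2, 0) (1, -1, 0) := or5 (C.twoE (1, -1, 0) (0, -1, 0) (1, 0, 0) (1, -2, 0) (1, -1, 1) (1, -1, -1) rfl p165) (fun q => absurd (C.symE _ _ q) n551) (fun q => absurd q n683) (fun q => (C.symE _ _ q)) (fun q => absurd q n685) (fun q => absurd (C.symE _ _ q) n679)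
              have p681 : e (1, -1, 0) (2, -1, 0) := or5 (C.twoE (1, -1, 0) (2, -1, 0) (0, -1, 0) (1, 0, 0) (1, -1, 1) (1, -1, -1) rfl p165) (fun q => q) (fun q => absurd (C.symE _ _ q) n551) (fun q => absurd q n683) (fun q => absurd q n685) (fun q => absurd (C.symE _ _ q) n679)
              have p155 : u (1, -2, 0) := C.endE _ _ p655
              have p215 : u (2, -1, 0) := C.endE _ _ (C.symE _ _ p681)
              have n156 : ¬ w (1, -2, 0) := fun hh => C.dis _ p155 hh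
              have n216 : ¬ w (2, -1, 0) := fun hh => C.dis _ p215 hh
              have n710 : ¬ h (1, 0, 0) (2, 0, 0) := fun hh => n216 (C.bH1 (1, -1, 0) (1, 0, 0) (2, -1, 0) (2, 0, 0) rfl p165 p176 hh)
              have p714 : h (1, 0, 0) (1, 0, 1) := or5 (C.twoH (1, 0, 0) (2, 0, 0) (0, 0, 0) (1, -1, 0) (1, 0, 1) (1, 0, -1) rfl p176) (fun q => absurd q n710) (fun q => absurd (C.symH _ _ q) n580) (fun q => absurd (C.symH _ _ q) n684) (fun q => q) (fun q => absurd (C.symH _ _ q) n708)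
              have p168 : w (1, -1, 1) := C.bH1 (1, -1, 0) (1, 0, 0) (1, -1, 1) (1, 0, 1) rfl p165 p176 p714
              have n690 : ¬ h (1, -1, 1) (1, 0, 1) := fun hh => C.bH2 (1, -1, 0) (1, 0, 0) (1, -1, 1) (1, 0, 1) rfl p165 p176 p714 (C.symH _ _ hh)
              have n688 : ¬ h (1, -1, 1) (2, -1, 1) := fun hh => n216 (C.bH1 (1, -1, 0) (1, -1, 1) (2, -1, 0) (2, -1, 1) rfl p165 p168 hh)
              have n662 : ¬ h (1, -2, 1) (1, -1, 1) := fun hh => n156 (C.bH1 (1, -1, 0) (1, -1, 1) (1, -2, 0) (1, -2, 1) rfl p165 p168 (C.symH _ _ hh))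
              exact or5 (C.twoH (1, -1, 1) (2, -1, 1) (0, -1, 1) (1, 0, 1) (1, -2, 1) (1, -1, 0) rfl p168) (fun q => n688 q) (fun q => n558 (C.symH _ _ q)) (fun q => n690 q) (fun q => n662 (C.symH _ _ q)) (fun q => n686 (C.symH _ _ q))
        · have n712 : ¬ h (1, 0, 0) (1, 1, 0) := fun hh => n136 (C.bH1 (0, 0, 0) (1, 0, 0) (0, 1, 0) (1, 1, 0) rfl p125 p176 hh)
          have n588 : ¬ h (0, 0, 1) (0, 1, 1) := fun hh => n136 (C.bH1 (0, 0, 0) (0, 0, 1) (0, 1, 0) (0, 1, 1) rfl p125 p128 hh)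
          have p714 : h (1, 0, 0) (1, 0, 1) := or5 (C.twoH (1, 0, 0) (0, 0, 0) (1, 1, 0) (1, -1, 0) (1, 0, 1) (1, 0, -1) rfl p176) (fun q => absurd (C.symH _ _ q) n580) (fun q => absurd q n712) (fun q => absurd (C.symH _ _ q) n684) (fun q => q) (fun q => absurd (C.symH _ _ q) n708)
          have n586 : ¬ h (0, 0, 1) (1, 0, 1) := fun hh => C.bH2 (0, 0, 0) (1, 0, 0) (0, 0, 1) (1, 0, 1) rfl p125 p176 p714 (C.symH _ _ hh)
          have p456 : h (-1, 0, 1) (0, 0, 1) := or5 (C.twoH (0, 0, 1) (1, 0, 1) (-1, 0, 1) (0, 1, 1) (0, -1, 1) (0, 0, 0) rfl p128) (fun q => absurd q n586) (fun q => (C.symH _ _ q)) (fun q => absurd q n588) (fun q => absurd (C.symH _ _ q) n560) (fun q => absurd (C.symH _ _ q) n584)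
          have p76 : w (-1, 0, 0) := C.bH1 (0, 0, 0) (0, 0, 1) (-1, 0, 0) (-1, 0, 1) rfl p125 p128 (C.symH _ _ p456)
          have n454 : ¬ h (-1, 0, 0) (-1, 0, 1) := fun hh => C.bH2 (0, 0, 0) (0, 0, 1) (-1, 0, 0) (-1, 0, 1) rfl p125 p128 (C.symH _ _ p456) (C.symH _ _ hh)
          have n452 : ¬ h (-1, 0, 0) (-1, 1, 0) := fun hh => n136 (C.bH1 (0, 0, 0) (-1, 0, 0) (0, 1, 0) (-1, 1, 0) rfl p125 p76 hh)
          have n424 : ¬ h (-1, -1, 0) (-1, 0, 0) := fun hh => n116 (C.bH1 (0, 0, 0) (-1, 0, 0) (0, -1, 0) (-1, -1, 0) rfl p125 p76 (C.symH _ _ hh))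
          have n448 : ¬ h (-1, 0, -1) (-1, 0, 0) := fun hh => n124 (C.bH1 (0, 0, 0) (-1, 0, 0) (0, 0, -1) (-1, 0, -1) rfl p125 p76 (C.symH _ _ hh))
          exact or5 (C.twoH (-1, 0, 0) (0, 0, 0) (-1, 1, 0) (-1, -1, 0) (-1, 0, 1) (-1, 0, -1) rfl p76) (fun q => n450 q) (fun q => n452 q) (fun q => n424 (C.symH _ _ q)) (fun q => n454 q) (fun q => n448 (C.symH _ _ q))
      · have n714 : ¬ h (1, 0, 0) (1, 0, 1) := fun hh => n128 (C.bH1 (0, 0, 0) (1, 0, 0) (0, 0, 1) (1, 0, 1) rfl p125 p176 hh)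
        have p712 : h (1, 0, 0) (1, 1, 0) := or5 (C.twoH (1, 0, 0) (0, 0, 0) (1, 1, 0) (1, -1, 0) (1, 0, 1) (1, 0, -1) rfl p176) (fun q => absurd (C.symH _ _ q) n580) (fun q => q) (fun q => absurd (C.symH _ _ q) n684) (fun q => absurd q n714) (fun q => absurd (C.symH _ _ q) n708)
        have p136 : w (0, 1, 0) := C.bH1 (0, 0, 0) (1, 0, 0) (0, 1, 0) (1, 1, 0) rfl p125 p176 p712
        have n608 : ¬ h (0, 1, 0) (1, 1, 0) := fun hh => C.bH2 (0, 0, 0) (1, 0, 0) (0, 1, 0) (1, 1, 0) rfl p125 p176 p712 (C.symH _ _ hh)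
        have n612 : ¬ h (0, 1, 0) (0, 1, 1) := fun hh => n128 (C.bH1 (0, 0, 0) (0, 1, 0) (0, 0, 1) (0, 1, 1) rfl p125 p136 hh)
        have n606 : ¬ h (0, 1, -1) (0, 1, 0) := fun hh => n124 (C.bH1 (0, 0, 0) (0, 1, 0) (0, 0, -1) (0, 1, -1) rfl p125 p136 (C.symH _ _ hh))
        have p478 : h (-1, 1, 0) (0, 1, 0) := or5 (C.twoH (0, 1, 0) (1, 1, 0) (-1, 1, 0) (0, 0, 0) (0, 1, 1) (0, 1, -1) rfl p136) (fun q => absurd q n608) (fun q => (C.symH _ _ q)) (fun q => absurd (C.symH _ _ q) n582) (fun q => absurd q n612) (fun q => absurd (C.symH _ _ q) n606)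
        have p76 : w (-1, 0, 0) := C.bH1 (0, 0, 0) (0, 1, 0) (-1, 0, 0) (-1, 1, 0) rfl p125 p136 (C.symH _ _ p478)
        have n452 : ¬ h (-1, 0, 0) (-1, 1, 0) := fun hh => C.bH2 (0, 0, 0) (0, 1, 0) (-1, 0, 0) (-1, 1, 0) rfl p125 p136 (C.symH _ _ p478) (C.symH _ _ hh)
        have n424 : ¬ h (-1, -1, 0) (-1, 0, 0) := fun hh => n116 (C.bH1 (0, 0, 0) (-1, 0, 0) (0, -1, 0) (-1, -1, 0) rfl p125 p76 (C.symH _ _ hh))
        have n454 : ¬ h (-1, 0, 0) (-1, 0, 1) := fun hh => n128 (C.bH1 (0, 0, 0) (-1, 0, 0) (0, 0, 1) (-1, 0, 1) rfl p125 p76 hh)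
        have n448 : ¬ h (-1, 0, -1) (-1, 0, 0) := fun hh => n124 (C.bH1 (0, 0, 0) (-1, 0, 0) (0, 0, -1) (-1, 0, -1) rfl p125 p76 (C.symH _ _ hh))
        exact or5 (C.twoH (-1, 0, 0) (0, 0, 0) (-1, 1, 0) (-1, -1, 0) (-1, 0, 1) (-1, 0, -1) rfl p76) (fun q => n450 q) (fun q => n452 q) (fun q => n424 (C.symH _ _ q)) (fun q => n454 q) (fun q => n448 (C.symH _ _ q))

/-- the vector with coordinates `p` in the frame given by the axis `a` and the sign `ε` -/
private def Loc_lin (a : Fin 3) (ε : ℤ) (p : LocP) : Zk 3 := fun i =>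
  if i = a then ε * p.1 else if i = a + 1 then p.2.1 else p.2.2

private theorem Loc_n1 (a : Fin 3) {ε : ℤ} (hε : ε = 1 ∨ ε = -1) (p : LocP) :
    n1 (Loc_lin a ε p) = p.1.natAbs + p.2.1.natAbs + p.2.2.natAbs := by
  unfold n1 Loc_lin
  rw [Fin.sum_univ_three]
  rcases hε with rfl | rfl <;> fin_cases a <;> simp <;> omega

private theorem Loc_sub (a : Fin 3) (ε : ℤ) (p q : LocP) :
    Loc_lin a ε p - Loc_lin a ε q = Loc_lin a ε (p - q) := by
  funext i
  simp only [Loc_lin, Pi.sub_apply, Prod.fst_sub, Prod.snd_sub]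
  split_ifs <;> ring

private theorem Loc_surj (a : Fin 3) {ε : ℤ} (hε : ε = 1 ∨ ε = -1) (z : Zk 3) :
    ∃ p : LocP, Loc_lin a ε p = z := by
  have hε2 : ε * ε = 1 := by rcases hε with rfl | rfl <;> norm_num
  refine ⟨(ε * z a, z (a + 1), z (a + 2)), ?_⟩
  funext i
  simp only [Loc_lin]
  by_cases h1 : i = a
  · rw [if_pos h1, h1, ← mul_assoc, hε2, one_mul]
  · rw [if_neg h1]
    by_cases h2 : i = a + 1
    · rw [if_pos h2, h2]
    · rw [if_neg h2]
      congr 1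
      revert h1 h2
      fin_cases a <;> fin_cases i <;> simp

private theorem Loc_zero {a : Fin 3} {ε : ℤ} (hε : ε = 1 ∨ ε = -1) {p : LocP}
    (h : Loc_lin a ε p = 0) : p.1 = 0 ∧ p.2.1 = 0 ∧ p.2.2 = 0 := by
  have h1 := Loc_n1 a hε p
  rw [h] at h1
  have h2 : n1 (0 : Zk 3) = 0 := by simp [n1]
  omega

private theorem Loc_coord (a : Fin 3) {ε : ℤ} (hε : ε = 1 ∨ ε = -1) (p : LocP) {r : ℤ}
    (h1 : |p.1| ≤ r) (h2 : |p.2.1| ≤ r) (h3 : |p.2.2| ≤ r) (i : Fin 3) :
    |Loc_lin a ε p i| ≤ r := by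
  unfold Loc_lin
  split_ifs
  · rcases hε with rfl | rfl
    · rwa [one_mul]
    · rwa [neg_one_mul, abs_neg]
  · exact h2
  · exact h3

private theorem Loc_frame {f : Zk 3} (hf : n1 f = 1) :
    ∃ (a : Fin 3) (ε : ℤ), (ε = 1 ∨ ε = -1) ∧ f = Loc_lin a ε (1, 0, 0) := by
  have h1 : (f 0).natAbs + (f 1).natAbs + (f 2).natAbs = 1 := by
    rw [← hf, n1, Fin.sum_univ_three]
  have key : ∀ (a : Fin 3) (ε : ℤ), f a = ε → (∀ i, i ≠ a → f i = 0) →
      f = Loc_lin a ε (1, 0, 0) := by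
    intro a ε h2 h3
    funext i
    unfold Loc_lin
    by_cases hi : i = a
    · rw [if_pos hi, hi, h2, mul_one]
    · rw [if_neg hi, h3 i hi]
      split_ifs <;> rfl
  rcases (show (f 0).natAbs = 1 ∨ (f 1).natAbs = 1 ∨ (f 2).natAbs = 1 by omega) with h | h | h
  · refine ⟨0, f 0, by omega, key 0 _ rfl fun i hi => ?_⟩
    fin_cases i
    · exact absurd rfl hi
    · show f 1 = 0
      omega
    · show f 2 = 0
      omega
  · refine ⟨1, f 1, by omega, key 1 _ rfl fun i hi => ?_⟩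
    fin_cases i
    · show f 0 = 0
      omega
    · exact absurd rfl hi
    · show f 2 = 0
      omega
  · refine ⟨2, f 2, by omega, key 2 _ rfl fun i hi => ?_⟩
    fin_cases i
    · show f 0 = 0
      omega
    · show f 1 = 0
      omega
    · exact absurd rfl hi

private theorem Loc_six {x y z y1 y2 y3 y4 y5 : LocP} (h : Loc_five x y1 y2 y3 y4 y5 = true)
    (hy : Loc_nb x y = true) (hz : Loc_nb x z = true) (hyz : y ≠ z) :
    (y = y1 ∨ y = y2 ∨ y = y3 ∨ y = y4 ∨ y = y5) ∨ (z = y1 ∨ z = y2 ∨ z = y3 ∨ z = y4 ∨ z = y5) := by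
  classical
  by_contra hcon
  push Not at hcon
  obtain ⟨⟨a1, a2, a3, a4, a5⟩, b1, b2, b3, b4, b5⟩ := hcon
  simp only [Loc_five, Bool.and_eq_true, decide_eq_true_eq] at h
  obtain ⟨⟨⟨⟨⟨⟨-, c1⟩, c2⟩, c3⟩, c4⟩, c5⟩, hnd⟩ := h
  set N : Finset LocP := {x + (1, 0, 0), x + (-1, 0, 0), x + (0, 1, 0), x + (0, -1, 0),
    x + (0, 0, 1), x + (0, 0, -1)} with hN
  have hmem : ∀ t, Loc_nb x t = true → t ∈ N := by
    intro t ht
    simp only [Loc_nb, decide_eq_true_eq] at ht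
    rw [hN]
    simp only [Finset.mem_insert, Finset.mem_singleton, Prod.ext_iff, Prod.fst_add, Prod.snd_add]
    omega
  have hcard : N.card ≤ 6 := by
    rw [hN]
    exact Finset.card_le_six
  have hnd2 : (y :: z :: [y1, y2, y3, y4, y5]).Nodup := by
    rw [List.nodup_cons, List.nodup_cons]
    refine ⟨?_, ?_, hnd⟩
    · simp only [List.mem_cons, List.not_mem_nil, or_false]
      push Not
      exact ⟨hyz, a1, a2, a3, a4, a5⟩
    · simp only [List.mem_cons, List.not_mem_nil, or_false]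
      push Not
      exact ⟨b1, b2, b3, b4, b5⟩
  have h7 : (y :: z :: [y1, y2, y3, y4, y5]).toFinset ⊆ N := by
    intro t ht
    rw [List.mem_toFinset] at ht
    simp only [List.mem_cons, List.not_mem_nil, or_false] at ht
    rcases ht with rfl | rfl | rfl | rfl | rfl | rfl | rfl
    exacts [hmem _ hy, hmem _ hz, hmem _ c1, hmem _ c2, hmem _ c3, hmem _ c4, hmem _ c5]
  have h8 := Finset.card_le_card h7
  rw [List.toFinset_card_of_nodup hnd2] at h8
  simp at h8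
  omega

private theorem Loc_two {U : Set (Zk 3)} {E : Zk 3 → Zk 3 → Prop} {o : Zk 3} (hU : Pth U E o 3)
    {a : Fin 3} {ε : ℤ} (hε : ε = 1 ∨ ε = -1) {x y1 y2 y3 y4 y5 : LocP}
    (h : Loc_five x y1 y2 y3 y4 y5 = true) (hx : o + Loc_lin a ε x ∈ U) :
    E (o + Loc_lin a ε x) (o + Loc_lin a ε y1) ∨ E (o + Loc_lin a ε x) (o + Loc_lin a ε y2) ∨
      E (o + Loc_lin a ε x) (o + Loc_lin a ε y3) ∨ E (o + Loc_lin a ε x) (o + Loc_lin a ε y4) ∨
      E (o + Loc_lin a ε x) (o + Loc_lin a ε y5) := by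
  have hbx : Loc_bx x = true := by
    simp only [Loc_five, Bool.and_eq_true] at h
    exact h.1.1.1.1.1.1
  simp only [Loc_bx, decide_eq_true_eq] at hbx
  obtain ⟨y, z, hyz, h1, h2⟩ := hU.two _ hx fun i => by
    rw [Pi.add_apply, add_sub_cancel_left]
    exact Loc_coord a hε x (abs_le.2 (by constructor <;> push_cast <;> omega))
      (abs_le.2 (by constructor <;> push_cast <;> omega))
      (abs_le.2 (by constructor <;> push_cast <;> omega)) i
  have key : ∀ t, E (o + Loc_lin a ε x) t → ∃ t', t = o + Loc_lin a ε t' ∧ Loc_nb x t' = true := by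
    intro t ht
    obtain ⟨t', ht'⟩ := Loc_surj a hε (t - o)
    refine ⟨t', by rw [ht']; abel, ?_⟩
    have h3 := hU.nbr _ _ ht
    have h4 : o + Loc_lin a ε x - t = Loc_lin a ε (x - t') := by
      rw [← Loc_sub, ht']
      abel
    rw [h4, Loc_n1 a hε] at h3
    simp only [Loc_nb, decide_eq_true_eq]
    simpa using h3
  obtain ⟨y', rfl, hy'⟩ := key y h1
  obtain ⟨z', rfl, hz'⟩ := key z h2
  have hyz' : y' ≠ z' := fun h3 => hyz (by rw [h3])
  rcases Loc_six h hy' hz' hyz' with h3 | h3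
  · rcases h3 with rfl | rfl | rfl | rfl | rfl
    exacts [Or.inl h1, Or.inr (Or.inl h1), Or.inr (Or.inr (Or.inl h1)),
      Or.inr (Or.inr (Or.inr (Or.inl h1))), Or.inr (Or.inr (Or.inr (Or.inr h1)))]
  · rcases h3 with rfl | rfl | rfl | rfl | rfl
    exacts [Or.inl h2, Or.inr (Or.inl h2), Or.inr (Or.inr (Or.inl h2)),
      Or.inr (Or.inr (Or.inr (Or.inl h2))), Or.inr (Or.inr (Or.inr (Or.inr h2)))]

theorem loc {U W : Set (Zk 3)} {E F : Zk 3 → Zk 3 → Prop} {o f : Zk 3} (hU : Pth U E o 3)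
    (hW : Pth W F o 3) (hd : Disjoint U W) (ho : o ∈ U) (hf : n1 f = 1) (hof : o + f ∈ W) :
    ∃ a g s : Zk 3, (∀ i, |a i - o i| ≤ 3) ∧ n1 g = 1 ∧ n1 s = 1 ∧
      ((a ∈ U ∧ a + g ∈ W ∧ Flp U E a g s) ∨ (a ∈ W ∧ a + g ∈ U ∧ Flp W F a g s)) := by
  obtain ⟨ax, ε, hε, hfr⟩ := Loc_frame hf
  by_contra hcon
  push Not at hcon
  -- positions in the frame
  obtain ⟨p, hp⟩ : ∃ p : LocP → Zk 3, p = fun x => o + Loc_lin ax ε x := ⟨_, rfl⟩
  have hps : ∀ x y, p x - p y = Loc_lin ax ε (x - y) := by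
    intro x y
    rw [hp]
    simp only
    rw [← Loc_sub]
    abel
  have hbd : ∀ (x : LocP), |x.1| ≤ 3 → |x.2.1| ≤ 3 → |x.2.2| ≤ 3 → ∀ i, |p x i - o i| ≤ 3 := by
    intro x h1 h2 h3 i
    rw [hp]
    simp only
    rw [Pi.add_apply, add_sub_cancel_left]
    exact Loc_coord ax hε x h1 h2 h3 i
  -- the geometry of a plaquette
  have hok : ∀ a b a2 b2 : LocP, Loc_ok a b a2 b2 = true →
      (∀ i, |p a i - o i| ≤ 3) ∧ (∀ i, |p b i - o i| ≤ 3) ∧ n1 (p b - p a) = 1 ∧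
        n1 (p a - p b) = 1 ∧ n1 (p a2 - p a) = 1 ∧ p b2 = p b + (p a2 - p a) ∧
        (p b - p a) + (p a2 - p a) ≠ 0 ∧ (p a - p b) + (p a2 - p a) ≠ 0 := by
    intro a b a2 b2 h
    simp only [Loc_ok, Loc_bx, Loc_nb, Bool.and_eq_true, decide_eq_true_eq] at h
    obtain ⟨⟨⟨⟨hbx, h1⟩, h2⟩, h3⟩, h4⟩ := h
    have e1 : n1 (p b - p a) = 1 := by
      rw [hps, Loc_n1 ax hε]
      simp only [Prod.fst_sub, Prod.snd_sub]
      omega
    have e2 : n1 (p a - p b) = 1 := by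
      rw [hps, Loc_n1 ax hε]
      simp only [Prod.fst_sub, Prod.snd_sub]
      omega
    have e3 : n1 (p a2 - p a) = 1 := by
      rw [hps, Loc_n1 ax hε]
      simp only [Prod.fst_sub, Prod.snd_sub]
      omega
    refine ⟨hbd a (abs_le.2 (by omega)) (abs_le.2 (by omega)) (abs_le.2 (by omega)),
      hbd b (abs_le.2 (by omega)) (abs_le.2 (by omega)) (abs_le.2 (by omega)), e1, e2, e3, ?_, ?_, ?_⟩
    · have h5 : p b2 - p b = p a2 - p a := by
        rw [hps, hps, h3, add_sub_cancel_left]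
      rw [← h5]
      abel
    · intro h5
      rw [hps, hps] at h5
      have h6 : Loc_lin ax ε ((b - a) + (a2 - a)) = 0 := by
        have := Loc_sub ax ε (b - a) (-(a2 - a))
        rw [sub_neg_eq_add] at this
        rw [← this, ← h5]
        have h7 : Loc_lin ax ε (-(a2 - a)) = - Loc_lin ax ε (a2 - a) := by
          funext i
          simp only [Loc_lin, Pi.neg_apply, Prod.fst_neg, Prod.snd_neg]
          split_ifs <;> ring
        rw [h7]
        abel
      obtain ⟨c1, c2, c3⟩ := Loc_zero hε h6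
      simp only [Prod.fst_add, Prod.snd_add, Prod.fst_sub, Prod.snd_sub] at c1 c2 c3
      have d1 : a2.1 - a.1 = -(b.1 - a.1) := by omega
      have d2 : a2.2.1 - a.2.1 = -(b.2.1 - a.2.1) := by omega
      have d3 : a2.2.2 - a.2.2 = -(b.2.2 - a.2.2) := by omega
      rw [d1, d2, d3] at h4
      have h8 : (b.1 - a.1) ^ 2 + (b.2.1 - a.2.1) ^ 2 + (b.2.2 - a.2.2) ^ 2 = 0 := by linarith
      have i1 : b.1 - a.1 = 0 := by nlinarith [sq_nonneg (b.1 - a.1), sq_nonneg (b.2.1 - a.2.1), sq_nonneg (b.2.2 - a.2.2)]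
      have i2 : b.2.1 - a.2.1 = 0 := by nlinarith [sq_nonneg (b.1 - a.1), sq_nonneg (b.2.1 - a.2.1), sq_nonneg (b.2.2 - a.2.2)]
      have i3 : b.2.2 - a.2.2 = 0 := by nlinarith [sq_nonneg (b.1 - a.1), sq_nonneg (b.2.1 - a.2.1), sq_nonneg (b.2.2 - a.2.2)]
      omega
    · intro h5
      rw [hps, hps] at h5
      have h6 : Loc_lin ax ε ((a - b) + (a2 - a)) = 0 := by
        have := Loc_sub ax ε (a - b) (-(a2 - a))
        rw [sub_neg_eq_add] at this
        rw [← this, ← h5]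
        have h7 : Loc_lin ax ε (-(a2 - a)) = - Loc_lin ax ε (a2 - a) := by
          funext i
          simp only [Loc_lin, Pi.neg_apply, Prod.fst_neg, Prod.snd_neg]
          split_ifs <;> ring
        rw [h7]
        abel
      obtain ⟨c1, c2, c3⟩ := Loc_zero hε h6
      simp only [Prod.fst_add, Prod.snd_add, Prod.fst_sub, Prod.snd_sub] at c1 c2 c3
      have d1 : a2.1 - a.1 = b.1 - a.1 := by omega
      have d2 : a2.2.1 - a.2.1 = b.2.1 - a.2.1 := by omega
      have d3 : a2.2.2 - a.2.2 = b.2.2 - a.2.2 := by omega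
      rw [d1, d2, d3] at h4
      have h8 : (b.1 - a.1) ^ 2 + (b.2.1 - a.2.1) ^ 2 + (b.2.2 - a.2.2) ^ 2 = 0 := by linarith
      have i1 : b.1 - a.1 = 0 := by nlinarith [sq_nonneg (b.1 - a.1), sq_nonneg (b.2.1 - a.2.1), sq_nonneg (b.2.2 - a.2.2)]
      have i2 : b.2.1 - a.2.1 = 0 := by nlinarith [sq_nonneg (b.1 - a.1), sq_nonneg (b.2.1 - a.2.1), sq_nonneg (b.2.2 - a.2.2)]
      have i3 : b.2.2 - a.2.2 = 0 := by nlinarith [sq_nonneg (b.1 - a.1), sq_nonneg (b.2.1 - a.2.1), sq_nonneg (b.2.2 - a.2.2)]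
      omega
  have hflipU : ∀ a b a2 b2 : LocP, Loc_ok a b a2 b2 = true → p a ∈ U → p b ∈ W →
      E (p a) (p a2) → (p b2 ∉ U ∨ E (p a2) (p b2)) → False := by
    intro a b a2 b2 h h1 h2 h3 h4
    obtain ⟨g1, -, g3, -, g5, g6, g7, -⟩ := hok a b a2 b2 h
    refine (hcon (p a) (p b - p a) (p a2 - p a) g1 g3 g5).1 h1 (by rwa [add_sub_cancel]) ?_
    refine ⟨g7, by rwa [add_sub_cancel], ?_⟩
    rw [add_sub_cancel, add_sub_cancel, ← g6]
    exact h4
  have hflipW : ∀ a b a2 b2 : LocP, Loc_ok a b a2 b2 = true → p a ∈ U → p b ∈ W →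
      F (p b) (p b2) → (p a2 ∉ W ∨ F (p b2) (p a2)) → False := by
    intro a b a2 b2 h h1 h2 h3 h4
    obtain ⟨-, g2, -, g4, g5, g6, -, g8⟩ := hok a b a2 b2 h
    refine (hcon (p b) (p a - p b) (p a2 - p a) g2 g4 g5).2 h2 (by rwa [add_sub_cancel]) ?_
    refine ⟨g8, by rwa [← g6], ?_⟩
    rw [add_sub_cancel, add_sub_cancel, ← g6]
    exact h4
  have hC : LocC (fun x => p x ∈ U) (fun x => p x ∈ W) (fun x y => E (p x) (p y))
      (fun x y => F (p x) (p y)) := by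
    refine ⟨fun x h1 h2 => Set.disjoint_left.1 hd h1 h2, fun x y h => hU.symm _ _ h,
      fun x y h => hW.symm _ _ h, fun x y h => hU.left _ _ h, fun x y h => hW.left _ _ h,
      ?_, ?_, ?_, ?_, ?_, ?_⟩
    · intro x y1 y2 y3 y4 y5 h h1
      rw [hp] at h1 ⊢
      exact Loc_two hU hε h h1
    · intro x y1 y2 y3 y4 y5 h h1
      rw [hp] at h1 ⊢
      exact Loc_two hW hε h h1
    · intro a b a2 b2 h h1 h2 h3
      by_contra h4
      exact hflipU a b a2 b2 h h1 h2 h3 (Or.inl h4)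
    · intro a b a2 b2 h h1 h2 h3 h4
      exact hflipU a b a2 b2 h h1 h2 h3 (Or.inr h4)
    · intro a b a2 b2 h h1 h2 h3
      by_contra h4
      exact hflipW a b a2 b2 h h1 h2 h3 (Or.inl h4)
    · intro a b a2 b2 h h1 h2 h3 h4
      exact hflipW a b a2 b2 h h1 h2 h3 (Or.inr h4)
  refine Loc_core hC ?_ ?_
  · rw [hp]
    have h0 : Loc_lin ax ε (0, 0, 0) = 0 := by
      funext i
      simp [Loc_lin]
    simp only
    rw [h0, add_zero]
    exact ho
  · rw [hp]
    simp only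
    rw [← hfr]
    exact hof

end Pool.Agent.Trp
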