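import Pool.Agent.Trp.Defs
import Pool.Agent.SawM2.GRec
import Pool.Agent.SawM2.TgB
import Pool.Agent.Bub4.Bridge
import Pool.Agent.Trp.Loc

/-!
# Contacts are controlled by flips
-/

set_option autoImplicit false

namespace Pool.Agent.Trp

open Finset Filter Topology Pool.Agent.Bub4 Pool.Agent.SawM2 Pool.Agent.SawDiff Pool.Agent.Taw
open Pool.Agent.SawNice (pa fu Nice)

variable {S : Type} [Fintype S] {d : ℕ} {Λ K : ℝ} {ρ : List S → ℝ}

/-- `x` and `y` are consecutive places of the past arm -/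
def Ctf_E (Y : Sys S (Zk d)) (u : List S) (x y : Zk d) : Prop :=
  ∃ i < u.length, (x = pa Y u i ∧ y = pa Y u (i + 1)) ∨ (x = pa Y u (i + 1) ∧ y = pa Y u i)

/-- a flip of the past arm near the place `a` -/
def Ctf_F (Y : Sys S (Zk d)) (u v : List S) (a : Zk d) : Prop :=
  (∃ i f, Bp Y u v i f ∧ pa Y u i = a) ∨ ∃ i, Sp Y u v i ∧ pa Y u i = a


theorem Ctf_len (Y : Sys S (Zk d)) (v : List S) : (bar Y v).length = v.length := by
  simp [bar]

theorem Ctf_bb (Y : Sys S (Zk d)) (v : List S) : bar Y (bar Y v) = v := by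
  unfold bar
  rw [List.map_reverse, List.reverse_reverse, List.map_map]
  have : (Y.neg ∘ Y.neg) = id := by
    funext s
    exact Y.neg_neg s
  rw [this, List.map_id]

theorem Ctf_saw (Y : Sys S (Zk d)) (v : List S) : Y.Saw (bar Y v) ↔ Y.Saw v := by
  unfold bar
  rw [Y.Saw_reverse_iff, Y.Saw_neg_iff]

theorem Ctf_app (Y : Sys S (Zk d)) (u v : List S) : bar Y (u ++ v) = bar Y v ++ bar Y u := by
  simp [bar]

theorem Ctf_pa (Y : Sys S (Zk d)) (v : List S) (i : ℕ) :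
    pa Y (bar Y v) i = fu Y v (v.length - i) := by
  unfold pa fu bar
  rw [List.drop_reverse, List.length_map, Y.sm_reverse, ← List.map_take, Y.sm_neg, neg_neg]

theorem Ctf_Fv (Y : Sys S (Zk d)) (v : List S) (x : Zk d) :
    Fv Y v x ↔ ∃ i < v.length, x = pa Y (bar Y v) i := by
  unfold Fv
  constructor
  · rintro ⟨j, h1, h2, rfl⟩
    refine ⟨v.length - j, by omega, ?_⟩
    rw [Ctf_pa]
    congr 1
    omega
  · rintro ⟨i, hi, rfl⟩
    exact ⟨v.length - i, by omega, by omega, Ctf_pa Y v i⟩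

theorem Ctf_Fv' (Y : Sys S (Zk d)) (u : List S) (x : Zk d) :
    Fv Y (bar Y u) x ↔ ∃ i < u.length, x = pa Y u i := by
  rw [Ctf_Fv, Ctf_bb, Ctf_len]

theorem Ctf_step (Y : Sys S (Zk d)) (hst : ∀ s, n1 (Y.vec s) = 1) (u : List S) {i : ℕ}
    (hi : i < u.length) : n1 (pa Y u i - pa Y u (i + 1)) = 1 := by
  unfold pa
  rw [List.drop_eq_getElem_cons hi, Y.sm_cons]
  have : -(Y.vec u[i] + Y.sm (u.drop (i + 1))) - -Y.sm (u.drop (i + 1)) = - Y.vec u[i] := by
    abel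
  rw [this, n1_neg]
  exact hst _

theorem Ctf_nbr (Y : Sys S (Zk d)) (hst : ∀ s, n1 (Y.vec s) = 1) (u : List S) {x y : Zk d}
    (h : Ctf_E Y u x y) : n1 (x - y) = 1 := by
  obtain ⟨i, hi, ⟨rfl, rfl⟩ | ⟨rfl, rfl⟩⟩ := h
  · exact Ctf_step Y hst u hi
  · rw [n1_sub_comm]
    exact Ctf_step Y hst u hi

theorem Ctf_symm (Y : Sys S (Zk d)) (u : List S) {x y : Zk d}
    (h : Ctf_E Y u x y) : Ctf_E Y u y x := by
  obtain ⟨i, hi, ⟨rfl, rfl⟩ | ⟨rfl, rfl⟩⟩ := h
  · exact ⟨i, hi, Or.inr ⟨rfl, rfl⟩⟩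
  · exact ⟨i, hi, Or.inl ⟨rfl, rfl⟩⟩

/-- interior places have two edges -/
theorem Ctf_two (Y : Sys S (Zk d)) {u : List S} (hu : Y.Saw u) {x : Zk d}
    (hx : ∃ i ≤ u.length, x = pa Y u i) (h0 : x ≠ pa Y u 0) (h1 : x ≠ 0) :
    ∃ y z, y ≠ z ∧ Ctf_E Y u x y ∧ Ctf_E Y u x z := by
  obtain ⟨i, hi, rfl⟩ := hx
  have hi0 : i ≠ 0 := by
    rintro rfl
    exact h0 rfl
  have hi1 : i ≠ u.length := by
    rintro rfl
    exact h1 (Pool.Agent.SawNice.pa_length Y u)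
  have hlt : i < u.length := lt_of_le_of_ne hi hi1
  obtain ⟨j, rfl⟩ : ∃ j, i = j + 1 := ⟨i - 1, by omega⟩
  refine ⟨pa Y u j, pa Y u (j + 1 + 1), ?_, ⟨j, by omega, Or.inr ⟨rfl, rfl⟩⟩,
    ⟨j + 1, hlt, Or.inl ⟨rfl, rfl⟩⟩⟩
  intro h
  have := Pool.Agent.SawNice.saw_pa Y hu (by omega) (by omega) h
  omega

/-- an abstract flip is a flip of the past arm -/
theorem Ctf_one (Y : Sys S (Zk d)) {u v : List S} (hs : Y.Saw (u ++ v)) {a g s : Zk d} {f : S}
    (hf : Y.vec f = g) (hgs : g + s ≠ 0) (hag : Fv Y v (a + g)) (hE : Ctf_E Y u a (a + s))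
    (h : (∀ l ≤ u.length, pa Y u l ≠ a + g + s) ∨ Ctf_E Y u (a + s) (a + g + s)) :
    ∃ b, (b = a ∨ b = a + s ∨ b = a + g + s) ∧ Ctf_F Y u v b := by
  have hu : Y.Saw u := hs.fac (List.infix_append' [] u v)
  have hne : ∀ l ≤ u.length, pa Y u l ≠ a + g := by
    intro l hl he
    obtain ⟨j, h1, h2, h3⟩ := hag
    exact Pool.Agent.SawNice.saw_arms Y hs hl h1 h2 (he.trans h3)
  rcases h with h | h
  · obtain ⟨i, hi, ⟨e1, e2⟩ | ⟨e1, e2⟩⟩ := hE
    · refine ⟨a, Or.inl rfl, Or.inl ⟨i, f, ⟨hi, ?_, Or.inl ?_⟩, e1.symm⟩⟩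
      · intro l hl
        rw [hf, ← e1, ← e2]
        refine ⟨hne l hl, ?_⟩
        rw [add_right_comm]
        exact h l hl
      · rw [hf, ← e1]
        exact hag
    · refine ⟨a + s, Or.inr (Or.inl rfl), Or.inl ⟨i, f, ⟨hi, ?_, Or.inr ?_⟩, e2.symm⟩⟩
      · intro l hl
        rw [hf, ← e1, ← e2]
        refine ⟨?_, hne l hl⟩
        rw [add_right_comm]
        exact h l hl
      · rw [hf, ← e1]
        exact hag
  · have key : ∀ i, i + 2 ≤ u.length →
        pa Y u i + pa Y u (i + 2) - pa Y u (i + 1) = a + g → Sp Y u v i := by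
      intro i hi he
      exact ⟨hi, by rw [he]; exact hag⟩
    obtain ⟨i, hi, hE⟩ := hE
    obtain ⟨j, hj, h⟩ := h
    have inj : ∀ p q, p ≤ u.length → q ≤ u.length → pa Y u p = pa Y u q → p = q :=
      fun p q hp hq he => Pool.Agent.SawNice.saw_pa Y hu hp hq he
    have hne2 : a ≠ a + g + s := by
      intro he
      apply hgs
      have : a + (g + s) = a + 0 := by rw [add_zero, ← add_assoc]; exact he.symm
      exact add_left_cancel this
    rcases hE with ⟨e1, e2⟩ | ⟨e1, e2⟩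
    · rcases h with ⟨e3, e4⟩ | ⟨e3, e4⟩
      · have := inj (i + 1) j (by omega) (by omega) (e2.symm.trans e3)
        subst this
        refine ⟨a, Or.inl rfl, Or.inr ⟨i, key i (by omega) ?_, e1.symm⟩⟩
        rw [← e1, ← e2, ← e4]
        abel
      · have := inj (i + 1) (j + 1) (by omega) (by omega) (e2.symm.trans e3)
        have : i = j := by omega
        subst this
        exact absurd (e1.trans e4.symm) hne2
    · rcases h with ⟨e3, e4⟩ | ⟨e3, e4⟩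
      · have := inj i j (by omega) (by omega) (e2.symm.trans e3)
        subst this
        exact absurd (e1.trans e4.symm) hne2
      · have := inj i (j + 1) (by omega) (by omega) (e2.symm.trans e3)
        subst this
        refine ⟨a + g + s, Or.inr (Or.inr rfl), Or.inr ⟨j, key j (by omega) ?_, e4.symm⟩⟩
        rw [← e4, ← e3, ← e1]
        abel

theorem Ctf_abs {x : Zk 3} (hx : n1 x = 1) (k : Fin 3) : |x k| ≤ 1 := by
  have h := natAbs_le_n1 x k
  rw [hx] at h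
  have : ((x k).natAbs : ℤ) ≤ 1 := by exact_mod_cast h
  rwa [Int.natCast_natAbs] at this

/-- a contact far from the ends gives a flip -/
theorem Ctf_flip (Y : Sys S (Zk 3)) (hst : ∀ s, n1 (Y.vec s) = 1)
    (hall : ∀ f : Zk 3, n1 f = 1 → ∃ s, Y.vec s = f) {u v : List S} (hs : Y.Saw (u ++ v))
    {i j : ℕ} (hi : i ≤ u.length) (hj : j ≤ v.length) (hc : n1 (pa Y u i - fu Y v j) = 1)
    (h0 : ¬ ∀ k, |(pa Y u 0) k - (pa Y u i) k| ≤ 6)
    (h1 : ¬ ∀ k, |(0 : Zk 3) k - (pa Y u i) k| ≤ 6)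
    (h2 : ¬ ∀ k, |(fu Y v v.length) k - (pa Y u i) k| ≤ 6) :
    ∃ b : Zk 3, (∀ k, |b k - (pa Y u i) k| ≤ 6) ∧
      (Ctf_F Y u v b ∨ Ctf_F Y (bar Y v) (bar Y u) b) := by
  have hu : Y.Saw u := hs.fac (List.infix_append' [] u v)
  have hv : Y.Saw v := hs.fac (List.suffix_append u v).isInfix
  have hs' : Y.Saw (bar Y v ++ bar Y u) := by
    rw [← Ctf_app, Ctf_saw]
    exact hs
  have hj1 : 1 ≤ j := by
    by_contra hj1
    have : j = 0 := by omega
    subst this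
    rw [Pool.Agent.SawNice.fu_zero, sub_zero] at hc
    apply h1
    intro k
    have := Ctf_abs hc k
    simp only [Pi.zero_apply, zero_sub, abs_neg]
    omega
  set o := pa Y u i with ho
  have tri : ∀ x y z : Zk 3, ∀ p q : ℤ, (∀ k, |x k - y k| ≤ p) → (∀ k, |y k - z k| ≤ q) →
      ∀ k, |x k - z k| ≤ p + q := by
    intro x y z p q h h' k
    have e : x k - z k = (x k - y k) + (y k - z k) := by ring
    rw [e]
    exact (abs_add_le _ _).trans (add_le_add (h k) (h' k))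
  have near0 : ∀ x : Zk 3, (∀ k, |x k - o k| ≤ 6) → x ≠ 0 := by
    rintro x hx rfl
    exact h1 hx
  -- the two paths
  set U : Set (Zk 3) := {x | ∃ i ≤ u.length, x = pa Y u i} with hU
  set W : Set (Zk 3) := {x | Fv Y v x} with hW
  have hd : Disjoint U W := by
    rw [Set.disjoint_left]
    rintro x ⟨l, hl, rfl⟩ ⟨j, h1, h2, h3⟩
    exact Pool.Agent.SawNice.saw_arms Y hs hl h1 h2 h3
  set F : Zk 3 → Zk 3 → Prop := fun x y => Ctf_E Y (bar Y v) x y ∧ x ≠ 0 ∧ y ≠ 0 with hF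
  have hW0 : ∀ x, (∃ l ≤ (bar Y v).length, x = pa Y (bar Y v) l) → x ≠ 0 → x ∈ W := by
    rintro x ⟨l, hl, rfl⟩ hx
    show Fv Y v _
    rw [Ctf_Fv]
    refine ⟨l, ?_, rfl⟩
    rw [Ctf_len] at hl
    refine lt_of_le_of_ne hl ?_
    rintro rfl
    apply hx
    have := Pool.Agent.SawNice.pa_length Y (bar Y v)
    rwa [Ctf_len] at this
  have hWin : ∀ x ∈ W, ∃ l ≤ (bar Y v).length, x = pa Y (bar Y v) l := by
    intro x hx
    have hx' : Fv Y v x := hx
    rw [Ctf_Fv] at hx'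
    obtain ⟨l, hl, rfl⟩ := hx'
    exact ⟨l, by rw [Ctf_len]; omega, rfl⟩
  have hW00 : (0 : Zk 3) ∉ W := by
    intro hx
    have hx' : Fv Y v 0 := hx
    have : (0 : Zk 3) ∈ U := ⟨u.length, le_rfl, (Pool.Agent.SawNice.pa_length Y u).symm⟩
    exact Set.disjoint_left.1 hd this hx
  have pU : Pth U (Ctf_E Y u) o 3 := by
    refine ⟨fun x y h => Ctf_symm Y u h, ?_, fun x y h => Ctf_nbr Y hst u h, ?_⟩
    · rintro x y ⟨l, hl, ⟨rfl, -⟩ | ⟨rfl, -⟩⟩
      · exact ⟨l, by omega, rfl⟩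
      · exact ⟨l + 1, by omega, rfl⟩
    · intro x hx hb
      have hb6 : ∀ k, |x k - o k| ≤ 6 := by
        intro k
        have := hb k
        push_cast at this
        omega
      refine Ctf_two Y hu hx ?_ (near0 x hb6)
      rintro rfl
      exact h0 hb6
  have pW : Pth W F o 3 := by
    refine ⟨?_, ?_, ?_, ?_⟩
    · rintro x y ⟨h, hx, hy⟩
      exact ⟨Ctf_symm Y _ h, hy, hx⟩
    · rintro x y ⟨⟨l, hl, ⟨rfl, -⟩ | ⟨rfl, -⟩⟩, hx, -⟩
      · exact hW0 _ ⟨l, by omega, rfl⟩ hx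
      · exact hW0 _ ⟨l + 1, by omega, rfl⟩ hx
    · rintro x y ⟨h, -, -⟩
      exact Ctf_nbr Y hst _ h
    · intro x hx hb
      have hb3 : ∀ k, |x k - o k| ≤ 3 := by
        intro k
        have := hb k
        push_cast at this
        exact this
      have hb6 : ∀ k, |x k - o k| ≤ 6 := fun k => (hb3 k).trans (by norm_num)
      obtain ⟨y, z, hyz, hy, hz⟩ := Ctf_two Y ((Ctf_saw Y v).2 hv) (hWin x hx) (by
        rintro rfl
        rw [Ctf_pa, Nat.sub_zero] at hb6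
        exact h2 hb6) (near0 x hb6)
      have nb : ∀ y, Ctf_E Y (bar Y v) x y → y ≠ 0 := by
        intro y hy
        apply near0
        have hn : n1 (y - x) = 1 := by
          rw [n1_sub_comm]
          exact Ctf_nbr Y hst _ hy
        have hk : ∀ k, |y k - x k| ≤ 1 := fun k => Ctf_abs hn k
        intro k
        exact (tri y x o 1 3 hk hb3 k).trans (by norm_num)
      exact ⟨y, z, hyz, ⟨hy, near0 x hb6, nb y hy⟩, ⟨hz, near0 x hb6, nb z hz⟩⟩
  have ho' : o + (fu Y v j - o) ∈ W := by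
    rw [add_sub_cancel]
    exact ⟨j, hj1, hj, rfl⟩
  obtain ⟨a, g, s, hbox, hg, hsn, hcase⟩ := loc pU pW hd ⟨i, hi, rfl⟩
    (f := fu Y v j - o) (by rw [n1_sub_comm]; exact hc) ho'
  obtain ⟨f, hf⟩ := hall g hg
  have gk : ∀ k, |g k| ≤ 1 := fun k => Ctf_abs hg k
  have sk : ∀ k, |s k| ≤ 1 := fun k => Ctf_abs hsn k
  have cl : ∀ b : Zk 3, (b = a ∨ b = a + s ∨ b = a + g + s) → ∀ k, |b k - o k| ≤ 6 := by
    rintro b hb k
    have h3 := hbox k
    have h4 := gk k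
    have h5 := sk k
    rw [abs_le] at h3 h4 h5 ⊢
    rcases hb with rfl | rfl | rfl
    · constructor <;> linarith [h3.1, h3.2]
    · simp only [Pi.add_apply]
      constructor <;> linarith [h3.1, h3.2, h5.1, h5.2]
    · simp only [Pi.add_apply]
      constructor <;> linarith [h3.1, h3.2, h4.1, h4.2, h5.1, h5.2]
  rcases hcase with ⟨haU, hagW, hgs, hE, hor⟩ | ⟨haW, hagU, hgs, hE, hor⟩
  · have h' : (∀ l ≤ u.length, pa Y u l ≠ a + g + s) ∨ Ctf_E Y u (a + s) (a + g + s) := by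
      rcases hor with h | h
      · left
        intro l hl he
        exact h ⟨l, hl, he.symm⟩
      · exact Or.inr h
    obtain ⟨b, hb, hF'⟩ := Ctf_one Y hs hf hgs hagW hE h'
    exact ⟨b, cl b hb, Or.inl hF'⟩
  · have hag6 : ∀ k, |(a + g) k - o k| ≤ 6 := by
      intro k
      have h3 := hbox k
      have h4 := gk k
      rw [abs_le] at h3 h4 ⊢
      simp only [Pi.add_apply]
      constructor <;> linarith [h3.1, h3.2, h4.1, h4.2]
    have hagF : Fv Y (bar Y u) (a + g) := by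
      rw [Ctf_Fv']
      obtain ⟨l, hl, hl'⟩ := hagU
      refine ⟨l, lt_of_le_of_ne hl ?_, hl'⟩
      rintro rfl
      exact near0 _ hag6 (hl'.trans (Pool.Agent.SawNice.pa_length Y u))
    have h' : (∀ l ≤ (bar Y v).length, pa Y (bar Y v) l ≠ a + g + s) ∨
        Ctf_E Y (bar Y v) (a + s) (a + g + s) := by
      rcases hor with h | h
      · left
        intro l hl he
        exact h (hW0 _ ⟨l, hl, he.symm⟩ (near0 _ (cl _ (Or.inr (Or.inr rfl)))))
      · exact Or.inr h.1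
    obtain ⟨b, hb, hF'⟩ := Ctf_one Y hs' hf hgs hagF hE.1 h'
    exact ⟨b, cl b hb, Or.inr hF'⟩

open Classical in
/-- the contacts -/
noncomputable def Ctf_T (Y : Sys S (Zk 3)) (u v : List S) : Finset (ℕ × ℕ) :=
  (range (u.length + 1) ×ˢ range (v.length + 1)).filter fun p =>
    n1 (pa Y u p.1 - fu Y v p.2) = 1

/-- boxes -/
noncomputable def Ctf_B (a : Zk 3) (R : ℤ) : Finset (Zk 3) :=
  Fintype.piFinset fun k => Finset.Icc (a k - R) (a k + R)

theorem Ctf_cnt (Y : Sys S (Zk 3)) {u v : List S} (hs : Y.Saw (u ++ v)) (a : Zk 3) :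
    ∑ p ∈ Ctf_T Y u v, ind (∀ k, |a k - (pa Y u p.1) k| ≤ 6) ≤ 13 ^ 3 * 15 ^ 3 := by
  classical
  have hu : Y.Saw u := hs.fac (List.infix_append' [] u v)
  have hv : Y.Saw v := hs.fac (List.suffix_append u v).isInfix
  have h1 : ∑ p ∈ Ctf_T Y u v, ind (∀ k, |a k - (pa Y u p.1) k| ≤ 6) =
      (((Ctf_T Y u v).filter fun p => ∀ k, |a k - (pa Y u p.1) k| ≤ 6).card : ℝ) := by
    rw [Finset.card_filter]
    push_cast
    refine Finset.sum_congr rfl fun p _ => ?_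
    by_cases h : ∀ k, |a k - (pa Y u p.1) k| ≤ 6
    · rw [ind_of h, if_pos h]
    · rw [ind_not h, if_neg h]
  rw [h1]
  have h2 : ((Ctf_T Y u v).filter fun p => ∀ k, |a k - (pa Y u p.1) k| ≤ 6).card ≤
      (Ctf_B a 6 ×ˢ Ctf_B a 7).card := by
    refine Finset.card_le_card_of_injOn (fun p => (pa Y u p.1, fu Y v p.2)) ?_ ?_
    · intro p hp
      have hp' := Finset.mem_filter.1 (Finset.mem_coe.1 hp)
      have hp1 := (Finset.mem_filter.1 hp'.1).2
      rw [Finset.mem_coe, Finset.mem_product]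
      unfold Ctf_B
      refine ⟨?_, ?_⟩
      · rw [Fintype.mem_piFinset]
        intro k
        have := hp'.2 k
        rw [abs_le] at this
        rw [Finset.mem_Icc]
        show _ ≤ (pa Y u p.1) k ∧ (pa Y u p.1) k ≤ _
        constructor <;> linarith [this.1, this.2]
      · rw [Fintype.mem_piFinset]
        intro k
        have := hp'.2 k
        have h3 := Ctf_abs hp1 k
        rw [Pi.sub_apply] at h3
        rw [abs_le] at this h3
        rw [Finset.mem_Icc]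
        show _ ≤ (fu Y v p.2) k ∧ (fu Y v p.2) k ≤ _
        constructor <;> linarith [this.1, this.2, h3.1, h3.2]
    · intro p hp q hq he
      have hp' := Finset.mem_filter.1 (Finset.mem_filter.1 (Finset.mem_coe.1 hp)).1
      have hq' := Finset.mem_filter.1 (Finset.mem_filter.1 (Finset.mem_coe.1 hq)).1
      rw [Finset.mem_product, Finset.mem_range, Finset.mem_range] at hp' hq'
      have e1 : pa Y u p.1 = pa Y u q.1 := congrArg Prod.fst he
      have e2 : fu Y v p.2 = fu Y v q.2 := congrArg Prod.snd he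
      exact Prod.ext (Pool.Agent.SawNice.saw_pa Y hu (by omega) (by omega) e1)
        (Pool.Agent.SawNice.saw_fu Y hv (by omega) (by omega) e2)
  have hB : ∀ R : ℕ, (Ctf_B a (R : ℤ)).card = (2 * R + 1) ^ 3 := by
    intro R
    unfold Ctf_B
    rw [Fintype.card_piFinset]
    have : ∀ k : Fin 3, (Finset.Icc (a k - (R : ℤ)) (a k + R)).card = 2 * R + 1 := by
      intro k
      rw [Int.card_Icc]
      omega
    rw [Finset.prod_congr rfl fun k _ => this k, Finset.prod_const, Finset.card_univ,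
      Fintype.card_fin]
  have h6 := hB 6
  have h7 := hB 7
  push_cast at h6 h7
  rw [Finset.card_product, h6, h7] at h2
  have h3 : (((Ctf_T Y u v).filter fun p => ∀ k, |a k - (pa Y u p.1) k| ≤ 6).card : ℝ) ≤
      (((2 * 6 + 1) ^ 3 * (2 * 7 + 1) ^ 3 : ℕ) : ℝ) := by exact_mod_cast h2
  refine h3.trans ?_
  norm_num

theorem Ctf_sum (Y : Sys S (Zk 3)) {u v : List S} (hs : Y.Saw (u ++ v)) (u' v' : List S) :
    ∑ p ∈ Ctf_T Y u v, ind (∃ b : Zk 3, (∀ k, |b k - (pa Y u p.1) k| ≤ 6) ∧ Ctf_F Y u' v' b) ≤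
      13 ^ 3 * 15 ^ 3 * Ph Y u' v' := by
  classical
  have h1 : ∀ p ∈ Ctf_T Y u v,
      ind (∃ b : Zk 3, (∀ k, |b k - (pa Y u p.1) k| ≤ 6) ∧ Ctf_F Y u' v' b) ≤
      (∑ i ∈ range u'.length, ∑ f : S, ind (Bp Y u' v' i f) *
        ind (∀ k, |(pa Y u' i) k - (pa Y u p.1) k| ≤ 6)) +
      ∑ i ∈ range u'.length, ind (Sp Y u' v' i) *
        ind (∀ k, |(pa Y u' i) k - (pa Y u p.1) k| ≤ 6) := by
    intro p _
    have n1' : 0 ≤ ∑ i ∈ range u'.length, ∑ f : S, ind (Bp Y u' v' i f) *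
        ind (∀ k, |(pa Y u' i) k - (pa Y u p.1) k| ≤ 6) :=
      Finset.sum_nonneg fun i _ => Finset.sum_nonneg fun f _ =>
        mul_nonneg (ind_nonneg _) (ind_nonneg _)
    have n2' : 0 ≤ ∑ i ∈ range u'.length, ind (Sp Y u' v' i) *
        ind (∀ k, |(pa Y u' i) k - (pa Y u p.1) k| ≤ 6) :=
      Finset.sum_nonneg fun i _ => mul_nonneg (ind_nonneg _) (ind_nonneg _)
    by_cases h : ∃ b : Zk 3, (∀ k, |b k - (pa Y u p.1) k| ≤ 6) ∧ Ctf_F Y u' v' b
    · rw [ind_of h]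
      obtain ⟨b, hb, ⟨i, f, hB, rfl⟩ | ⟨i, hS, rfl⟩⟩ := h
      · have hi : i ∈ range u'.length := Finset.mem_range.2 hB.1
        have e1 : (1 : ℝ) ≤ ∑ f : S, ind (Bp Y u' v' i f) *
            ind (∀ k, |(pa Y u' i) k - (pa Y u p.1) k| ≤ 6) := by
          have := Finset.single_le_sum (f := fun f : S => ind (Bp Y u' v' i f) *
            ind (∀ k, |(pa Y u' i) k - (pa Y u p.1) k| ≤ 6))
            (fun f _ => mul_nonneg (ind_nonneg _) (ind_nonneg _)) (Finset.mem_univ f)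
          simp only [ind_of hB, ind_of hb, mul_one] at this
          simpa [ind_of hb] using this
        have e2 := Finset.single_le_sum (f := fun i => ∑ f : S, ind (Bp Y u' v' i f) *
            ind (∀ k, |(pa Y u' i) k - (pa Y u p.1) k| ≤ 6))
            (fun i _ => Finset.sum_nonneg fun f _ => mul_nonneg (ind_nonneg _) (ind_nonneg _)) hi
        linarith [e1.trans e2]
      · have hi : i ∈ range u'.length := Finset.mem_range.2 (by have := hS.1; omega)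
        have e2 := Finset.single_le_sum (f := fun i => ind (Sp Y u' v' i) *
            ind (∀ k, |(pa Y u' i) k - (pa Y u p.1) k| ≤ 6))
            (fun i _ => mul_nonneg (ind_nonneg _) (ind_nonneg _)) hi
        simp only [ind_of hS, ind_of hb, mul_one] at e2
        linarith
    · rw [ind_not h]
      positivity
  refine (Finset.sum_le_sum h1).trans ?_
  rw [Finset.sum_add_distrib]
  have hC := Ctf_cnt Y hs
  have a1 : ∑ p ∈ Ctf_T Y u v, ∑ i ∈ range u'.length, ∑ f : S, ind (Bp Y u' v' i f) *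
        ind (∀ k, |(pa Y u' i) k - (pa Y u p.1) k| ≤ 6) ≤
      13 ^ 3 * 15 ^ 3 * ∑ i ∈ range u'.length, ∑ f : S, ind (Bp Y u' v' i f) := by
    rw [Finset.sum_comm, Finset.mul_sum]
    refine Finset.sum_le_sum fun i _ => ?_
    rw [Finset.sum_comm, Finset.mul_sum]
    refine Finset.sum_le_sum fun f _ => ?_
    rw [← Finset.mul_sum, mul_comm]
    exact mul_le_mul_of_nonneg_right (hC _) (ind_nonneg _)
  have a2 : ∑ p ∈ Ctf_T Y u v, ∑ i ∈ range u'.length, ind (Sp Y u' v' i) *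
        ind (∀ k, |(pa Y u' i) k - (pa Y u p.1) k| ≤ 6) ≤
      13 ^ 3 * 15 ^ 3 * ∑ i ∈ range u'.length, ind (Sp Y u' v' i) := by
    rw [Finset.sum_comm, Finset.mul_sum]
    refine Finset.sum_le_sum fun i _ => ?_
    rw [← Finset.mul_sum, mul_comm]
    exact mul_le_mul_of_nonneg_right (hC _) (ind_nonneg _)
  unfold Ph
  linarith

/-- contacts are bounded by flips -/
theorem Ctf_main (Y : Sys S (Zk 3)) (hst : ∀ s, n1 (Y.vec s) = 1)
    (hall : ∀ f : Zk 3, n1 f = 1 → ∃ s, Y.vec s = f) {u v : List S} (hs : Y.Saw (u ++ v)) :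
    (ct Y u v : ℝ) ≤ 3 * (13 ^ 3 * 15 ^ 3) *
      (1 + Ph Y u v + Ph Y (bar Y v) (bar Y u)) := by
  classical
  have hct : (ct Y u v : ℝ) = ∑ p ∈ Ctf_T Y u v, (1 : ℝ) := by
    rw [Finset.sum_const, nsmul_eq_mul, mul_one]
    rfl
  have hle : ∀ p ∈ Ctf_T Y u v, (1 : ℝ) ≤
      ind (∀ k, |(pa Y u 0) k - (pa Y u p.1) k| ≤ 6) +
      ind (∀ k, |(0 : Zk 3) k - (pa Y u p.1) k| ≤ 6) +
      ind (∀ k, |(fu Y v v.length) k - (pa Y u p.1) k| ≤ 6) +
      ind (∃ b : Zk 3, (∀ k, |b k - (pa Y u p.1) k| ≤ 6) ∧ Ctf_F Y u v b) +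
      ind (∃ b : Zk 3, (∀ k, |b k - (pa Y u p.1) k| ≤ 6) ∧ Ctf_F Y (bar Y v) (bar Y u) b) := by
    intro p hp
    have hp' := Finset.mem_filter.1 hp
    have hp1 := hp'.1
    rw [Finset.mem_product, Finset.mem_range, Finset.mem_range] at hp1
    have i0 := ind_nonneg (∀ k, |(pa Y u 0) k - (pa Y u p.1) k| ≤ 6)
    have i1 := ind_nonneg (∀ k, |(0 : Zk 3) k - (pa Y u p.1) k| ≤ 6)
    have i2 := ind_nonneg (∀ k, |(fu Y v v.length) k - (pa Y u p.1) k| ≤ 6)
    have i3 := ind_nonneg (∃ b : Zk 3, (∀ k, |b k - (pa Y u p.1) k| ≤ 6) ∧ Ctf_F Y u v b)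
    have i4 := ind_nonneg
      (∃ b : Zk 3, (∀ k, |b k - (pa Y u p.1) k| ≤ 6) ∧ Ctf_F Y (bar Y v) (bar Y u) b)
    by_cases h0 : ∀ k, |(pa Y u 0) k - (pa Y u p.1) k| ≤ 6
    · have := ind_of h0
      linarith
    by_cases h1 : ∀ k, |(0 : Zk 3) k - (pa Y u p.1) k| ≤ 6
    · have := ind_of h1
      linarith
    by_cases h2 : ∀ k, |(fu Y v v.length) k - (pa Y u p.1) k| ≤ 6
    · have := ind_of h2
      linarith
    obtain ⟨b, hb, hF | hF⟩ := Ctf_flip Y hst hall hs (by omega : p.1 ≤ u.length)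
      (by omega : p.2 ≤ v.length) hp'.2 h0 h1 h2
    · have := ind_of (P := ∃ b : Zk 3, (∀ k, |b k - (pa Y u p.1) k| ≤ 6) ∧ Ctf_F Y u v b)
        ⟨b, hb, hF⟩
      linarith
    · have := ind_of (P := ∃ b : Zk 3, (∀ k, |b k - (pa Y u p.1) k| ≤ 6) ∧
        Ctf_F Y (bar Y v) (bar Y u) b) ⟨b, hb, hF⟩
      linarith
  rw [hct]
  refine (Finset.sum_le_sum hle).trans ?_
  rw [Finset.sum_add_distrib, Finset.sum_add_distrib, Finset.sum_add_distrib,
    Finset.sum_add_distrib]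
  have b0 := Ctf_cnt Y hs (pa Y u 0)
  have b1 := Ctf_cnt Y hs 0
  have b2 := Ctf_cnt Y hs (fu Y v v.length)
  have b3 := Ctf_sum Y hs u v
  have b4 := Ctf_sum Y hs (bar Y v) (bar Y u)
  have p1 : 0 ≤ Ph Y u v := by
    unfold Ph
    exact add_nonneg (Finset.sum_nonneg fun _ _ => Finset.sum_nonneg fun _ _ => ind_nonneg _)
      (Finset.sum_nonneg fun _ _ => ind_nonneg _)
  have p2 : 0 ≤ Ph Y (bar Y v) (bar Y u) := by
    unfold Ph
    exact add_nonneg (Finset.sum_nonneg fun _ _ => Finset.sum_nonneg fun _ _ => ind_nonneg _)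
      (Finset.sum_nonneg fun _ _ => ind_nonneg _)
  norm_num at b0 b1 b2 b3 b4 ⊢
  linarith

theorem Ctf_st {μ : ℝ} (hμ : 0 < μ) (s : Pool.Agent.SubBall.St 1) :
    n1 ((lat 1 hμ).vec s) = 1 := by
  obtain ⟨i, b⟩ := s
  show n1 (Pool.Agent.SubBall.stv 1 (i, b)) = 1
  have h1 : n1 (Pi.single i 1 : Zk 3) = 1 := by
    unfold n1
    rw [Finset.sum_eq_single i]
    · simp
    · intro k _ hk
      rw [Pi.single_eq_of_ne hk]
      rfl
    · intro h
      exact absurd (Finset.mem_univ i) h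
  unfold Pool.Agent.SubBall.stv
  by_cases hb : b = true
  · simp only [hb, if_true]
    exact h1
  · simp only [hb]
    exact (n1_neg _).trans h1

theorem Ctf_all {μ : ℝ} (hμ : 0 < μ) (f : Zk 3) (hf : n1 f = 1) :
    ∃ s, (lat 1 hμ).vec s = f := by
  show ∃ s, Pool.Agent.SubBall.stv 1 s = f
  unfold n1 at hf
  rw [Fin.sum_univ_three] at hf
  have z : ∀ k, (f k).natAbs = 0 → f k = 0 := fun k h => Int.natAbs_eq_zero.1 h
  have o : ∀ k, (f k).natAbs = 1 → f k = 1 ∨ f k = -1 := fun k h => by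
    have := Int.natAbs_eq (f k)
    rw [h] at this
    simpa using this
  have h : (f 0 = 1 ∧ f 1 = 0 ∧ f 2 = 0) ∨ (f 0 = -1 ∧ f 1 = 0 ∧ f 2 = 0) ∨
      (f 0 = 0 ∧ f 1 = 1 ∧ f 2 = 0) ∨ (f 0 = 0 ∧ f 1 = -1 ∧ f 2 = 0) ∨
      (f 0 = 0 ∧ f 1 = 0 ∧ f 2 = 1) ∨ (f 0 = 0 ∧ f 1 = 0 ∧ f 2 = -1) := by
    have c : ((f 0).natAbs = 1 ∧ (f 1).natAbs = 0 ∧ (f 2).natAbs = 0) ∨
        ((f 0).natAbs = 0 ∧ (f 1).natAbs = 1 ∧ (f 2).natAbs = 0) ∨
        ((f 0).natAbs = 0 ∧ (f 1).natAbs = 0 ∧ (f 2).natAbs = 1) := by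
      clear z o
      generalize (f 0).natAbs = x at hf ⊢
      generalize (f 1).natAbs = y at hf ⊢
      generalize (f 2).natAbs = w at hf ⊢
      omega
    rcases c with ⟨c0, c1, c2⟩ | ⟨c0, c1, c2⟩ | ⟨c0, c1, c2⟩
    · rcases o 0 c0 with c0 | c0
      · exact Or.inl ⟨c0, z 1 c1, z 2 c2⟩
      · exact Or.inr (Or.inl ⟨c0, z 1 c1, z 2 c2⟩)
    · rcases o 1 c1 with c1 | c1
      · exact Or.inr (Or.inr (Or.inl ⟨z 0 c0, c1, z 2 c2⟩))
      · exact Or.inr (Or.inr (Or.inr (Or.inl ⟨z 0 c0, c1, z 2 c2⟩)))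
    · rcases o 2 c2 with c2 | c2
      · exact Or.inr (Or.inr (Or.inr (Or.inr (Or.inl ⟨z 0 c0, z 1 c1, c2⟩))))
      · exact Or.inr (Or.inr (Or.inr (Or.inr (Or.inr ⟨z 0 c0, z 1 c1, c2⟩))))
  have key : ∀ (i : Fin 3) (b : Bool), (∀ k, Pool.Agent.SubBall.stv 1 (i, b) k = f k) →
      ∃ s, Pool.Agent.SubBall.stv 1 s = f := fun i b h => ⟨(i, b), funext h⟩
  rcases h with ⟨h0, h1, h2⟩ | ⟨h0, h1, h2⟩ | ⟨h0, h1, h2⟩ | ⟨h0, h1, h2⟩ | ⟨h0, h1, h2⟩ |
    ⟨h0, h1, h2⟩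
  · refine key 0 true fun k => ?_
    fin_cases k <;> simp [Pool.Agent.SubBall.stv, h0, h1, h2]
  · refine key 0 false fun k => ?_
    fin_cases k <;> simp [Pool.Agent.SubBall.stv, h0, h1, h2]
  · refine key 1 true fun k => ?_
    fin_cases k <;> simp [Pool.Agent.SubBall.stv, h0, h1, h2]
  · refine key 1 false fun k => ?_
    fin_cases k <;> simp [Pool.Agent.SubBall.stv, h0, h1, h2]
  · refine key 2 true fun k => ?_
    fin_cases k <;> simp [Pool.Agent.SubBall.stv, h0, h1, h2]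
  · refine key 2 false fun k => ?_
    fin_cases k <;> simp [Pool.Agent.SubBall.stv, h0, h1, h2]

theorem ct_flips {μ : ℝ} (hμ : 0 < μ) : ∃ C : ℝ, ∀ u v, (lat 1 hμ).Saw (u ++ v) →
    (ct (lat 1 hμ) u v : ℝ) ≤
      C * (1 + Ph (lat 1 hμ) u v + Ph (lat 1 hμ) (bar (lat 1 hμ) v) (bar (lat 1 hμ) u)) := by
  exact ⟨_, fun u v hs => Ctf_main (lat 1 hμ) (Ctf_st hμ) (Ctf_all hμ) hs⟩

end Pool.Agent.Trp
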