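import Pool.Agent.SawM2.FinA
import Pool.Agent.SawM2.GRec

/-!
# The energy at all scales
-/

set_option autoImplicit false

namespace Pool.Agent.SawM2

open Finset Filter MeasureTheory Pool.Agent.Bub4 Pool.Agent.SawDiff Pool.Agent.SawNice

variable {S : Type} [Fintype S] {d : ℕ} {Y : Sys S (Fin d → ℤ)} {K : ℝ}

/-- For an ergodic bulk law the energy of the good words is at most `B N ^ c` for all `N`. -/
theorem energy_all_scales {Λ : ℝ} {ρ : List S → ℝ} (h : Erg Y Λ K ρ)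
    (hstep : ∀ s i, |Y.vec s i| ≤ 1)
    (hN : ∀ r : ℕ, ∃ D : Finset (Zk d), (∀ x : Zk d, (∀ i, |x i| ≤ r) → x ∈ D) ∧
      ∀ M : ℕ, ∃ C : ℝ, 0 ≤ C ∧ open Classical in ∀ n n', (Y.E n fun u => Y.E n' fun v =>
        Y.sv (u ++ v) * (((range (n' + 1)).filter fun t => Nice Y D M u v t).card : ℝ)) ≤ C)
    {κ : ℝ} (hκ : 0 < κ) (hκK : κ * K ≤ 1 / 8) {k : ℕ} {e : Fin k → Fin d} (hk : 1 ≤ k)
    (hNtg : Ntg Y (cI e) ρ)
    (htight : ∀ j : Fin d, ∃ c : Rk k, Tgt Y ρ fun v => (v j : ℝ) - ∑ i, c i * (v (e i) : ℝ))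
    {c : ℝ} (hc0 : 0 < c) (hc2 : c ≤ 2) (hkc : 2 * (2 - c) < k + 1) :
    ∃ a : ℝ, 0 < a ∧ a < 1 ∧ ∃ B : ℝ, ∀ N : ℕ, 1 ≤ N → EE Y (cI e) ρ κ a N ≤ B * (N : ℝ) ^ c := by
  by_contra hcon
  push Not at hcon
  refine fin_core h hstep hN hκ hκK hk hNtg htight hc0 hc2 hkc fun a ha0 ha1 B N₀ => ?_
  refine exists_rec (fun B' => ?_) B N₀
  obtain ⟨N, hN1, hN2⟩ := hcon a ha0 ha1 B'
  exact ⟨N, hN1, hN2.le⟩

end Pool.Agent.SawM2
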