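import Pool.Agent.Trp.Defs
import Pool.Agent.Trp.Bump
import Pool.Agent.Trp.Swap

/-!
# The number of flips has bounded expectation
-/

set_option autoImplicit false

namespace Pool.Agent.Trp

open Finset Filter Topology Pool.Agent.Bub4 Pool.Agent.SawM2 Pool.Agent.SawDiff Pool.Agent.Taw
open Pool.Agent.SawNice (pa fu)

variable {S : Type} [Fintype S] {d : ℕ} {Λ K : ℝ} {ρ : List S → ℝ}

private theorem Flips_bar (Y : Sys S (Zk d)) (n : ℕ) (F : List S → ℝ) : Y.E n (fun w => F (bar Y w)) = Y.E n F := by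
  unfold bar
  rw [Y.E_neg n (fun w => F w.reverse), Y.E_reverse]

theorem flips_le (Y : Sys S (Zk d)) (hK : ∀ n, Y.a n ≤ K) : ∃ C : ℝ, ∀ n n' : ℕ,
    (Y.E n fun u => Y.E n' fun v => Y.sv (u ++ v) * (Ph Y u v + Ph Y (bar Y v) (bar Y u))) ≤ C := by
  have h1 : ∀ n n', (Y.E n fun u => Y.E n' fun v => Y.sv (u ++ v) * Ph Y u v) ≤
      2 * (Y.z ^ 2)⁻¹ * K ^ 2 + K ^ 2 := by
    intro n n'
    refine le_trans (le_of_eq ?_) (add_le_add (bump_le Y hK n n') (swap_le Y hK n n'))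
    rw [← Y.E_fadd]
    refine Y.E_congr fun u hu => ?_
    rw [← Y.E_fadd]
    refine Y.E_congr fun v _ => ?_
    unfold Ph
    rw [hu]
    ring
  have h2 : ∀ n n', (Y.E n fun u => Y.E n' fun v => Y.sv (u ++ v) * Ph Y (bar Y v) (bar Y u)) =
      Y.E n' fun v => Y.E n fun u => Y.sv (v ++ u) * Ph Y v u := by
    intro n n'
    rw [Y.E_comm, ← Flips_bar Y n' (fun v => Y.E n fun u => Y.sv (v ++ u) * Ph Y v u)]
    refine Y.E_congr fun v _ => ?_
    rw [← Flips_bar Y n (fun u => Y.sv (bar Y v ++ u) * Ph Y (bar Y v) u)]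
    refine Y.E_congr fun u _ => ?_
    have h3 : bar Y v ++ bar Y u = bar Y (u ++ v) := by
      unfold bar
      rw [List.map_append, List.reverse_append]
    have h4 : Y.sv (bar Y (u ++ v)) = Y.sv (u ++ v) := by
      unfold bar
      rw [Y.sv_reverse, Y.sv_neg]
    rw [h3, h4]
  refine ⟨(2 * (Y.z ^ 2)⁻¹ * K ^ 2 + K ^ 2) + (2 * (Y.z ^ 2)⁻¹ * K ^ 2 + K ^ 2), fun n n' => ?_⟩
  refine le_trans (le_of_eq ?_) (add_le_add (h1 n n') ((h2 n n').le.trans (h1 n' n)))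
  rw [← Y.E_fadd]
  refine Y.E_congr fun u _ => ?_
  rw [← Y.E_fadd]
  exact Y.E_congr fun v _ => mul_add _ _ _

end Pool.Agent.Trp
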