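import Pool.Agent.Trp.Defs
import Pool.Agent.SawM2.GRec
import Pool.Agent.SawM2.TgB
import Pool.Agent.Bub4.Bridge

/-!
# Averages in a tight direction
-/

set_option autoImplicit false

namespace Pool.Agent.Trp

open Finset Filter Topology Pool.Agent.Bub4 Pool.Agent.SawM2 Pool.Agent.SawDiff Pool.Agent.Taw
open Pool.Agent.SawNice (pa fu Nice)

variable {S : Type} [Fintype S] {d : ℕ} {Λ K : ℝ} {ρ : List S → ℝ}

private theorem Big_pt {θ : Rk d} {y : ℝ} (R : ℝ) (hy : 0 < y) (x : Zk d) :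
    ‖(1 : ℂ) - Complex.exp (Complex.I * (dt (y • θ) x : ℝ))‖ ≤
      y * |R| + 2 * ind (R < |dt θ x|) := by
  have h0 : 0 ≤ y * |R| := mul_nonneg hy.le (abs_nonneg R)
  by_cases h : R < |dt θ x|
  · rw [ind_of h]
    have h1 : ‖(1 : ℂ) - Complex.exp (Complex.I * (dt (y • θ) x : ℝ))‖ ≤ 2 := by
      refine (norm_sub_le _ _).trans ?_
      rw [norm_one, mul_comm, Complex.norm_exp_ofReal_mul_I]
      norm_num
    linarith
  · rw [ind_not h]
    have h1 := Real.norm_exp_I_mul_ofReal_sub_one_le (x := dt (y • θ) x)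
    rw [norm_sub_rev, dt_smul_left, Real.norm_eq_abs, abs_mul, abs_of_pos hy] at h1
    rw [dt_smul_left]
    have h2 : |dt θ x| ≤ |R| := (not_lt.1 h).trans (le_abs_self R)
    have h3 := mul_le_mul_of_nonneg_left h2 hy.le
    linarith

private theorem Big_norm (Y : Sys S (Zk d)) (θ : Rk d) {T : ℕ} (hT : 1 ≤ T) (i : ℕ) (w : List S) :
    ‖(1 : ℂ) - wa Y θ T i w‖ ≤ (T : ℝ)⁻¹ * ∑ j ∈ range T,
      ‖(1 : ℂ) - Complex.exp (Complex.I * (dt θ (Y.sm (w.take (i + j))) : ℝ))‖ := by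
  have hT0 : (T : ℂ) ≠ 0 := by
    have : T ≠ 0 := by omega
    exact_mod_cast this
  have h1 : (1 : ℂ) - wa Y θ T i w = (T : ℂ)⁻¹ * ∑ j ∈ range T,
      ((1 : ℂ) - Complex.exp (Complex.I * (dt θ (Y.sm (w.take (i + j))) : ℝ))) := by
    unfold wa
    rw [Finset.sum_sub_distrib, mul_sub]
    simp [hT0]
  rw [h1, norm_mul, norm_inv, Complex.norm_natCast]
  exact mul_le_mul_of_nonneg_left (norm_sum_le _ _) (inv_nonneg.2 (Nat.cast_nonneg T))

theorem wa_big {Y : Sys S (Zk d)} (h : Bulk Y Λ ρ) {θ : Rk d} (ht : Tgt Y ρ fun v => dt θ v)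
    {ε : ℝ} (hε : 0 < ε) : ∃ x : ℝ, 0 < x ∧ ∀ y : ℝ, 0 < y → y ≤ x → ∀ N T i : ℕ, 1 ≤ T →
      i + T ≤ N → (Y.E N fun w => ρ w * ind (‖wa Y (y • θ) T i w‖ < 3 / 4)) ≤ ε := by
  obtain ⟨R, hR⟩ := ht (ε / 16) (by positivity)
  have hR1 : 0 < |R| + 1 := by positivity
  refine ⟨ε / (8 * (|R| + 1)), by positivity, ?_⟩
  intro y hy hyx N T i hT hN
  have hyR : y * |R| ≤ ε / 8 := by
    rw [le_div_iff₀ (by positivity)] at hyx
    nlinarith [abs_nonneg R]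
  have h1 : ∀ j ∈ range T, (Y.E N fun w => ρ w *
      ‖(1 : ℂ) - Complex.exp (Complex.I * (dt (y • θ) (Y.sm (w.take (i + j))) : ℝ))‖) ≤ ε / 4 := by
    intro j hj
    rw [Finset.mem_range] at hj
    obtain ⟨b, rfl⟩ := Nat.exists_eq_add_of_le (show i + j ≤ N by omega)
    rw [h.win_left (i + j) b fun w =>
      ‖(1 : ℂ) - Complex.exp (Complex.I * (dt (y • θ) (Y.sm w) : ℝ))‖]
    have h2 : (Y.E (i + j) fun w => ρ w *
        ‖(1 : ℂ) - Complex.exp (Complex.I * (dt (y • θ) (Y.sm w) : ℝ))‖) ≤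
        Y.E (i + j) fun w => ρ w * (y * |R|) + 2 * (ρ w * ind (R < |dt θ (Y.sm w)|)) := by
      refine Y.E_mono fun w _ => ?_
      have h3 := mul_le_mul_of_nonneg_left (Big_pt (θ := θ) R hy (Y.sm w)) (h.nonneg w)
      refine h3.trans (le_of_eq ?_)
      ring
    refine h2.trans ?_
    rw [Y.E_fadd, Y.E_mul_right, Y.E_mul_left]
    have h4 : (Y.E (i + j) fun w => ρ w) = 1 := h.mass (i + j)
    rw [h4]
    have h5 := hR (i + j)
    linarith
  have h6 : (Y.E N fun w => ρ w * ind (‖wa Y (y • θ) T i w‖ < 3 / 4)) ≤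
      Y.E N fun w => (4 * (T : ℝ)⁻¹) * ∑ j ∈ range T, ρ w *
        ‖(1 : ℂ) - Complex.exp (Complex.I * (dt (y • θ) (Y.sm (w.take (i + j))) : ℝ))‖ := by
    refine Y.E_mono fun w _ => ?_
    have h7 := Big_norm Y (y • θ) hT i w
    have h8 : ind (‖wa Y (y • θ) T i w‖ < 3 / 4) ≤ 4 * ‖(1 : ℂ) - wa Y (y • θ) T i w‖ := by
      by_cases hc : ‖wa Y (y • θ) T i w‖ < 3 / 4
      · rw [ind_of hc]
        have h9 := norm_sub_norm_le (1 : ℂ) (wa Y (y • θ) T i w)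
        rw [norm_one] at h9
        linarith
      · rw [ind_not hc]
        positivity
    have h10 : ind (‖wa Y (y • θ) T i w‖ < 3 / 4) ≤ 4 * ((T : ℝ)⁻¹ * ∑ j ∈ range T,
        ‖(1 : ℂ) - Complex.exp (Complex.I * (dt (y • θ) (Y.sm (w.take (i + j))) : ℝ))‖) :=
      h8.trans (mul_le_mul_of_nonneg_left h7 (by norm_num))
    refine (mul_le_mul_of_nonneg_left h10 (h.nonneg w)).trans (le_of_eq ?_)
    rw [← Finset.mul_sum]
    ring
  refine h6.trans ?_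
  rw [Y.E_mul_left, Y.E_fsum]
  have hT0 : (0 : ℝ) < T := by exact_mod_cast hT
  have h11 := Finset.sum_le_sum h1
  rw [Finset.sum_const, Finset.card_range, nsmul_eq_mul] at h11
  have h12 : (0 : ℝ) ≤ 4 * (T : ℝ)⁻¹ := by positivity
  refine (mul_le_mul_of_nonneg_left h11 h12).trans (le_of_eq ?_)
  field_simp

end Pool.Agent.Trp
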