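import Pool.Agent.Trp.Defs

/-!
# Number of kinks
-/

set_option autoImplicit false

namespace Pool.Agent.Trp

open Finset Filter Topology Pool.Agent.Bub4 Pool.Agent.SawM2 Pool.Agent.SawDiff Pool.Agent.Taw
open Pool.Agent.SawNice (pa fu)

variable {S V : Type} [Fintype S] [AddCommGroup V] {Λ K : ℝ} {ρ : List S → ℝ}

private theorem Count_const (Y : Sys S V) (n : ℕ) (c : ℝ) :
    Y.E n (fun _ => c) = (Y.z * Fintype.card S) ^ n * c := by
  induction n with
  | zero => simp
  | succ n ih =>
    rw [Sys.E_succ]
    simp only [ih]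
    rw [Finset.sum_const, Finset.card_univ, nsmul_eq_mul]
    ring

/-- deletion of `l` letters after the place `s` -/
private theorem Count_del (Y : Sys S V) (F : List S → ℝ) (s l r : ℕ) :
    Y.E (s + (l + r)) (fun w => F (w.take s ++ w.drop (s + l))) =
      (Y.z * Fintype.card S) ^ l * Y.E (s + r) F := by
  rw [Y.E_add s (l + r), Y.E_add s r, ← Y.E_mul_left]
  refine Y.E_congr fun u hu => ?_
  rw [Y.E_add l r]
  have h1 : ∀ c : List S, c.length = l → Y.E r (fun w => F ((u ++ (c ++ w)).take s ++
      (u ++ (c ++ w)).drop (s + l))) = Y.E r (fun w => F (u ++ w)) := by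
    intro c hc
    refine Y.E_congr fun w _ => ?_
    have h2 : (u ++ (c ++ w)).take s = u := by rw [← hu, List.take_left]
    have h3 : (u ++ (c ++ w)).drop (s + l) = w := by
      rw [← List.append_assoc]
      have h4 : s + l = (u ++ c).length := by rw [List.length_append, hu, hc]
      rw [h4, List.drop_left]
    rw [h2, h3]
  rw [Y.E_congr h1, Count_const]

/-- insertion of a letter after the place `t` -/
private theorem Count_ins (Y : Sys S V) (e : S) (F : List S → ℝ) (hF : ∀ w, 0 ≤ F w) (t r : ℕ) :
    Y.E (t + r) (fun w => F (w.take t ++ [e] ++ w.drop t)) ≤ Y.z⁻¹ * Y.E (t + (r + 1)) F := by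
  rw [Y.E_add t r, Y.E_add t (r + 1), ← Y.E_mul_left]
  refine Y.E_mono fun u hu => ?_
  rw [Y.E_succ, ← mul_assoc, inv_mul_cancel₀ Y.z_pos.ne', one_mul]
  have h1 : Y.E r (fun w => F ((u ++ w).take t ++ [e] ++ (u ++ w).drop t)) =
      Y.E r (fun w => F (u ++ e :: w)) := by
    refine Y.E_congr fun w _ => ?_
    have h2 : (u ++ w).take t = u := by rw [← hu, List.take_left]
    have h3 : (u ++ w).drop t = w := by rw [← hu, List.drop_left]
    rw [h2, h3, List.append_assoc, List.singleton_append]
  rw [h1]
  exact Finset.single_le_sum (f := fun s => Y.E r (fun w => F (u ++ s :: w)))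
    (fun s _ => Y.E_nonneg' fun w => hF _) (Finset.mem_univ e)

open Classical in
/-- the sum over the marked places -/
private theorem Count_sum (Y : Sys S V) (hK : ∀ n, Y.a n ≤ K) (J : List S → ℕ → Prop) (R N n M : ℕ)
    (hM : M ≤ N + 2) :
    Y.E n (fun w => ∑ s ∈ range M, Y.sv w *
      (ind (J w s) * ind (((range (N + 2)).filter (J w)).card ≤ R))) ≤ K * R := by
  have h1 : Y.E n (fun w => ∑ s ∈ range M, Y.sv w *
      (ind (J w s) * ind (((range (N + 2)).filter (J w)).card ≤ R))) ≤
      Y.E n (fun w => Y.sv w * R) := by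
    refine Y.E_mono fun w _ => ?_
    rw [← Finset.mul_sum, ← Finset.sum_mul]
    refine mul_le_mul_of_nonneg_left ?_ (Y.sv_nonneg w)
    by_cases h : ((range (N + 2)).filter (J w)).card ≤ R
    · rw [ind_of h, mul_one]
      have h2 : ∑ s ∈ range M, ind (J w s) = (((range M).filter (J w)).card : ℝ) := by
        rw [Finset.card_filter]
        push_cast
        refine Finset.sum_congr rfl fun s _ => ?_
        unfold ind
        rfl
      rw [h2]
      have h3 : ((range M).filter (J w)).card ≤ ((range (N + 2)).filter (J w)).card :=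
        Finset.card_le_card (Finset.filter_subset_filter _ (Finset.range_mono hM))
      exact_mod_cast h3.trans h
    · rw [ind_not h, mul_zero]
      exact Nat.cast_nonneg R
  refine h1.trans ?_
  rw [Y.E_mul_right]
  exact mul_le_mul_of_nonneg_right (hK n) (Nat.cast_nonneg R)

theorem kink_count (Y : Sys S V) (hK : ∀ n, Y.a n ≤ K) (e : S) (m : ℕ) : ∃ C : ℝ, 0 ≤ C ∧
    ∀ (N R : ℕ) (J G : List S → ℕ → Prop),
      (∀ w t, w.length = N → t ≤ N → Y.Saw w → G w t →
        (∃ s ≤ t, ∃ t', t ≤ t' ∧ t' ≤ N ∧ t' ≤ s + m ∧ Y.Saw (w.take s ++ w.drop t') ∧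
          J (w.take s ++ w.drop t') s ∧
          (open Classical in (range (N + 2)).filter (J (w.take s ++ w.drop t'))).card ≤ R) ∨
        (Y.Saw (w.take t ++ [e] ++ w.drop t) ∧ J (w.take t ++ [e] ++ w.drop t) t ∧
          (open Classical in (range (N + 2)).filter (J (w.take t ++ [e] ++ w.drop t))).card ≤ R)) →
      (Y.E N fun w => Y.sv w * ∑ t ∈ range (N + 1), ind (G w t)) ≤ C * R := by
  classical
  have hK0 : 0 ≤ K := by
    have h1 := hK 0
    have h2 : Y.a 0 = 1 := by
      unfold Sys.a
      rw [Sys.E_zero, Sys.sv_nil]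
    linarith
  have hz := Y.z_pos
  have hzS : 0 ≤ Y.z * Fintype.card S := mul_nonneg hz.le (Nat.cast_nonneg _)
  refine ⟨Y.z⁻¹ * K + ∑ l ∈ range (m + 1), (m + 1 : ℝ) * ((Y.z * Fintype.card S) ^ l * K), ?_, ?_⟩
  · refine add_nonneg (mul_nonneg (inv_nonneg.mpr hz.le) hK0) (Finset.sum_nonneg fun l _ => ?_)
    exact mul_nonneg (by positivity) (mul_nonneg (pow_nonneg hzS l) hK0)
  · intro N R J G hG
    -- the functional
    let F : ℕ → List S → ℝ := fun s w => Y.sv w *
      (ind (J w s) * ind (((range (N + 2)).filter (J w)).card ≤ R))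
    have hF0 : ∀ s w, 0 ≤ F s w := fun s w =>
      mul_nonneg (Y.sv_nonneg w) (mul_nonneg (ind_nonneg _) (ind_nonneg _))
    have hpt : ∀ w, w.length = N → Y.sv w * ∑ t ∈ range (N + 1), ind (G w t) ≤
        (∑ t ∈ range (N + 1), F t (w.take t ++ [e] ++ w.drop t)) +
        ∑ l ∈ range (m + 1), ∑ s ∈ range (N + 1 - l),
          (m + 1 : ℝ) * F s (w.take s ++ w.drop (s + l)) := by
      intro w hw
      have hRn : 0 ≤ (∑ t ∈ range (N + 1), F t (w.take t ++ [e] ++ w.drop t)) +
          ∑ l ∈ range (m + 1), ∑ s ∈ range (N + 1 - l),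
          (m + 1 : ℝ) * F s (w.take s ++ w.drop (s + l)) :=
        add_nonneg (Finset.sum_nonneg fun t _ => hF0 _ _) (Finset.sum_nonneg fun l _ =>
          Finset.sum_nonneg fun s _ => mul_nonneg (by positivity) (hF0 _ _))
      by_cases hsaw : Y.Saw w
      · rw [Y.sv_of hsaw, one_mul]
        have h1 : ∀ t ∈ range (N + 1), ind (G w t) ≤ F t (w.take t ++ [e] ++ w.drop t) +
            ∑ l ∈ range (m + 1), ∑ s ∈ range (N + 1 - l), ind (s ≤ t ∧ t ≤ s + l) *
              F s (w.take s ++ w.drop (s + l)) := by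
          intro t ht
          have hRn' : 0 ≤ ∑ l ∈ range (m + 1), ∑ s ∈ range (N + 1 - l), ind (s ≤ t ∧ t ≤ s + l) *
              F s (w.take s ++ w.drop (s + l)) :=
            Finset.sum_nonneg fun l _ => Finset.sum_nonneg fun s _ =>
              mul_nonneg (ind_nonneg _) (hF0 _ _)
          by_cases hGt : G w t
          · rw [ind_of hGt]
            rcases hG w t hw (Nat.lt_succ_iff.mp (Finset.mem_range.mp ht)) hsaw hGt with
              ⟨s, hs, t', ht1, ht2, ht3, h2, h3, h4⟩ | ⟨h2, h3, h4⟩
            · have h5 : s + (t' - s) = t' := by omega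
              have h6 : (1 : ℝ) ≤ ind (s ≤ t ∧ t ≤ s + (t' - s)) *
                  F s (w.take s ++ w.drop (s + (t' - s))) := by
                rw [h5, ind_of ⟨hs, ht1⟩, one_mul]
                show 1 ≤ Y.sv (w.take s ++ w.drop t') * (ind (J (w.take s ++ w.drop t') s) *
                  ind (((range (N + 2)).filter (J (w.take s ++ w.drop t'))).card ≤ R))
                rw [Y.sv_of h2, ind_of h3, ind_of h4]
                norm_num
              have h7 : t' - s ∈ range (m + 1) := Finset.mem_range.mpr (by omega)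
              have h8 : s ∈ range (N + 1 - (t' - s)) := Finset.mem_range.mpr (by omega)
              have h9 : ind (s ≤ t ∧ t ≤ s + (t' - s)) * F s (w.take s ++ w.drop (s + (t' - s))) ≤
                  ∑ l ∈ range (m + 1), ∑ s ∈ range (N + 1 - l), ind (s ≤ t ∧ t ≤ s + l) *
                  F s (w.take s ++ w.drop (s + l)) := by
                refine le_trans ?_ (Finset.single_le_sum (f := fun l => ∑ s ∈ range (N + 1 - l),
                  ind (s ≤ t ∧ t ≤ s + l) * F s (w.take s ++ w.drop (s + l)))
                  (fun l _ => Finset.sum_nonneg fun s _ => mul_nonneg (ind_nonneg _) (hF0 _ _)) h7)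
                exact Finset.single_le_sum (f := fun s' => ind (s' ≤ t ∧ t ≤ s' + (t' - s)) *
                  F s' (w.take s' ++ w.drop (s' + (t' - s))))
                  (fun s' _ => mul_nonneg (ind_nonneg _) (hF0 _ _)) h8
              have := hF0 t (w.take t ++ [e] ++ w.drop t)
              linarith
            · have h6 : (1 : ℝ) ≤ F t (w.take t ++ [e] ++ w.drop t) := by
                show 1 ≤ Y.sv (w.take t ++ [e] ++ w.drop t) *
                  (ind (J (w.take t ++ [e] ++ w.drop t) t) *
                  ind (((range (N + 2)).filter (J (w.take t ++ [e] ++ w.drop t))).card ≤ R))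
                rw [Y.sv_of h2, ind_of h3, ind_of h4]
                norm_num
              linarith
          · rw [ind_not hGt]
            exact add_nonneg (hF0 _ _) hRn'
        refine (Finset.sum_le_sum h1).trans ?_
        rw [Finset.sum_add_distrib]
        refine add_le_add le_rfl ?_
        rw [Finset.sum_comm]
        refine Finset.sum_le_sum fun l hl => ?_
        rw [Finset.sum_comm]
        refine Finset.sum_le_sum fun s _ => ?_
        rw [← Finset.sum_mul]
        refine mul_le_mul_of_nonneg_right ?_ (hF0 _ _)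
        have h2 : ∑ t ∈ range (N + 1), ind (s ≤ t ∧ t ≤ s + l) ≤
            ∑ t ∈ Finset.Icc s (s + l), (1 : ℝ) := by
          have h3 : ∑ t ∈ range (N + 1), ind (s ≤ t ∧ t ≤ s + l) =
              ∑ t ∈ (range (N + 1)).filter (fun t => s ≤ t ∧ t ≤ s + l), (1 : ℝ) := by
            rw [Finset.sum_filter]
            refine Finset.sum_congr rfl fun t _ => ?_
            by_cases h : s ≤ t ∧ t ≤ s + l
            · rw [ind_of h, if_pos h]
            · rw [ind_not h, if_neg h]
          rw [h3]
          refine Finset.sum_le_sum_of_subset_of_nonneg ?_ (fun _ _ _ => zero_le_one)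
          intro t ht
          rw [Finset.mem_filter] at ht
          exact Finset.mem_Icc.mpr ht.2
        refine h2.trans ?_
        rw [Finset.sum_const, nsmul_eq_mul, mul_one, Nat.card_Icc]
        have h4 : s + l + 1 - s ≤ m + 1 := by
          have := Finset.mem_range.mp hl
          omega
        exact_mod_cast h4
      · rw [Y.sv_of_not hsaw, zero_mul]
        exact hRn
    refine (Y.E_mono hpt).trans ?_
    rw [Y.E_fadd, Y.E_fsum, Y.E_fsum, add_mul]
    refine add_le_add ?_ ?_
    · have h1 : ∀ t ∈ range (N + 1), Y.E N (fun w => F t (w.take t ++ [e] ++ w.drop t)) ≤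
          Y.z⁻¹ * Y.E (N + 1) (F t) := by
        intro t ht
        obtain ⟨r, hr⟩ : ∃ r, N = t + r := ⟨N - t, by have := Finset.mem_range.mp ht; omega⟩
        rw [hr]
        exact Count_ins Y e (F t) (hF0 t) t r
      refine (Finset.sum_le_sum h1).trans ?_
      rw [← Finset.mul_sum, ← Y.E_fsum, mul_assoc]
      refine mul_le_mul_of_nonneg_left ?_ (inv_nonneg.mpr hz.le)
      exact Count_sum Y hK J R N (N + 1) (N + 1) (by omega)
    · rw [Finset.sum_mul]
      refine Finset.sum_le_sum fun l hl => ?_
      rw [Y.E_fsum]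
      have h1 : ∀ s ∈ range (N + 1 - l), Y.E N (fun w => (m + 1 : ℝ) *
          F s (w.take s ++ w.drop (s + l))) = (m + 1 : ℝ) * ((Y.z * Fintype.card S) ^ l *
          Y.E (N - l) (F s)) := by
        intro s hs
        rw [Y.E_mul_left]
        have hs' := Finset.mem_range.mp hs
        obtain ⟨r, hr⟩ : ∃ r, N = s + (l + r) := ⟨N - (s + l), by omega⟩
        have hr' : N - l = s + r := by omega
        rw [hr', ← Count_del Y (F s) s l r, ← hr]
      rw [Finset.sum_congr rfl h1, ← Finset.mul_sum, ← Finset.mul_sum, ← Y.E_fsum, mul_assoc,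
        mul_assoc]
      refine mul_le_mul_of_nonneg_left ?_ (by positivity)
      refine mul_le_mul_of_nonneg_left ?_ (pow_nonneg hzS l)
      exact Count_sum Y hK J R N (N - l) (N + 1 - l) (by omega)

end Pool.Agent.Trp
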