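import Pool.Agent.Trp.Defs

/-!
# Longest contact
-/

set_option autoImplicit false

namespace Pool.Agent.Trp

open Finset Filter Topology Pool.Agent.Bub4 Pool.Agent.SawM2 Pool.Agent.SawDiff Pool.Agent.Taw
open Pool.Agent.SawNice (pa fu)

variable {S V : Type} [Fintype S] [AddCommGroup V] {Λ K : ℝ} {ρ : List S → ℝ}

/-- a joint of two self-avoiding words without collisions is self-avoiding -/
private theorem Long_saw (Y : Sys S V) {a b : List S} (ha : Y.Saw a) (hb : Y.Saw b)
    (h : ∀ i ≤ a.length, ∀ j, 1 ≤ j → j ≤ b.length → pa Y a i ≠ fu Y b j) : Y.Saw (a ++ b) := by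
  rw [SawNice.saw_iff]
  intro i j hij hj he
  rw [List.length_append] at hj
  have key : ∀ k, a.length ≤ k → (a ++ b).take k = a ++ b.take (k - a.length) := by
    intro k hk
    rw [List.take_append, List.take_of_length_le hk]
  by_cases h1 : j ≤ a.length
  · rw [List.take_append_of_le_length h1, List.take_append_of_le_length (hij.le.trans h1)] at he
    exact (SawNice.saw_iff Y).1 ha i j hij h1 he
  · push Not at h1
    rw [key j h1.le, Y.sm_append] at he
    by_cases h2 : i ≤ a.length
    · rw [List.take_append_of_le_length h2] at he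
      refine h i h2 (j - a.length) (by omega) (by omega) ?_
      rw [SawNice.pa_eq, he]
      unfold fu
      abel
    · push Not at h2
      rw [key i h2.le, Y.sm_append, add_right_inj] at he
      exact (SawNice.saw_iff Y).1 hb (i - a.length) (j - a.length) (by omega) (by omega) he

theorem long_contact (Y : Sys S V) {x y : List S} (h : Y.Saw (x ++ y)) (e : S) (he : Y.vec e ≠ 0) :
    Y.Saw (x ++ [e] ++ y) ∨ ∃ s ≤ x.length, ∃ t ≤ y.length, pa Y x s = fu Y y t + Y.vec e ∧
      Y.Saw (x.take s ++ y.drop t) := by
  classical
  have hx : Y.Saw x := Sys.Saw.fac h (List.prefix_append _ _).isInfix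
  have hy : Y.Saw y := Sys.Saw.fac h (List.suffix_append _ _).isInfix
  set P : Finset (ℕ × ℕ) := (range (x.length + 1) ×ˢ range (y.length + 1)).filter fun p =>
    pa Y x p.1 = fu Y y p.2 + Y.vec e with hP
  rcases P.eq_empty_or_nonempty with h0 | h0
  · left
    have hno : ∀ s ≤ x.length, ∀ t ≤ y.length, pa Y x s ≠ fu Y y t + Y.vec e := by
      intro s hs t ht hst
      have : (s, t) ∈ P := by
        rw [hP, mem_filter, mem_product, mem_range, mem_range]
        exact ⟨⟨by omega, by omega⟩, hst⟩
      rw [h0] at this
      exact absurd this (Finset.notMem_empty _)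
    rw [List.append_assoc]
    refine Long_saw Y hx ?_ ?_
    · refine Long_saw Y ?_ hy ?_
      · rw [SawNice.saw_iff]
        intro i j hij hj hs
        have h1 : i = 0 := by simp only [List.length_singleton] at hj; omega
        have h2 : j = 1 := by simp only [List.length_singleton] at hj; omega
        subst h1 h2
        simp at hs
        exact he hs.symm
      · intro i hi j hj1 hj hs
        have h1 : i = 0 ∨ i = 1 := by simp only [List.length_singleton] at hi; omega
        rcases h1 with rfl | rfl
        · refine hno x.length le_rfl j hj ?_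
          rw [SawNice.pa_length, ← hs]
          simp [SawNice.pa]
        · have h3 := SawNice.saw_fu Y hy (Nat.zero_le _) hj
            (by rw [SawNice.fu_zero, ← hs]; simp [SawNice.pa])
          omega
    · intro i hi j hj1 hj hs
      refine hno i hi (j - 1) (by rw [List.length_append, List.length_singleton] at hj; omega) ?_
      rw [hs]
      obtain ⟨k, rfl⟩ : ∃ k, j = k + 1 := ⟨j - 1, by omega⟩
      unfold fu
      simp only [List.singleton_append, List.take_succ_cons, Y.sm_cons, Nat.add_sub_cancel]
      abel
  · right
    obtain ⟨⟨s, t⟩, hst, hmax⟩ := P.exists_max_image (fun p => x.length - p.1 + p.2) h0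
    rw [hP, mem_filter, mem_product, mem_range, mem_range] at hst
    obtain ⟨⟨hs1, ht1⟩, hst⟩ := hst
    dsimp only at hs1 ht1 hst
    refine ⟨s, by omega, t, by omega, hst, ?_⟩
    refine Long_saw Y (Sys.Saw.fac hx (List.take_prefix _ _).isInfix)
      (Sys.Saw.fac hy (List.drop_suffix _ _).isInfix) ?_
    intro i hi j hj1 hj hij
    rw [List.length_take] at hi
    rw [List.length_drop] at hj
    have e1 : pa Y (x.take s) i = pa Y x i - pa Y x s := by
      rw [SawNice.pa_eq, SawNice.pa_eq, SawNice.pa_eq, List.take_take,
        min_eq_left (by omega : i ≤ s)]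
      abel
    have e2 : fu Y (y.drop t) j = fu Y y (t + j) - fu Y y t := by
      unfold fu
      rw [List.take_add, Y.sm_append]
      abel
    have h1 : (i, t + j) ∈ P := by
      rw [hP, mem_filter, mem_product, mem_range, mem_range]
      refine ⟨⟨by dsimp only; omega, by dsimp only; omega⟩, ?_⟩
      dsimp only
      rw [e1, e2, hst] at hij
      have : pa Y x i = (pa Y x i - (fu Y y t + Y.vec e)) + (fu Y y t + Y.vec e) := by abel
      rw [this, hij]
      abel
    have h2 := hmax _ h1
    dsimp only at h2
    omega

end Pool.Agent.Trp
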