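import Pool.Agent.Trp.Defs

/-!
# Long contacts are rare
-/

set_option autoImplicit false

namespace Pool.Agent.Trp

open Finset Filter Topology Pool.Agent.Bub4 Pool.Agent.SawM2 Pool.Agent.SawDiff Pool.Agent.Taw
open Pool.Agent.SawNice (pa fu)

variable {S : Type} [Fintype S] {d : ℕ} {Λ K : ℝ} {ρ : List S → ℝ}

private theorem Tail_win {Y : Sys S (Zk d)} (h : Bulk Y Λ ρ) (φ : List S → ℝ) {n n' i j : ℕ}
    (hi : i ≤ n) (hj : j ≤ n') :
    (Y.E n fun u => Y.E n' fun v => ρ (u ++ v) * φ (u.drop (n - i) ++ v.take j)) =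
      Y.E i fun b => Y.E j fun c => ρ (b ++ c) * φ (b ++ c) := by
  obtain ⟨m, rfl⟩ := Nat.exists_eq_add_of_le' hi
  obtain ⟨m', rfl⟩ := Nat.exists_eq_add_of_le hj
  rw [Y.E_add]
  calc (Y.E m fun a => Y.E i fun b => Y.E (j + m') fun v =>
        ρ (a ++ b ++ v) * φ ((a ++ b).drop (m + i - i) ++ v.take j))
      = Y.E m fun a => Y.E i fun b => Y.E j fun c => ρ (a ++ (b ++ c)) * φ (b ++ c) := by
        refine Y.E_congr fun a ha => Y.E_congr fun b hb => ?_
        rw [Y.E_add]
        refine Y.E_congr fun c hc => ?_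
        have h1 : ∀ x : List S, x.length = m' →
            ρ (a ++ b ++ (c ++ x)) * φ ((a ++ b).drop (m + i - i) ++ (c ++ x).take j) =
              ρ ((a ++ (b ++ c)) ++ x) * φ (b ++ c) := by
          intro x hx
          have h2 : (a ++ b).drop (m + i - i) = b := by
            rw [Nat.add_sub_cancel, ← ha, List.drop_left]
          have h3 : (c ++ x).take j = c := by rw [← hc, List.take_left]
          rw [h2, h3]
          simp only [List.append_assoc]
        rw [Y.E_congr h1, Y.E_mul_right, h.right]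
    _ = Y.E i fun b => Y.E m fun a => Y.E j fun c => ρ (a ++ (b ++ c)) * φ (b ++ c) :=
        Y.E_comm m i fun a b => Y.E j fun c => ρ (a ++ (b ++ c)) * φ (b ++ c)
    _ = Y.E i fun b => Y.E j fun c => Y.E m fun a => ρ (a ++ (b ++ c)) * φ (b ++ c) :=
        Y.E_congr fun b _ => Y.E_comm m j fun a c => ρ (a ++ (b ++ c)) * φ (b ++ c)
    _ = Y.E i fun b => Y.E j fun c => ρ (b ++ c) * φ (b ++ c) := by
        refine Y.E_congr fun b _ => Y.E_congr fun c _ => ?_
        rw [Y.E_mul_right, h.left]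

private theorem Tail_pa (Y : Sys S (Zk d)) (u v : List S) (s t : ℕ) :
    n1 (pa Y u s - fu Y v t) = n1 (Y.sm (u.drop s ++ v.take t)) := by
  have h1 : pa Y u s - fu Y v t = - Y.sm (u.drop s ++ v.take t) := by
    unfold Pool.Agent.SawNice.pa Pool.Agent.SawNice.fu
    rw [Y.sm_append]
    abel
  rw [h1]
  unfold n1
  refine Finset.sum_congr rfl fun i _ => ?_
  rw [Pi.neg_apply, Int.natAbs_neg]

theorem contact_tail {Y : Sys S (Zk d)} (h : Bulk Y Λ ρ) {C : ℝ}
    (hC : ∀ n n', (Y.E n fun u => Y.E n' fun v => Y.sv (u ++ v) * (ct Y u v : ℝ)) ≤ C)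
    {ε : ℝ} (hε : 0 < ε) : ∃ m : ℕ, ∀ n n', (Y.E n fun u => Y.E n' fun v => ρ (u ++ v) *
      ind (∃ s ≤ u.length, ∃ t ≤ v.length, n1 (pa Y u s - fu Y v t) = 1 ∧
        m ≤ u.length - s + t)) ≤ ε := by
  classical
  have hΛ : 0 ≤ Λ := by
    have h1 := h.le []
    rw [h.nil, Y.sv_nil, mul_one] at h1
    linarith
  let φ : List S → ℝ := fun w => ind (n1 (Y.sm w) = 1)
  let P : ℕ × ℕ → ℝ := fun p => Y.E p.1 fun b => Y.E p.2 fun c => ρ (b ++ c) * φ (b ++ c)
  have hP : 0 ≤ P := fun p => Y.E_nonneg' fun b => Y.E_nonneg' fun c =>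
    mul_nonneg (h.nonneg _) (ind_nonneg _)
  have hsq : ∀ n : ℕ, ∑ p ∈ range (n + 1) ×ˢ range (n + 1), P p ≤ Λ * C := by
    intro n
    have h1 : ∀ p ∈ range (n + 1) ×ˢ range (n + 1), P p =
        Y.E n fun u => Y.E n fun v => ρ (u ++ v) * φ (u.drop (n - p.1) ++ v.take p.2) := by
      intro p hp
      rw [Finset.mem_product, mem_range, mem_range] at hp
      exact (Tail_win h φ (by omega) (by omega)).symm
    have h2 : ∀ u v : List S, u.length = n → v.length = n →
        ∑ p ∈ range (n + 1) ×ˢ range (n + 1), φ (u.drop (n - p.1) ++ v.take p.2) =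
          (ct Y u v : ℝ) := by
      intro u v hu hv
      rw [Finset.sum_product]
      have h3 := Finset.sum_range_reflect
        (fun s => ∑ j ∈ range (n + 1), φ (u.drop s ++ v.take j)) (n + 1)
      have h4 : ∀ i, n + 1 - 1 - i = n - i := fun i => by omega
      simp only [h4] at h3
      rw [h3]
      unfold ct
      rw [hu, hv, Finset.card_filter, Nat.cast_sum, Finset.sum_product]
      refine Finset.sum_congr rfl fun s _ => Finset.sum_congr rfl fun t _ => ?_
      simp only [φ]
      rw [Tail_pa]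
      unfold ind
      split_ifs <;> simp
    calc ∑ p ∈ range (n + 1) ×ˢ range (n + 1), P p
        = ∑ p ∈ range (n + 1) ×ˢ range (n + 1), Y.E n fun u => Y.E n fun v =>
            ρ (u ++ v) * φ (u.drop (n - p.1) ++ v.take p.2) := Finset.sum_congr rfl h1
      _ = Y.E n fun u => Y.E n fun v => ρ (u ++ v) * (ct Y u v : ℝ) := by
          rw [← Y.E_fsum]
          refine Y.E_congr fun u hu => ?_
          rw [← Y.E_fsum]
          refine Y.E_congr fun v hv => ?_
          rw [← Finset.mul_sum, h2 u v hu hv]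
      _ ≤ Y.E n fun u => Y.E n fun v => Λ * (Y.sv (u ++ v) * (ct Y u v : ℝ)) := by
          refine Y.E_mono fun u _ => Y.E_mono fun v _ => ?_
          rw [← mul_assoc]
          exact mul_le_mul_of_nonneg_right (h.le _) (Nat.cast_nonneg _)
      _ = Λ * Y.E n fun u => Y.E n fun v => Y.sv (u ++ v) * (ct Y u v : ℝ) := by
          simp only [Y.E_mul_left]
      _ ≤ Λ * C := mul_le_mul_of_nonneg_left (hC n n) hΛ
  have hsum : Summable P := by
    refine summable_of_sum_le hP (c := Λ * C) fun s => ?_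
    obtain ⟨N, hN⟩ : ∃ N : ℕ, ∀ p ∈ s, p.1 ≤ N ∧ p.2 ≤ N := by
      refine ⟨∑ p ∈ s, (p.1 + p.2), fun p hp => ?_⟩
      have := Finset.single_le_sum (f := fun p : ℕ × ℕ => p.1 + p.2)
        (fun _ _ => Nat.zero_le _) hp
      omega
    refine (Finset.sum_le_sum_of_subset_of_nonneg ?_ fun p _ _ => hP p).trans (hsq N)
    intro p hp
    rw [Finset.mem_product, mem_range, mem_range]
    have := hN p hp
    omega
  obtain ⟨s, hs⟩ := summable_iff_vanishing_norm.1 hsum ε hε
  obtain ⟨m, hm⟩ : ∃ m : ℕ, ∀ p ∈ s, p.1 + p.2 < m := by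
    refine ⟨∑ p ∈ s, (p.1 + p.2) + 1, fun p hp => ?_⟩
    have := Finset.single_le_sum (f := fun p : ℕ × ℕ => p.1 + p.2)
      (fun _ _ => Nat.zero_le _) hp
    omega
  refine ⟨m, fun n n' => ?_⟩
  let t : Finset (ℕ × ℕ) := (range (n + 1) ×ˢ range (n' + 1)).filter fun p => m ≤ p.1 + p.2
  have hd : Disjoint t s := by
    rw [Finset.disjoint_left]
    intro p hp hp'
    have h1 := (Finset.mem_filter.1 hp).2
    have h2 := hm p hp'
    omega
  have hlt := hs t hd
  rw [Real.norm_eq_abs] at hlt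
  have hlt' := (le_abs_self _).trans hlt.le
  refine le_trans ?_ hlt'
  calc (Y.E n fun u => Y.E n' fun v => ρ (u ++ v) *
        ind (∃ s ≤ u.length, ∃ t ≤ v.length, n1 (pa Y u s - fu Y v t) = 1 ∧
          m ≤ u.length - s + t))
      ≤ Y.E n fun u => Y.E n' fun v => ∑ p ∈ t,
          ρ (u ++ v) * φ (u.drop (n - p.1) ++ v.take p.2) := by
        refine Y.E_mono fun u hu => Y.E_mono fun v hv => ?_
        rw [← Finset.mul_sum]
        refine mul_le_mul_of_nonneg_left ?_ (h.nonneg _)
        by_cases hex : ∃ s ≤ u.length, ∃ t ≤ v.length, n1 (pa Y u s - fu Y v t) = 1 ∧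
          m ≤ u.length - s + t
        · rw [ind_of hex]
          obtain ⟨s', hs', t', ht', h1, h2⟩ := hex
          rw [hu] at hs' h2
          rw [hv] at ht'
          have hmem : (n - s', t') ∈ t := by
            refine Finset.mem_filter.2 ⟨?_, h2⟩
            rw [Finset.mem_product, mem_range, mem_range]
            exact ⟨by simp only; omega, by simp only; omega⟩
          refine le_trans ?_ (Finset.single_le_sum
            (f := fun p : ℕ × ℕ => φ (u.drop (n - p.1) ++ v.take p.2))
            (fun p _ => ind_nonneg _) hmem)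
          simp only [φ]
          rw [show n - (n - s') = s' by omega, ← Tail_pa, ind_of h1]
        · rw [ind_not hex]
          exact Finset.sum_nonneg fun p _ => ind_nonneg _
    _ = ∑ p ∈ t, P p := by
        simp only [Y.E_fsum]
        refine Finset.sum_congr rfl fun p hp => ?_
        have h1 := (Finset.mem_filter.1 hp).1
        rw [Finset.mem_product, mem_range, mem_range] at h1
        exact Tail_win h φ (by omega) (by omega)

end Pool.Agent.Trp
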