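import Pool.Agent.Trp.Defs
import Pool.Agent.SawM2.GRec
import Pool.Agent.SawM2.TgB
import Pool.Agent.Bub4.Bridge

/-!
# Averages over consecutive windows
-/

set_option autoImplicit false

namespace Pool.Agent.Trp

open Finset Filter Topology Pool.Agent.Bub4 Pool.Agent.SawM2 Pool.Agent.SawDiff Pool.Agent.Taw
open Pool.Agent.SawNice (pa fu Nice)

variable {S : Type} [Fintype S] {d : ℕ} {Λ K : ℝ} {ρ : List S → ℝ}

private theorem Win_take (Y : Sys S (Zk d)) (θ : Rk d) (w : List S) (i j : ℕ) :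
    Complex.exp (Complex.I * (dt θ (Y.sm (w.take (i + j))) : ℝ)) =
      Complex.exp (Complex.I * (dt θ (Y.sm (w.take i)) : ℝ)) *
        Complex.exp (Complex.I * (dt θ (Y.sm ((w.drop i).take j)) : ℝ)) := by
  rw [← Complex.exp_add, List.take_add, Y.sm_append, dt_add_right]
  congr 1
  push_cast
  ring

/-- a window seen from an earlier place -/
private theorem Win_shift (Y : Sys S (Zk d)) (θ : Rk d) (T s i : ℕ) (w : List S) :
    wa Y θ T (s + i) w =
      Complex.exp (Complex.I * (dt θ (Y.sm (w.take s)) : ℝ)) * wa Y θ T i (w.drop s) := by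
  unfold wa
  rw [mul_left_comm]
  congr 1
  rw [Finset.mul_sum]
  refine Finset.sum_congr rfl fun j _ => ?_
  rw [add_assoc, Win_take]

private theorem Win_norm (Y : Sys S (Zk d)) (θ : Rk d) (w : List S) (s : ℕ) :
    ‖Complex.exp (Complex.I * (dt θ (Y.sm (w.take s)) : ℝ))‖ = 1 := by
  rw [mul_comm]
  exact Complex.norm_exp_ofReal_mul_I _

/-- only the letters of the window matter -/
private theorem Win_cut (Y : Sys S (Zk d)) (θ : Rk d) {T i m : ℕ} (w : List S) (hm : i + T ≤ m) :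
    wa Y θ T i (w.take m) = wa Y θ T i w := by
  unfold wa
  congr 1
  refine Finset.sum_congr rfl fun j hj => ?_
  have := Finset.mem_range.1 hj
  rw [List.take_take, min_eq_left (by omega)]

private theorem Win_le_one (Y : Sys S (Zk d)) (θ : Rk d) (T i : ℕ) (w : List S) :
    ‖wa Y θ T i w‖ ≤ 1 := by
  unfold wa
  rw [norm_mul, norm_inv, Complex.norm_natCast]
  have h1 : ‖∑ j ∈ range T, Complex.exp (Complex.I * (dt θ (Y.sm (w.take (i + j))) : ℝ))‖ ≤ T := by
    refine (norm_sum_le _ _).trans ?_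
    refine (Finset.sum_le_sum fun j _ => (Win_norm Y θ w (i + j)).le).trans ?_
    simp
  rcases Nat.eq_zero_or_pos T with h0 | h0
  · subst h0
    simp
  · have h2 : (0 : ℝ) < T := by exact_mod_cast h0
    rw [inv_mul_le_iff₀ h2, mul_one]
    exact h1

/-- the second moment of the window -/
private noncomputable def Win_m (Y : Sys S (Zk d)) (ρ : List S → ℝ) (θ : Rk d) (T : ℕ) : ℝ :=
  Y.E T fun w => ρ w * ‖wa Y θ T 0 w‖ ^ 2

private theorem Win_m_nonneg {Y : Sys S (Zk d)} (h : Bulk Y Λ ρ) (θ : Rk d) (T : ℕ) :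
    0 ≤ Win_m Y ρ θ T := Y.E_nonneg' fun w => mul_nonneg (h.nonneg w) (by positivity)

/-- the parallelogram law -/
private theorem Win_par {Y : Sys S (Zk d)} (h : Bulk Y Λ ρ) (θ : Rk d) (T : ℕ) :
    (Y.E (T + T) fun w => ρ w * ‖wa Y θ T 0 w - wa Y θ T T w‖ ^ 2) =
      4 * (Win_m Y ρ θ T - Win_m Y ρ θ (T + T)) := by
  have e1 : Win_m Y ρ θ T = Y.E (T + T) fun w => ρ w * ‖wa Y θ T 0 w‖ ^ 2 := by
    unfold Win_m
    rw [Y.E_add]
    refine Y.E_congr fun x hx => ?_
    have e : ∀ y : List S, wa Y θ T 0 (x ++ y) = wa Y θ T 0 x := by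
      intro y
      rw [← Win_cut Y θ (x ++ y) (m := T) (by omega)]
      rw [← hx, List.take_left]
    simp only [e]
    rw [Y.E_mul_right, h.right]
  have e2 : Win_m Y ρ θ T = Y.E (T + T) fun w => ρ w * ‖wa Y θ T T w‖ ^ 2 := by
    unfold Win_m
    rw [Y.E_add, Y.E_comm]
    refine Y.E_congr fun y hy => ?_
    have e : ∀ x : List S, x.length = T → ‖wa Y θ T T (x ++ y)‖ = ‖wa Y θ T 0 y‖ := by
      intro x hx
      have h1 := Win_shift Y θ T T 0 (x ++ y)
      rw [add_zero] at h1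
      have h2 : (x ++ y).drop T = y := by rw [← hx, List.drop_left]
      rw [h1, norm_mul, Win_norm, one_mul, h2]
    rw [← h.left y T, ← Y.E_mul_right]
    refine Y.E_congr fun x hx => ?_
    rw [e x hx]
  have e3 : ∀ w, wa Y θ (T + T) 0 w = (2 : ℂ)⁻¹ * (wa Y θ T 0 w + wa Y θ T T w) := by
    intro w
    unfold wa
    rw [Finset.sum_range_add, ← mul_add, ← mul_assoc]
    congr 1
    · push_cast
      rw [← mul_inv]
      congr 1
      ring
    · congr 1
      refine Finset.sum_congr rfl fun j _ => ?_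
      rw [zero_add]
  have e4 : ∀ w, ‖wa Y θ T 0 w - wa Y θ T T w‖ ^ 2 = 2 * ‖wa Y θ T 0 w‖ ^ 2 +
      2 * ‖wa Y θ T T w‖ ^ 2 - 4 * ‖wa Y θ (T + T) 0 w‖ ^ 2 := by
    intro w
    have h1 := parallelogram_law_with_norm ℝ (wa Y θ T 0 w) (wa Y θ T T w)
    rw [e3 w, norm_mul, norm_inv]
    have h2 : ‖(2 : ℂ)‖ = 2 := by simp
    rw [h2]
    nlinarith
  calc (Y.E (T + T) fun w => ρ w * ‖wa Y θ T 0 w - wa Y θ T T w‖ ^ 2)
      = Y.E (T + T) fun w => (2 * (ρ w * ‖wa Y θ T 0 w‖ ^ 2) + 2 * (ρ w * ‖wa Y θ T T w‖ ^ 2)) -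
          4 * (ρ w * ‖wa Y θ (T + T) 0 w‖ ^ 2) := by
        refine Y.E_congr fun w _ => ?_
        rw [e4]
        ring
    _ = 4 * (Win_m Y ρ θ T - Win_m Y ρ θ (T + T)) := by
        rw [Y.E_fsub, Y.E_fadd, Y.E_mul_left, Y.E_mul_left, Y.E_mul_left, ← e1, ← e2]
        unfold Win_m
        ring

theorem win_small {Y : Sys S (Zk d)} (h : Bulk Y Λ ρ) (θ : Rk d) {δ ε : ℝ} (hδ : 0 < δ)
    (hε : 0 < ε) (T₀ : ℕ) : ∃ T : ℕ, T₀ ≤ T ∧ ∀ N t : ℕ,
      (Y.E N fun w => ρ w * ind (Jm Y θ T δ w t)) ≤ ε := by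
  -- a scale at which the second moment does not drop
  obtain ⟨k, hk0, hk⟩ : ∃ k : ℕ, T₀ ≤ k ∧
      Win_m Y ρ θ (2 ^ k) - Win_m Y ρ θ (2 ^ (k + 1)) ≤ ε * δ ^ 2 / 4 := by
    by_contra hcon
    push Not at hcon
    have h1 : ∀ n : ℕ, Win_m Y ρ θ (2 ^ (T₀ + n)) + n * (ε * δ ^ 2 / 4) ≤
        Win_m Y ρ θ (2 ^ T₀) := by
      intro n
      induction n with
      | zero => simp
      | succ n ih =>
        have h2 := hcon (T₀ + n) (by omega)
        rw [show T₀ + (n + 1) = T₀ + n + 1 by omega]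
        push_cast
        linarith
    have hpos : 0 < ε * δ ^ 2 / 4 := by positivity
    obtain ⟨n, hn⟩ := exists_nat_gt (Win_m Y ρ θ (2 ^ T₀) / (ε * δ ^ 2 / 4))
    rw [div_lt_iff₀ hpos] at hn
    have h3 := h1 n
    have h4 := Win_m_nonneg h θ (2 ^ (T₀ + n))
    linarith
  refine ⟨2 ^ k, hk0.trans (Nat.lt_two_pow_self).le, fun N t => ?_⟩
  obtain ⟨T, hT⟩ : ∃ T : ℕ, T = 2 ^ k := ⟨_, rfl⟩
  rw [pow_succ, mul_two, ← hT] at hk
  rw [← hT]
  by_cases hin : T ≤ t ∧ t + T ≤ N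
  · obtain ⟨hTt, htN⟩ := hin
    obtain ⟨s, rfl⟩ := Nat.exists_eq_add_of_le' hTt
    obtain ⟨r, rfl⟩ := Nat.exists_eq_add_of_le htN
    have hN : s + T + T + r = s + ((T + T) + r) := by omega
    rw [hN, Y.E_add]
    have e1 : ∀ u : List S, u.length = s → ∀ v : List S, v.length = (T + T) + r →
        ρ (u ++ v) * ind (Jm Y θ T δ (u ++ v) (s + T)) ≤
          ρ (u ++ v) * (‖wa Y θ T 0 v - wa Y θ T T v‖ ^ 2 / δ ^ 2) := by
      intro u hu v hv
      refine mul_le_mul_of_nonneg_left ?_ (h.nonneg _)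
      by_cases hJ : Jm Y θ T δ (u ++ v) (s + T)
      · have h5 := hJ.2.2
        rw [Nat.add_sub_cancel] at h5
        have h6 : (u ++ v).drop s = v := by rw [← hu, List.drop_left]
        have h7 := Win_shift Y θ T s 0 (u ++ v)
        have h8 := Win_shift Y θ T s T (u ++ v)
        rw [add_zero] at h7
        rw [h7, h8, h6, ← mul_sub, norm_mul, Win_norm, one_mul] at h5
        have h9 : ind (Jm Y θ T δ (u ++ v) (s + T)) = 1 := by
          unfold ind
          rw [if_pos hJ]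
        rw [h9, one_le_div (by positivity)]
        exact pow_le_pow_left₀ hδ.le h5 2
      · have h9 : ind (Jm Y θ T δ (u ++ v) (s + T)) = 0 := by
          unfold ind
          rw [if_neg hJ]
        rw [h9]
        positivity
    have e2 : ∀ v : List S, v.length = (T + T) + r →
        wa Y θ T 0 v = wa Y θ T 0 (v.take (T + T)) ∧ wa Y θ T T v = wa Y θ T T (v.take (T + T)) :=
      fun v _ => ⟨(Win_cut Y θ v (by omega)).symm, (Win_cut Y θ v le_rfl).symm⟩
    calc (Y.E s fun u => Y.E ((T + T) + r) fun v =>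
          ρ (u ++ v) * ind (Jm Y θ T δ (u ++ v) (s + T)))
        ≤ Y.E s fun u => Y.E ((T + T) + r) fun v =>
          ρ (u ++ v) * (‖wa Y θ T 0 v - wa Y θ T T v‖ ^ 2 / δ ^ 2) :=
          Y.E_mono fun u hu => Y.E_mono fun v hv => e1 u hu v hv
      _ = Y.E ((T + T) + r) fun v => ρ v * (‖wa Y θ T 0 v - wa Y θ T T v‖ ^ 2 / δ ^ 2) := by
          rw [Y.E_comm]
          refine Y.E_congr fun v _ => ?_
          rw [Y.E_mul_right, h.left]
      _ = Y.E (T + T) fun v => ρ v * (‖wa Y θ T 0 v - wa Y θ T T v‖ ^ 2 / δ ^ 2) := by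
          rw [Y.E_add]
          refine Y.E_congr fun x hx => ?_
          have e : ∀ y : List S, y.length = r → wa Y θ T 0 (x ++ y) = wa Y θ T 0 x ∧
              wa Y θ T T (x ++ y) = wa Y θ T T x := by
            intro y hy
            have h10 := e2 (x ++ y) (by simp [hx, hy])
            have h11 : (x ++ y).take (T + T) = x := by rw [← hx, List.take_left]
            rwa [h11] at h10
          rw [← h.right x r, ← Y.E_mul_right]
          refine Y.E_congr fun y hy => ?_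
          rw [(e y hy).1, (e y hy).2]
      _ = (Y.E (T + T) fun v => ρ v * ‖wa Y θ T 0 v - wa Y θ T T v‖ ^ 2) / δ ^ 2 := by
          rw [div_eq_mul_inv, ← Y.E_mul_right]
          refine Y.E_congr fun v _ => ?_
          ring
      _ ≤ ε := by
          rw [Win_par h, div_le_iff₀ (by positivity)]
          linarith
  · have h0 : (Y.E N fun w => ρ w * ind (Jm Y θ T δ w t)) = Y.E N fun _ => 0 := by
      refine Y.E_congr fun w hw => ?_
      have h1 : ¬ Jm Y θ T δ w t := fun hJ => hin ⟨hJ.1, by rw [← hw]; exact hJ.2.1⟩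
      have h2 : ind (Jm Y θ T δ w t) = 0 := by
        unfold ind
        rw [if_neg h1]
      rw [h2, mul_zero]
    rw [h0, Y.E_zero_fun]
    exact hε.le

end Pool.Agent.Trp
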