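import Pool.Agent.Trp.Defs
import Pool.Agent.SawM2.GRec
import Pool.Agent.SawM2.TgB
import Pool.Agent.Bub4.Bridge
import Pool.Agent.Trp.Long
import Pool.Agent.Trp.Count
import Pool.Agent.Trp.Tail
import Pool.Agent.Trp.Win
import Pool.Agent.Trp.Big

/-!
# No direction is tight
-/

set_option autoImplicit false

namespace Pool.Agent.Trp

open Finset Filter Topology Pool.Agent.Bub4 Pool.Agent.SawM2 Pool.Agent.SawDiff Pool.Agent.Taw
open Pool.Agent.SawNice (pa fu Nice)

variable {S : Type} [Fintype S] {d : ℕ} {Λ K : ℝ} {ρ : List S → ℝ}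

theorem Kink_norm_exp (x : ℝ) : ‖Complex.exp (Complex.I * (x : ℂ))‖ = 1 := by
  rw [mul_comm, Complex.norm_exp_ofReal_mul_I]

theorem Kink_wa_append (Y : Sys S (Zk d)) (θ : Rk d) (T i : ℕ) (x y : List S) :
    wa Y θ T (x.length + i) (x ++ y) =
      Complex.exp (Complex.I * (dt θ (Y.sm x) : ℝ)) * wa Y θ T i y := by
  unfold wa
  rw [mul_left_comm]
  congr 1
  rw [Finset.mul_sum]
  refine Finset.sum_congr rfl fun j _ => ?_
  rw [Nat.add_assoc, List.take_length_add_append, Y.sm_append, dt_add_right, ← Complex.exp_add]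
  push_cast
  ring_nf

theorem Kink_wa_left (Y : Sys S (Zk d)) (θ : Rk d) {T i : ℕ} {x : List S} (y : List S)
    (h : i + T ≤ x.length + 1) : wa Y θ T i (x ++ y) = wa Y θ T i x := by
  unfold wa
  congr 1
  refine Finset.sum_congr rfl fun j hj => ?_
  rw [Finset.mem_range] at hj
  rw [List.take_append_of_le_length (by omega)]

theorem Kink_shift (Y : Sys S (Zk d)) (θ : Rk d) (T i k : ℕ) (w : List S) :
    ‖wa Y θ T i w - wa Y θ T (i + k) w‖ ≤ 2 * k / T := by
  induction k with
  | zero => simp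
  | succ k ih =>
    have h1 : ‖wa Y θ T (i + k) w - wa Y θ T (i + (k + 1)) w‖ ≤ 2 / T := by
      unfold wa
      rw [← mul_sub]
      have h2 : ∑ j ∈ range T, Complex.exp (Complex.I * (dt θ (Y.sm (w.take (i + k + j))) : ℝ)) -
          ∑ j ∈ range T, Complex.exp (Complex.I * (dt θ (Y.sm (w.take (i + (k + 1) + j))) : ℝ)) =
          Complex.exp (Complex.I * (dt θ (Y.sm (w.take (i + k))) : ℝ)) -
            Complex.exp (Complex.I * (dt θ (Y.sm (w.take (i + k + T))) : ℝ)) := by
        have h3 := Finset.sum_range_succ' (fun j =>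
          Complex.exp (Complex.I * (dt θ (Y.sm (w.take (i + k + j))) : ℝ))) T
        have h4 := Finset.sum_range_succ (fun j =>
          Complex.exp (Complex.I * (dt θ (Y.sm (w.take (i + k + j))) : ℝ))) T
        have h5 : ∑ j ∈ range T,
            Complex.exp (Complex.I * (dt θ (Y.sm (w.take (i + (k + 1) + j))) : ℝ)) =
            ∑ j ∈ range T,
              Complex.exp (Complex.I * (dt θ (Y.sm (w.take (i + k + (j + 1)))) : ℝ)) := by
          refine Finset.sum_congr rfl fun j _ => ?_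
          rw [show i + (k + 1) + j = i + k + (j + 1) by omega]
        rw [h5]
        rw [h3] at h4
        rw [Nat.add_zero] at h4
        linear_combination -h4
      rw [h2, norm_mul, norm_inv, Complex.norm_natCast]
      have h6 := norm_sub_le (Complex.exp (Complex.I * (dt θ (Y.sm (w.take (i + k))) : ℝ)))
        (Complex.exp (Complex.I * (dt θ (Y.sm (w.take (i + k + T))) : ℝ)))
      rw [Kink_norm_exp, Kink_norm_exp] at h6
      rw [div_eq_inv_mul]
      exact mul_le_mul_of_nonneg_left (h6.trans (by norm_num)) (by positivity)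
    have h7 := norm_sub_le_norm_sub_add_norm_sub (wa Y θ T i w) (wa Y θ T (i + k) w)
      (wa Y θ T (i + (k + 1)) w)
    have h8 : (2 : ℝ) * ((k + 1 : ℕ) : ℝ) / T = 2 * k / T + 2 / T := by
      push_cast
      ring
    rw [h8]
    linarith

open Classical in
/-- number of the places at which the windows look different -/
noncomputable def Kink_N (Y : Sys S (Zk d)) (θ : Rk d) (T : ℕ) (δ : ℝ) (w : List S) : ℕ :=
  ((range (w.length + 1)).filter (Jm Y θ T δ w)).card

theorem Kink_Jm_left (Y : Sys S (Zk d)) (θ : Rk d) {T t : ℕ} {δ : ℝ} {x : List S} (y : List S)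
    (h : t + T ≤ x.length) : Jm Y θ T δ (x ++ y) t ↔ Jm Y θ T δ x t := by
  unfold Jm
  constructor
  · rintro ⟨h1, _, h3⟩
    refine ⟨h1, h, ?_⟩
    rwa [Kink_wa_left Y θ y (by omega), Kink_wa_left Y θ y (by omega)] at h3
  · rintro ⟨h1, _, h3⟩
    refine ⟨h1, by rw [List.length_append]; omega, ?_⟩
    rwa [Kink_wa_left Y θ y (by omega), Kink_wa_left Y θ y (by omega)]

theorem Kink_Jm_right (Y : Sys S (Zk d)) (θ : Rk d) {T t : ℕ} {δ : ℝ} (x : List S) {y : List S}
    (h : T ≤ t) : Jm Y θ T δ (x ++ y) (x.length + t) ↔ Jm Y θ T δ y t := by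
  have h0 : ‖wa Y θ T (x.length + t - T) (x ++ y) - wa Y θ T (x.length + t) (x ++ y)‖ =
      ‖wa Y θ T (t - T) y - wa Y θ T t y‖ := by
    rw [show x.length + t - T = x.length + (t - T) by omega, Kink_wa_append, Kink_wa_append,
      ← mul_sub, norm_mul, Kink_norm_exp, one_mul]
  unfold Jm
  rw [h0, List.length_append]
  constructor
  · rintro ⟨_, h2, h3⟩
    exact ⟨h, by omega, h3⟩
  · rintro ⟨_, h2, h3⟩
    exact ⟨by omega, by omega, h3⟩

theorem Kink_super (Y : Sys S (Zk d)) (θ : Rk d) {T : ℕ} (hT : 1 ≤ T) (δ : ℝ) (x y : List S) :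
    Kink_N Y θ T δ x + Kink_N Y θ T δ y ≤ Kink_N Y θ T δ (x ++ y) := by
  classical
  unfold Kink_N
  have h1 : ((range (y.length + 1)).filter (Jm Y θ T δ y)).card =
      (((range (y.length + 1)).filter (Jm Y θ T δ y)).map (addLeftEmbedding x.length)).card :=
    (Finset.card_map _).symm
  rw [h1, ← Finset.card_union_of_disjoint]
  · refine Finset.card_le_card fun t ht => ?_
    rw [Finset.mem_union, Finset.mem_filter, Finset.mem_map] at ht
    rw [Finset.mem_filter, Finset.mem_range, List.length_append]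
    rcases ht with ⟨h2, h3⟩ | ⟨s, h2, h3⟩
    · rw [Finset.mem_range] at h2
      exact ⟨by omega, (Kink_Jm_left Y θ y h3.2.1).2 h3⟩
    · rw [Finset.mem_filter, Finset.mem_range] at h2
      have h4 : x.length + s = t := h3
      rw [← h4]
      exact ⟨by omega, (Kink_Jm_right Y θ x h2.2.1).2 h2.2⟩
  · rw [Finset.disjoint_left]
    intro t ht ht'
    rw [Finset.mem_filter, Finset.mem_range] at ht
    rw [Finset.mem_map] at ht'
    obtain ⟨s, h2, h3⟩ := ht'
    rw [Finset.mem_filter] at h2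
    have h4 : x.length + s = t := h3
    have h5 := ht.2.2.1
    have h6 := h2.2.1
    omega

theorem Kink_sub (Y : Sys S (Zk d)) (θ : Rk d) {T : ℕ} (hT : 1 ≤ T) (δ : ℝ) (x c y : List S)
    (M : ℕ) : (open Classical in (range M).filter (Jm Y θ T δ (x ++ c ++ y))).card ≤
      Kink_N Y θ T δ x + Kink_N Y θ T δ y + (2 * T + c.length) := by
  classical
  unfold Kink_N
  have h1 : ((range (y.length + 1)).filter (Jm Y θ T δ y)).card =
      (((range (y.length + 1)).filter (Jm Y θ T δ y)).map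
        (addLeftEmbedding (x ++ c).length)).card := (Finset.card_map _).symm
  have h2 : 2 * T + c.length = (Ico (x.length - T) (x.length - T + (2 * T + c.length))).card := by
    rw [Nat.card_Ico]; omega
  rw [h1, h2]
  refine le_trans (Finset.card_le_card ?_) (le_trans (Finset.card_union_le _ _)
    (Nat.add_le_add_right (Finset.card_union_le _ _) _))
  intro t ht
  rw [Finset.mem_filter] at ht
  have hJ := ht.2
  rw [Finset.mem_union, Finset.mem_union]
  by_cases h3 : t + T ≤ x.length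
  · left; left
    rw [Finset.mem_filter, Finset.mem_range]
    refine ⟨by omega, ?_⟩
    rw [List.append_assoc] at hJ
    exact (Kink_Jm_left Y θ _ h3).1 hJ
  by_cases h4 : (x ++ c).length + T ≤ t
  · left; right
    rw [Finset.mem_map]
    obtain ⟨s, rfl⟩ := Nat.exists_eq_add_of_le (show (x ++ c).length ≤ t by omega)
    refine ⟨s, ?_, rfl⟩
    have h5 := (Kink_Jm_right Y θ (x ++ c) (show T ≤ s by omega)).1 hJ
    rw [Finset.mem_filter, Finset.mem_range]
    exact ⟨by have := h5.2.1; omega, h5⟩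
  · right
    rw [Finset.mem_Ico]
    rw [List.length_append] at h4
    omega

theorem Kink_card (Y : Sys S (Zk d)) (θ : Rk d) {T : ℕ} (hT : 1 ≤ T) (δ : ℝ) (x c c' y : List S)
    (M : ℕ) : (open Classical in (range M).filter (Jm Y θ T δ (x ++ c ++ y))).card ≤
      Kink_N Y θ T δ (x ++ c' ++ y) + (2 * T + c.length) := by
  have h1 := Kink_sub Y θ hT δ x c y M
  have h2 := Kink_super Y θ hT δ (x ++ c') y
  have h3 := Kink_super Y θ hT δ x c'
  omega

theorem Kink_jump {A A' B B' φ : ℂ} {δ ε₁ ε₂ : ℝ} (hA : ‖A' - A‖ ≤ ε₁) (hB : ‖φ * B - B'‖ ≤ ε₂)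
    (hAB : ‖A - B‖ ≤ δ) (h34 : 3 / 4 ≤ ‖B‖) (hφ : ‖φ - 1‖ = 4 * δ) (hε : ε₁ + ε₂ ≤ δ) :
    δ ≤ ‖A' - B'‖ := by
  have hδ : 0 ≤ δ := by
    have := norm_nonneg (φ - 1)
    linarith
  have h1 : (φ - 1) * B = (φ * B - B') + (-(A' - B')) + (A' - A) + (A - B) := by ring
  have h2 : ‖(φ - 1) * B‖ ≤ ‖φ * B - B'‖ + ‖-(A' - B')‖ + ‖A' - A‖ + ‖A - B‖ := by
    rw [h1]
    exact norm_add₄_le
  rw [norm_mul, norm_neg, hφ] at h2
  nlinarith

/-- the surgery -/
theorem Kink_surg (Y : Sys S (Zk d)) {θ : Rk d} {e : S} (he : Y.vec e ≠ 0)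
    (he1 : n1 (Y.vec e) = 1) {T m : ℕ} {δ : ℝ} (hT : 1 ≤ T) (hmT : 4 * ((m : ℝ) + 1) / T ≤ δ)
    (hφ : ‖Complex.exp (Complex.I * (dt θ (Y.vec e) : ℝ)) - 1‖ = 4 * δ)
    {x y : List S} (hs : Y.Saw (x ++ y)) {N : ℕ} (hN : (x ++ y).length = N)
    (hcn : ¬ ∃ s ≤ x.length, ∃ t ≤ y.length, n1 (pa Y x s - fu Y y t) = 1 ∧
      m ≤ x.length - s + t)
    (hJ : ¬ Jm Y θ T δ (x ++ y) x.length) (hw : 3 / 4 ≤ ‖wa Y θ T x.length (x ++ y)‖)
    (h1 : T + m ≤ x.length) (h2 : x.length + T + m ≤ N) :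
    (∃ s ≤ x.length, ∃ t', x.length ≤ t' ∧ t' ≤ N ∧ t' ≤ s + m ∧
        Y.Saw ((x ++ y).take s ++ (x ++ y).drop t') ∧
        Jm Y θ T δ ((x ++ y).take s ++ (x ++ y).drop t') s ∧
        (open Classical in (range (N + 2)).filter
          (Jm Y θ T δ ((x ++ y).take s ++ (x ++ y).drop t'))).card ≤
          Kink_N Y θ T δ (x ++ y) + (2 * T + 1)) ∨
      (Y.Saw ((x ++ y).take x.length ++ [e] ++ (x ++ y).drop x.length) ∧
        Jm Y θ T δ ((x ++ y).take x.length ++ [e] ++ (x ++ y).drop x.length) x.length ∧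
        (open Classical in (range (N + 2)).filter
          (Jm Y θ T δ ((x ++ y).take x.length ++ [e] ++ (x ++ y).drop x.length))).card ≤
          Kink_N Y θ T δ (x ++ y) + (2 * T + 1)) := by
  have hT0 : (0 : ℝ) < T := by exact_mod_cast hT
  have hlen : x.length + y.length = N := by rw [← hN, List.length_append]
  have hAB : ‖wa Y θ T (x.length - T) (x ++ y) - wa Y θ T x.length (x ++ y)‖ ≤ δ := by
    by_contra h3
    exact hJ ⟨by omega, by omega, (not_le.1 h3).le⟩
  rcases long_contact Y hs e he with h3 | ⟨s, hsx, t, hty, hst, hsw⟩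
  · right
    rw [List.take_left, List.drop_left]
    refine ⟨h3, ⟨by omega, ?_, ?_⟩, ?_⟩
    · simp only [List.length_append, List.length_cons, List.length_nil]
      omega
    · have e1 : wa Y θ T (x.length - T) (x ++ [e] ++ y) = wa Y θ T (x.length - T) (x ++ y) := by
        rw [List.append_assoc, Kink_wa_left Y θ _ (by omega), Kink_wa_left Y θ _ (by omega)]
      have e2 : wa Y θ T (x.length + 1) (x ++ [e] ++ y) =
          Complex.exp (Complex.I * (dt θ (Y.vec e) : ℝ)) * wa Y θ T x.length (x ++ y) := by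
        have e3 := Kink_wa_append Y θ T 0 (x ++ [e]) y
        have e4 := Kink_wa_append Y θ T 0 x y
        rw [List.length_append, Nat.add_zero] at e3
        rw [Nat.add_zero] at e4
        rw [show ([e] : List S).length = 1 from rfl] at e3
        rw [e3, e4, Y.sm_append, dt_add_right, ← mul_assoc, ← Complex.exp_add]
        have e5 : Y.sm [e] = Y.vec e := by simp [Sys.sm]
        rw [e5]
        congr 2
        push_cast
        ring
      have e6 := Kink_shift Y θ T x.length 1 (x ++ [e] ++ y)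
      refine Kink_jump (A := wa Y θ T (x.length - T) (x ++ y)) (B := wa Y θ T x.length (x ++ y))
        (φ := Complex.exp (Complex.I * (dt θ (Y.vec e) : ℝ))) (ε₁ := 0) (ε₂ := 2 / T) ?_ ?_ hAB hw
        hφ ?_
      · rw [e1, sub_self, norm_zero]
      · rw [← e2, norm_sub_rev]
        simpa using e6
      · refine le_trans ?_ hmT
        rw [zero_add]
        refine div_le_div_of_nonneg_right ?_ hT0.le
        have : (0 : ℝ) ≤ m := Nat.cast_nonneg m
        linarith
    · have h4 := Kink_card Y θ hT δ x [e] [] y (N + 2)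
      rw [List.append_nil] at h4
      exact h4
  · left
    have hgap : x.length - s + t < m := by
      by_contra h4
      refine hcn ⟨s, hsx, t, hty, ?_, not_lt.1 h4⟩
      rw [hst, add_sub_cancel_left]
      exact he1
    have ht1 : (x ++ y).take s = x.take s := List.take_append_of_le_length hsx
    have ht2 : (x ++ y).drop (x.length + t) = y.drop t := by
      rw [List.drop_append, List.drop_of_length_le (by omega), List.nil_append]
      congr 1
      omega
    have hsl : (x.take s).length = s := by rw [List.length_take, min_eq_left hsx]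
    refine ⟨s, hsx, x.length + t, by omega, by omega, by omega, ?_⟩
    rw [ht1, ht2]
    refine ⟨hsw, ⟨by omega, ?_, ?_⟩, ?_⟩
    · rw [List.length_append, hsl, List.length_drop]
      omega
    · have hw1 : x ++ y = (x ++ y.take t) ++ y.drop t := by
        rw [List.append_assoc, List.take_append_drop]
      have hl1 : (x ++ y.take t).length = x.length + t := by
        rw [List.length_append, List.length_take, min_eq_left hty]
      have e2 : wa Y θ T s (x.take s ++ y.drop t) =
          Complex.exp (Complex.I * (dt θ (Y.vec e) : ℝ)) *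
            wa Y θ T (x.length + t) (x ++ y) := by
        have e3 := Kink_wa_append Y θ T 0 (x.take s) (y.drop t)
        have e4 := Kink_wa_append Y θ T 0 (x ++ y.take t) (y.drop t)
        rw [hsl, Nat.add_zero] at e3
        rw [hl1, Nat.add_zero, ← hw1] at e4
        rw [e3, e4, ← mul_assoc, ← Complex.exp_add]
        congr 2
        have e5 : Y.sm (x.take s) = Y.vec e + Y.sm (x ++ y.take t) := by
          have e6 := Pool.Agent.SawNice.pa_eq Y x s
          rw [hst] at e6
          unfold fu at e6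
          rw [Y.sm_append]
          have e7 : Y.sm (x.take s) = (Y.sm (y.take t) + Y.vec e) + Y.sm x := by
            rw [e6]; abel
          rw [e7]; abel
        rw [e5, dt_add_right]
        push_cast
        ring
      have e8 : wa Y θ T (s - T) (x.take s ++ y.drop t) = wa Y θ T (s - T) (x ++ y) := by
        rw [Kink_wa_left Y θ _ (by rw [hsl]; omega)]
        have e9 : x ++ y = x.take s ++ (x.drop s ++ y) := by
          rw [← List.append_assoc, List.take_append_drop]
        rw [e9, Kink_wa_left Y θ _ (by rw [hsl]; omega)]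
      have e10 := Kink_shift Y θ T (s - T) (x.length - s) (x ++ y)
      rw [show s - T + (x.length - s) = x.length - T by omega] at e10
      have e11 := Kink_shift Y θ T x.length t (x ++ y)
      refine Kink_jump (A := wa Y θ T (x.length - T) (x ++ y)) (B := wa Y θ T x.length (x ++ y))
        (φ := Complex.exp (Complex.I * (dt θ (Y.vec e) : ℝ))) (ε₁ := 2 * m / T)
        (ε₂ := 2 * m / T) ?_ ?_ hAB hw hφ ?_
      · rw [e8]
        refine e10.trans (div_le_div_of_nonneg_right ?_ hT0.le)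
        refine mul_le_mul_of_nonneg_left ?_ (by norm_num)
        exact_mod_cast (by omega : x.length - s ≤ m)
      · rw [e2, ← mul_sub, norm_mul, Kink_norm_exp, one_mul]
        refine e11.trans (div_le_div_of_nonneg_right ?_ hT0.le)
        refine mul_le_mul_of_nonneg_left ?_ (by norm_num)
        exact_mod_cast (by omega : t ≤ m)
      · refine le_trans ?_ hmT
        rw [← add_div]
        refine div_le_div_of_nonneg_right ?_ hT0.le
        linarith
    · have h5 := Kink_card Y θ hT δ (x.take s) [] (x.drop s ++ y.take t) (y.drop t) (N + 2)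
      have h6 : x.take s ++ (x.drop s ++ y.take t) ++ y.drop t = x ++ y := by
        rw [← List.append_assoc, List.take_append_drop, List.append_assoc, List.take_append_drop]
      rw [h6, List.append_nil, List.length_nil] at h5
      omega

theorem no_tight {Y : Sys S (Zk d)} (h : Erg Y Λ K ρ) (hl : Lt Y) {C : ℝ}
    (hC : ∀ n n', (Y.E n fun u => Y.E n' fun v => Y.sv (u ++ v) * (ct Y u v : ℝ)) ≤ C)
    {θ : Rk d} (hθ : θ ≠ 0) : ¬ Tgt Y ρ fun v => dt θ v := by
  classical
  intro ht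
  obtain ⟨i, hi⟩ := Function.ne_iff.1 hθ
  have hi0 : θ i ≠ 0 := hi
  -- the letter
  have hpi : n1 (Pi.single i (1 : ℤ) : Zk d) = 1 := by
    unfold n1
    rw [Finset.sum_eq_single i]
    · simp
    · intro j _ hj
      simp [Pi.single_eq_of_ne hj]
    · intro h1
      exact absurd (Finset.mem_univ i) h1
  obtain ⟨w0, hw0, hw0l⟩ := hl.gen (Pi.single i (1 : ℤ))
  rw [hpi] at hw0l
  obtain ⟨e, rfl⟩ := List.length_eq_one_iff.1 hw0l
  have hve : Y.vec e = Pi.single i (1 : ℤ) := by rw [← hw0]; simp [Sys.sm]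
  have hb : dt θ (Y.vec e) = θ i := by
    rw [hve]
    unfold dt
    rw [Finset.sum_eq_single i]
    · simp
    · intro j _ hj
      simp [Pi.single_eq_of_ne hj]
    · intro h1
      exact absurd (Finset.mem_univ i) h1
  have he1 := hl.one e
  have he : Y.vec e ≠ 0 := by
    intro h1
    rw [h1, n1_zero] at he1
    exact absurd he1 (by norm_num)
  set b : ℝ := θ i with hbdef
  have hb0 : 0 < |b| := abs_pos.2 hi0
  -- constants
  obtain ⟨m, hm⟩ := contact_tail h.bulk hC (ε := 1 / 8) (by norm_num)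
  obtain ⟨C1, hC1, hcount⟩ := kink_count Y h.a_le e m
  have hΛ := h.bulk.pos
  set e1 : ℝ := 1 / (8 * (Λ * C1 + 1)) with he1def
  have hLC : 0 ≤ Λ * C1 := mul_nonneg hΛ.le hC1
  have he1pos : 0 < e1 := by rw [he1def]; positivity
  have he1le : e1 ≤ 1 / 8 := by
    rw [he1def]
    refine one_div_le_one_div_of_le (by norm_num) ?_
    linarith
  have hLCe : Λ * C1 * e1 ≤ 1 / 8 := by
    rw [he1def, mul_one_div, div_le_iff₀ (by positivity)]
    linarith
  obtain ⟨x, hx, hbig⟩ := wa_big h.bulk ht (ε := 1 / 8) (by norm_num)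
  set y : ℝ := min x (1 / |b|) with hydef
  have hy : 0 < y := lt_min hx (by positivity)
  have hyx : y ≤ x := min_le_left _ _
  have hyb : y * |b| ≤ 1 := by
    have h1 : y ≤ 1 / |b| := min_le_right _ _
    calc y * |b| ≤ 1 / |b| * |b| := mul_le_mul_of_nonneg_right h1 hb0.le
      _ = 1 := by field_simp
  have hdty : dt (y • θ) (Y.vec e) = y * b := by rw [dt_smul_left, hb]
  set β : ℝ := ‖Complex.exp (Complex.I * ((y * b : ℝ) : ℂ)) - 1‖ with hβdef
  have hβ : 0 < β := by
    rw [hβdef, norm_pos_iff, sub_ne_zero]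
    intro h1
    rw [Complex.exp_eq_one_iff] at h1
    obtain ⟨n, hn⟩ := h1
    have h2 : Complex.I * ((y * b : ℝ) : ℂ) = Complex.I * ((n * (2 * Real.pi) : ℝ) : ℂ) := by
      rw [hn]; push_cast; ring
    have h3 := mul_left_cancel₀ Complex.I_ne_zero h2
    have h4 : y * b = n * (2 * Real.pi) := by exact_mod_cast h3
    have h5 : |y * b| ≤ 1 := by rw [abs_mul, abs_of_pos hy]; exact hyb
    have h6 : 0 < |y * b| := abs_pos.2 (mul_ne_zero hy.ne' hi0)
    rw [h4, abs_mul, abs_of_pos (by positivity : (0 : ℝ) < 2 * Real.pi)] at h5 h6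
    have h7 : n ≠ 0 := by
      rintro rfl
      simp at h6
    have h8 : (1 : ℝ) ≤ |(n : ℝ)| := by exact_mod_cast Int.one_le_abs h7
    have h9 := Real.pi_gt_three
    nlinarith
  set δ : ℝ := β / 4 with hδdef
  have hδ : 0 < δ := by rw [hδdef]; positivity
  obtain ⟨T₀, hT₀⟩ := exists_nat_ge (4 * ((m : ℝ) + 1) / δ)
  obtain ⟨T, hTT, hwin⟩ := win_small h.bulk (y • θ) hδ (ε := e1 / 16) (by positivity) (T₀ + 1)
  have hT : 1 ≤ T := by omega
  have hT0 : (0 : ℝ) < T := by exact_mod_cast hT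
  have hmT : 4 * ((m : ℝ) + 1) / T ≤ δ := by
    have h1 : (T₀ : ℝ) ≤ T := by exact_mod_cast (by omega : T₀ ≤ T)
    rw [div_le_iff₀ hT0]
    have h2 := hT₀.trans h1
    rw [div_le_iff₀ hδ] at h2
    linarith
  have hφ : ‖Complex.exp (Complex.I * (dt (y • θ) (Y.vec e) : ℝ)) - 1‖ = 4 * δ := by
    rw [hdty, ← hβdef, hδdef]; ring
  -- the length
  obtain ⟨N, hN⟩ := exists_nat_gt (8 * ((T : ℝ) + m + Λ * C1 * (2 * T + 2)) + 1)
  have hN1 : (1 : ℝ) < N := by
    have : 0 ≤ 8 * ((T : ℝ) + m + Λ * C1 * (2 * T + 2)) := by positivity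
    linarith
  have hNpos : (0 : ℝ) < N := by linarith
  let G : List S → ℕ → Prop := fun w t =>
    ((Kink_N Y (y • θ) T δ w : ℕ) : ℝ) ≤ e1 * N ∧
    (¬ ∃ s ≤ (w.take t).length, ∃ t' ≤ (w.drop t).length,
      n1 (pa Y (w.take t) s - fu Y (w.drop t) t') = 1 ∧ m ≤ (w.take t).length - s + t') ∧
    ¬ Jm Y (y • θ) T δ w t ∧ 3 / 4 ≤ ‖wa Y (y • θ) T t w‖ ∧ T + m ≤ t ∧ t + T + m ≤ N
  have hc := hcount N (⌊e1 * N⌋₊ + (2 * T + 1)) (Jm Y (y • θ) T δ) G (by
    intro w t hw htN hsw hG
    obtain ⟨hG1, hG2, hG3, hG4, hG5, hG6⟩ := hG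
    have hlt : (w.take t).length = t := by rw [List.length_take, hw, min_eq_left htN]
    have hww : w.take t ++ w.drop t = w := List.take_append_drop t w
    have hK : Kink_N Y (y • θ) T δ w ≤ ⌊e1 * N⌋₊ := Nat.le_floor hG1
    have h1 := Kink_surg Y he he1 (θ := y • θ) (T := T) (m := m) (δ := δ) hT hmT hφ
      (x := w.take t) (y := w.drop t) (by rwa [hww]) (N := N) (by rw [hww, hw]) hG2
      (by rw [hww, hlt]; exact hG3) (by rw [hww, hlt]; exact hG4) (by rw [hlt]; exact hG5)
      (by rw [hlt]; exact hG6)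
    rw [hww, hlt] at h1
    rcases h1 with ⟨s, hs1, t', ht1, ht2, ht3, ht4, ht5, ht6⟩ | ⟨h2, h3, h4⟩
    · exact Or.inl ⟨s, hs1, t', ht1, ht2, ht3, ht4, ht5, ht6.trans (by omega)⟩
    · exact Or.inr ⟨h2, h3, h4.trans (by omega)⟩)
  -- lower bound
  have hgood : ∀ t, T + m ≤ t → t + T + m ≤ N → 1 / 2 ≤ Y.E N fun w => ρ w * ind (G w t) := by
    intro t ht1 ht2
    have p0 : Y.E N ρ = 1 := h.bulk.mass N
    have p1 : (Y.E N fun w => ρ w * ind (e1 * N < ((Kink_N Y (y • θ) T δ w : ℕ) : ℝ))) ≤ 1 / 8 := by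
      have q1 : ∀ w : List S, w.length = N →
          ρ w * ind (e1 * N < ((Kink_N Y (y • θ) T δ w : ℕ) : ℝ)) ≤
            (e1 * N)⁻¹ * ∑ j ∈ range (N + 1), ρ w * ind (Jm Y (y • θ) T δ w j) := by
        intro w hw
        have q2 : ∑ j ∈ range (N + 1), ind (Jm Y (y • θ) T δ w j) =
            ((Kink_N Y (y • θ) T δ w : ℕ) : ℝ) := by
          unfold Kink_N ind
          rw [hw, Finset.sum_boole]
        rw [← Finset.mul_sum, q2]
        by_cases q3 : e1 * N < ((Kink_N Y (y • θ) T δ w : ℕ) : ℝ)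
        · rw [ind_of q3, mul_one]
          have q4 : 1 ≤ (e1 * N)⁻¹ * ((Kink_N Y (y • θ) T δ w : ℕ) : ℝ) := by
            rw [← div_eq_inv_mul, le_div_iff₀ (by positivity)]
            linarith
          calc ρ w = ρ w * 1 := (mul_one _).symm
            _ ≤ ρ w * ((e1 * N)⁻¹ * ((Kink_N Y (y • θ) T δ w : ℕ) : ℝ)) :=
                mul_le_mul_of_nonneg_left q4 (h.bulk.nonneg w)
            _ = _ := by ring
        · rw [ind_not q3, mul_zero]
          have := h.bulk.nonneg w
          positivity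
      refine (Y.E_mono q1).trans ?_
      rw [Y.E_mul_left, Y.E_fsum]
      have q5 : ∑ j ∈ range (N + 1), (Y.E N fun w => ρ w * ind (Jm Y (y • θ) T δ w j)) ≤
          ∑ _j ∈ range (N + 1), e1 / 16 := Finset.sum_le_sum fun j _ => hwin N j
      rw [Finset.sum_const, Finset.card_range, nsmul_eq_mul] at q5
      push_cast at q5
      refine (mul_le_mul_of_nonneg_left q5 (by positivity)).trans ?_
      rw [← div_eq_inv_mul, div_le_iff₀ (by positivity)]
      nlinarith
    have p2 : (Y.E N fun w => ρ w * ind (∃ s ≤ (w.take t).length, ∃ t' ≤ (w.drop t).length,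
        n1 (pa Y (w.take t) s - fu Y (w.drop t) t') = 1 ∧ m ≤ (w.take t).length - s + t')) ≤
        1 / 8 := by
      have q1 := hm t (N - t)
      have q2 : N = t + (N - t) := by omega
      rw [q2, Y.E_add]
      refine le_trans (le_of_eq ?_) q1
      refine Y.E_congr fun u hu => Y.E_congr fun v hv => ?_
      rw [← hu, List.take_left, List.drop_left]
    have p3 : (Y.E N fun w => ρ w * ind (Jm Y (y • θ) T δ w t)) ≤ 1 / 8 :=
      (hwin N t).trans (by linarith)
    have p4 : (Y.E N fun w => ρ w * ind (‖wa Y (y • θ) T t w‖ < 3 / 4)) ≤ 1 / 8 :=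
      hbig y hy hyx N T t hT (by omega)
    have p5 : ∀ w : List S, ρ w ≤ ρ w * ind (G w t) +
        ρ w * ind (e1 * N < ((Kink_N Y (y • θ) T δ w : ℕ) : ℝ)) +
        ρ w * ind (∃ s ≤ (w.take t).length, ∃ t' ≤ (w.drop t).length,
          n1 (pa Y (w.take t) s - fu Y (w.drop t) t') = 1 ∧ m ≤ (w.take t).length - s + t') +
        ρ w * ind (Jm Y (y • θ) T δ w t) + ρ w * ind (‖wa Y (y • θ) T t w‖ < 3 / 4) := by
      intro w
      have r0 := h.bulk.nonneg w
      have r1 := mul_nonneg r0 (ind_nonneg (G w t))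
      have r2 := mul_nonneg r0 (ind_nonneg (e1 * N < ((Kink_N Y (y • θ) T δ w : ℕ) : ℝ)))
      have r3 := mul_nonneg r0 (ind_nonneg (∃ s ≤ (w.take t).length, ∃ t' ≤ (w.drop t).length,
          n1 (pa Y (w.take t) s - fu Y (w.drop t) t') = 1 ∧ m ≤ (w.take t).length - s + t'))
      have r4 := mul_nonneg r0 (ind_nonneg (Jm Y (y • θ) T δ w t))
      have r5 := mul_nonneg r0 (ind_nonneg (‖wa Y (y • θ) T t w‖ < 3 / 4))
      by_cases c1 : e1 * N < ((Kink_N Y (y • θ) T δ w : ℕ) : ℝ)
      · rw [ind_of c1] at r2 ⊢; linarith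
      by_cases c2 : ∃ s ≤ (w.take t).length, ∃ t' ≤ (w.drop t).length,
          n1 (pa Y (w.take t) s - fu Y (w.drop t) t') = 1 ∧ m ≤ (w.take t).length - s + t'
      · rw [ind_of c2] at r3 ⊢; linarith
      by_cases c3 : Jm Y (y • θ) T δ w t
      · rw [ind_of c3] at r4 ⊢; linarith
      by_cases c4 : ‖wa Y (y • θ) T t w‖ < 3 / 4
      · rw [ind_of c4] at r5 ⊢; linarith
      have c5 : G w t := ⟨not_lt.1 c1, c2, c3, not_lt.1 c4, ht1, ht2⟩
      rw [ind_of c5] at r1 ⊢; linarith
    have p6 := Y.E_mono (n := N) fun w _ => p5 w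
    simp only [Y.E_fadd] at p6
    rw [p0] at p6
    linarith
  have hsum : ((N : ℝ) - 2 * (T + m)) / 2 ≤ Y.E N fun w => ρ w * ∑ t ∈ range (N + 1), ind (G w t) := by
    have s1 : (Y.E N fun w => ρ w * ∑ t ∈ range (N + 1), ind (G w t)) =
        ∑ t ∈ range (N + 1), Y.E N fun w => ρ w * ind (G w t) := by
      simp only [Finset.mul_sum, Y.E_fsum]
    have s2 : Ico (T + m) (N + 1 - (T + m)) ⊆ range (N + 1) := by
      intro j hj
      rw [Finset.mem_Ico] at hj
      rw [Finset.mem_range]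
      omega
    rw [s1]
    refine le_trans ?_ (Finset.sum_le_sum_of_subset_of_nonneg s2 fun j _ _ =>
      Y.E_nonneg' fun w => mul_nonneg (h.bulk.nonneg w) (ind_nonneg _))
    have s3 : ∑ _j ∈ Ico (T + m) (N + 1 - (T + m)), (1 / 2 : ℝ) ≤
        ∑ j ∈ Ico (T + m) (N + 1 - (T + m)), Y.E N fun w => ρ w * ind (G w j) := by
      refine Finset.sum_le_sum fun j hj => ?_
      rw [Finset.mem_Ico] at hj
      exact hgood j hj.1 (by omega)
    refine le_trans ?_ s3
    rw [Finset.sum_const, Nat.card_Ico, nsmul_eq_mul]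
    have s4 : (N : ℝ) ≤ ((N + 1 - (T + m) - (T + m) : ℕ) : ℝ) + 2 * (T + m) := by
      exact_mod_cast (by omega : N ≤ (N + 1 - (T + m) - (T + m)) + 2 * (T + m))
    linarith
  have hup : (Y.E N fun w => ρ w * ∑ t ∈ range (N + 1), ind (G w t)) ≤
      Λ * (C1 * ((⌊e1 * N⌋₊ + (2 * T + 1) : ℕ) : ℝ)) := by
    refine le_trans ?_ (mul_le_mul_of_nonneg_left hc hΛ.le)
    rw [← Y.E_mul_left]
    refine Y.E_mono fun w _ => ?_
    rw [← mul_assoc]
    exact mul_le_mul_of_nonneg_right (h.bulk.le w) (Finset.sum_nonneg fun t _ => ind_nonneg _)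
  have hfl : ((⌊e1 * N⌋₊ + (2 * T + 1) : ℕ) : ℝ) ≤ e1 * N + (2 * T + 1) := by
    push_cast
    have := Nat.floor_le (by positivity : 0 ≤ e1 * (N : ℝ))
    linarith
  have hfin : ((N : ℝ) - 2 * (T + m)) / 2 ≤ Λ * C1 * (e1 * N + (2 * T + 1)) := by
    refine hsum.trans (hup.trans ?_)
    rw [← mul_assoc]
    exact mul_le_mul_of_nonneg_left hfl hLC
  have hfin2 : Λ * C1 * (e1 * N + (2 * T + 1)) ≤ N / 8 + Λ * C1 * (2 * T + 2) := by
    have t1 : Λ * C1 * e1 * N ≤ 1 / 8 * N := mul_le_mul_of_nonneg_right hLCe hNpos.le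
    nlinarith
  linarith

end Pool.Agent.Trp
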