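import Pool.Agent.Trp.Defs

/-!
# Last exit decomposition
-/

set_option autoImplicit false

namespace Pool.Agent.Trp

open Finset Filter Topology Pool.Agent.Bub4 Pool.Agent.SawM2 Pool.Agent.SawDiff Pool.Agent.Taw
open Pool.Agent.SawNice (pa fu)

variable {S V : Type} [Fintype S] [AddCommGroup V] {Λ K : ℝ} {ρ : List S → ℝ}

private theorem Exit_bar_bar (Y : Sys S V) (w : List S) : bar Y (bar Y w) = w := by
  unfold bar
  rw [List.map_reverse, List.reverse_reverse, List.map_map]
  conv_rhs => rw [← List.map_id w]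
  congr 1
  funext s
  exact Y.neg_neg s

private theorem Exit_app (Y : Sys S V) {u v : List S} (hu : Y.Saw u) (hv : Y.Saw v)
    (h : ∀ i ≤ u.length, ∀ t, 1 ≤ t → t ≤ v.length →
      Y.sm (u.take i) ≠ Y.sm u + Y.sm (v.take t)) : Y.Saw (u ++ v) := by
  rw [Pool.Agent.SawNice.saw_iff]
  intro i j hij hj he
  rw [List.length_append] at hj
  rcases le_or_gt j u.length with h1 | h1
  · rw [List.take_append_of_le_length (by omega), List.take_append_of_le_length h1] at he
    exact (Pool.Agent.SawNice.saw_iff Y).1 hu i j hij h1 he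
  · have e2 : (u ++ v).take j = u ++ v.take (j - u.length) := by
      rw [List.take_append, List.take_of_length_le h1.le]
    rcases le_or_gt u.length i with h2 | h2
    · have e1 : (u ++ v).take i = u ++ v.take (i - u.length) := by
        rw [List.take_append, List.take_of_length_le h2]
      rw [e1, e2, Y.sm_append, Y.sm_append] at he
      exact (Pool.Agent.SawNice.saw_iff Y).1 hv (i - u.length) (j - u.length) (by omega) (by omega)
        (add_left_cancel he)
    · rw [e2, Y.sm_append, List.take_append_of_le_length h2.le] at he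
      exact h i h2.le (j - u.length) (by omega) (by omega) he

private theorem Exit_sm_bar (Y : Sys S V) (w : List S) : Y.sm (bar Y w) = - Y.sm w := by
  unfold bar
  rw [Y.sm_reverse, Y.sm_neg]

private theorem Exit_bar_take (Y : Sys S V) (w : List S) (i : ℕ) :
    Y.sm ((bar Y w).take i) = Y.sm (w.take (w.length - i)) - Y.sm w := by
  have h1 : (bar Y w).take i = bar Y (w.drop (w.length - i)) := by
    unfold bar
    rw [List.take_reverse, List.length_map, List.map_drop]
  rw [h1, Exit_sm_bar]
  have h2 := Pool.Agent.SawNice.sm_take_drop Y w (w.length - i)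
  rw [← h2]
  abel

private theorem Exit_cs {ι W : Type} [AddCommGroup W] [DecidableEq W] (G : Finset ι) (f : ι → W) :
    (G.card : ℝ) ^ 2 ≤ ((G.image f).card : ℝ) * ∑ p ∈ G, ∑ p' ∈ G, dl (f p - f p') := by
  have h1 : (G.card : ℝ) = ∑ y ∈ G.image f, ((G.filter fun p => f p = y).card : ℝ) := by
    rw [Finset.card_eq_sum_card_image f G]
    push_cast
    rfl
  have h2 : ∑ p ∈ G, ∑ p' ∈ G, dl (f p - f p') =
      ∑ y ∈ G.image f, ((G.filter fun p => f p = y).card : ℝ) ^ 2 := by
    rw [← Finset.sum_fiberwise_of_maps_to (g := f) (t := G.image f)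
      (fun p hp => Finset.mem_image_of_mem f hp)]
    refine Finset.sum_congr rfl fun y _ => ?_
    have h3 : ∀ p ∈ G.filter (fun p => f p = y), ∑ p' ∈ G, dl (f p - f p') =
        ((G.filter fun p => f p = y).card : ℝ) := by
      intro p hp
      rw [Finset.mem_filter] at hp
      rw [hp.2, Finset.card_filter, Nat.cast_sum]
      refine Finset.sum_congr rfl fun p' _ => ?_
      by_cases h4 : f p' = y
      · rw [h4, sub_self, dl_zero, if_pos rfl, Nat.cast_one]
      · rw [dl_of_ne (fun h5 => h4 (sub_eq_zero.1 h5).symm), if_neg h4, Nat.cast_zero]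
    rw [Finset.sum_congr rfl h3, Finset.sum_const, nsmul_eq_mul, sq]
  rw [h1, h2]
  exact sq_sum_le_card_mul_sum_sq

theorem last_exit (Y : Sys S V) {n : ℕ} {α β : List S} (hα : α.length = n) (hβ : β.length = n)
    (hα1 : Y.Saw α) (hβ1 : Y.Saw β) (G : Finset (ℕ × ℕ)) (hG : G ⊆ range n ×ˢ range n) :
    (G.card : ℝ) ^ 2 ≤ (∑ i ∈ range (n + 1), ∑ j ∈ range (n + 1),
        tp Y (bar Y (α.take i)) (α.drop i) (β.drop j)) *
      ∑ p ∈ G, ∑ p' ∈ G, dl (gp Y α β p - gp Y α β p') := by
  classical
  have hE : 0 ≤ ∑ p ∈ G, ∑ p' ∈ G, dl (gp Y α β p - gp Y α β p') :=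
    Finset.sum_nonneg fun _ _ => Finset.sum_nonneg fun _ _ => dl_nonneg _
  refine (Exit_cs G (gp Y α β)).trans (mul_le_mul_of_nonneg_right ?_ hE)
  have htp : ∀ u v w, 0 ≤ tp Y u v w := fun u v w =>
    mul_nonneg (mul_nonneg (Y.sv_nonneg _) (Y.sv_nonneg _)) (Y.sv_nonneg _)
  -- the places where the tripod weight is one
  let T : Finset (ℕ × ℕ) := (range (n + 1) ×ˢ range (n + 1)).filter fun p =>
    tp Y (bar Y (α.take p.1)) (α.drop p.1) (β.drop p.2) = 1
  have hT : ((T.card : ℕ) : ℝ) ≤ ∑ i ∈ range (n + 1), ∑ j ∈ range (n + 1),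
      tp Y (bar Y (α.take i)) (α.drop i) (β.drop j) := by
    rw [← Finset.sum_product (s := range (n + 1)) (t := range (n + 1))
      (f := fun p : ℕ × ℕ => tp Y (bar Y (α.take p.1)) (α.drop p.1) (β.drop p.2))]
    calc ((T.card : ℕ) : ℝ) = ∑ p ∈ T, (1 : ℝ) := by simp
      _ = ∑ p ∈ T, tp Y (bar Y (α.take p.1)) (α.drop p.1) (β.drop p.2) :=
          Finset.sum_congr rfl fun p hp => (Finset.mem_filter.1 hp).2.symm
      _ ≤ _ := Finset.sum_le_sum_of_subset_of_nonneg (Finset.filter_subset _ _)
          fun p _ _ => htp _ _ _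
  refine le_trans ?_ hT
  have hsub : G.image (gp Y α β) ⊆ T.image (gp Y α β) := by
    intro y hy
    obtain ⟨p, hp, rfl⟩ := Finset.mem_image.1 hy
    set y := gp Y α β p with hy0
    let R : Finset (ℕ × ℕ) := (range (n + 1) ×ˢ range (n + 1)).filter fun q => gp Y α β q = y
    have hpR : p ∈ R := by
      have h1 := hG hp
      rw [Finset.mem_product, mem_range, mem_range] at h1
      rw [Finset.mem_filter, Finset.mem_product, mem_range, mem_range]
      exact ⟨⟨by omega, by omega⟩, rfl⟩
    obtain ⟨q, hq, hmax⟩ := R.exists_max_image (fun q => q.2) ⟨p, hpR⟩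
    rw [Finset.mem_filter, Finset.mem_product, mem_range, mem_range] at hq
    obtain ⟨⟨hq1, hq2⟩, hqy⟩ := hq
    refine Finset.mem_image.2 ⟨q, Finset.mem_filter.2 ⟨?_, ?_⟩, hqy⟩
    · rw [Finset.mem_product, mem_range, mem_range]
      exact ⟨hq1, hq2⟩
    have hlast : ∀ i ≤ n, ∀ j ≤ n, q.2 < j → gp Y α β (i, j) ≠ y := by
      intro i hi j hj hqj he
      have : (i, j) ∈ R := by
        rw [Finset.mem_filter, Finset.mem_product, mem_range, mem_range]
        exact ⟨⟨by omega, by omega⟩, he⟩
      have := hmax _ this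
      simp only at this
      omega
    have hbd : ∀ t, t ≤ (β.drop q.2).length → Y.sm ((β.drop q.2).take t) =
        Y.sm (β.take (q.2 + t)) - Y.sm (β.take q.2) := by
      intro t _
      rw [List.take_add, Y.sm_append]
      abel
    have hs1 : Y.Saw (α.take q.1) := hα1.fac (List.take_prefix _ _).isInfix
    have hs2 : Y.Saw (α.drop q.1) := hα1.fac (List.drop_suffix _ _).isInfix
    have hs3 : Y.Saw (β.drop q.2) := hβ1.fac (List.drop_suffix _ _).isInfix
    have e1 : Y.sv (bar Y (bar Y (α.take q.1)) ++ α.drop q.1) = 1 := by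
      rw [Exit_bar_bar, List.take_append_drop, Y.sv_of hα1]
    have e2 : Y.sv (bar Y (bar Y (α.take q.1)) ++ β.drop q.2) = 1 := by
      rw [Exit_bar_bar]
      refine Y.sv_of (Exit_app Y hs1 hs3 ?_)
      intro i hi t ht1 ht2 he
      rw [hbd t ht2] at he
      rw [List.length_take] at hi
      rw [List.length_drop] at ht2
      rw [List.take_take, min_eq_left (by omega)] at he
      refine hlast i (by omega) (q.2 + t) (by omega) (by omega) ?_
      rw [← hqy]
      unfold gp
      simp only
      rw [he]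
      abel
    have e3 : Y.sv (bar Y (α.drop q.1) ++ β.drop q.2) = 1 := by
      refine Y.sv_of (Exit_app Y ?_ hs3 ?_)
      · unfold bar
        exact Y.Saw_reverse_iff.2 (Y.Saw_neg_iff.2 hs2)
      intro i hi t ht1 ht2 he
      rw [hbd t ht2, Exit_bar_take, Exit_sm_bar] at he
      have hbl : (bar Y (α.drop q.1)).length = n - q.1 := by
        unfold bar
        rw [List.length_reverse, List.length_map, List.length_drop, hα]
      rw [hbl] at hi
      rw [List.length_drop] at ht2
      rw [List.length_drop, hα] at he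
      have e4 : Y.sm ((α.drop q.1).take (n - q.1 - i)) =
          Y.sm (α.take (q.1 + (n - q.1 - i))) - Y.sm (α.take q.1) := by
        rw [List.take_add, Y.sm_append]
        abel
      rw [e4] at he
      refine hlast (q.1 + (n - q.1 - i)) (by omega) (q.2 + t) (by omega) (by omega) ?_
      rw [← hqy]
      unfold gp
      simp only
      have h5 : Y.sm (α.take (q.1 + (n - q.1 - i))) =
          Y.sm (α.take q.1) + (Y.sm (β.take (q.2 + t)) - Y.sm (β.take q.2)) := by
        have h6 := congrArg (fun x => x + Y.sm (α.take q.1) + Y.sm (α.drop q.1)) he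
        have h7 : Y.sm (α.take (q.1 + (n - q.1 - i))) - Y.sm (α.take q.1) - Y.sm (α.drop q.1) +
          Y.sm (α.take q.1) + Y.sm (α.drop q.1) = Y.sm (α.take (q.1 + (n - q.1 - i))) := by abel
        have h8 : -Y.sm (α.drop q.1) + (Y.sm (β.take (q.2 + t)) - Y.sm (β.take q.2)) +
          Y.sm (α.take q.1) + Y.sm (α.drop q.1) =
          Y.sm (α.take q.1) + (Y.sm (β.take (q.2 + t)) - Y.sm (β.take q.2)) := by abel
        rw [h7, h8] at h6
        exact h6
      rw [h5]
      abel
    show tp Y (bar Y (α.take q.1)) (α.drop q.1) (β.drop q.2) = 1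
    unfold tp
    rw [e1, e2, e3]
    norm_num
  calc ((G.image (gp Y α β)).card : ℝ) ≤ ((T.image (gp Y α β)).card : ℝ) := by
        exact_mod_cast Finset.card_le_card hsub
    _ ≤ (T.card : ℝ) := by exact_mod_cast Finset.card_image_le

end Pool.Agent.Trp
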