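import Pool.Agent.Trp.Defs

/-!
# Monotonicity of the mass of tripods
-/

set_option autoImplicit false

namespace Pool.Agent.Trp

open Finset Filter Topology Pool.Agent.Bub4 Pool.Agent.SawM2 Pool.Agent.SawDiff Pool.Agent.Taw
open Pool.Agent.SawNice (pa fu)

variable {S V : Type} [Fintype S] [AddCommGroup V] {Λ K : ℝ} {ρ : List S → ℝ}

private theorem Mono_tp (Y : Sys S V) (u u' v v' w w' : List S) :
    tp Y (u ++ u') (v ++ v') (w ++ w') ≤
      Y.sv w' * (Y.sv v' * (Y.sv u' * tp Y u v w)) := by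
  unfold tp
  have hb : ∀ x y : List S, bar Y (x ++ y) = bar Y y ++ bar Y x := fun x y => by
    unfold bar; rw [List.map_append, List.reverse_append]
  have hs : ∀ x : List S, Y.sv (bar Y x) = Y.sv x := fun x => by
    unfold bar; rw [Y.sv_reverse, Y.sv_neg]
  have h1 : Y.sv (bar Y (u ++ u') ++ (v ++ v')) ≤
      Y.sv u' * (Y.sv (bar Y u ++ v) * Y.sv v') := by
    rw [hb, List.append_assoc, ← List.append_assoc (bar Y u), ← hs u']
    exact (Y.sv_append_le _ _).trans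
      (mul_le_mul_of_nonneg_left (Y.sv_append_le _ _) (Y.sv_nonneg _))
  have h2 : Y.sv (bar Y (u ++ u') ++ (w ++ w')) ≤ Y.sv (bar Y u ++ w) * Y.sv w' := by
    rw [hb, List.append_assoc, ← List.append_assoc (bar Y u)]
    exact (Y.sv_append_right _ _).trans (Y.sv_append_le _ _)
  have h3 : Y.sv (bar Y (v ++ v') ++ (w ++ w')) ≤ Y.sv (bar Y v ++ w) := by
    rw [hb]
    refine Y.sv_infix ⟨bar Y v', w', ?_⟩
    simp only [List.append_assoc]
  calc Y.sv (bar Y (u ++ u') ++ (v ++ v')) * Y.sv (bar Y (u ++ u') ++ (w ++ w')) *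
        Y.sv (bar Y (v ++ v') ++ (w ++ w'))
      ≤ (Y.sv u' * (Y.sv (bar Y u ++ v) * Y.sv v')) * (Y.sv (bar Y u ++ w) * Y.sv w') *
        Y.sv (bar Y v ++ w) := by
        have e1 := Y.sv_nonneg (bar Y (u ++ u') ++ (v ++ v'))
        have e2 := Y.sv_nonneg (bar Y (u ++ u') ++ (w ++ w'))
        have e3 := Y.sv_nonneg (bar Y (v ++ v') ++ (w ++ w'))
        exact mul_le_mul (mul_le_mul h1 h2 e2 (e1.trans h1)) h3 e3
          (mul_nonneg (e1.trans h1) (e2.trans h2))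
    _ = Y.sv w' * (Y.sv v' * (Y.sv u' *
        (Y.sv (bar Y u ++ v) * Y.sv (bar Y u ++ w) * Y.sv (bar Y v ++ w)))) := by ring

private theorem Mono_one (Y : Sys S V) (hK : ∀ n, Y.a n ≤ K) (n n' : ℕ) (F G : List S → ℝ)
    (hG : ∀ w, 0 ≤ G w) (h : ∀ w w', F (w ++ w') ≤ Y.sv w' * G w) :
    Y.E (n + n') F ≤ K * Y.E n G := by
  rw [Y.E_add, ← Y.E_mul_left]
  refine Y.E_mono fun w _ => ?_
  refine (Y.E_mono fun w' _ => h w w').trans ?_
  rw [Y.E_mul_right]
  exact mul_le_mul_of_nonneg_right (hK n') (hG w)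

theorem Tp_mono (Y : Sys S V) (hK : ∀ n, Y.a n ≤ K) (p q r p' q' r' : ℕ) :
    Tp Y (p + p') (q + q') (r + r') ≤ K ^ 3 * Tp Y p q r := by
  have hK0 : 0 ≤ K := (Y.a_nonneg 0).trans (hK 0)
  have ht : ∀ u v w, 0 ≤ tp Y u v w := fun u v w =>
    mul_nonneg (mul_nonneg (Y.sv_nonneg _) (Y.sv_nonneg _)) (Y.sv_nonneg _)
  have h3 : Tp Y (p + p') (q + q') (r + r') ≤ K * Y.E p fun u =>
      K * Y.E q fun v => K * Y.E r fun w => tp Y u v w := by
    refine Mono_one Y hK p p' _ _ (fun u => mul_nonneg hK0 (Y.E_nonneg' fun v =>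
      mul_nonneg hK0 (Y.E_nonneg' fun w => ht u v w))) fun u u' => ?_
    have h2 : (Y.E (q + q') fun v => Y.E (r + r') fun w => tp Y (u ++ u') v w) ≤
        K * Y.E q fun v => Y.sv u' * (K * Y.E r fun w => tp Y u v w) := by
      refine Mono_one Y hK q q' _ _ (fun v => mul_nonneg (Y.sv_nonneg _) (mul_nonneg hK0
        (Y.E_nonneg' fun w => ht u v w))) fun v v' => ?_
      have h1 : (Y.E (r + r') fun w => tp Y (u ++ u') (v ++ v') w) ≤
          K * Y.E r fun w => Y.sv v' * (Y.sv u' * tp Y u v w) :=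
        Mono_one Y hK r r' _ _ (fun w => mul_nonneg (Y.sv_nonneg _) (mul_nonneg (Y.sv_nonneg _)
          (ht u v w))) fun w w' => Mono_tp Y u u' v v' w w'
      refine h1.trans (le_of_eq ?_)
      rw [Y.E_mul_left, Y.E_mul_left]
      ring
    refine h2.trans (le_of_eq ?_)
    rw [Y.E_mul_left]
    ring
  refine h3.trans (le_of_eq ?_)
  unfold Tp
  simp only [Y.E_mul_left]
  ring

end Pool.Agent.Trp
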