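import Pool.Agent.Trp.Defs
import Pool.Agent.SawM2.GRec
import Pool.Agent.SawM2.TgB
import Pool.Agent.Bub4.Bridge

/-!
# Second moment of the number of hits
-/

set_option autoImplicit false

namespace Pool.Agent.Trp

open Finset Filter Topology Pool.Agent.Bub4 Pool.Agent.SawM2 Pool.Agent.SawDiff Pool.Agent.Taw
open Pool.Agent.SawNice (pa fu Nice)

variable {S : Type} [Fintype S] {d : ℕ} {Λ K : ℝ} {ρ : List S → ℝ}

private theorem Second_fac {d : ℕ} {Y : Sys S (Fin d → ℤ)} (h : Bulk Y Λ ρ) {i m n : ℕ}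
    (hn : i + m ≤ n) (G : List S → ℝ) :
    (Y.E n fun w => ρ w * G ((w.drop i).take m)) = Y.E m fun x => ρ x * G x := by
  obtain ⟨r, rfl⟩ := Nat.exists_eq_add_of_le hn
  rw [Y.E_add (i + m) r, Y.E_add i m]
  have h1 : ∀ u : List S, u.length = i → ∀ x : List S, x.length = m → ∀ v : List S,
      (((u ++ x) ++ v).drop i).take m = x := by
    intro u hu x hx v
    subst hu
    subst hx
    rw [List.append_assoc, List.drop_left, List.take_left]
  have h2 : (Y.E i fun u => Y.E m fun x => Y.E r fun v =>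
      ρ (u ++ x ++ v) * G (((u ++ x ++ v).drop i).take m)) =
      Y.E i fun u => Y.E m fun x => ρ (u ++ x) * G x := by
    refine Y.E_congr fun u hu => Y.E_congr fun x hx => ?_
    have h3 : (fun v => ρ (u ++ x ++ v) * G (((u ++ x ++ v).drop i).take m)) =
        fun v => ρ (u ++ x ++ v) * G x := funext fun v => by rw [h1 u hu x hx v]
    rw [h3, Y.E_mul_right, h.right]
  refine h2.trans ?_
  rw [Y.E_comm]
  refine Y.E_congr fun x _ => ?_
  rw [Y.E_mul_right, h.left]

private theorem Second_sum (f : ℕ → ℝ) (i n : ℕ) :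
    (∑ i' ∈ range n, if i ≤ i' then f (i' - i) else 0) = ∑ m ∈ range (n - i), f m := by
  rw [← Finset.sum_filter]
  have h1 : (range n).filter (fun i' => i ≤ i') = Ico i n := by
    ext x
    simp only [Finset.mem_filter, Finset.mem_range, Finset.mem_Ico]
    omega
  rw [h1, Finset.sum_Ico_eq_sum_range]
  exact Finset.sum_congr rfl fun m _ => by rw [Nat.add_sub_cancel_left]

private theorem Second_pt {d : ℕ} {Y : Sys S (Fin d → ℤ)} (h : Bulk Y Λ ρ) (hK : ∀ n, Y.a n ≤ K)
    {κ : ℝ} {g : (Fin d → ℤ) → ℝ} (hg : ∀ x, 0 ≤ g x) (n : ℕ) (w : List S) :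
    (∑ i ∈ range n, ∑ i' ∈ range n, ind (good Y ρ κ (w.take i)) * ind (good Y ρ κ (w.take i')) *
      g (Y.sm (w.take i') - Y.sm (w.take i))) ≤
    ∑ i ∈ range n, ∑ m ∈ range (n - i), ind (good Y ρ κ ((w.drop i).take m)) *
      (g (Y.sm ((w.drop i).take m)) + g (- Y.sm ((w.drop i).take m))) := by
  obtain ⟨A, hA⟩ : ∃ A : ℕ → ℕ → ℝ, A = fun i m => ind (good Y ρ κ ((w.drop i).take m)) *
    g (Y.sm ((w.drop i).take m)) := ⟨_, rfl⟩
  obtain ⟨B, hB⟩ : ∃ B : ℕ → ℕ → ℝ, B = fun i m => ind (good Y ρ κ ((w.drop i).take m)) *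
    g (- Y.sm ((w.drop i).take m)) := ⟨_, rfl⟩
  have hA0 : ∀ i m, 0 ≤ A i m := fun i m => by rw [hA]; exact mul_nonneg (ind_nonneg _) (hg _)
  have hB0 : ∀ i m, 0 ≤ B i m := fun i m => by rw [hB]; exact mul_nonneg (ind_nonneg _) (hg _)
  have hgd : ∀ i m, ind (good Y ρ κ (w.take (i + m))) ≤ ind (good Y ρ κ ((w.drop i).take m)) := by
    intro i m
    refine ind_mono fun hx => ?_
    rw [List.take_add] at hx
    exact good_suffix h hK hx
  have hsm : ∀ i m, Y.sm (w.take (i + m)) = Y.sm (w.take i) + Y.sm ((w.drop i).take m) := by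
    intro i m
    rw [List.take_add, Y.sm_append]
  have h1 : ∀ i i', ind (good Y ρ κ (w.take i)) * ind (good Y ρ κ (w.take i')) *
      g (Y.sm (w.take i') - Y.sm (w.take i)) ≤
      (if i ≤ i' then A i (i' - i) else 0) + if i' ≤ i then B i' (i - i') else 0 := by
    intro i i'
    rcases le_total i i' with hi | hi
    · obtain ⟨m, rfl⟩ := Nat.exists_eq_add_of_le hi
      rw [if_pos hi, Nat.add_sub_cancel_left]
      have e1 : ind (good Y ρ κ (w.take i)) * ind (good Y ρ κ (w.take (i + m))) *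
          g (Y.sm (w.take (i + m)) - Y.sm (w.take i)) ≤ A i m := by
        rw [hA, hsm, add_sub_cancel_left]
        refine mul_le_mul_of_nonneg_right ?_ (hg _)
        refine le_trans (mul_le_of_le_one_left (ind_nonneg _) (ind_le_one _)) (hgd i m)
      have e2 : 0 ≤ if i + m ≤ i then B (i + m) (i - (i + m)) else 0 := by
        split_ifs
        · exact hB0 _ _
        · exact le_rfl
      linarith
    · obtain ⟨m, rfl⟩ := Nat.exists_eq_add_of_le hi
      rw [if_pos hi, Nat.add_sub_cancel_left]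
      have e1 : ind (good Y ρ κ (w.take (i' + m))) * ind (good Y ρ κ (w.take i')) *
          g (Y.sm (w.take i') - Y.sm (w.take (i' + m))) ≤ B i' m := by
        rw [hB, hsm, sub_add_cancel_left]
        refine mul_le_mul_of_nonneg_right ?_ (hg _)
        refine le_trans (mul_le_of_le_one_right (ind_nonneg _) (ind_le_one _)) (hgd i' m)
      have e2 : 0 ≤ if i' + m ≤ i' then A (i' + m) (i' - (i' + m)) else 0 := by
        split_ifs
        · exact hA0 _ _
        · exact le_rfl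
      linarith
  refine (Finset.sum_le_sum fun i _ => Finset.sum_le_sum fun i' _ => h1 i i').trans (le_of_eq ?_)
  simp only [Finset.sum_add_distrib]
  rw [Finset.sum_comm (s := range n) (t := range n)
    (f := fun i i' => if i' ≤ i then B i' (i - i') else 0)]
  simp only [Second_sum, mul_add, Finset.sum_add_distrib]
  rw [hA, hB]

private theorem Second_one {d k : ℕ} {Y : Sys S (Fin d → ℤ)} (h : Bulk Y Λ ρ)
    (hK : ∀ n, Y.a n ≤ K) (e : Fin k → Fin d) {κ : ℝ} {f : Zk k → ℝ} (hf : ∀ x, 0 ≤ f x) (n : ℕ) :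
    (Y.E n fun w => ρ w * ∑ i ∈ range n, ∑ i' ∈ range n, ind (good Y ρ κ (w.take i)) *
      ind (good Y ρ κ (w.take i')) * f (cI e (Y.sm (w.take i') - Y.sm (w.take i)))) ≤
    n * ((GU Y (cI e) ρ κ n).pr f + (GU Y (cI e) ρ κ n).pr fun x => f (-x)) := by
  obtain ⟨G, hG⟩ : ∃ G : List S → ℝ, G = fun x => ind (good Y ρ κ x) *
    (f (cI e (Y.sm x)) + f (cI e (- Y.sm x))) := ⟨_, rfl⟩
  have hG0 : ∀ x, 0 ≤ G x := fun x => by
    rw [hG]
    exact mul_nonneg (ind_nonneg _) (add_nonneg (hf _) (hf _))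
  have h1 : (Y.E n fun w => ρ w * ∑ i ∈ range n, ∑ i' ∈ range n, ind (good Y ρ κ (w.take i)) *
      ind (good Y ρ κ (w.take i')) * f (cI e (Y.sm (w.take i') - Y.sm (w.take i)))) ≤
      Y.E n fun w => ∑ i ∈ range n, ∑ m ∈ range (n - i), ρ w * G ((w.drop i).take m) := by
    refine Y.E_mono fun w _ => ?_
    have e1 := Second_pt h hK (κ := κ) (g := fun v => f (cI e v)) (fun x => hf _) n w
    refine (mul_le_mul_of_nonneg_left e1 (h.nonneg w)).trans (le_of_eq ?_)
    rw [Finset.mul_sum]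
    refine Finset.sum_congr rfl fun i _ => ?_
    rw [Finset.mul_sum, hG]
  refine h1.trans ?_
  rw [Y.E_fsum]
  have h2 : ∀ i ∈ range n, (Y.E n fun w => ∑ m ∈ range (n - i), ρ w * G ((w.drop i).take m)) ≤
      ∑ m ∈ range n, Y.E m fun x => UU Y ρ x * G x := by
    intro i hi
    rw [Y.E_fsum]
    have e1 : ∀ m ∈ range (n - i), (Y.E n fun w => ρ w * G ((w.drop i).take m)) ≤
        Y.E m fun x => UU Y ρ x * G x := by
      intro m hm
      have hi' := Finset.mem_range.1 hi
      have hm' := Finset.mem_range.1 hm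
      rw [Second_fac h (show i + m ≤ n by omega) G]
      exact Y.E_mono fun x _ => mul_le_mul_of_nonneg_right (le_UU h hK x) (hG0 x)
    refine (Finset.sum_le_sum e1).trans ?_
    refine Finset.sum_le_sum_of_subset_of_nonneg ?_ fun m _ _ =>
      Y.E_nonneg' fun x => mul_nonneg (UU_nonneg h hK x) (hG0 x)
    exact Finset.range_mono (Nat.sub_le _ _)
  refine (Finset.sum_le_sum h2).trans (le_of_eq ?_)
  rw [Finset.sum_const, Finset.card_range, nsmul_eq_mul]
  congr 1
  unfold GU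
  rw [Fm.pr_bs, Fm.pr_bs, ← Finset.sum_add_distrib]
  refine Finset.sum_congr rfl fun m _ => ?_
  rw [pr_lw, pr_lw, ← Y.E_fadd]
  refine Y.E_congr fun x _ => ?_
  rw [hG]
  simp only [map_neg]
  ring

theorem sec_le {d k : ℕ} {Y : Sys S (Fin d → ℤ)} (h : Erg Y Λ K ρ) {e : Fin k → Fin d}
    {κ a : ℝ} (hκ : 0 < κ) (ha : 0 < a) (ha1 : a < 1) (n : ℕ) :
    (Y.E n fun α => Y.E n fun β => ρ α * ρ β *
      ∑ p ∈ Gd Y ρ κ n α β, ∑ p' ∈ Gd Y ρ κ n α β, dl (gp Y α β p - gp Y α β p')) ≤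
      4 * (n : ℝ) ^ 2 * EE Y (cI e) ρ κ a n := by
  classical
  have hb := h.bulk
  have hK := h.a_le
  obtain ⟨G, hG⟩ : ∃ G : Fm k, G = GU Y (cI e) ρ κ n := ⟨_, rfl⟩
  have hGn : G.Nn := by rw [hG]; exact nn_GU hb hK n
  -- the kernel of the inner sum
  obtain ⟨H, hH⟩ : ∃ H : Zk k → ℝ, H = fun y => n * (G.pr (fun x => ker a (x - y)) +
    G.pr fun x => ker a (-x - y)) := ⟨_, rfl⟩
  have hH0 : ∀ y, 0 ≤ H y := by
    intro y
    rw [hH]
    exact mul_nonneg (Nat.cast_nonneg _) (add_nonneg (hGn.pr_nonneg fun x => ker_nonneg ha.le _)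
      (hGn.pr_nonneg fun x => ker_nonneg ha.le _))
  -- pointwise
  have h1 : ∀ α β : List S, (∑ p ∈ Gd Y ρ κ n α β, ∑ p' ∈ Gd Y ρ κ n α β,
      dl (gp Y α β p - gp Y α β p')) ≤
      ∑ i ∈ range n, ∑ i' ∈ range n, ind (good Y ρ κ (α.take i)) * ind (good Y ρ κ (α.take i')) *
        ∑ j ∈ range n, ∑ j' ∈ range n, ind (good Y ρ κ (β.take j)) * ind (good Y ρ κ (β.take j')) *
          ker a (cI e (Y.sm (β.take j') - Y.sm (β.take j)) -
            cI e (Y.sm (α.take i') - Y.sm (α.take i))) := by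
    intro α β
    have e1 : ∀ p p' : ℕ × ℕ, dl (gp Y α β p - gp Y α β p') ≤
        ker a (cI e (Y.sm (β.take p'.2) - Y.sm (β.take p.2)) -
            cI e (Y.sm (α.take p'.1) - Y.sm (α.take p.1))) := by
      intro p p'
      by_cases hp : gp Y α β p - gp Y α β p' = 0
      · rw [dl_of_eq hp, ← map_sub]
        have e2 : Y.sm (β.take p'.2) - Y.sm (β.take p.2) - (Y.sm (α.take p'.1) - Y.sm (α.take p.1))
            = - (gp Y α β p - gp Y α β p') := by
          unfold gp
          abel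
        rw [e2, hp, neg_zero, map_zero, ker_zero]
      · rw [dl_of_ne hp]
        exact ker_nonneg ha.le _
    have e3 : ∀ F : ℕ × ℕ → ℝ, (∑ p ∈ Gd Y ρ κ n α β, F p) = ∑ i ∈ range n, ∑ j ∈ range n,
        ind (good Y ρ κ (α.take i)) * ind (good Y ρ κ (β.take j)) * F (i, j) := by
      intro F
      unfold Gd
      rw [Finset.sum_filter, Finset.sum_product]
      refine Finset.sum_congr rfl fun i _ => Finset.sum_congr rfl fun j _ => ?_
      rw [← ind_and]
      by_cases hc : good Y ρ κ (α.take i) ∧ good Y ρ κ (β.take j)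
      · rw [if_pos hc, ind_of hc, one_mul]
      · rw [if_neg hc, ind_not hc, zero_mul]
    refine (Finset.sum_le_sum fun p _ => Finset.sum_le_sum fun p' _ => e1 p p').trans
      (le_of_eq ?_)
    rw [e3]
    refine Finset.sum_congr rfl fun i _ => ?_
    have e4 : ∀ j ∈ range n, ind (good Y ρ κ (α.take i)) * ind (good Y ρ κ (β.take j)) *
        (∑ p' ∈ Gd Y ρ κ n α β, ker a (cI e (Y.sm (β.take p'.2) - Y.sm (β.take (i, j).2)) -
          cI e (Y.sm (α.take p'.1) - Y.sm (α.take (i, j).1)))) =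
        ∑ i' ∈ range n, ∑ j' ∈ range n, ind (good Y ρ κ (α.take i)) *
          ind (good Y ρ κ (α.take i')) * (ind (good Y ρ κ (β.take j)) *
          ind (good Y ρ κ (β.take j')) * ker a (cI e (Y.sm (β.take j') - Y.sm (β.take j)) -
            cI e (Y.sm (α.take i') - Y.sm (α.take i)))) := by
      intro j _
      rw [e3, Finset.mul_sum]
      refine Finset.sum_congr rfl fun i' _ => ?_
      rw [Finset.mul_sum]
      refine Finset.sum_congr rfl fun j' _ => ?_
      ring
    rw [Finset.sum_congr rfl e4, Finset.sum_comm]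
    refine Finset.sum_congr rfl fun i' _ => ?_
    rw [Finset.mul_sum]
    refine Finset.sum_congr rfl fun j _ => ?_
    rw [Finset.mul_sum]
  -- the inner sum
  have h2 : ∀ y : Zk k, (Y.E n fun β => ρ β * ∑ j ∈ range n, ∑ j' ∈ range n,
      ind (good Y ρ κ (β.take j)) * ind (good Y ρ κ (β.take j')) *
        ker a (cI e (Y.sm (β.take j') - Y.sm (β.take j)) - y)) ≤ H y := by
    intro y
    have := Second_one hb hK e (κ := κ) (f := fun x => ker a (x - y))
      (fun x => ker_nonneg ha.le _) n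
    rw [← hG] at this
    rw [hH]
    exact this
  have h3 : (Y.E n fun α => Y.E n fun β => ρ α * ρ β *
      ∑ p ∈ Gd Y ρ κ n α β, ∑ p' ∈ Gd Y ρ κ n α β, dl (gp Y α β p - gp Y α β p')) ≤
      Y.E n fun α => ρ α * ∑ i ∈ range n, ∑ i' ∈ range n, ind (good Y ρ κ (α.take i)) *
        ind (good Y ρ κ (α.take i')) * H (cI e (Y.sm (α.take i') - Y.sm (α.take i))) := by
    refine Y.E_mono fun α _ => ?_
    have e1 : (Y.E n fun β => ρ α * ρ β *
        ∑ p ∈ Gd Y ρ κ n α β, ∑ p' ∈ Gd Y ρ κ n α β, dl (gp Y α β p - gp Y α β p')) ≤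
        Y.E n fun β => ρ α * ∑ i ∈ range n, ∑ i' ∈ range n, ind (good Y ρ κ (α.take i)) *
          ind (good Y ρ κ (α.take i')) * (ρ β *
        ∑ j ∈ range n, ∑ j' ∈ range n, ind (good Y ρ κ (β.take j)) * ind (good Y ρ κ (β.take j')) *
          ker a (cI e (Y.sm (β.take j') - Y.sm (β.take j)) -
            cI e (Y.sm (α.take i') - Y.sm (α.take i)))) := by
      refine Y.E_mono fun β _ => ?_
      refine (mul_le_mul_of_nonneg_left (h1 α β) (mul_nonneg (hb.nonneg α) (hb.nonneg β))).trans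
        (le_of_eq ?_)
      rw [mul_assoc, Finset.mul_sum]
      congr 1
      refine Finset.sum_congr rfl fun i _ => ?_
      rw [Finset.mul_sum]
      refine Finset.sum_congr rfl fun i' _ => ?_
      ring
    refine e1.trans ?_
    rw [Y.E_mul_left]
    refine mul_le_mul_of_nonneg_left ?_ (hb.nonneg α)
    rw [Y.E_fsum]
    refine Finset.sum_le_sum fun i _ => ?_
    rw [Y.E_fsum]
    refine Finset.sum_le_sum fun i' _ => ?_
    rw [Y.E_mul_left]
    exact mul_le_mul_of_nonneg_left (h2 _) (mul_nonneg (ind_nonneg _) (ind_nonneg _))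
  refine h3.trans ?_
  have h4 := Second_one hb hK e (κ := κ) (f := H) hH0 n
  rw [← hG] at h4
  refine h4.trans ?_
  -- energies
  have hen : Fm.en a G G ≤ EE Y (cI e) ρ κ a n := by
    rw [hG]
    exact le_max_left _ _
  have hcv : Fm.sm a (Fm.conv G G) 0 ≤ Fm.en a G G := by
    refine (le_abs_self _).trans ((Fm.sm_conv_le ha ha1 G G 0).trans (le_of_eq ?_))
    unfold Fm.nr
    exact Real.mul_self_sqrt (Fm.en_nonneg ha ha1 G)
  have hcv1 : Fm.sm a (Fm.conv G G) 0 = G.pr fun x => G.pr fun y => ker a (x + y) := by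
    unfold Fm.sm
    rw [Fm.pr_conv]
    refine Fm.pr_congr _ fun x => Fm.pr_congr _ fun y => ?_
    rw [zero_sub, ker_neg]
  have e1 : G.pr H = n * (Fm.en a G G + Fm.sm a (Fm.conv G G) 0) := by
    rw [hH, Fm.pr_mul_left, Fm.pr_fadd, hcv1]
    congr 2
    · unfold Fm.en
      refine Fm.pr_congr _ fun x => Fm.pr_congr _ fun y => ?_
      rw [ker_sub_comm]
    · refine Fm.pr_congr _ fun x => Fm.pr_congr _ fun y => ?_
      rw [show -y - x = -(x + y) by abel, ker_neg]
  have e2 : (G.pr fun x => H (-x)) = n * (Fm.sm a (Fm.conv G G) 0 + Fm.en a G G) := by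
    rw [hH]
    simp only
    rw [Fm.pr_mul_left, Fm.pr_fadd, hcv1]
    congr 2
    · refine Fm.pr_congr _ fun x => Fm.pr_congr _ fun y => ?_
      rw [show y - -x = x + y by abel]
    · unfold Fm.en
      refine Fm.pr_congr _ fun x => Fm.pr_congr _ fun y => ?_
      rw [show -y - -x = x - y by abel]
  rw [e1, e2]
  have hn0 : (0 : ℝ) ≤ n := Nat.cast_nonneg n
  have hn2 : (0 : ℝ) ≤ (n : ℝ) ^ 2 := sq_nonneg _
  have e3 : (n : ℝ) * (n * (Fm.en a G G + Fm.sm a (Fm.conv G G) 0) +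
      n * (Fm.sm a (Fm.conv G G) 0 + Fm.en a G G)) =
      (n : ℝ) ^ 2 * (2 * Fm.en a G G + 2 * Fm.sm a (Fm.conv G G) 0) := by ring
  rw [e3, mul_comm (4 : ℝ), mul_assoc]
  refine mul_le_mul_of_nonneg_left ?_ hn2
  linarith

end Pool.Agent.Trp
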