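import Pool.Agent.Trp.Defs
import Pool.Agent.SawM2.GRec
import Pool.Agent.SawM2.TgB
import Pool.Agent.Bub4.Bridge
import Pool.Agent.Trp.Mono
import Pool.Agent.Trp.Exit
import Pool.Agent.Trp.Second

/-!
# Lower bound for the mass of tripods
-/

set_option autoImplicit false

namespace Pool.Agent.Trp

open Finset Filter Topology Pool.Agent.Bub4 Pool.Agent.SawM2 Pool.Agent.SawDiff Pool.Agent.Taw
open Pool.Agent.SawNice (pa fu Nice)

variable {S : Type} [Fintype S] {d : ℕ} {Λ K : ℝ} {ρ : List S → ℝ}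

private theorem Lower_bar {d : ℕ} (Y : Sys S (Fin d → ℤ)) (n : ℕ) (F : List S → ℝ) :
    (Y.E n fun w => F (bar Y w)) = Y.E n F :=
  (Y.E_neg n fun w => F w.reverse).trans (Y.E_reverse n F)

private theorem Lower_take {d : ℕ} {Y : Sys S (Fin d → ℤ)} (h : Bulk Y Λ ρ) {i n : ℕ} (hi : i ≤ n)
    (F : List S → ℝ) : (Y.E n fun w => ρ w * F (w.take i)) = Y.E i fun u => ρ u * F u := by
  obtain ⟨k, rfl⟩ := Nat.exists_eq_add_of_le hi
  rw [Y.E_add]
  refine Y.E_congr fun u hu => ?_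
  have h1 : ∀ v : List S, (u ++ v).take i = u := fun v => by
    rw [← hu, List.take_left]
  simp only [h1]
  rw [Y.E_mul_right, h.right]

private theorem Lower_drop {d : ℕ} {Y : Sys S (Fin d → ℤ)} (h : Bulk Y Λ ρ) {j n : ℕ} (hj : j ≤ n)
    (F : List S → ℝ) : (Y.E n fun w => ρ w * F (w.drop j)) = Y.E (n - j) fun v => ρ v * F v := by
  obtain ⟨k, rfl⟩ := Nat.exists_eq_add_of_le hj
  rw [Y.E_add, Y.E_comm, Nat.add_sub_cancel_left]
  refine Y.E_congr fun v _ => ?_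
  have h1 : (Y.E j fun u => ρ (u ++ v) * F ((u ++ v).drop j)) = Y.E j fun u => ρ (u ++ v) * F v := by
    refine Y.E_congr fun u hu => ?_
    have h2 : (u ++ v).drop j = v := by rw [← hu, List.drop_left]
    rw [h2]
  rw [h1, Y.E_mul_right, h.left]

private theorem Lower_card {d : ℕ} (Y : Sys S (Fin d → ℤ)) (ρ : List S → ℝ) (κ : ℝ) (n : ℕ)
    (α β : List S) : ((Gd Y ρ κ n α β).card : ℝ) =
      (∑ i ∈ range n, ind (good Y ρ κ (α.take i))) * ∑ j ∈ range n, ind (good Y ρ κ (β.take j)) := by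
  classical
  unfold Gd
  rw [Finset.card_filter, Finset.sum_product, Finset.sum_mul_sum]
  push_cast
  refine Finset.sum_congr rfl fun i _ => Finset.sum_congr rfl fun j _ => ?_
  rw [← ind_and]
  unfold ind
  split_ifs <;> rfl

private theorem Lower_g {d : ℕ} {Y : Sys S (Fin d → ℤ)} (h : Erg Y Λ K ρ) {κ : ℝ} (hκ : 0 < κ)
    (hκK : κ * K ≤ 1 / 8) (n : ℕ) :
    7 / 8 * (n : ℝ) ≤ Y.E n fun w => ρ w * ∑ i ∈ range n, ind (good Y ρ κ (w.take i)) := by
  have h1 : (Y.E n fun w => ρ w * ∑ i ∈ range n, ind (good Y ρ κ (w.take i))) =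
      ∑ i ∈ range n, Y.E i fun u => ρ u * ind (good Y ρ κ u) := by
    simp only [Finset.mul_sum]
    rw [Y.E_fsum]
    refine Finset.sum_congr rfl fun i hi => ?_
    exact Lower_take h.bulk (Finset.mem_range.1 hi).le fun u => ind (good Y ρ κ u)
  rw [h1]
  have h2 : ∀ i ∈ range n, (7 / 8 : ℝ) ≤ Y.E i fun u => ρ u * ind (good Y ρ κ u) := by
    intro i _
    have h3 := bad_le h.bulk h.a_le hκ.le i
    have h4 : (Y.E i fun w => ρ w * ind (¬ good Y ρ κ w)) =
        1 - Y.E i fun u => ρ u * ind (good Y ρ κ u) := by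
      rw [← h.bulk.mass i, ← Y.E_fsub]
      refine Y.E_congr fun w _ => ?_
      rw [ind_compl]
      ring
    linarith
  calc 7 / 8 * (n : ℝ) = ∑ _i ∈ range n, (7 / 8 : ℝ) := by
        rw [Finset.sum_const, Finset.card_range, nsmul_eq_mul]; ring
    _ ≤ _ := Finset.sum_le_sum h2

private theorem Lower_amgm {g L Q t : ℝ} (hL : 0 ≤ L) (hQ : 0 ≤ Q) (ht : 0 < t)
    (h : g ^ 2 ≤ L * Q) : 2 * g ≤ t * L + t⁻¹ * Q := by
  have hx : 0 ≤ t * L := mul_nonneg ht.le hL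
  have hy : 0 ≤ t⁻¹ * Q := mul_nonneg (inv_nonneg.2 ht.le) hQ
  have h1 : (t * L) * (t⁻¹ * Q) = L * Q := by
    field_simp
  by_contra hc
  push Not at hc
  nlinarith [sq_nonneg (t * L - t⁻¹ * Q)]

private theorem Lower_tp0 {d : ℕ} (Y : Sys S (Fin d → ℤ)) (u v w : List S) : 0 ≤ tp Y u v w := by
  unfold tp
  exact mul_nonneg (mul_nonneg (Y.sv_nonneg _) (Y.sv_nonneg _)) (Y.sv_nonneg _)

private theorem Lower_tp1 {d : ℕ} (Y : Sys S (Fin d → ℤ)) (u v w : List S) : tp Y u v w ≤ 1 := by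
  unfold tp
  have h1 := Y.sv_le_one (bar Y u ++ v)
  have h2 := Y.sv_le_one (bar Y u ++ w)
  have h3 := Y.sv_le_one (bar Y v ++ w)
  have h4 := Y.sv_nonneg (bar Y u ++ v)
  have h5 := Y.sv_nonneg (bar Y u ++ w)
  have h6 := Y.sv_nonneg (bar Y v ++ w)
  calc Y.sv (bar Y u ++ v) * Y.sv (bar Y u ++ w) * Y.sv (bar Y v ++ w) ≤ 1 * 1 * 1 := by
        gcongr
    _ = 1 := by norm_num

/-- the contribution of the last exit `(i, j)` -/
private noncomputable def Lower_X {d : ℕ} (Y : Sys S (Fin d → ℤ)) (ρ : List S → ℝ) (n i j : ℕ) : ℝ :=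
  Y.E n fun α => Y.E n fun β => ρ α * ρ β * tp Y (bar Y (α.take i)) (α.drop i) (β.drop j)

private theorem Lower_X1 {d : ℕ} {Y : Sys S (Fin d → ℤ)} (h : Bulk Y Λ ρ) (n i j : ℕ) :
    Lower_X Y ρ n i j ≤ 1 := by
  have h1 : Lower_X Y ρ n i j ≤ Y.E n fun α => Y.E n fun β => ρ α * ρ β := by
    refine Y.E_mono fun α _ => Y.E_mono fun β _ => ?_
    exact mul_le_of_le_one_right (mul_nonneg (h.nonneg _) (h.nonneg _)) (Lower_tp1 Y _ _ _)
  refine h1.trans (le_of_eq ?_)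
  simp only [Y.E_mul_left, Y.E_mul_right]
  have h2 : (Y.E n fun β => ρ β) = 1 := h.mass n
  rw [h2]
  norm_num

private theorem Lower_X2 {d : ℕ} {Y : Sys S (Fin d → ℤ)} (h : Bulk Y Λ ρ) {n i j : ℕ} (hi : i ≤ n)
    (hj : j ≤ n) : Lower_X Y ρ n i j ≤ Λ ^ 2 * Tp Y i (n - i) (n - j) := by
  have hΛ : 0 ≤ Λ := h.pos.le
  have h1 : Lower_X Y ρ n i j = Y.E n fun α => ρ α * Y.E (n - j) fun w =>
      ρ w * tp Y (bar Y (α.take i)) (α.drop i) w := by
    unfold Lower_X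
    refine Y.E_congr fun α _ => ?_
    have h2 := Lower_drop h hj fun w => tp Y (bar Y (α.take i)) (α.drop i) w
    rw [← h2, ← Y.E_mul_left]
    refine Y.E_congr fun β _ => ?_
    ring
  rw [h1]
  have h3 : (Y.E n fun α => ρ α * Y.E (n - j) fun w => ρ w * tp Y (bar Y (α.take i)) (α.drop i) w) ≤
      Y.E n fun α => Λ * (Λ * Y.E (n - j) fun w => tp Y (bar Y (α.take i)) (α.drop i) w) := by
    refine Y.E_mono fun α _ => ?_
    have h4 : (Y.E (n - j) fun w => ρ w * tp Y (bar Y (α.take i)) (α.drop i) w) ≤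
        Λ * Y.E (n - j) fun w => tp Y (bar Y (α.take i)) (α.drop i) w := by
      rw [← Y.E_mul_left]
      refine Y.E_mono fun w _ => ?_
      exact mul_le_mul_of_nonneg_right (h.le_const w) (Lower_tp0 Y _ _ _)
    have h5 : 0 ≤ Y.E (n - j) fun w => ρ w * tp Y (bar Y (α.take i)) (α.drop i) w :=
      Y.E_nonneg' fun w => mul_nonneg (h.nonneg w) (Lower_tp0 Y _ _ _)
    calc ρ α * (Y.E (n - j) fun w => ρ w * tp Y (bar Y (α.take i)) (α.drop i) w)
        ≤ Λ * (Y.E (n - j) fun w => ρ w * tp Y (bar Y (α.take i)) (α.drop i) w) :=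
          mul_le_mul_of_nonneg_right (h.le_const α) h5
      _ ≤ _ := mul_le_mul_of_nonneg_left h4 hΛ
  refine h3.trans (le_of_eq ?_)
  obtain ⟨k, rfl⟩ := Nat.exists_eq_add_of_le hi
  rw [Y.E_add, Nat.add_sub_cancel_left]
  have h6 : (Y.E i fun u => Y.E k fun v => Λ * (Λ * Y.E (i + k - j) fun w =>
      tp Y (bar Y ((u ++ v).take i)) ((u ++ v).drop i) w)) =
      Y.E i fun u => Y.E k fun v => Λ * (Λ * Y.E (i + k - j) fun w => tp Y (bar Y u) v w) := by
    refine Y.E_congr fun u hu => Y.E_congr fun v _ => ?_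
    have e1 : (u ++ v).take i = u := by rw [← hu, List.take_left]
    have e2 : (u ++ v).drop i = v := by rw [← hu, List.drop_left]
    rw [e1, e2]
  rw [h6]
  have h7 := Lower_bar Y i fun u => Y.E k fun v => Λ * (Λ * Y.E (i + k - j) fun w => tp Y u v w)
  rw [h7]
  unfold Tp
  simp only [Y.E_mul_left]
  ring

private theorem Lower_cnt1 (n m : ℕ) : ∑ i ∈ range (n + 1), ind (i < m) ≤ (m : ℝ) := by
  classical
  have h1 : ∑ i ∈ range (n + 1), ind (i < m) = (((range (n + 1)).filter fun i => i < m).card : ℝ) := by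
    rw [Finset.card_filter]
    push_cast
    refine Finset.sum_congr rfl fun i _ => ?_
    unfold ind
    split_ifs <;> rfl
  rw [h1]
  have h2 : ((range (n + 1)).filter fun i => i < m) ⊆ range m := by
    intro i hi
    rw [Finset.mem_filter] at hi
    exact Finset.mem_range.2 hi.2
  have h3 := Finset.card_le_card h2
  rw [Finset.card_range] at h3
  exact_mod_cast h3

private theorem Lower_cnt2 (n m : ℕ) : ∑ i ∈ range (n + 1), ind (n - i < m) ≤ (m : ℝ) := by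
  rw [← Finset.sum_range_reflect]
  refine le_trans (le_of_eq ?_) (Lower_cnt1 n m)
  refine Finset.sum_congr rfl fun i hi => ?_
  have h1 : n - (n + 1 - 1 - i) = i := by
    have := Finset.mem_range.1 hi
    omega
  rw [h1]

/-- the basic inequality -/
private theorem Lower_main {d k : ℕ} {Y : Sys S (Fin d → ℤ)} (h : Erg Y Λ K ρ) {e : Fin k → Fin d}
    {κ a P : ℝ} (hκ : 0 < κ) (hκK : κ * K ≤ 1 / 8) (ha : 0 < a) (ha1 : a < 1) (n m : ℕ)
    (hP : 0 < P) (hEP : EE Y (cI e) ρ κ a n ≤ P) :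
    (n : ℝ) ^ 2 / 2 ≤ 4 * P * (3 * m * (n + 1) + (n + 1) ^ 2 * (Λ ^ 2 * K ^ 3 * Tp Y m m m)) := by
  have hK1 : 1 ≤ K := (h.a_ge 0).trans (h.a_le 0)
  have hΛ : 0 < Λ := h.bulk.pos
  have hT0 : 0 ≤ Tp Y m m m :=
    Y.E_nonneg' fun u => Y.E_nonneg' fun v => Y.E_nonneg' fun w => Lower_tp0 Y u v w
  set g : List S → ℝ := fun w => ∑ i ∈ range n, ind (good Y ρ κ (w.take i)) with hg
  have hg0 : ∀ w, 0 ≤ g w := fun w => Finset.sum_nonneg fun i _ => ind_nonneg _
  have hg1 := Lower_g h hκ hκK n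
  set A : ℝ := Y.E n fun w => ρ w * g w with hA
  have hA1 : 7 / 8 * (n : ℝ) ≤ A := hg1
  -- pointwise inequality
  set Q : List S → List S → ℝ := fun α β =>
    ∑ p ∈ Gd Y ρ κ n α β, ∑ p' ∈ Gd Y ρ κ n α β, dl (gp Y α β p - gp Y α β p') with hQ
  set L : List S → List S → ℝ := fun α β => ∑ i ∈ range (n + 1), ∑ j ∈ range (n + 1),
        tp Y (bar Y (α.take i)) (α.drop i) (β.drop j) with hL
  have hQ0 : ∀ α β, 0 ≤ Q α β := fun α β =>
    Finset.sum_nonneg fun p _ => Finset.sum_nonneg fun p' _ => dl_nonneg _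
  have hL0 : ∀ α β, 0 ≤ L α β := fun α β =>
    Finset.sum_nonneg fun p _ => Finset.sum_nonneg fun p' _ => Lower_tp0 Y _ _ _
  have ht : 0 < 4 * P := by positivity
  have h1 : 2 * A ^ 2 ≤ (Y.E n fun α => Y.E n fun β => ρ α * ρ β * (4 * P * L α β)) +
      Y.E n fun α => Y.E n fun β => ρ α * ρ β * ((4 * P)⁻¹ * Q α β) := by
    have e1 : 2 * A ^ 2 = Y.E n fun α => Y.E n fun β => ρ α * ρ β * (2 * (g α * g β)) := by
      have e2 : (Y.E n fun α => Y.E n fun β => ρ α * ρ β * (2 * (g α * g β))) =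
          Y.E n fun α => (2 * (ρ α * g α)) * Y.E n fun β => ρ β * g β := by
        refine Y.E_congr fun α _ => ?_
        rw [← Y.E_mul_left]
        refine Y.E_congr fun β _ => ?_
        ring
      rw [e2, Y.E_mul_right, Y.E_mul_left]
      ring
    rw [e1, ← Y.E_fadd]
    refine Y.E_mono fun α hα => ?_
    rw [← Y.E_fadd]
    refine Y.E_mono fun β hβ => ?_
    rw [← mul_add]
    by_cases h0 : ρ α * ρ β = 0
    · rw [h0, zero_mul, zero_mul]
    · have hα1 : Y.Saw α := by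
        by_contra hc
        have h2 := h.bulk.le α
        rw [Y.sv_of_not hc, mul_zero] at h2
        exact h0 (by rw [le_antisymm h2 (h.bulk.nonneg α), zero_mul])
      have hβ1 : Y.Saw β := by
        by_contra hc
        have h2 := h.bulk.le β
        rw [Y.sv_of_not hc, mul_zero] at h2
        exact h0 (by rw [le_antisymm h2 (h.bulk.nonneg β), mul_zero])
      have hG : Gd Y ρ κ n α β ⊆ range n ×ˢ range n := by
        classical
        unfold Gd
        exact Finset.filter_subset _ _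
      have h2 := last_exit Y hα hβ hα1 hβ1 (Gd Y ρ κ n α β) hG
      rw [Lower_card] at h2
      refine mul_le_mul_of_nonneg_left ?_ (mul_nonneg (h.bulk.nonneg _) (h.bulk.nonneg _))
      exact Lower_amgm (hL0 α β) (hQ0 α β) ht h2
  have h3 : (Y.E n fun α => Y.E n fun β => ρ α * ρ β * ((4 * P)⁻¹ * Q α β)) ≤ (n : ℝ) ^ 2 := by
    have e1 : (Y.E n fun α => Y.E n fun β => ρ α * ρ β * ((4 * P)⁻¹ * Q α β)) =
        (4 * P)⁻¹ * Y.E n fun α => Y.E n fun β => ρ α * ρ β * Q α β := by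
      rw [← Y.E_mul_left]
      refine Y.E_congr fun α _ => ?_
      rw [← Y.E_mul_left]
      refine Y.E_congr fun β _ => ?_
      ring
    rw [e1]
    have e2 := sec_le h (e := e) hκ ha ha1 n
    have e3 : 4 * (n : ℝ) ^ 2 * EE Y (cI e) ρ κ a n ≤ 4 * (n : ℝ) ^ 2 * P :=
      mul_le_mul_of_nonneg_left hEP (by positivity)
    have e4 : (4 * P)⁻¹ * (4 * (n : ℝ) ^ 2 * P) = (n : ℝ) ^ 2 := by
      field_simp
    rw [← e4]
    exact mul_le_mul_of_nonneg_left (e2.trans e3) (by positivity)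
  have h4 : (Y.E n fun α => Y.E n fun β => ρ α * ρ β * (4 * P * L α β)) =
      4 * P * ∑ i ∈ range (n + 1), ∑ j ∈ range (n + 1), Lower_X Y ρ n i j := by
    have e1 : (Y.E n fun α => Y.E n fun β => ρ α * ρ β * (4 * P * L α β)) =
        4 * P * Y.E n fun α => Y.E n fun β => ρ α * ρ β * L α β := by
      rw [← Y.E_mul_left]
      refine Y.E_congr fun α _ => ?_
      rw [← Y.E_mul_left]
      refine Y.E_congr fun β _ => ?_
      ring
    rw [e1]
    congr 1
    simp only [hL, Finset.mul_sum, Y.E_fsum]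
    rfl
  have h5 : ∑ i ∈ range (n + 1), ∑ j ∈ range (n + 1), Lower_X Y ρ n i j ≤
      3 * m * (n + 1) + (n + 1) ^ 2 * (Λ ^ 2 * K ^ 3 * Tp Y m m m) := by
    have e0 : 0 ≤ Λ ^ 2 * K ^ 3 * Tp Y m m m := by positivity
    have e1 : ∀ i ∈ range (n + 1), ∀ j ∈ range (n + 1), Lower_X Y ρ n i j ≤
        ind (i < m) + ind (n - i < m) + ind (n - j < m) + Λ ^ 2 * K ^ 3 * Tp Y m m m := by
      intro i hi j hj
      have hi1 := Finset.mem_range.1 hi
      have hj1 := Finset.mem_range.1 hj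
      have x1 := Lower_X1 h.bulk n i j
      have y1 := ind_nonneg (i < m)
      have y2 := ind_nonneg (n - i < m)
      have y3 := ind_nonneg (n - j < m)
      by_cases c1 : i < m
      · rw [ind_of c1]; linarith
      by_cases c2 : n - i < m
      · rw [ind_of c2]; linarith
      by_cases c3 : n - j < m
      · rw [ind_of c3]; linarith
      have x2 := Lower_X2 h.bulk (i := i) (j := j) (n := n) (by omega) (by omega)
      have x3 := Tp_mono Y h.a_le m m m (i - m) (n - i - m) (n - j - m)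
      have z1 : m + (i - m) = i := by omega
      have z2 : m + (n - i - m) = n - i := by omega
      have z3 : m + (n - j - m) = n - j := by omega
      rw [z1, z2, z3] at x3
      have x4 : Λ ^ 2 * Tp Y i (n - i) (n - j) ≤ Λ ^ 2 * (K ^ 3 * Tp Y m m m) :=
        mul_le_mul_of_nonneg_left x3 (by positivity)
      have x5 : Λ ^ 2 * (K ^ 3 * Tp Y m m m) = Λ ^ 2 * K ^ 3 * Tp Y m m m := by ring
      linarith
    refine (Finset.sum_le_sum fun i hi => Finset.sum_le_sum fun j hj => e1 i hi j hj).trans ?_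
    simp only [Finset.sum_add_distrib, Finset.sum_const, Finset.card_range, nsmul_eq_mul]
    have c1 := Lower_cnt1 n m
    have c2 := Lower_cnt2 n m
    have hn : (0 : ℝ) ≤ (n : ℝ) + 1 := by positivity
    rw [← Finset.mul_sum, ← Finset.mul_sum]
    push_cast
    nlinarith [mul_le_mul_of_nonneg_left c1 hn, mul_le_mul_of_nonneg_left c2 hn]
  rw [h4] at h1
  have h6 : 2 * (7 / 8 * (n : ℝ)) ^ 2 ≤ 2 * A ^ 2 := by
    have : (0 : ℝ) ≤ 7 / 8 * (n : ℝ) := by positivity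
    have := pow_le_pow_left₀ this hA1 2
    linarith
  have h7 := mul_le_mul_of_nonneg_left h5 ht.le
  nlinarith [sq_nonneg (n : ℝ)]

theorem Tp_lower {d k : ℕ} {Y : Sys S (Fin d → ℤ)} (h : Erg Y Λ K ρ) {e : Fin k → Fin d}
    {κ : ℝ} (hκ : 0 < κ) (hκK : κ * K ≤ 1 / 8)
    (hE : ∀ c : ℝ, 0 < c → ∃ a : ℝ, 0 < a ∧ a < 1 ∧ ∃ B : ℝ, ∀ N : ℕ, 1 ≤ N →
      EE Y (cI e) ρ κ a N ≤ B * (N : ℝ) ^ c) {ε : ℝ} (hε : 0 < ε) :
    ∀ᶠ N : ℕ in atTop, (N : ℝ) ^ (-ε) ≤ Tp Y N N N := by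
  have hK1 : 1 ≤ K := (h.a_ge 0).trans (h.a_le 0)
  have hΛ : 0 < Λ := h.bulk.pos
  set c : ℝ := min (ε / 4) (1 / 4) with hc
  have hc0 : 0 < c := lt_min (by linarith) (by norm_num)
  have hc1 : c ≤ ε / 4 := min_le_left _ _
  have hc2 : c ≤ 1 / 4 := min_le_right _ _
  obtain ⟨a, ha, ha1, B, hB⟩ := hE c hc0
  set B' : ℝ := max B 1 with hB'
  have hB1 : 1 ≤ B' := le_max_right _ _
  have hB0 : 0 < B' := lt_of_lt_of_le one_pos hB1
  set C : ℝ := Λ ^ 2 * K ^ 3 with hC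
  have hC0 : 0 < C := by positivity
  have t1 : Tendsto (fun N : ℕ => (N : ℝ) ^ (1 / 2 : ℝ)) atTop atTop :=
    (tendsto_rpow_atTop (by norm_num)).comp tendsto_natCast_atTop_atTop
  have t2 : Tendsto (fun N : ℕ => (N : ℝ) ^ (ε / 2)) atTop atTop :=
    (tendsto_rpow_atTop (by linarith)).comp tendsto_natCast_atTop_atTop
  filter_upwards [t1.eventually_ge_atTop (96 * B'), t2.eventually_ge_atTop (64 * C * B'),
    eventually_ge_atTop 1] with N hN1 hN2 hN3
  have hx : (1 : ℝ) ≤ (N : ℝ) := by exact_mod_cast hN3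
  set x : ℝ := (N : ℝ) with hxdef
  have hx0 : 0 < x := lt_of_lt_of_le one_pos hx
  set p : ℝ := x ^ (2 * c) with hp
  have hp0 : 0 < p := Real.rpow_pos_of_pos hx0 _
  have hp1 : p ≤ x ^ (1 / 2 : ℝ) := Real.rpow_le_rpow_of_exponent_le hx (by linarith)
  have q1 : 96 * B' * p ≤ x := by
    have y1 : x ^ (1 / 2 : ℝ) * x ^ (1 / 2 : ℝ) = x := by
      rw [← Real.rpow_add hx0]; norm_num
    calc 96 * B' * p ≤ x ^ (1 / 2 : ℝ) * x ^ (1 / 2 : ℝ) :=
          mul_le_mul hN1 hp1 hp0.le (Real.rpow_nonneg hx0.le _)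
      _ = x := y1
  have q2 : 64 * C * B' * p ≤ x ^ ε := by
    have y1 : x ^ (ε / 2) * x ^ (ε / 2) = x ^ ε := by
      rw [← Real.rpow_add hx0]; ring_nf
    have y2 : p ≤ x ^ (ε / 2) := Real.rpow_le_rpow_of_exponent_le hx (by linarith)
    calc 64 * C * B' * p ≤ x ^ (ε / 2) * x ^ (ε / 2) :=
          mul_le_mul hN2 y2 hp0.le (Real.rpow_nonneg hx0.le _)
      _ = x ^ ε := y1
  have hP : 0 < B' * p := by positivity
  have hEP : EE Y (cI e) ρ κ a (N ^ 2) ≤ B' * p := by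
    have y1 := hB (N ^ 2) (Nat.one_le_pow _ _ hN3)
    have y2 : ((N ^ 2 : ℕ) : ℝ) ^ c = p := by
      rw [hp]
      push_cast
      rw [← Real.rpow_natCast, ← Real.rpow_mul hx0.le]
      norm_num
    rw [y2] at y1
    exact y1.trans (mul_le_mul_of_nonneg_right (le_max_left _ _) hp0.le)
  have hmain := Lower_main h (e := e) hκ hκK ha ha1 (N ^ 2) N hP hEP
  set T : ℝ := Tp Y N N N with hT
  have hT0 : 0 ≤ T :=
    Y.E_nonneg' fun u => Y.E_nonneg' fun v => Y.E_nonneg' fun w => Lower_tp0 Y u v w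
  have e1 : ((N ^ 2 : ℕ) : ℝ) = x ^ 2 := by push_cast; rfl
  rw [e1] at hmain
  have hx2 : x ^ 2 + 1 ≤ 2 * x ^ 2 := by nlinarith
  -- `x ^ 4 / 2 ≤ 4 B' p (6 x ^ 3 + 4 x ^ 4 C T)`
  have m1 : (x ^ 2) ^ 2 / 2 ≤ 4 * (B' * p) * (3 * x * (2 * x ^ 2) + (2 * x ^ 2) ^ 2 * (C * T)) := by
    refine hmain.trans ?_
    gcongr
  have m2 : 24 * (B' * p) * x ^ 3 ≤ x ^ 4 / 4 := by
    have := mul_le_mul_of_nonneg_right q1 (by positivity : 0 ≤ x ^ 3)
    nlinarith
  have m3 : x ^ 4 / 4 ≤ 16 * (B' * p) * x ^ 4 * (C * T) := by nlinarith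
  have m4 : 1 ≤ 64 * C * B' * p * T := by
    have hx4 : 0 < x ^ 4 := by positivity
    by_contra hcon
    push Not at hcon
    have := mul_lt_mul_of_pos_left hcon hx4
    nlinarith
  rw [Real.rpow_neg hx0.le, inv_le_iff_one_le_mul₀ (Real.rpow_pos_of_pos hx0 _)]
  calc (1 : ℝ) ≤ 64 * C * B' * p * T := m4
    _ ≤ x ^ ε * T := mul_le_mul_of_nonneg_right q2 hT0
    _ = T * x ^ ε := mul_comm _ _

end Pool.Agent.Trp
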