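import Pool.Agent.Trp.Defs
import Pool.Agent.Dsd
import Pool.Agent.Trp.Cnt

/-!
# Most pairs of arms are matched at most octaves
-/

set_option autoImplicit false

namespace Pool.Agent.Trp

open Finset Filter Topology Pool.Agent.Bub4 Pool.Agent.SawM2 Pool.Agent.SawDiff Pool.Agent.Taw
open Pool.Agent.SawNice (pa fu)

variable {S V : Type} [Fintype S] [AddCommGroup V] {Λ K : ℝ} {ρ : List S → ℝ}

/-- the event -/
private def Pair_P (Y : Sys S V) (k : ℕ) (δ e : ℝ) (n : ℕ) (u v : List S) : Prop :=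
  ∃ γ : List S, γ.length = k ∧ e * n ≤ (um Y γ δ n u v : ℝ)

private theorem Pair_bar_bar (Y : Sys S V) (w : List S) : bar Y (bar Y w) = w := by
  unfold bar
  rw [List.map_reverse, List.reverse_reverse, List.map_map]
  have h1 : (Y.neg ∘ Y.neg) = id := by
    funext s
    exact Y.neg_neg s
  rw [h1, List.map_id]

private theorem Pair_bar_append (Y : Sys S V) (u w : List S) : bar Y (u ++ w) = bar Y w ++ bar Y u := by
  unfold bar
  rw [List.map_append, List.reverse_append]

private theorem Pair_bar_length (Y : Sys S V) (w : List S) : (bar Y w).length = w.length := by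
  unfold bar
  rw [List.length_reverse, List.length_map]

private theorem Pair_sv_bar (Y : Sys S V) (w : List S) : Y.sv (bar Y w) = Y.sv w := by
  unfold bar
  rw [Y.sv_reverse, Y.sv_neg]

private theorem Pair_E_bar (Y : Sys S V) (n : ℕ) (F : List S → ℝ) : (Y.E n fun w => F (bar Y w)) = Y.E n F := by
  unfold bar
  rw [Y.E_neg n fun w => F w.reverse, Y.E_reverse n F]

private theorem Pair_um (Y : Sys S V) (γ : List S) (δ : ℝ) (n : ℕ) (u u' v v' : List S) (hu : 2 ^ n ≤ u.length)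
    (hv : 2 ^ n ≤ v.length) : um Y γ δ n (u ++ u') (v ++ v') = um Y γ δ n u v := by
  unfold um
  congr 1
  refine Finset.filter_congr fun i hi => ?_
  have h1 : 2 ^ i ≤ 2 ^ n := Nat.pow_le_pow_right (by norm_num) (Finset.mem_range.1 hi).le
  rw [List.take_append_of_le_length (h1.trans hu), List.take_append_of_le_length (h1.trans hv)]

private theorem Pair_step (Y : Sys S V) (hK : ∀ n, Y.a n ≤ K) (k : ℕ) (δ e : ℝ) (n t : ℕ) (h1 : 2 ^ n ≤ t)
    (h2 : t ≤ 2 * 2 ^ n) :
    (Y.E (2 * 2 ^ n) fun u => Y.E (2 * 2 ^ n) fun v => Y.sv (bar Y u ++ v) * ind (Pair_P Y k δ e n u v)) ≤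
      K ^ 2 * Y.E (3 * 2 ^ n) fun w => Y.sv w * ind (Pair_P Y k δ e n (bar Y (w.take t)) (w.drop t)) := by
  have hK0 : 0 ≤ K := (Y.a_nonneg 0).trans (hK 0)
  have hE : (Y.E (3 * 2 ^ n) fun w => Y.sv w * ind (Pair_P Y k δ e n (bar Y (w.take t)) (w.drop t))) =
      Y.E t fun u => Y.E (3 * 2 ^ n - t) fun v => Y.sv (bar Y u ++ v) * ind (Pair_P Y k δ e n u v) := by
    have h3 : 3 * 2 ^ n = t + (3 * 2 ^ n - t) := by omega
    conv_lhs => rw [h3, Y.E_add]
    rw [← Pair_E_bar Y t]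
    refine Y.E_congr fun u hu => ?_
    refine Y.E_congr fun v _ => ?_
    have h4 : (bar Y u).length = t := by rw [Pair_bar_length, hu]
    rw [List.take_append_of_le_length h4.ge, List.take_of_length_le h4.le,
      List.drop_append_of_le_length h4.ge, List.drop_of_length_le h4.le, List.nil_append, Pair_bar_bar]
  rw [hE]
  have h3 : 2 * 2 ^ n = t + (2 * 2 ^ n - t) := by omega
  have h4 : 2 * 2 ^ n = (3 * 2 ^ n - t) + (t - 2 ^ n) := by omega
  have h5 : (Y.E (2 * 2 ^ n) fun u => Y.E (2 * 2 ^ n) fun v => Y.sv (bar Y u ++ v) * ind (Pair_P Y k δ e n u v)) =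
      Y.E t fun u => Y.E (2 * 2 ^ n - t) fun u' => Y.E (3 * 2 ^ n - t) fun v => Y.E (t - 2 ^ n) fun v' =>
        Y.sv (bar Y (u ++ u') ++ (v ++ v')) * ind (Pair_P Y k δ e n (u ++ u') (v ++ v')) := by
    have h6 : (Y.E (2 * 2 ^ n) fun u => Y.E (2 * 2 ^ n) fun v => Y.sv (bar Y u ++ v) * ind (Pair_P Y k δ e n u v)) =
        Y.E (t + (2 * 2 ^ n - t)) fun u => Y.E ((3 * 2 ^ n - t) + (t - 2 ^ n)) fun v =>
          Y.sv (bar Y u ++ v) * ind (Pair_P Y k δ e n u v) := by
      rw [← h3, ← h4]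
    rw [h6, Y.E_add]
    refine Y.E_congr fun u _ => Y.E_congr fun u' _ => ?_
    rw [Y.E_add]
  rw [h5, ← Y.E_mul_left]
  refine Y.E_mono fun u hu => ?_
  have h7 : K ^ 2 * (Y.E (3 * 2 ^ n - t) fun v => Y.sv (bar Y u ++ v) * ind (Pair_P Y k δ e n u v)) =
      K * (Y.E (3 * 2 ^ n - t) fun v => (Y.sv (bar Y u ++ v) * ind (Pair_P Y k δ e n u v)) * K) := by
    rw [Y.E_mul_right]
    ring
  rw [h7]
  have h8 : (0 : ℝ) ≤ Y.E (3 * 2 ^ n - t) fun v => (Y.sv (bar Y u ++ v) * ind (Pair_P Y k δ e n u v)) * K :=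
    Y.E_nonneg' fun v => mul_nonneg (mul_nonneg (Y.sv_nonneg _) (ind_nonneg _)) hK0
  refine le_trans ?_ (mul_le_mul_of_nonneg_right (hK (2 * 2 ^ n - t)) h8)
  unfold Sys.a
  rw [← Y.E_mul_right]
  refine Y.E_mono fun u' _ => ?_
  rw [← Y.E_mul_left]
  refine Y.E_mono fun v hv => ?_
  have h9 : (0 : ℝ) ≤ Y.sv u' * (Y.sv (bar Y u ++ v) * ind (Pair_P Y k δ e n u v)) :=
    mul_nonneg (Y.sv_nonneg _) (mul_nonneg (Y.sv_nonneg _) (ind_nonneg _))
  have h10 : Y.sv u' * ((Y.sv (bar Y u ++ v) * ind (Pair_P Y k δ e n u v)) * K) =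
      (Y.sv u' * (Y.sv (bar Y u ++ v) * ind (Pair_P Y k δ e n u v))) * K := by ring
  rw [h10]
  refine le_trans ?_ (mul_le_mul_of_nonneg_left (hK (t - 2 ^ n)) h9)
  unfold Sys.a
  rw [← Y.E_mul_left]
  refine Y.E_mono fun v' _ => ?_
  have h11 : ind (Pair_P Y k δ e n (u ++ u') (v ++ v')) = ind (Pair_P Y k δ e n u v) := by
    apply ind_congr
    unfold Pair_P
    constructor
    · rintro ⟨γ, hγ, h⟩
      rw [Pair_um Y γ δ n u u' v v' (by omega) (by omega)] at h
      exact ⟨γ, hγ, h⟩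
    · rintro ⟨γ, hγ, h⟩
      rw [← Pair_um Y γ δ n u u' v v' (by omega) (by omega)] at h
      exact ⟨γ, hγ, h⟩
  have h12 : Y.sv (bar Y (u ++ u') ++ (v ++ v')) ≤ Y.sv u' * Y.sv (bar Y u ++ v) * Y.sv v' := by
    have e1 : bar Y (u ++ u') ++ (v ++ v') = (bar Y u' ++ (bar Y u ++ v)) ++ v' := by
      rw [Pair_bar_append]
      simp only [List.append_assoc]
    rw [e1]
    refine (Y.sv_append_le _ _).trans ?_
    refine mul_le_mul_of_nonneg_right ?_ (Y.sv_nonneg _)
    refine (Y.sv_append_le _ _).trans ?_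
    rw [Pair_sv_bar]
  rw [h11]
  calc Y.sv (bar Y (u ++ u') ++ (v ++ v')) * ind (Pair_P Y k δ e n u v)
      ≤ (Y.sv u' * Y.sv (bar Y u ++ v) * Y.sv v') * ind (Pair_P Y k δ e n u v) :=
        mul_le_mul_of_nonneg_right h12 (ind_nonneg _)
    _ = Y.sv u' * (Y.sv (bar Y u ++ v) * ind (Pair_P Y k δ e n u v)) * Y.sv v' := by ring

/-- the places of a word: second differences -/
private theorem Pair_word (Y : Sys S V) (k : ℕ) {δ e : ℝ} (hδ : 0 < δ) (he : 0 < e) :
    ∃ c : ℝ, 0 < c ∧ ∃ C : ℝ, 0 < C ∧ ∃ n0 : ℕ, ∀ n : ℕ, n0 ≤ n → ∀ w : List S, w.length = 3 * 2 ^ n →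
      ∀ γ : List S, γ.length = k →
      (∑ t ∈ range (2 ^ n), ind (e * n ≤
        (um Y γ δ n (bar Y (w.take (2 ^ n + t))) (w.drop (2 ^ n + t)) : ℝ))) ≤
        C * 2 ^ n * Real.exp (-c * n) := by
  classical
  have hk1 : (0 : ℝ) < k + 1 := by positivity
  obtain ⟨c, hc, C, hC, hdsd⟩ := Dsd.dsd (δ / (2 * (k + 1))) (e / 2) (by positivity) (by positivity)
  obtain ⟨i0, hi0⟩ := pow_unbounded_of_one_lt (4 * (k : ℝ) / δ) (one_lt_two (α := ℝ))
  obtain ⟨n0, hn0⟩ := exists_nat_ge (2 * (i0 : ℝ) / e)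
  refine ⟨c, hc, C, hC, n0, fun n hn w hw γ hγ => ?_⟩
  have hlen := Xg_le Y γ
  -- the function
  set f : ℤ → ℝ := fun i => Xg Y γ (w.take (i + 2 ^ n).toNat) / (k + 1) with hf
  have hlip : ∀ i, |f (i + 1) - f i| ≤ 1 := by
    intro i
    rw [hf]
    simp only
    rw [← sub_div, abs_div, abs_of_pos hk1, div_le_one hk1]
    rcases lt_or_ge (i + 2 ^ n) 0 with h0 | h0
    · have e1 : (i + 2 ^ n).toNat = 0 := Int.toNat_of_nonpos h0.le
      have e2 : (i + 1 + 2 ^ n).toNat = 0 := Int.toNat_of_nonpos (by omega)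
      rw [e1, e2, sub_self, abs_zero]
      exact hk1.le
    · have e2 : (i + 1 + 2 ^ n).toNat = (i + 2 ^ n).toNat + 1 := by omega
      rw [e2]
      set j := (i + 2 ^ n).toNat with hj
      have e3 : w.take (j + 1) = w.take j ++ (w.drop j).take 1 := by
        rw [List.take_add]
      rw [e3]
      have e4 := Xg_append Y γ (w.take j) ((w.drop j).take 1)
      have e5 := hlen ((w.drop j).take 1)
      have e6 : (((w.drop j).take 1).length : ℝ) ≤ 1 := by
        have : ((w.drop j).take 1).length ≤ 1 := List.length_take_le _ _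
        exact_mod_cast this
      rw [hγ] at e4
      have e7 : Xg Y γ (w.take j ++ (w.drop j).take 1) - Xg Y γ (w.take j) =
          (Xg Y γ (w.take j ++ (w.drop j).take 1) - Xg Y γ (w.take j) - Xg Y γ ((w.drop j).take 1)) +
            Xg Y γ ((w.drop j).take 1) := by ring
      rw [e7]
      refine (abs_add_le _ _).trans ?_
      linarith
  have hmain := hdsd n (2 ^ n) f le_rfl hlip
  have hsum : (∑ t ∈ range (2 ^ n), ind (e * n ≤
        (um Y γ δ n (bar Y (w.take (2 ^ n + t))) (w.drop (2 ^ n + t)) : ℝ))) =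
      (((range (2 ^ n)).filter fun t : ℕ => e * n ≤
        (um Y γ δ n (bar Y (w.take (2 ^ n + t))) (w.drop (2 ^ n + t)) : ℝ)).card : ℝ) := by
    rw [Finset.card_filter]
    push_cast
    refine Finset.sum_congr rfl fun t _ => ?_
    unfold ind
    rfl
  rw [hsum]
  have hcast : ((2 ^ n : ℕ) : ℝ) = 2 ^ n := by push_cast; rfl
  rw [hcast] at hmain
  refine le_trans ?_ hmain
  have hle : ((range (2 ^ n)).filter fun t : ℕ => e * n ≤
        (um Y γ δ n (bar Y (w.take (2 ^ n + t))) (w.drop (2 ^ n + t)) : ℝ)).card ≤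
      ((range (2 ^ n)).filter fun t : ℕ => e / 2 * n ≤ (((range n).filter fun k' =>
        δ / (2 * (k + 1)) * 2 ^ k' ≤ |f (t + 2 ^ k') - 2 * f t + f (t - 2 ^ k')|).card : ℝ)).card := by
    refine Finset.card_le_card ?_
    intro t ht
    rw [Finset.mem_filter] at ht ⊢
    obtain ⟨ht1, ht2⟩ := ht
    refine ⟨ht1, ?_⟩
    have ht3 := Finset.mem_range.1 ht1
    -- the unmatched octaves beyond i0 give large second differences
    have hsub : ((range n).filter fun i => δ * 2 ^ i < |Xg Y γ ((bar Y (w.take (2 ^ n + t))).take (2 ^ i)) +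
        Xg Y γ ((w.drop (2 ^ n + t)).take (2 ^ i))|) ⊆
        (range i0) ∪ ((range n).filter fun k' =>
          δ / (2 * (k + 1)) * 2 ^ k' ≤ |f (t + 2 ^ k') - 2 * f t + f (t - 2 ^ k')|) := by
      intro i hi
      rw [Finset.mem_filter] at hi
      obtain ⟨hi1, hi2⟩ := hi
      rw [Finset.mem_union]
      rcases lt_or_ge i i0 with hlt | hge
      · exact Or.inl (Finset.mem_range.2 hlt)
      · refine Or.inr (Finset.mem_filter.2 ⟨hi1, ?_⟩)
        have hin := Finset.mem_range.1 hi1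
        have hpow : 2 ^ i < 2 ^ n := Nat.pow_lt_pow_right (by norm_num) hin
        -- the windows
        have hbar : (bar Y (w.take (2 ^ n + t))).take (2 ^ i) =
            bar Y ((w.drop (2 ^ n + t - 2 ^ i)).take (2 ^ i)) := by
          have e1 : w.take (2 ^ n + t) = w.take (2 ^ n + t - 2 ^ i) ++ (w.drop (2 ^ n + t - 2 ^ i)).take (2 ^ i) := by
            rw [← List.take_add]
            congr 1
            omega
          rw [e1, Pair_bar_append]
          have e2 : (bar Y ((w.drop (2 ^ n + t - 2 ^ i)).take (2 ^ i))).length = 2 ^ i := by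
            rw [Pair_bar_length, List.length_take, List.length_drop, hw]
            omega
          rw [List.take_append_of_le_length e2.ge, List.take_of_length_le e2.le]
        rw [hbar, Xg_bar] at hi2
        have f1 : f (t : ℤ) = Xg Y γ (w.take (2 ^ n + t)) / (k + 1) := by
          rw [hf]
          simp only
          congr 3
          have : ((2 : ℤ) ^ n) = ((2 ^ n : ℕ) : ℤ) := by push_cast; rfl
          rw [this]
          omega
        have f2 : f ((t : ℤ) + 2 ^ i) = Xg Y γ (w.take (2 ^ n + t + 2 ^ i)) / (k + 1) := by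
          have h3 : ((t : ℤ) + 2 ^ i + 2 ^ n).toNat = 2 ^ n + t + 2 ^ i := by
            have h1 : ((2 : ℤ) ^ n) = ((2 ^ n : ℕ) : ℤ) := by push_cast; rfl
            have h2 : ((2 : ℤ) ^ i) = ((2 ^ i : ℕ) : ℤ) := by push_cast; rfl
            rw [h1, h2]
            generalize 2 ^ n = p at hpow
            generalize 2 ^ i = q at hpow
            omega
          rw [hf]
          simp only
          rw [h3]
        have f3 : f ((t : ℤ) - 2 ^ i) = Xg Y γ (w.take (2 ^ n + t - 2 ^ i)) / (k + 1) := by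
          have h3 : ((t : ℤ) - 2 ^ i + 2 ^ n).toNat = 2 ^ n + t - 2 ^ i := by
            have h1 : ((2 : ℤ) ^ n) = ((2 ^ n : ℕ) : ℤ) := by push_cast; rfl
            have h2 : ((2 : ℤ) ^ i) = ((2 ^ i : ℕ) : ℤ) := by push_cast; rfl
            rw [h1, h2]
            generalize 2 ^ n = p at hpow
            generalize 2 ^ i = q at hpow
            omega
          rw [hf]
          simp only
          rw [h3]
        rw [f1, f2, f3]
        have g1 := Xg_append Y γ (w.take (2 ^ n + t)) ((w.drop (2 ^ n + t)).take (2 ^ i))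
        rw [← List.take_add, hγ] at g1
        have g2 := Xg_append Y γ (w.take (2 ^ n + t - 2 ^ i)) ((w.drop (2 ^ n + t - 2 ^ i)).take (2 ^ i))
        rw [← List.take_add, hγ] at g2
        have e3 : 2 ^ n + t - 2 ^ i + 2 ^ i = 2 ^ n + t := by omega
        rw [e3] at g2
        set A := Xg Y γ (w.take (2 ^ n + t + 2 ^ i))
        set B := Xg Y γ (w.take (2 ^ n + t))
        set D := Xg Y γ (w.take (2 ^ n + t - 2 ^ i))
        set a1 := Xg Y γ ((w.drop (2 ^ n + t)).take (2 ^ i))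
        set a2 := Xg Y γ ((w.drop (2 ^ n + t - 2 ^ i)).take (2 ^ i))
        have hbig : (4 : ℝ) * k ≤ δ * 2 ^ i := by
          have h1 : (2 : ℝ) ^ i0 ≤ 2 ^ i := pow_le_pow_right₀ (by norm_num) hge
          have h2 : 4 * (k : ℝ) / δ ≤ 2 ^ i := hi0.le.trans h1
          rw [div_le_iff₀ hδ] at h2
          linarith
        have h5 : A / (k + 1) - 2 * (B / (k + 1)) + D / (k + 1) = (A - 2 * B + D) / (k + 1) := by ring
        rw [h5, abs_div, abs_of_pos hk1]
        have h6 : δ / (2 * (k + 1)) * 2 ^ i = (δ * 2 ^ i / 2) / (k + 1) := by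
          field_simp
        rw [h6]
        refine div_le_div_of_nonneg_right ?_ hk1.le
        have h7 : |(-a2) + a1| ≤ |A - 2 * B + D| + (k + k) := by
          have h8 : (-a2) + a1 = (A - 2 * B + D) - (A - B - a1) + (B - D - a2) := by ring
          rw [h8]
          refine (abs_add_le _ _).trans ?_
          have h9 := abs_sub (A - 2 * B + D) (A - B - a1)
          linarith
        linarith
    have hcard := Finset.card_le_card hsub
    have hcard2 := hcard.trans (Finset.card_union_le _ _)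
    rw [Finset.card_range] at hcard2
    have hum : (um Y γ δ n (bar Y (w.take (2 ^ n + t))) (w.drop (2 ^ n + t)) : ℝ) ≤
        (i0 : ℝ) + (((range n).filter fun k' =>
          δ / (2 * (k + 1)) * 2 ^ k' ≤ |f (t + 2 ^ k') - 2 * f t + f (t - 2 ^ k')|).card : ℝ) := by
      unfold um
      exact_mod_cast hcard2
    have hn1 : 2 * (i0 : ℝ) / e ≤ n := hn0.trans (by exact_mod_cast hn)
    rw [div_le_iff₀ he] at hn1
    linarith
  exact_mod_cast hle

theorem pair_le (Y : Sys S V) (hK : ∀ n, Y.a n ≤ K) (k : ℕ) {δ e : ℝ} (hδ : 0 < δ) (he : 0 < e) :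
    ∃ c : ℝ, 0 < c ∧ ∃ C : ℝ, 0 < C ∧ ∀ n : ℕ,
      (Y.E (2 * 2 ^ n) fun u => Y.E (2 * 2 ^ n) fun v => Y.sv (bar Y u ++ v) *
        ind (∃ γ : List S, γ.length = k ∧ e * n ≤ (um Y γ δ n u v : ℝ))) ≤ C * Real.exp (-c * n) := by
  classical
  have hK1 : 1 ≤ K := by
    have h1 := hK 0
    have h2 : Y.a 0 = 1 := by
      unfold Sys.a
      rw [Y.E_zero, Y.sv_nil]
    rwa [h2] at h1
  have hK0 : 0 < K := by linarith
  obtain ⟨c, hc, C, hC, n0, hw⟩ := Pair_word Y k hδ he
  refine ⟨c, hc, K ^ 3 * ((Fintype.card (Fin k → S) : ℝ) * C) + K * Real.exp (c * n0), by positivity, fun n => ?_⟩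
  have hexp : 0 < Real.exp (-c * n) := Real.exp_pos _
  rcases lt_or_ge n n0 with hlt | hge
  · -- trivial bound
    have h1 : (Y.E (2 * 2 ^ n) fun u => Y.E (2 * 2 ^ n) fun v => Y.sv (bar Y u ++ v) *
        ind (∃ γ : List S, γ.length = k ∧ e * n ≤ (um Y γ δ n u v : ℝ))) ≤ K := by
      refine le_trans ?_ (hK (2 * 2 ^ n + 2 * 2 ^ n))
      unfold Sys.a
      rw [Y.E_add, ← Pair_E_bar Y (2 * 2 ^ n) fun u => Y.E (2 * 2 ^ n) fun v => Y.sv (u ++ v)]
      refine Y.E_mono fun u _ => Y.E_mono fun v _ => ?_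
      calc Y.sv (bar Y u ++ v) * ind (∃ γ : List S, γ.length = k ∧ e * n ≤ (um Y γ δ n u v : ℝ))
          ≤ Y.sv (bar Y u ++ v) * 1 := mul_le_mul_of_nonneg_left (ind_le_one _) (Y.sv_nonneg _)
        _ = Y.sv (bar Y u ++ v) := mul_one _
    refine h1.trans ?_
    have h2 : (1 : ℝ) ≤ Real.exp (c * n0) * Real.exp (-c * n) := by
      rw [← Real.exp_add]
      apply Real.one_le_exp
      have h3 : (n : ℝ) ≤ n0 := by exact_mod_cast hlt.le
      nlinarith
    have h4 : (0 : ℝ) ≤ K ^ 3 * ((Fintype.card (Fin k → S) : ℝ) * C) * Real.exp (-c * n) := by positivity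
    nlinarith
  · -- the average over the places
    have hN : (0 : ℝ) < 2 ^ n := by positivity
    set LHS := (Y.E (2 * 2 ^ n) fun u => Y.E (2 * 2 ^ n) fun v => Y.sv (bar Y u ++ v) *
        ind (∃ γ : List S, γ.length = k ∧ e * n ≤ (um Y γ δ n u v : ℝ))) with hLHS
    have h1 : ∀ t ∈ range (2 ^ n), LHS ≤ K ^ 2 * Y.E (3 * 2 ^ n) fun w => Y.sv w *
        ind (Pair_P Y k δ e n (bar Y (w.take (2 ^ n + t))) (w.drop (2 ^ n + t))) := by
      intro t ht
      have ht' := Finset.mem_range.1 ht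
      exact Pair_step Y hK k δ e n (2 ^ n + t) (by omega) (by omega)
    have h2 := Finset.sum_le_sum h1
    rw [Finset.sum_const, Finset.card_range, nsmul_eq_mul, ← Finset.mul_sum, ← Y.E_fsum] at h2
    have h3 : (Y.E (3 * 2 ^ n) fun w => ∑ t ∈ range (2 ^ n), Y.sv w *
        ind (Pair_P Y k δ e n (bar Y (w.take (2 ^ n + t))) (w.drop (2 ^ n + t)))) ≤
        Y.E (3 * 2 ^ n) fun w => Y.sv w * ((Fintype.card (Fin k → S) : ℝ) * (C * 2 ^ n * Real.exp (-c * n))) := by
      refine Y.E_mono fun w hwl => ?_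
      rw [← Finset.mul_sum]
      refine mul_le_mul_of_nonneg_left ?_ (Y.sv_nonneg _)
      have h4 : ∀ t ∈ range (2 ^ n), ind (Pair_P Y k δ e n (bar Y (w.take (2 ^ n + t))) (w.drop (2 ^ n + t))) ≤
          ∑ g : Fin k → S, ind (e * n ≤
            (um Y (List.ofFn g) δ n (bar Y (w.take (2 ^ n + t))) (w.drop (2 ^ n + t)) : ℝ)) := by
        intro t _
        by_cases hP : Pair_P Y k δ e n (bar Y (w.take (2 ^ n + t))) (w.drop (2 ^ n + t))
        · obtain ⟨γ, hγ, hle⟩ := hP
          have hg : List.ofFn (fun i : Fin k => γ.get (i.cast hγ.symm)) = γ := by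
            subst hγ
            exact List.ofFn_get γ
          refine (ind_le_one _).trans ?_
          have h5 : (1 : ℝ) = ind (e * n ≤ (um Y (List.ofFn (fun i : Fin k => γ.get (i.cast hγ.symm))) δ n
              (bar Y (w.take (2 ^ n + t))) (w.drop (2 ^ n + t)) : ℝ)) := by
            rw [hg]
            exact (ind_of hle).symm
          rw [h5]
          exact Finset.single_le_sum (f := fun g : Fin k → S => ind (e * n ≤
            (um Y (List.ofFn g) δ n (bar Y (w.take (2 ^ n + t))) (w.drop (2 ^ n + t)) : ℝ)))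
            (fun g _ => ind_nonneg _) (Finset.mem_univ _)
        · rw [ind_not hP]
          exact Finset.sum_nonneg fun g _ => ind_nonneg _
      refine (Finset.sum_le_sum h4).trans ?_
      rw [Finset.sum_comm]
      calc ∑ g : Fin k → S, ∑ t ∈ range (2 ^ n), ind (e * n ≤
            (um Y (List.ofFn g) δ n (bar Y (w.take (2 ^ n + t))) (w.drop (2 ^ n + t)) : ℝ))
          ≤ ∑ _g : Fin k → S, C * 2 ^ n * Real.exp (-c * n) :=
            Finset.sum_le_sum fun g _ => hw n hge w hwl (List.ofFn g) (List.length_ofFn)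
        _ = (Fintype.card (Fin k → S) : ℝ) * (C * 2 ^ n * Real.exp (-c * n)) := by
            rw [Finset.sum_const, Finset.card_univ, nsmul_eq_mul]
    rw [Y.E_mul_right] at h3
    have h5 : (Y.E (3 * 2 ^ n) fun w => Y.sv w) ≤ K := hK (3 * 2 ^ n)
    have h6 : (0 : ℝ) ≤ (Fintype.card (Fin k → S) : ℝ) * (C * 2 ^ n * Real.exp (-c * n)) := by positivity
    have h7 := mul_le_mul_of_nonneg_right h5 h6
    have h8 : (2 : ℝ) ^ n * LHS ≤ K ^ 2 * (K * ((Fintype.card (Fin k → S) : ℝ) * (C * 2 ^ n * Real.exp (-c * n)))) := by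
      have h9 : ((2 ^ n : ℕ) : ℝ) = 2 ^ n := by push_cast; rfl
      rw [h9] at h2
      exact h2.trans (mul_le_mul_of_nonneg_left (h3.trans h7) (by positivity))
    have h9 : (2 : ℝ) ^ n * LHS ≤ 2 ^ n * (K ^ 3 * ((Fintype.card (Fin k → S) : ℝ) * C) * Real.exp (-c * n)) := by
      refine h8.trans (le_of_eq ?_)
      ring
    have h10 := le_of_mul_le_mul_left h9 hN
    refine h10.trans ?_
    have h11 : (0 : ℝ) ≤ K * Real.exp (c * n0) * Real.exp (-c * n) := by positivity
    nlinarith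

end Pool.Agent.Trp
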