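import Pool.Agent.Trp.Defs

/-!
# Product bound for blocks
-/

set_option autoImplicit false

namespace Pool.Agent.Trp

open Finset Filter Topology Pool.Agent.Bub4 Pool.Agent.SawM2 Pool.Agent.SawDiff Pool.Agent.Taw
open Pool.Agent.SawNice (pa fu)

variable {S V : Type} [Fintype S] [AddCommGroup V] {Λ K : ℝ} {ρ : List S → ℝ}

omit [Fintype S] in
private theorem Prod_bl_left {i m : ℕ} (h : 2 * 2 ^ i ≤ m) {u w : List S} (hu : u.length = m) :
    bl i (u ++ w) = bl i u := by
  unfold bl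
  rw [List.drop_append_of_le_length (by omega), List.take_append_of_le_length]
  rw [List.length_drop]
  omega

omit [Fintype S] in
private theorem Prod_bl_mid {i : ℕ} {u w r : List S} (hu : u.length = 2 ^ i)
    (hw : w.length = 2 ^ i) : bl i (u ++ (w ++ r)) = w := by
  unfold bl
  rw [← hu, List.drop_left, hu, ← hw, List.take_left]

theorem prod_le (Y : Sys S V) (hK : ∀ n, Y.a n ≤ K) {c : ℝ} (P : ℕ → List S → Prop) (A : Finset ℕ)
    (hP : ∀ i ∈ A, (Y.E (2 ^ i) fun w => Y.sv w * ind (P i w)) ≤ c) (n : ℕ)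
    (hA : ∀ i ∈ A, 2 * 2 ^ i ≤ n) :
    (Y.E n fun u => Y.sv u * ind (∀ i ∈ A, P i (bl i u))) ≤ K * (K * c) ^ A.card := by
  classical
  have hK0 : 0 ≤ K := (Y.a_nonneg 0).trans (hK 0)
  induction A using Finset.induction_on_max generalizing n with
  | empty =>
    have h1 : (Y.E n fun u => Y.sv u * ind (∀ i ∈ (∅ : Finset ℕ), P i (bl i u))) = Y.a n := by
      refine Y.E_congr fun u _ => ?_
      rw [ind_of (fun i hi => absurd hi (Finset.notMem_empty i)), mul_one]
    rw [h1]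
    simpa using hK n
  | insert a s hs ih =>
    have ha : a ∉ s := fun h => lt_irrefl _ (hs a h)
    have h2 : 2 * 2 ^ a ≤ n := hA a (Finset.mem_insert_self a s)
    obtain ⟨m, hm⟩ : ∃ m, n = 2 ^ a + (2 ^ a + m) := ⟨n - 2 * 2 ^ a, by omega⟩
    have h3 : (Y.E (2 ^ a) fun u => Y.sv u * ind (∀ i ∈ s, P i (bl i u))) ≤ K * (K * c) ^ s.card := by
      refine ih (fun i hi => hP i (Finset.mem_insert_of_mem hi)) _ fun i hi => ?_
      have h4 : 2 ^ (i + 1) ≤ 2 ^ a := Nat.pow_le_pow_right (by norm_num) (hs i hi)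
      rw [pow_succ] at h4
      omega
    have h5 : (Y.E (2 ^ a) fun w => Y.sv w * ind (P a w)) ≤ c := hP a (Finset.mem_insert_self a s)
    have h6 : 0 ≤ (Y.E (2 ^ a) fun w => Y.sv w * ind (P a w)) :=
      Y.E_nonneg' fun w => mul_nonneg (Y.sv_nonneg w) (ind_nonneg _)
    have h7 : 0 ≤ (Y.E (2 ^ a) fun u => Y.sv u * ind (∀ i ∈ s, P i (bl i u))) :=
      Y.E_nonneg' fun w => mul_nonneg (Y.sv_nonneg w) (ind_nonneg _)
    have h8 : (Y.E n fun u => Y.sv u * ind (∀ i ∈ insert a s, P i (bl i u))) ≤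
        (Y.E (2 ^ a) fun u => Y.sv u * ind (∀ i ∈ s, P i (bl i u))) *
          ((Y.E (2 ^ a) fun w => Y.sv w * ind (P a w)) * Y.a m) := by
      rw [hm, Y.E_add, ← Y.E_mul_right]
      refine Y.E_mono fun u hu => ?_
      rw [Y.E_add, ← Y.E_mul_right, ← Y.E_mul_left]
      refine Y.E_mono fun w hw => ?_
      unfold Sys.a
      rw [← Y.E_mul_left, ← Y.E_mul_left]
      refine Y.E_mono fun r _ => ?_
      have h9 : Y.sv (u ++ (w ++ r)) ≤ Y.sv u * (Y.sv w * Y.sv r) :=
        (Y.sv_append_le u (w ++ r)).trans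
          (mul_le_mul_of_nonneg_left (Y.sv_append_le w r) (Y.sv_nonneg u))
      have h10 : ind (∀ i ∈ insert a s, P i (bl i (u ++ (w ++ r)))) ≤
          ind (∀ i ∈ s, P i (bl i u)) * ind (P a w) := by
        rw [← ind_and]
        refine ind_mono fun h => ⟨fun i hi => ?_, ?_⟩
        · have h11 := h i (Finset.mem_insert_of_mem hi)
          have h12 : 2 ^ (i + 1) ≤ 2 ^ a := Nat.pow_le_pow_right (by norm_num) (hs i hi)
          rw [pow_succ] at h12
          rwa [Prod_bl_left (m := 2 ^ a) (by omega) hu] at h11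
        · have h11 := h a (Finset.mem_insert_self a s)
          rwa [Prod_bl_mid hu hw] at h11
      calc Y.sv (u ++ (w ++ r)) * ind (∀ i ∈ insert a s, P i (bl i (u ++ (w ++ r))))
          ≤ (Y.sv u * (Y.sv w * Y.sv r)) * (ind (∀ i ∈ s, P i (bl i u)) * ind (P a w)) :=
            mul_le_mul h9 h10 (ind_nonneg _)
              (mul_nonneg (Y.sv_nonneg _) (mul_nonneg (Y.sv_nonneg _) (Y.sv_nonneg _)))
        _ = _ := by ring
    have hc : 0 ≤ c := h6.trans h5
    refine h8.trans ?_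
    rw [Finset.card_insert_of_notMem ha]
    calc (Y.E (2 ^ a) fun u => Y.sv u * ind (∀ i ∈ s, P i (bl i u))) *
          ((Y.E (2 ^ a) fun w => Y.sv w * ind (P a w)) * Y.a m)
        ≤ (K * (K * c) ^ s.card) * (c * K) :=
          mul_le_mul h3 (mul_le_mul h5 (hK m) (Y.a_nonneg m) hc)
            (mul_nonneg h6 (Y.a_nonneg m)) (mul_nonneg hK0 (pow_nonneg (mul_nonneg hK0 hc) _))
      _ = K * (K * c) ^ (s.card + 1) := by ring

end Pool.Agent.Trp
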