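import Pool.Agent.Trp.Defs
import Pool.Agent.Trp.Pair
import Pool.Agent.Trp.Prod

/-!
# Upper bound for the mass of tripods
-/

set_option autoImplicit false

namespace Pool.Agent.Trp

open Finset Filter Topology Pool.Agent.Bub4 Pool.Agent.SawM2 Pool.Agent.SawDiff Pool.Agent.Taw
open Pool.Agent.SawNice (pa fu)

variable {S V : Type} [Fintype S] [AddCommGroup V] {Λ K : ℝ} {ρ : List S → ℝ}

private theorem Upper_bar (Y : Sys S V) (u : List S) : Y.sv (bar Y u) = Y.sv u := by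
  unfold bar
  rw [Y.sv_reverse, Y.sv_neg]

private theorem Upper_tp1 (Y : Sys S V) (u v w : List S) :
    tp Y u v w ≤ Y.sv (bar Y u ++ v) * Y.sv w := by
  unfold tp
  have h1 : Y.sv (bar Y u ++ w) ≤ 1 := Y.sv_le_one _
  have h2 : Y.sv (bar Y v ++ w) ≤ Y.sv w := Y.sv_append_right _ _
  have h3 := Y.sv_nonneg (bar Y u ++ v)
  have h4 := Y.sv_nonneg (bar Y u ++ w)
  have h5 := Y.sv_nonneg (bar Y v ++ w)
  calc Y.sv (bar Y u ++ v) * Y.sv (bar Y u ++ w) * Y.sv (bar Y v ++ w)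
      ≤ Y.sv (bar Y u ++ v) * 1 * Y.sv w := by gcongr
    _ = _ := by ring

private theorem Upper_tp2 (Y : Sys S V) (u v w : List S) :
    tp Y u v w ≤ Y.sv (bar Y u ++ w) * Y.sv v := by
  unfold tp
  have h1 : Y.sv (bar Y u ++ v) ≤ Y.sv v := Y.sv_append_right _ _
  have h2 : Y.sv (bar Y v ++ w) ≤ 1 := Y.sv_le_one _
  have h3 := Y.sv_nonneg (bar Y u ++ v)
  have h4 := Y.sv_nonneg (bar Y u ++ w)
  have h5 := Y.sv_nonneg (bar Y v ++ w)
  have h6 := Y.sv_nonneg v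
  calc Y.sv (bar Y u ++ v) * Y.sv (bar Y u ++ w) * Y.sv (bar Y v ++ w)
      ≤ Y.sv v * Y.sv (bar Y u ++ w) * 1 := by gcongr
    _ = _ := by ring

private theorem Upper_tp3 (Y : Sys S V) (u v w : List S) :
    tp Y u v w ≤ Y.sv (bar Y v ++ w) * Y.sv u := by
  unfold tp
  have h1 : Y.sv (bar Y u ++ v) ≤ Y.sv u := by
    have := Y.sv_append_left (bar Y u) v
    rwa [Upper_bar] at this
  have h2 : Y.sv (bar Y u ++ w) ≤ 1 := Y.sv_le_one _
  have h3 := Y.sv_nonneg (bar Y u ++ v)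
  have h4 := Y.sv_nonneg (bar Y u ++ w)
  have h5 := Y.sv_nonneg (bar Y v ++ w)
  have h6 := Y.sv_nonneg u
  calc Y.sv (bar Y u ++ v) * Y.sv (bar Y u ++ w) * Y.sv (bar Y v ++ w)
      ≤ Y.sv u * 1 * Y.sv (bar Y v ++ w) := by gcongr
    _ = _ := by ring

private theorem Upper_tp4 (Y : Sys S V) (u v w : List S) :
    tp Y u v w ≤ Y.sv u * Y.sv v * Y.sv w := by
  have h1 := Upper_tp1 Y u v w
  have h2 := Y.sv_append_le (bar Y u) v
  rw [Upper_bar] at h2
  exact h1.trans (mul_le_mul_of_nonneg_right h2 (Y.sv_nonneg w))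

private theorem Upper_tp0 (Y : Sys S V) (u v w : List S) : 0 ≤ tp Y u v w :=
  mul_nonneg (mul_nonneg (Y.sv_nonneg _) (Y.sv_nonneg _)) (Y.sv_nonneg _)

/-- the three estimates for one pattern give `|Xg| ≤ 3/2 δ 2 ^ i` -/
private theorem Upper_tri {a b c d : ℝ} (h1 : |a + b| ≤ d) (h2 : |a + c| ≤ d) (h3 : |b + c| ≤ d) :
    |a| ≤ 3 / 2 * d := by
  rw [abs_le] at *
  constructor <;> linarith [h1.1, h1.2, h2.1, h2.2, h3.1, h3.2]

open Classical in
/-- the octaves at which `u`, `v` are not matched for some pattern -/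
private noncomputable def Upper_B (Y : Sys S V) (k : ℕ) (δ : ℝ) (n : ℕ) (u v : List S) : Finset ℕ :=
  (Finset.univ : Finset (Fin k → S)).biUnion fun f => (range n).filter fun i =>
    δ * 2 ^ i < |Xg Y (List.ofFn f) (u.take (2 ^ i)) + Xg Y (List.ofFn f) (v.take (2 ^ i))|

private theorem Upper_B_card (Y : Sys S V) (k : ℕ) (δ : ℝ) (n : ℕ) (u v : List S) {x : ℝ}
    (h : ∀ γ : List S, γ.length = k → (um Y γ δ n u v : ℝ) ≤ x) :
    ((Upper_B Y k δ n u v).card : ℝ) ≤ (Fintype.card (Fin k → S) : ℝ) * x := by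
  classical
  have h1 : ((Upper_B Y k δ n u v).card : ℝ) ≤
      ((∑ f : Fin k → S, um Y (List.ofFn f) δ n u v : ℕ) : ℝ) := by
    exact_mod_cast Finset.card_biUnion_le
  refine h1.trans ?_
  push_cast
  calc (∑ f : Fin k → S, (um Y (List.ofFn f) δ n u v : ℝ)) ≤ ∑ _f : Fin k → S, x :=
        Finset.sum_le_sum fun f _ => h _ (List.length_ofFn)
    _ = _ := by rw [Finset.sum_const, Finset.card_univ, nsmul_eq_mul]

private theorem Upper_B_not (Y : Sys S V) {k : ℕ} {δ : ℝ} {n : ℕ} {u v : List S} {i : ℕ}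
    (hi : i < n) (h : i ∉ Upper_B Y k δ n u v) (γ : List S) (hγ : γ.length = k) :
    |Xg Y γ (u.take (2 ^ i)) + Xg Y γ (v.take (2 ^ i))| ≤ δ * 2 ^ i := by
  classical
  by_contra hcon
  push Not at hcon
  refine h ?_
  subst hγ
  refine Finset.mem_biUnion.2 ⟨γ.get, Finset.mem_univ _, Finset.mem_filter.2
    ⟨Finset.mem_range.2 hi, ?_⟩⟩
  rw [List.ofFn_get]
  exact hcon

/-- if the octaves `i`, `i + 1` are matched the block is neutral -/
private theorem Upper_neutral (Y : Sys S V) {k : ℕ} {δ : ℝ} {n : ℕ} {u v w : List S} {i : ℕ}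
    (hi : i + 1 < n) (hk : (k : ℝ) ≤ δ / 2 * 2 ^ i) (hu : 2 * 2 ^ n ≤ u.length)
    (h : ∀ j, j = i ∨ j = i + 1 → j ∉ Upper_B Y k (δ / 9) n u v ∧
      j ∉ Upper_B Y k (δ / 9) n u w ∧ j ∉ Upper_B Y k (δ / 9) n v w) :
    Nt Y k δ (bl i u) := by
  intro γ hγ
  have key : ∀ j, j = i ∨ j = i + 1 → |Xg Y γ (u.take (2 ^ j))| ≤ 3 / 2 * (δ / 9 * 2 ^ j) := by
    intro j hj
    have hjn : j < n := by omega
    obtain ⟨h1, h2, h3⟩ := h j hj
    exact Upper_tri (Upper_B_not Y hjn h1 γ hγ) (Upper_B_not Y hjn h2 γ hγ)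
      (Upper_B_not Y hjn h3 γ hγ)
  have h1 := key i (Or.inl rfl)
  have h2 := key (i + 1) (Or.inr rfl)
  have h3 := Xg_append Y γ (u.take (2 ^ i)) (bl i u)
  have h4 : u.take (2 ^ i) ++ bl i u = u.take (2 ^ (i + 1)) := by
    unfold bl
    rw [pow_succ, mul_two, List.take_add]
  rw [h4, hγ] at h3
  have h5 : (bl i u).length = 2 ^ i := by
    unfold bl
    rw [List.length_take, List.length_drop]
    have h6 : 2 ^ i ≤ 2 ^ n := Nat.pow_le_pow_right (by norm_num) (by omega)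
    omega
  rw [h5]
  push_cast
  have hp : (2 : ℝ) ^ (i + 1) = 2 ^ i * 2 := pow_succ _ _
  rw [hp] at h2
  rw [abs_le] at *
  constructor <;> linarith [h1.1, h1.2, h2.1, h2.2, h3.1, h3.2]

private theorem Upper_count (Y : Sys S V) {k : ℕ} {δ e : ℝ} {n i₀ : ℕ} {u v w : List S}
    (G : Finset ℕ) (hG : G ⊆ range n) (hk : ∀ i, i₀ ≤ i → (k : ℝ) ≤ δ / 2 * 2 ^ i)
    (hu : 2 * 2 ^ n ≤ u.length)
    (h1 : ∀ γ : List S, γ.length = k → (um Y γ (δ / 9) n u v : ℝ) ≤ e * n)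
    (h2 : ∀ γ : List S, γ.length = k → (um Y γ (δ / 9) n u w : ℝ) ≤ e * n)
    (h3 : ∀ γ : List S, γ.length = k → (um Y γ (δ / 9) n v w : ℝ) ≤ e * n) :
    ∃ A ∈ G.powerset, (G.card : ℝ) - (i₀ + 1 + 6 * ((Fintype.card (Fin k → S) : ℝ) * (e * n))) ≤ A.card ∧
      ∀ i ∈ A, Nt Y k δ (bl i u) := by
  classical
  obtain ⟨B, hB⟩ : ∃ B, B = (Upper_B Y k (δ / 9) n u v ∪ Upper_B Y k (δ / 9) n u w) ∪
    Upper_B Y k (δ / 9) n v w := ⟨_, rfl⟩
  have hBc : (B.card : ℝ) ≤ 3 * ((Fintype.card (Fin k → S) : ℝ) * (e * n)) := by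
    have c1 := Upper_B_card Y k (δ / 9) n u v h1
    have c2 := Upper_B_card Y k (δ / 9) n u w h2
    have c3 := Upper_B_card Y k (δ / 9) n v w h3
    have c4 : B.card ≤ (Upper_B Y k (δ / 9) n u v).card + (Upper_B Y k (δ / 9) n u w).card +
        (Upper_B Y k (δ / 9) n v w).card := by
      rw [hB]
      exact (Finset.card_union_le _ _).trans (Nat.add_le_add_right (Finset.card_union_le _ _) _)
    have c5 : (B.card : ℝ) ≤ (Upper_B Y k (δ / 9) n u v).card + (Upper_B Y k (δ / 9) n u w).card +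
        (Upper_B Y k (δ / 9) n v w).card := by exact_mod_cast c4
    linarith
  refine ⟨G.filter fun i => Nt Y k δ (bl i u), Finset.mem_powerset.2 (Finset.filter_subset _ _), ?_,
    fun i hi => (Finset.mem_filter.1 hi).2⟩
  have hsub : G ⊆ (G.filter fun i => Nt Y k δ (bl i u)) ∪
      ((range (i₀ + 1)).image (fun i => if i = i₀ then n - 1 else i) ∪ (B ∪ B.image fun j => j - 1)) := by
    intro i hi
    have hin : i < n := Finset.mem_range.1 (hG hi)
    by_cases ha : Nt Y k δ (bl i u)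
    · exact Finset.mem_union_left _ (Finset.mem_filter.2 ⟨hi, ha⟩)
    refine Finset.mem_union_right _ ?_
    by_cases hi0 : i < i₀
    · refine Finset.mem_union_left _ (Finset.mem_image.2 ⟨i, Finset.mem_range.2 (by omega), ?_⟩)
      rw [if_neg (by omega)]
    by_cases hi1 : i + 1 < n
    · refine Finset.mem_union_right _ ?_
      by_contra hcon
      refine ha (Upper_neutral Y (v := v) (w := w) hi1 (hk i (by omega)) hu fun j hj => ?_)
      have hjB : j ∉ B := by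
        intro hjB
        refine hcon ?_
        rcases hj with rfl | rfl
        · exact Finset.mem_union_left _ hjB
        · exact Finset.mem_union_right _ (Finset.mem_image.2 ⟨i + 1, hjB, by omega⟩)
      rw [hB, Finset.mem_union, Finset.mem_union] at hjB
      push Not at hjB
      exact ⟨hjB.1.1, hjB.1.2, hjB.2⟩
    · refine Finset.mem_union_left _ (Finset.mem_image.2 ⟨i₀, Finset.mem_range.2 (by omega), ?_⟩)
      rw [if_pos rfl]
      omega
  have hc1 := Finset.card_le_card hsub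
  have hc2 : G.card ≤ (G.filter fun i => Nt Y k δ (bl i u)).card + ((i₀ + 1) + (B.card + B.card)) := by
    refine hc1.trans ((Finset.card_union_le _ _).trans (Nat.add_le_add_left ?_ _))
    refine (Finset.card_union_le _ _).trans (Nat.add_le_add ?_ ?_)
    · refine Finset.card_image_le.trans ?_
      rw [Finset.card_range]
    · exact (Finset.card_union_le _ _).trans (Nat.add_le_add_left Finset.card_image_le _)
  have hc3 : (G.card : ℝ) ≤ (G.filter fun i => Nt Y k δ (bl i u)).card + ((i₀ + 1) + (B.card + B.card)) := by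
    exact_mod_cast hc2
  linarith

/-- pointwise estimate -/
private theorem Upper_pt (Y : Sys S V) {k : ℕ} {δ e θ L D : ℝ} {n i₀ N : ℕ} (hN : N = 2 * 2 ^ n)
    (G : Finset ℕ) (hG : G ⊆ range n) (hk : ∀ i, i₀ ≤ i → (k : ℝ) ≤ δ / 2 * 2 ^ i)
    (hL : L = (Fintype.card (Fin k → S) : ℝ)) (heL : 6 * (L * e) ≤ θ / 10)
    (hD : D = i₀ + 1 + θ / 10 * n) (bad : List S → List S → Prop)
    (hbad : bad = fun u v => ∃ γ : List S, γ.length = k ∧ e * n ≤ (um Y γ (δ / 9) n u v : ℝ))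
    (PS : Finset (Finset ℕ)) (hPS : ∀ A, A ∈ G.powerset → (G.card : ℝ) - D ≤ A.card → A ∈ PS)
    (u v w : List S) (hu : u.length = N) : tp Y u v w ≤
      Y.sv (bar Y u ++ v) * ind (bad u v) * Y.sv w + Y.sv (bar Y u ++ w) * ind (bad u w) * Y.sv v +
        Y.sv (bar Y v ++ w) * ind (bad v w) * Y.sv u +
        (∑ A ∈ PS, Y.sv u * ind (∀ i ∈ A, Nt Y k δ (bl i u))) * Y.sv v * Y.sv w := by
  have t1 : 0 ≤ Y.sv (bar Y u ++ v) * ind (bad u v) * Y.sv w :=
    mul_nonneg (mul_nonneg (Y.sv_nonneg _) (ind_nonneg _)) (Y.sv_nonneg _)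
  have t2 : 0 ≤ Y.sv (bar Y u ++ w) * ind (bad u w) * Y.sv v :=
    mul_nonneg (mul_nonneg (Y.sv_nonneg _) (ind_nonneg _)) (Y.sv_nonneg _)
  have t3 : 0 ≤ Y.sv (bar Y v ++ w) * ind (bad v w) * Y.sv u :=
    mul_nonneg (mul_nonneg (Y.sv_nonneg _) (ind_nonneg _)) (Y.sv_nonneg _)
  have t4' : ∀ A ∈ PS, 0 ≤ Y.sv u * ind (∀ i ∈ A, Nt Y k δ (bl i u)) := fun A _ =>
    mul_nonneg (Y.sv_nonneg _) (ind_nonneg _)
  have t4 : 0 ≤ (∑ A ∈ PS, Y.sv u * ind (∀ i ∈ A, Nt Y k δ (bl i u))) * Y.sv v * Y.sv w :=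
    mul_nonneg (mul_nonneg (Finset.sum_nonneg t4') (Y.sv_nonneg _)) (Y.sv_nonneg _)
  by_cases b1 : bad u v
  · have := Upper_tp1 Y u v w
    rw [ind_of b1, mul_one] at t1 ⊢
    linarith
  by_cases b2 : bad u w
  · have := Upper_tp2 Y u v w
    rw [ind_of b2, mul_one] at t2 ⊢
    linarith
  by_cases b3 : bad v w
  · have := Upper_tp3 Y u v w
    rw [ind_of b3, mul_one] at t3 ⊢
    linarith
  have hcnt : ∃ A ∈ G.powerset,
      (G.card : ℝ) - (i₀ + 1 + 6 * ((Fintype.card (Fin k → S) : ℝ) * (e * n))) ≤ A.card ∧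
      ∀ i ∈ A, Nt Y k δ (bl i u) := by
    refine Upper_count Y (v := v) (w := w) G ?_ hk (by rw [hu, hN]) ?_ ?_ ?_
    · exact hG
    · intro γ hγ
      by_contra hcon
      exact b1 (by rw [hbad]; exact ⟨γ, hγ, (not_le.1 hcon).le⟩)
    · intro γ hγ
      by_contra hcon
      exact b2 (by rw [hbad]; exact ⟨γ, hγ, (not_le.1 hcon).le⟩)
    · intro γ hγ
      by_contra hcon
      exact b3 (by rw [hbad]; exact ⟨γ, hγ, (not_le.1 hcon).le⟩)
  obtain ⟨A, hA, hAc, hAn⟩ := hcnt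
  have hAP : A ∈ PS := by
    refine hPS A hA ?_
    rw [← hL] at hAc
    have h7 : 6 * (L * (e * n)) ≤ θ / 10 * n := by
      have := mul_le_mul_of_nonneg_right heL (Nat.cast_nonneg (α := ℝ) n)
      linarith
    rw [hD]
    linarith
  have h8 : Y.sv u ≤ ∑ A ∈ PS, Y.sv u * ind (∀ i ∈ A, Nt Y k δ (bl i u)) := by
    have h9 := Finset.single_le_sum (f := fun A => Y.sv u * ind (∀ i ∈ A, Nt Y k δ (bl i u))) t4' hAP
    have h10 : Y.sv u * ind (∀ i ∈ A, Nt Y k δ (bl i u)) = Y.sv u := by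
      rw [ind_of hAn, mul_one]
    calc Y.sv u = Y.sv u * ind (∀ i ∈ A, Nt Y k δ (bl i u)) := h10.symm
      _ ≤ _ := h9
  have h11 := Upper_tp4 Y u v w
  have h12 : Y.sv u * Y.sv v * Y.sv w ≤
      (∑ A ∈ PS, Y.sv u * ind (∀ i ∈ A, Nt Y k δ (bl i u))) * Y.sv v * Y.sv w :=
    mul_le_mul_of_nonneg_right (mul_le_mul_of_nonneg_right h8 (Y.sv_nonneg _)) (Y.sv_nonneg _)
  linarith

/-- the three expectations of the unmatched pairs -/
private theorem Upper_exp (Y : Sys S V) (hK : ∀ n, Y.a n ≤ K) (N : ℕ) (bad : List S → List S → Prop)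
    {b : ℝ} (hb : 0 ≤ b)
    (hp : (Y.E N fun u => Y.E N fun v => Y.sv (bar Y u ++ v) * ind (bad u v)) ≤ b) :
    (Y.E N fun u => Y.E N fun v => Y.E N fun w =>
      Y.sv (bar Y u ++ v) * ind (bad u v) * Y.sv w) ≤ K * b ∧
    (Y.E N fun u => Y.E N fun v => Y.E N fun w =>
      Y.sv (bar Y u ++ w) * ind (bad u w) * Y.sv v) ≤ K * b ∧
    (Y.E N fun u => Y.E N fun v => Y.E N fun w =>
      Y.sv (bar Y v ++ w) * ind (bad v w) * Y.sv u) ≤ K * b := by
  have ha0 : 0 ≤ Y.a N := Y.a_nonneg N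
  have haK : Y.a N ≤ K := hK N
  have e1 : (Y.E N fun u => Y.E N fun v => Y.E N fun w =>
      Y.sv (bar Y u ++ v) * ind (bad u v) * Y.sv w) ≤ K * b := by
    have : (Y.E N fun u => Y.E N fun v => Y.E N fun w =>
        Y.sv (bar Y u ++ v) * ind (bad u v) * Y.sv w) =
        (Y.E N fun u => Y.E N fun v => Y.sv (bar Y u ++ v) * ind (bad u v)) * Y.a N := by
      simp only [Y.E_mul_left, Y.E_mul_right]
      rfl
    rw [this]
    calc _ ≤ b * K := mul_le_mul hp haK ha0 hb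
      _ = _ := by ring
  have e2 : (Y.E N fun u => Y.E N fun v => Y.E N fun w =>
      Y.sv (bar Y u ++ w) * ind (bad u w) * Y.sv v) ≤ K * b := by
    have : (Y.E N fun u => Y.E N fun v => Y.E N fun w =>
        Y.sv (bar Y u ++ w) * ind (bad u w) * Y.sv v) =
        (Y.E N fun u => Y.E N fun w => Y.sv (bar Y u ++ w) * ind (bad u w)) * Y.a N := by
      rw [← Y.E_mul_right]
      refine Y.E_congr fun u _ => ?_
      rw [Y.E_comm, ← Y.E_mul_right]
      refine Y.E_congr fun w _ => ?_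
      rw [Y.E_mul_left]
      rfl
    rw [this]
    calc _ ≤ b * K := mul_le_mul hp haK ha0 hb
      _ = _ := by ring
  have e3 : (Y.E N fun u => Y.E N fun v => Y.E N fun w =>
      Y.sv (bar Y v ++ w) * ind (bad v w) * Y.sv u) ≤ K * b := by
    have : (Y.E N fun u => Y.E N fun v => Y.E N fun w =>
        Y.sv (bar Y v ++ w) * ind (bad v w) * Y.sv u) =
        (Y.E N fun v => Y.E N fun w => Y.sv (bar Y v ++ w) * ind (bad v w)) * Y.a N := by
      simp only [Y.E_mul_left, Y.E_mul_right]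
      rfl
    rw [this]
    calc _ ≤ b * K := mul_le_mul hp haK ha0 hb
      _ = _ := by ring
  exact ⟨e1, e2, e3⟩

private theorem Upper_num {K θ g D n i : ℝ} (hK : 0 ≤ K) (hg : θ * n ≤ g)
    (hD : D = i + 1 + θ / 10 * n) : Real.exp (g * Real.log 2) * (K * Real.exp (-(g - D) * Real.log 4)) ≤
      K * (Real.exp (2 * (i + 1) * Real.log 2) * Real.exp (-(4 / 5 * θ * Real.log 2) * n)) := by
  have hlog : 0 < Real.log 2 := Real.log_pos (by norm_num)
  have hlog4 : Real.log 4 = 2 * Real.log 2 := by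
    rw [show (4 : ℝ) = 2 ^ 2 by norm_num, Real.log_pow]
    norm_num
  rw [hlog4, ← Real.exp_add, mul_left_comm, ← Real.exp_add]
  refine mul_le_mul_of_nonneg_left (Real.exp_le_exp.2 ?_) hK
  rw [hD]
  have h1 := mul_le_mul_of_nonneg_right hg hlog.le
  have h2 : g * Real.log 2 + -(g - (i + 1 + θ / 10 * n)) * (2 * Real.log 2) =
    2 * (i + 1) * Real.log 2 + -(g * Real.log 2) + θ / 5 * n * Real.log 2 := by ring
  have h3 : 2 * (i + 1) * Real.log 2 + -(4 / 5 * θ * Real.log 2) * n =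
    2 * (i + 1) * Real.log 2 + -(θ * n * Real.log 2) + θ / 5 * n * Real.log 2 := by ring
  rw [h2, h3]
  linarith

theorem Tp_upper (Y : Sys S V) (h1 : ∀ n, 1 ≤ Y.a n) (hK : ∀ n, Y.a n ≤ K) (k : ℕ) {δ θ : ℝ}
    (hδ : 0 < δ) (hθ : 0 < θ) :
    ∃ c : ℝ, 0 < c ∧ ∃ C : ℝ, 0 < C ∧ ∀ n : ℕ,
      θ * n ≤ ((open Classical in (range n).filter fun i =>
        nm Y k δ (2 ^ i) < 1 / (4 * K)).card : ℝ) →
      Tp Y (2 * 2 ^ n) (2 * 2 ^ n) (2 * 2 ^ n) ≤ C * Real.exp (-c * n) := by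
  classical
  have hK1 : 1 ≤ K := (h1 0).trans (hK 0)
  have hK0 : 0 < K := by linarith
  obtain ⟨L, hL⟩ : ∃ L : ℝ, L = (Fintype.card (Fin k → S) : ℝ) := ⟨_, rfl⟩
  have hL0 : 0 ≤ L := by rw [hL]; exact Nat.cast_nonneg _
  obtain ⟨e, he⟩ : ∃ e : ℝ, e = θ / (60 * (L + 1)) := ⟨_, rfl⟩
  have he0 : 0 < e := by rw [he]; positivity
  have heL : 6 * (L * e) ≤ θ / 10 := by
    rw [he]
    have : 6 * (L * (θ / (60 * (L + 1)))) = θ / 10 * (L / (L + 1)) := by
      field_simp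
      ring
    rw [this]
    have h3 : L / (L + 1) ≤ 1 := by
      rw [div_le_one (by linarith)]
      linarith
    have h4 : 0 ≤ θ / 10 := by positivity
    nlinarith
  obtain ⟨i₀, hi₀⟩ : ∃ i₀ : ℕ, (k : ℝ) / (δ / 2) < 2 ^ i₀ :=
    pow_unbounded_of_one_lt _ (by norm_num)
  have hk : ∀ i, i₀ ≤ i → (k : ℝ) ≤ δ / 2 * 2 ^ i := by
    intro i hi
    rw [div_lt_iff₀ (by positivity)] at hi₀
    have h5 : (2 : ℝ) ^ i₀ ≤ 2 ^ i := pow_le_pow_right₀ (by norm_num) hi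
    have h6 : 0 < δ / 2 := by positivity
    nlinarith
  obtain ⟨c₁, hc₁, C₁, hC₁, hpair⟩ := pair_le Y hK k (δ := δ / 9) (e := e) (by positivity) he0
  obtain ⟨c₂, hc₂⟩ : ∃ c₂ : ℝ, c₂ = 4 / 5 * θ * Real.log 2 := ⟨_, rfl⟩
  have hlog : 0 < Real.log 2 := Real.log_pos (by norm_num)
  have hc₂0 : 0 < c₂ := by rw [hc₂]; positivity
  obtain ⟨C₂, hC₂⟩ : ∃ C₂ : ℝ, C₂ = K ^ 3 * Real.exp (2 * (i₀ + 1) * Real.log 2) := ⟨_, rfl⟩
  have hC₂0 : 0 < C₂ := by rw [hC₂]; positivity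
  refine ⟨min c₁ c₂, lt_min hc₁ hc₂0, 3 * (K * C₁) + C₂, by positivity, fun n hn => ?_⟩
  obtain ⟨G, hG⟩ : ∃ G : Finset ℕ, G = (range n).filter fun i => nm Y k δ (2 ^ i) < 1 / (4 * K) :=
    ⟨_, rfl⟩
  have hn' : θ * n ≤ (G.card : ℝ) := by rw [hG]; exact hn
  obtain ⟨N, hN⟩ : ∃ N, N = 2 * 2 ^ n := ⟨_, rfl⟩
  rw [← hN]
  obtain ⟨bad, hbad⟩ : ∃ bad : List S → List S → Prop, bad = fun u v =>
    ∃ γ : List S, γ.length = k ∧ e * n ≤ (um Y γ (δ / 9) n u v : ℝ) := ⟨_, rfl⟩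
  have hp : (Y.E N fun u => Y.E N fun v => Y.sv (bar Y u ++ v) * ind (bad u v)) ≤
      C₁ * Real.exp (-c₁ * n) := by
    rw [hN, hbad]
    exact hpair n
  obtain ⟨D, hD⟩ : ∃ D : ℝ, D = i₀ + 1 + θ / 10 * n := ⟨_, rfl⟩
  obtain ⟨PS, hPS⟩ : ∃ PS : Finset (Finset ℕ), PS = G.powerset.filter fun A =>
    (G.card : ℝ) - D ≤ A.card := ⟨_, rfl⟩
  have hpt := Upper_pt Y hN G (by rw [hG]; exact Finset.filter_subset _ _) hk hL heL hD bad hbad PS
    (fun A hA hAc => by rw [hPS]; exact Finset.mem_filter.2 ⟨hA, hAc⟩)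
  have hexp0 : 0 ≤ C₁ * Real.exp (-c₁ * n) := by positivity
  obtain ⟨e1, e2, e3⟩ := Upper_exp Y hK N bad hexp0 hp
  have ha0 : 0 ≤ Y.a N := Y.a_nonneg N
  have haK : Y.a N ≤ K := hK N
  have hPSle : ∀ A ∈ PS, (Y.E N fun u => Y.sv u * ind (∀ i ∈ A, Nt Y k δ (bl i u))) ≤
      K * Real.exp (-((G.card : ℝ) - D) * Real.log 4) := by
    intro A hA
    rw [hPS, Finset.mem_filter, Finset.mem_powerset] at hA
    have h13 := prod_le Y hK (c := 1 / (4 * K)) (fun _ w => Nt Y k δ w) A ?_ N ?_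
    · refine h13.trans (mul_le_mul_of_nonneg_left ?_ hK0.le)
      have h14 : K * (1 / (4 * K)) = Real.exp (-Real.log 4) := by
        rw [Real.exp_neg, Real.exp_log (by norm_num)]
        field_simp
      rw [h14, ← Real.exp_nat_mul]
      refine Real.exp_le_exp.2 ?_
      have h15 : 0 < Real.log 4 := Real.log_pos (by norm_num)
      have h15' := mul_le_mul_of_nonneg_right hA.2 h15.le
      linarith
    · intro i hi
      have h16 := hA.1 hi
      rw [hG, Finset.mem_filter] at h16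
      exact h16.2.le
    · intro i hi
      have h16 := hA.1 hi
      rw [hG, Finset.mem_filter, Finset.mem_range] at h16
      rw [hN]
      exact Nat.mul_le_mul_left 2 (Nat.pow_le_pow_right (by norm_num) h16.1.le)
  have e4 : (Y.E N fun u => Y.E N fun v => Y.E N fun w =>
      (∑ A ∈ PS, Y.sv u * ind (∀ i ∈ A, Nt Y k δ (bl i u))) * Y.sv v * Y.sv w) ≤
      C₂ * Real.exp (-c₂ * n) := by
    have : (Y.E N fun u => Y.E N fun v => Y.E N fun w =>
        (∑ A ∈ PS, Y.sv u * ind (∀ i ∈ A, Nt Y k δ (bl i u))) * Y.sv v * Y.sv w) =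
        (∑ A ∈ PS, Y.E N fun u => Y.sv u * ind (∀ i ∈ A, Nt Y k δ (bl i u))) * Y.a N * Y.a N := by
      rw [← Y.E_fsum]
      simp only [Y.E_mul_left, Y.E_mul_right]
      rfl
    rw [this]
    have h17 : (∑ A ∈ PS, Y.E N fun u => Y.sv u * ind (∀ i ∈ A, Nt Y k δ (bl i u))) ≤
        (2 : ℝ) ^ G.card * (K * Real.exp (-((G.card : ℝ) - D) * Real.log 4)) := by
      refine (Finset.sum_le_sum hPSle).trans ?_
      rw [Finset.sum_const, nsmul_eq_mul]
      refine mul_le_mul_of_nonneg_right ?_ (by positivity)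
      have h18 : PS.card ≤ 2 ^ G.card := by
        rw [hPS, ← Finset.card_powerset]
        exact Finset.card_le_card (Finset.filter_subset _ _)
      exact_mod_cast h18
    have h19 : (2 : ℝ) ^ G.card = Real.exp (G.card * Real.log 2) := by
      rw [Real.exp_nat_mul, Real.exp_log (by norm_num)]
    have h20 : (2 : ℝ) ^ G.card * (K * Real.exp (-((G.card : ℝ) - D) * Real.log 4)) ≤
        K * (Real.exp (2 * (i₀ + 1) * Real.log 2) * Real.exp (-c₂ * n)) := by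
      rw [h19, hc₂]
      exact Upper_num hK0.le hn' hD
    have h21 : (∑ A ∈ PS, Y.E N fun u => Y.sv u * ind (∀ i ∈ A, Nt Y k δ (bl i u))) ≤
        K * (Real.exp (2 * (i₀ + 1) * Real.log 2) * Real.exp (-c₂ * n)) := h17.trans h20
    have h22 : 0 ≤ K * (Real.exp (2 * (i₀ + 1) * Real.log 2) * Real.exp (-c₂ * n)) := by positivity
    calc _ ≤ K * (Real.exp (2 * (i₀ + 1) * Real.log 2) * Real.exp (-c₂ * n)) * K * K :=
          mul_le_mul (mul_le_mul h21 haK ha0 h22) haK ha0 (mul_nonneg h22 hK0.le)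
      _ = C₂ * Real.exp (-c₂ * n) := by rw [hC₂]; ring
  have hT : Tp Y N N N ≤ K * (C₁ * Real.exp (-c₁ * n)) + K * (C₁ * Real.exp (-c₁ * n)) +
      K * (C₁ * Real.exp (-c₁ * n)) + C₂ * Real.exp (-c₂ * n) := by
    unfold Tp
    refine (Y.E_mono fun u hu => Y.E_mono fun v _ => Y.E_mono fun w _ => hpt u v w hu).trans ?_
    simp only [Y.E_fadd]
    linarith
  have hm1 : Real.exp (-c₁ * n) ≤ Real.exp (-(min c₁ c₂) * n) := by
    refine Real.exp_le_exp.2 ?_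
    have h23 := mul_le_mul_of_nonneg_right (min_le_left c₁ c₂) (Nat.cast_nonneg (α := ℝ) n)
    linarith
  have hm2 : Real.exp (-c₂ * n) ≤ Real.exp (-(min c₁ c₂) * n) := by
    refine Real.exp_le_exp.2 ?_
    have h23 := mul_le_mul_of_nonneg_right (min_le_right c₁ c₂) (Nat.cast_nonneg (α := ℝ) n)
    linarith
  have hm3 := mul_le_mul_of_nonneg_left hm1 (by positivity : 0 ≤ 3 * (K * C₁))
  have hm4 := mul_le_mul_of_nonneg_left hm2 hC₂0.le
  linarith

end Pool.Agent.Trp
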