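import Pool.Agent.Trp.Defs
import Pool.Agent.SawM2.GRec
import Pool.Agent.SawM2.TgB
import Pool.Agent.Bub4.Bridge
import Pool.Agent.SawNice.Box
import Pool.Agent.SawM2.ErgR
import Pool.Agent.Trp.Energy
import Pool.Agent.Trp.Flips
import Pool.Agent.Trp.Ctf
import Pool.Agent.Trp.Kink
import Pool.Agent.Trp.Upper
import Pool.Agent.Trp.Lower

/-!
# Tripods and neutral words on the cubic lattice
-/

set_option autoImplicit false

namespace Pool.Agent.Trp

open Finset Filter Topology Pool.Agent.Bub4 Pool.Agent.SawM2 Pool.Agent.SawDiff Pool.Agent.Taw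
open Pool.Agent.SawNice (pa fu Nice)

theorem nm_lat {K : ℝ} {μ : ℝ} (hμ : 0 < μ) (hK : ∀ n, (lat 1 hμ).a n ≤ K) : ∃ C : ℝ, ∀ n n',
    ((lat 1 hμ).E n fun u => (lat 1 hμ).E n' fun v =>
      (lat 1 hμ).sv (u ++ v) * (ct (lat 1 hμ) u v : ℝ)) ≤ C := by
  set Y := lat 1 hμ with hY
  obtain ⟨C1, h1⟩ := flips_le Y hK
  obtain ⟨C2, h2⟩ := ct_flips hμ
  rw [← hY] at h2
  have hK0 : 0 ≤ K := (Y.a_nonneg 0).trans (hK 0)
  refine ⟨|C2| * (K ^ 2 + C1), fun n n' => ?_⟩
  have h3 : (Y.E n fun u => Y.E n' fun v => Y.sv (u ++ v) * (ct Y u v : ℝ)) ≤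
      Y.E n fun u => Y.E n' fun v => |C2| * (Y.sv u * Y.sv v +
        Y.sv (u ++ v) * (Ph Y u v + Ph Y (bar Y v) (bar Y u))) := by
    refine Y.E_mono fun u _ => Y.E_mono fun v _ => ?_
    by_cases hs : Y.Saw (u ++ v)
    · have h4 := h2 u v hs
      have h5 : (0 : ℝ) ≤ ct Y u v := Nat.cast_nonneg _
      have h6 : 0 ≤ 1 + Ph Y u v + Ph Y (bar Y v) (bar Y u) := by
        have p1 : 0 ≤ Ph Y u v := by
          unfold Ph
          exact add_nonneg (Finset.sum_nonneg fun _ _ => Finset.sum_nonneg fun _ _ => ind_nonneg _)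
            (Finset.sum_nonneg fun _ _ => ind_nonneg _)
        have p2 : 0 ≤ Ph Y (bar Y v) (bar Y u) := by
          unfold Ph
          exact add_nonneg (Finset.sum_nonneg fun _ _ => Finset.sum_nonneg fun _ _ => ind_nonneg _)
            (Finset.sum_nonneg fun _ _ => ind_nonneg _)
        linarith
      have h7 : Y.sv (u ++ v) = 1 := Y.sv_of hs
      have h8 := Y.sv_append_le u v
      rw [h7] at h8 ⊢
      rw [one_mul, one_mul]
      have h9 : C2 * (1 + Ph Y u v + Ph Y (bar Y v) (bar Y u)) ≤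
          |C2| * (1 + Ph Y u v + Ph Y (bar Y v) (bar Y u)) :=
        mul_le_mul_of_nonneg_right (le_abs_self _) h6
      have h10 := mul_le_mul_of_nonneg_left h8 (abs_nonneg C2)
      nlinarith
    · rw [Y.sv_of_not hs, zero_mul, zero_mul, add_zero]
      exact mul_nonneg (abs_nonneg _) (mul_nonneg (Y.sv_nonneg _) (Y.sv_nonneg _))
  refine h3.trans ?_
  simp only [Y.E_mul_left, Y.E_fadd]
  refine mul_le_mul_of_nonneg_left (add_le_add ?_ (h1 n n')) (abs_nonneg _)
  have h4 : (Y.E n' Y.sv) = Y.a n' := rfl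
  have h5 : (Y.E n Y.sv) = Y.a n := rfl
  rw [h4, Y.E_mul_right, h5, sq]
  exact mul_le_mul (hK n) (hK n') (Y.a_nonneg _) hK0

open Pool.Agent.SubBall (St stv) in
private theorem Lat_n1 {m : ℕ} (s : Pool.Agent.SubBall.St m) : n1 (Pool.Agent.SubBall.stv m s) = 1 := by
  obtain ⟨i, b⟩ := s
  unfold n1
  rw [Finset.sum_eq_single i]
  · cases b <;> simp [stv]
  · intro j _ hj
    cases b <;> simp [stv, hj]
  · simp

open Pool.Agent.SubBall (St stv) in
private theorem Lat_lt0 {m : ℕ} {μ : ℝ} (hμ : 0 < μ) : Lt (lat m hμ) := by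
  refine ⟨Lat_n1, ?_⟩
  have key : ∀ n : ℕ, ∀ x : Zk (m + 2), n1 x = n →
      ∃ w : List (St m), (lat m hμ).sm w = x ∧ w.length = n := by
    intro n
    induction n with
    | zero =>
      intro x hx
      refine ⟨[], ?_, rfl⟩
      funext i
      unfold n1 at hx
      rw [Finset.sum_eq_zero_iff] at hx
      have h := hx i (Finset.mem_univ i)
      rw [Int.natAbs_eq_zero] at h
      rw [h]
      rfl
    | succ n ih =>
      intro x hx
      obtain ⟨i, hi⟩ : ∃ i, x i ≠ 0 := by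
        by_contra hcon
        push Not at hcon
        rw [show x = 0 from funext hcon] at hx
        simp [n1] at hx
      obtain ⟨s, hs⟩ : ∃ s : St m, n1 (x - stv m s) = n := by
        rcases lt_or_gt_of_ne hi with h | h
        · refine ⟨(i, false), ?_⟩
          unfold n1 at hx ⊢
          rw [← Finset.add_sum_erase _ _ (Finset.mem_univ i)] at hx ⊢
          have h1 : ∑ j ∈ Finset.univ.erase i, ((x - stv m (i, false)) j).natAbs =
              ∑ j ∈ Finset.univ.erase i, (x j).natAbs := by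
            refine Finset.sum_congr rfl fun j hj => ?_
            rw [Finset.mem_erase] at hj
            simp [stv, hj.1]
          rw [h1]
          have h2 : ((x - stv m (i, false)) i).natAbs + 1 = (x i).natAbs := by
            simp [stv]
            omega
          omega
        · refine ⟨(i, true), ?_⟩
          unfold n1 at hx ⊢
          rw [← Finset.add_sum_erase _ _ (Finset.mem_univ i)] at hx ⊢
          have h1 : ∑ j ∈ Finset.univ.erase i, ((x - stv m (i, true)) j).natAbs =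
              ∑ j ∈ Finset.univ.erase i, (x j).natAbs := by
            refine Finset.sum_congr rfl fun j hj => ?_
            rw [Finset.mem_erase] at hj
            simp [stv, hj.1]
          rw [h1]
          have h2 : ((x - stv m (i, true)) i).natAbs + 1 = (x i).natAbs := by
            simp [stv]
            omega
          omega
      obtain ⟨w, hw, hl⟩ := ih _ hs
      refine ⟨s :: w, ?_, by simp [hl]⟩
      rw [Sys.sm_cons, hw]
      show stv m s + (x - stv m s) = x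
      abel
  intro x
  exact key _ x rfl

theorem low_lat {K : ℝ} {μ : ℝ} (hμ : 0 < μ) (h1 : ∀ n, 1 ≤ (lat 1 hμ).a n)
    (hK : ∀ n, (lat 1 hμ).a n ≤ K) {ε : ℝ} (hε : 0 < ε) :
    ∀ᶠ N : ℕ in atTop, (N : ℝ) ^ (-ε) ≤ Tp (lat 1 hμ) N N N := by
  obtain ⟨Λ, ρ, h⟩ := exists_erg h1 hK
  obtain ⟨C, hC⟩ := nm_lat hμ hK
  have hK1 : 1 ≤ K := (h1 0).trans (hK 0)
  have hstep : ∀ (s : Pool.Agent.SubBall.St 1) (i : Fin (1 + 2)), |(lat 1 hμ).vec s i| ≤ 1 := by
    rintro ⟨j, b⟩ i
    show |Pool.Agent.SubBall.stv 1 (j, b) i| ≤ 1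
    unfold Pool.Agent.SubBall.stv
    by_cases hij : i = j
    · subst hij
      cases b <;> simp
    · cases b <;> simp [hij]
  have hκ : (0 : ℝ) < 1 / (8 * K) := by positivity
  have hκK : 1 / (8 * K) * K ≤ 1 / 8 := by
    field_simp
    norm_num
  refine Tp_lower (k := 3) (e := fun i : Fin 3 => (i : Fin (1 + 2))) h hκ hκK (fun c hc => ?_) hε
  have hc' : 0 < min c 2 := lt_min hc two_pos
  have hNtg : Ntg (lat 1 hμ) (cI (fun i : Fin 3 => (i : Fin (1 + 2)))) ρ := fun a ha =>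
    no_tight h (Lat_lt0 hμ) hC ha
  have htight : ∀ j : Fin (1 + 2), ∃ c : Rk 3, Tgt (lat 1 hμ) ρ fun v =>
      (v j : ℝ) - ∑ i, c i * (v ((fun i : Fin 3 => (i : Fin (1 + 2))) i) : ℝ) := by
    intro j
    refine ⟨fun i => if i = j then 1 else 0, fun η hη => ⟨0, fun n => ?_⟩⟩
    refine le_trans (le_of_eq ?_) hη.le
    have h0 : (lat 1 hμ).E n (fun _ => (0 : ℝ)) = 0 := by
      have := (lat 1 hμ).E_mul_left n 0 fun _ => (0 : ℝ)
      simpa using this
    refine ((lat 1 hμ).E_congr (G := fun _ => (0 : ℝ)) fun w _ => ?_).trans h0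
    rw [ind_not, mul_zero]
    have h1 : ∑ i : Fin 3, (if i = j then (1 : ℝ) else 0) * (((lat 1 hμ).sm w i : ℤ) : ℝ) =
        (((lat 1 hμ).sm w j : ℤ) : ℝ) := by
      rw [Finset.sum_eq_single j]
      · simp
      · intro b _ hb
        simp [hb]
      · simp
    simp only
    rw [h1]
    simp
  obtain ⟨a, ha0, ha1, B, hB⟩ := energy_all_scales (k := 3)
    (e := fun i : Fin 3 => (i : Fin (1 + 2))) (c := min c 2) h hstep (fun r => by
      obtain ⟨D, hD1, hD2⟩ := Pool.Agent.SawNice.lat_nice hμ hK r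
      exact ⟨D, hD1, hD2⟩) hκ hκK (by norm_num) hNtg htight hc' (min_le_right _ _) (by
        push_cast
        linarith)
  refine ⟨a, ha0, ha1, |B|, fun N hN => (hB N hN).trans ?_⟩
  have hN1 : (1 : ℝ) ≤ N := by exact_mod_cast hN
  have h5 : (N : ℝ) ^ (min c 2) ≤ (N : ℝ) ^ c := Real.rpow_le_rpow_of_exponent_le hN1 (min_le_left _ _)
  have h6 : 0 ≤ (N : ℝ) ^ (min c 2) := by positivity
  calc B * (N : ℝ) ^ (min c 2) ≤ |B| * (N : ℝ) ^ (min c 2) :=
        mul_le_mul_of_nonneg_right (le_abs_self _) h6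
    _ ≤ |B| * (N : ℝ) ^ c := mul_le_mul_of_nonneg_left h5 (abs_nonneg _)

theorem coex_words {K : ℝ} {μ : ℝ} (hμ : 0 < μ) (h1 : ∀ n, 1 ≤ (lat 1 hμ).a n)
    (hK : ∀ n, (lat 1 hμ).a n ≤ K) (k : ℕ) {δ ε : ℝ} (hδ : 0 < δ) (hε : 0 < ε) :
    ∀ᶠ J : ℕ in atTop, ((open Classical in (range J).filter fun i =>
        nm (lat 1 hμ) k δ (2 ^ i) < 1 / (4 * K)).card : ℝ) ≤ ε * J := by
  classical
  obtain ⟨c, hc, C, hC, hup⟩ := Tp_upper (lat 1 hμ) h1 hK k hδ hε
  have hlog : (0 : ℝ) < Real.log 2 := Real.log_pos one_lt_two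
  set e : ℝ := c / (2 * Real.log 2) with he
  have he0 : 0 < e := by positivity
  have hlow := low_lat hμ h1 hK he0
  have hT : Tendsto (fun J : ℕ => 2 * 2 ^ J) atTop atTop := by
    refine tendsto_atTop_mono (fun J => ?_) tendsto_id
    have : J < 2 ^ J := Nat.lt_two_pow_self
    simp only [id]
    omega
  have hlow2 := hT.eventually hlow
  have hexp : ∀ᶠ J : ℕ in atTop, C * Real.exp (-c * J) < ((2 * 2 ^ J : ℕ) : ℝ) ^ (-e) := by
    have h3 : Tendsto (fun J : ℕ => Real.exp (c / 2 * J)) atTop atTop :=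
      Real.tendsto_exp_atTop.comp (tendsto_natCast_atTop_atTop.const_mul_atTop (by positivity))
    filter_upwards [h3.eventually_gt_atTop (C * (2 : ℝ) ^ e)] with J hJ
    have h4 : ((2 * 2 ^ J : ℕ) : ℝ) ^ (-e) = (2 : ℝ) ^ (-e) * Real.exp (-(c / 2) * J) := by
      push_cast
      rw [Real.mul_rpow (by norm_num) (by positivity)]
      congr 1
      rw [← Real.rpow_natCast, ← Real.rpow_mul (by norm_num), Real.rpow_def_of_pos (by norm_num)]
      congr 1
      rw [he]
      field_simp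
    rw [h4]
    have h5 : (2 : ℝ) ^ (-e) * (2 : ℝ) ^ e = 1 := by
      rw [← Real.rpow_add (by norm_num)]
      simp
    have h6 : Real.exp (-(c / 2) * J) = Real.exp (-c * J) * Real.exp (c / 2 * J) := by
      rw [← Real.exp_add]
      congr 1
      ring
    rw [h6]
    have h7 : 0 < Real.exp (-c * J) := Real.exp_pos _
    have h8 : (0 : ℝ) < (2 : ℝ) ^ (-e) := Real.rpow_pos_of_pos (by norm_num) _
    have h9 := mul_lt_mul_of_pos_left hJ (mul_pos h8 h7)
    calc C * Real.exp (-c * J) = ((2 : ℝ) ^ (-e) * (2 : ℝ) ^ e) * (C * Real.exp (-c * J)) := by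
          rw [h5, one_mul]
      _ = (2 : ℝ) ^ (-e) * Real.exp (-c * J) * (C * (2 : ℝ) ^ e) := by ring
      _ < _ := h9
      _ = _ := by ring
  filter_upwards [hlow2, hexp] with J h2 h3
  by_contra h4
  push Not at h4
  have h5 := hup J h4.le
  exact absurd (h2.trans h5) (not_le.2 h3)

end Pool.Agent.Trp
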