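import Pool.Agent.Taw.Defs
import Pool.Agent.SawNice.Nice

/-!
# Coexistence of the time arrow and the reversible phase: definitions
-/

set_option autoImplicit false

namespace Pool.Agent.Trp

open Finset Filter Topology Pool.Agent.Bub4 Pool.Agent.SawM2 Pool.Agent.SawDiff Pool.Agent.Taw
open Pool.Agent.SawNice (pa fu)

section gen

variable {S V : Type} [Fintype S] [AddCommGroup V]

/-- excess of the occurrences of `γ` over the occurrences of the reversed pattern -/
noncomputable def Xg (Y : Sys S V) (γ w : List S) : ℝ := (cnt γ w : ℝ) - cnt (bar Y γ) w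

/-- `w` is neutral for all patterns of length `k` -/
def Nt (Y : Sys S V) (k : ℕ) (δ : ℝ) (w : List S) : Prop :=
  ∀ γ : List S, γ.length = k → |Xg Y γ w| ≤ δ * w.length

/-- weight of the neutral self-avoiding words of length `n` -/
noncomputable def nm (Y : Sys S V) (k : ℕ) (δ : ℝ) (n : ℕ) : ℝ :=
  Y.E n fun w => Y.sv w * ind (Nt Y k δ w)

/-- the block `[2 ^ i, 2 ^ (i + 1))` of a word -/
def bl {S : Type} (i : ℕ) (u : List S) : List S := (u.drop (2 ^ i)).take (2 ^ i)

open Classical in
/-- number of the octaves at which the arms `u`, `v` are not matched -/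
noncomputable def um (Y : Sys S V) (γ : List S) (δ : ℝ) (n : ℕ) (u v : List S) : ℕ :=
  ((range n).filter fun i => δ * 2 ^ i < |Xg Y γ (u.take (2 ^ i)) + Xg Y γ (v.take (2 ^ i))|).card

/-- three arms from a common point, pairwise disjoint -/
noncomputable def tp (Y : Sys S V) (u v w : List S) : ℝ :=
  Y.sv (bar Y u ++ v) * Y.sv (bar Y u ++ w) * Y.sv (bar Y v ++ w)

/-- weight of the tripods with arms of lengths `p`, `q`, `r` -/
noncomputable def Tp (Y : Sys S V) (p q r : ℕ) : ℝ :=
  Y.E p fun u => Y.E q fun v => Y.E r fun w => tp Y u v w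

open Classical in
/-- the pairs of places with good prefixes -/
noncomputable def Gd (Y : Sys S V) (ρ : List S → ℝ) (κ : ℝ) (n : ℕ) (α β : List S) :
    Finset (ℕ × ℕ) :=
  (range n ×ˢ range n).filter fun p => good Y ρ κ (α.take p.1) ∧ good Y ρ κ (β.take p.2)

/-- displacement between the place `p.1` of `α` and the place `p.2` of `β` -/
def gp (Y : Sys S V) (α β : List S) (p : ℕ × ℕ) : V := Y.sm (β.take p.2) - Y.sm (α.take p.1)

end gen

section lat

variable {S : Type} [Fintype S] {d : ℕ}

open Classical in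
/-- number of the contacts between the past arm `u` and the future arm `v` -/
noncomputable def ct (Y : Sys S (Zk d)) (u v : List S) : ℕ :=
  ((range (u.length + 1) ×ˢ range (v.length + 1)).filter fun p =>
    n1 (pa Y u p.1 - fu Y v p.2) = 1).card

/-- average of `exp (i θ · w)` over the places `[i, i + T)` of `w` -/
noncomputable def wa (Y : Sys S (Zk d)) (θ : Rk d) (T i : ℕ) (w : List S) : ℂ :=
  (T : ℂ)⁻¹ * ∑ j ∈ range T, Complex.exp (Complex.I * (dt θ (Y.sm (w.take (i + j))) : ℝ))

/-- the windows of length `T` before and after the place `t` look different -/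
def Jm (Y : Sys S (Zk d)) (θ : Rk d) (T : ℕ) (δ : ℝ) (w : List S) (t : ℕ) : Prop :=
  T ≤ t ∧ t + T ≤ w.length ∧ δ ≤ ‖wa Y θ T (t - T) w - wa Y θ T t w‖

end lat

/-- A set of sites with edges: every site of `U` in the box of side `r` around `o` has at least two
edges. -/
structure Pth (U : Set (Zk 3)) (E : Zk 3 → Zk 3 → Prop) (o : Zk 3) (r : ℕ) : Prop where
  symm : ∀ x y, E x y → E y x
  left : ∀ x y, E x y → x ∈ U
  nbr : ∀ x y, E x y → n1 (x - y) = 1
  two : ∀ x ∈ U, (∀ i, |x i - o i| ≤ r) → ∃ y z, y ≠ z ∧ E x y ∧ E x z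

/-- a flip of the edge from `a` to `a + s` of `U` that visits the site `a + f` -/
def Flp (U : Set (Zk 3)) (E : Zk 3 → Zk 3 → Prop) (a f s : Zk 3) : Prop :=
  f + s ≠ 0 ∧ E a (a + s) ∧ (a + f + s ∉ U ∨ E (a + s) (a + f + s))

section flips

variable {S : Type} [Fintype S] {d : ℕ}

/-- the place `x` is visited by the future arm -/
def Fv (Y : Sys S (Zk d)) (v : List S) (x : Zk d) : Prop := ∃ j, 1 ≤ j ∧ j ≤ v.length ∧ x = fu Y v j

/-- bump: the step `i` of the past arm `u` may be moved by `f`, the moved step meets `v` and does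
not meet `u` -/
def Bp (Y : Sys S (Zk d)) (u v : List S) (i : ℕ) (f : S) : Prop :=
  i < u.length ∧ (∀ l ≤ u.length, pa Y u l ≠ pa Y u i + Y.vec f ∧ pa Y u l ≠ pa Y u (i + 1) + Y.vec f) ∧
    (Fv Y v (pa Y u i + Y.vec f) ∨ Fv Y v (pa Y u (i + 1) + Y.vec f))

/-- swap: if the steps `i`, `i + 1` of the past arm `u` are exchanged the new place meets `v` -/
def Sp (Y : Sys S (Zk d)) (u v : List S) (i : ℕ) : Prop :=
  i + 2 ≤ u.length ∧ Fv Y v (pa Y u i + pa Y u (i + 2) - pa Y u (i + 1))

/-- number of the flips of the past arm -/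
noncomputable def Ph (Y : Sys S (Zk d)) (u v : List S) : ℝ :=
  (∑ i ∈ range u.length, ∑ f : S, ind (Bp Y u v i f)) + ∑ i ∈ range u.length, ind (Sp Y u v i)

end flips

end Pool.Agent.Trp
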